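import Pool.Agent.Work.MP_c9ff92_pr.Fri.Defs

/-!
# Basic facts on sums over walks (MP_c9ff92_pr)
-/

open Finset
open scoped ENNReal NNReal

noncomputable section

namespace Pool.Agent.Fri

variable {V : Type*}

/-! ### Indicators -/

theorem ind_true {p : Prop} (h : p) : ind p = 1 := if_pos h

theorem ind_false {p : Prop} (h : ¬ p) : ind p = 0 := if_neg h

theorem ind_le_one (p : Prop) : ind p ≤ 1 := by
  unfold ind
  split_ifs <;> simp

theorem ind_ne_top (p : Prop) : ind p ≠ ⊤ := ne_top_of_le_ne_top ENNReal.one_ne_top (ind_le_one p)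

theorem ind_mono {p q : Prop} (h : p → q) : ind p ≤ ind q := by
  by_cases hp : p
  · rw [ind_true hp, ind_true (h hp)]
  · rw [ind_false hp]
    exact zero_le

theorem ind_congr {p q : Prop} (h : p ↔ q) : ind p = ind q := by rw [propext h]

theorem ind_and (p q : Prop) : ind (p ∧ q) = ind p * ind q := by
  by_cases hp : p
  · by_cases hq : q
    · rw [ind_true ⟨hp, hq⟩, ind_true hp, ind_true hq, one_mul]
    · rw [ind_false fun h => hq h.2, ind_false hq, mul_zero]
  · rw [ind_false fun h => hp h.1, ind_false hp, zero_mul]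

/-! ### Sums over lists -/

/-- Lists as an empty list or a head with a tail. -/
def listEquiv (V : Type*) : List V ≃ Option (V × List V) where
  toFun l := match l with
    | [] => none
    | x :: l => some (x, l)
  invFun o := match o with
    | none => []
    | some (x, l) => x :: l
  left_inv l := by cases l <;> rfl
  right_inv o := by rcases o with _ | ⟨x, l⟩ <;> rfl

theorem tsum_option' {α : Type*} (f : Option α → ℝ≥0∞) : ∑' o, f o = f none + ∑' a, f (some a) := by
  have h0 : HasSum f (f none + ∑' a, f (some a)) := by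
    have h1 : HasSum (fun o : Option α => if o = none then f none else 0) (f none) := by
      have := hasSum_ite_eq (none : Option α) (f none)
      convert this
    have h2 : HasSum (fun o : Option α => if o = none then 0 else f o) (∑' a, f (some a)) := by
      rw [← (Option.some_injective α).hasSum_iff]
      · have h3 : (fun o : Option α => if o = none then 0 else f o) ∘ some = fun a => f (some a) := by
          funext a
          simp
        rw [h3]
        exact ENNReal.summable.hasSum
      · intro o ho
        rcases o with _ | a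
        · simp
        · exact absurd ⟨a, rfl⟩ ho
    have h4 := h1.add h2
    convert h4 using 1
    funext o
    rcases o with _ | a <;> simp
  exact h0.tsum_eq

theorem tsum_list (f : List V → ℝ≥0∞) : ∑' l, f l = f [] + ∑' x, ∑' l, f (x :: l) := by
  rw [← (listEquiv V).symm.tsum_eq, tsum_option', ENNReal.tsum_prod']
  rfl

theorem tsum_reverse (f : List V → ℝ≥0∞) : ∑' l : List V, f l.reverse = ∑' l, f l :=
  (Equiv.tsum_eq (Function.Involutive.toPerm List.reverse List.reverse_involutive) f)

/-- Positions in a list as decompositions. -/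
def splitEquiv (V : Type*) : (Σ w : List V, Fin w.length) ≃ List V × V × List V where
  toFun p := (p.1.take p.2, p.1[p.2], p.1.drop (p.2 + 1))
  invFun q := ⟨q.1 ++ q.2.1 :: q.2.2, ⟨q.1.length, by simp⟩⟩
  left_inv := by
    rintro ⟨w, k, hk⟩
    have h : w.take k ++ w[k] :: w.drop (k + 1) = w := by
      rw [List.getElem_cons_drop, List.take_append_drop]
    have h' : (w.take k ++ w[k] :: w.drop (k + 1)).length = w.length := congrArg List.length h
    refine Sigma.ext h ?_
    refine (Fin.heq_ext_iff h').2 ?_
    simp [List.length_take, Nat.min_eq_left hk.le]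
  right_inv := by
    rintro ⟨a, y, b⟩
    simp

theorem tsum_split (g : List V → ℕ → ℝ≥0∞) :
    ∑' w : List V, ∑ k ∈ range w.length, g w k =
      ∑' a : List V, ∑' y : V, ∑' b : List V, g (a ++ y :: b) a.length := by
  have h1 : ∀ w : List V, ∑ k ∈ range w.length, g w k = ∑' k : Fin w.length, g w k := by
    intro w
    rw [tsum_fintype, Finset.sum_range]
  simp only [h1]
  rw [← ENNReal.tsum_sigma' (f := fun p : (Σ w : List V, Fin w.length) => g p.1 p.2),
    ← (splitEquiv V).symm.tsum_eq, ENNReal.tsum_prod']
  refine tsum_congr fun a => ?_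
  rw [ENNReal.tsum_prod']
  rfl

/-! ### Weights -/

variable {P : V → V → ℝ≥0∞}

@[simp] theorem wt_nil : wt P [] = 0 := rfl

@[simp] theorem wt_singleton (x : V) : wt P [x] = 1 := rfl

@[simp] theorem wt_cons_cons (x y : V) (l : List V) :
    wt P (x :: y :: l) = P x y * wt P (y :: l) := rfl

theorem wt_append (a : List V) (y : V) (b : List V) :
    wt P (a ++ y :: b) = wt P (a ++ [y]) * wt P (y :: b) := by
  induction a with
  | nil => simp
  | cons x a ih =>
    rcases a with _ | ⟨x', a⟩
    · simp
    · simp only [List.cons_append] at ih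
      simp only [List.cons_append, wt_cons_cons]
      rw [ih, mul_assoc]

theorem wt_concat_concat (a : List V) (x y : V) :
    wt P (a ++ [x, y]) = wt P (a ++ [x]) * P x y := by
  rw [wt_append a x [y]]
  simp

theorem wt_reverse (hP : Ker P) (l : List V) : wt P l.reverse = wt P l := by
  induction l with
  | nil => rfl
  | cons x l ih =>
    rcases l with _ | ⟨y, l⟩
    · rfl
    · rw [List.reverse_cons, List.reverse_cons, List.append_assoc]
      simp only [List.cons_append, List.nil_append]
      rw [wt_concat_concat, ← List.reverse_cons, ih, hP.symm, mul_comm]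
      rfl

theorem wt_reverse_cons (hP : Ker P) (a : List V) (y : V) :
    wt P (y :: a.reverse) = wt P (a ++ [y]) := by
  rw [← wt_reverse hP (a ++ [y])]
  simp

/-! ### Touching -/

theorem tch_nil (S : Set V) : ¬ tch S [] := by simp [tch]

theorem tch_cons (S : Set V) (x : V) (l : List V) : tch S (x :: l) ↔ x ∈ S ∨ tch S l := by
  simp [tch]

theorem tch_append (S : Set V) (a b : List V) : tch S (a ++ b) ↔ tch S a ∨ tch S b := by
  simp [tch, or_and_right, exists_or]

theorem tch_reverse (S : Set V) (a : List V) : tch S a.reverse ↔ tch S a := by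
  simp [tch]

theorem tch_mono_list {S : Set V} {a b : List V} (h : a ⊆ b) (ha : tch S a) : tch S b := by
  obtain ⟨x, hx, hS⟩ := ha
  exact ⟨x, h hx, hS⟩

/-! ### The survival probabilities -/

theorem sv_zero (S : Set V) (x : V) : sv P S 0 x = 1 := rfl

theorem sv_succ (S : Set V) (n : ℕ) (x : V) :
    sv P S (n + 1) x = ∑' z, P x z * (ind (z ∉ S) * sv P S n z) := rfl

theorem sv_le_one (hP : Ker P) (S : Set V) (n : ℕ) (x : V) : sv P S n x ≤ 1 := by
  induction n generalizing x with
  | zero => exact le_rfl
  | succ n ih =>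
    rw [sv_succ, ← hP.sum x]
    refine ENNReal.tsum_le_tsum fun z => ?_
    calc P x z * (ind (z ∉ S) * sv P S n z) ≤ P x z * (1 * 1) := by
          gcongr
          · exact ind_le_one _
          · exact ih z
      _ = P x z := by simp

theorem sv_succ_le (hP : Ker P) (S : Set V) (n : ℕ) (x : V) : sv P S (n + 1) x ≤ sv P S n x := by
  induction n generalizing x with
  | zero => exact sv_le_one hP S 1 x
  | succ n ih =>
    rw [sv_succ, sv_succ]
    refine ENNReal.tsum_le_tsum fun z => ?_
    gcongr
    exact ih z

theorem sv_anti (hP : Ker P) (S : Set V) (x : V) {n m : ℕ} (h : n ≤ m) :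
    sv P S m x ≤ sv P S n x :=
  antitone_nat_of_succ_le (f := fun n => sv P S n x) (fun n => sv_succ_le hP S n x) h

theorem sv_empty (hP : Ker P) (n : ℕ) (x : V) : sv P ∅ n x = 1 := by
  induction n generalizing x with
  | zero => rfl
  | succ n ih =>
    rw [sv_succ, ← hP.sum x]
    refine tsum_congr fun z => ?_
    rw [ih, ind_true (by simp)]
    simp

/-- The walks of length `n` after `y` which avoid `S`. -/
theorem sum_sv (S : Set V) (n : ℕ) (y : V) :
    ∑' b : List V, ind (b.length = n ∧ ¬ tch S b) * wt P (y :: b) = sv P S n y := by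
  induction n generalizing y with
  | zero =>
    rw [tsum_list]
    have h1 : ∀ x : V, ∀ l : List V, ind ((x :: l).length = 0 ∧ ¬ tch S (x :: l)) = 0 :=
      fun x l => ind_false (by simp)
    simp only [h1, zero_mul, tsum_zero, add_zero]
    rw [ind_true ⟨rfl, tch_nil S⟩]
    simp [sv_zero]
  | succ n ih =>
    rw [tsum_list, ind_false (by simp), zero_mul, zero_add, sv_succ]
    refine tsum_congr fun z => ?_
    rw [← ih z, ← ENNReal.tsum_mul_left, ← ENNReal.tsum_mul_left]
    refine tsum_congr fun l => ?_
    rw [wt_cons_cons]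
    have h : ind ((z :: l).length = n + 1 ∧ ¬ tch S (z :: l)) =
        ind (z ∉ S) * ind (l.length = n ∧ ¬ tch S l) := by
      rw [← ind_and]
      apply ind_congr
      rw [tch_cons, List.length_cons]
      constructor
      · rintro ⟨h1, h2⟩
        exact ⟨fun h => h2 (Or.inl h), by omega, fun h => h2 (Or.inr h)⟩
      · rintro ⟨h1, h2, h3⟩
        exact ⟨by omega, fun h => h.elim h1 h3⟩
    rw [h]
    ring

/-- The walks of length `n` before `y` which avoid `S`. -/
theorem sum_sv' (hP : Ker P) (S : Set V) (n : ℕ) (y : V) :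
    ∑' a : List V, ind (a.length = n ∧ ¬ tch S a) * wt P (a ++ [y]) = sv P S n y := by
  rw [← sum_sv, ← tsum_reverse]
  refine tsum_congr fun a => ?_
  rw [tch_reverse, List.length_reverse, ← wt_reverse_cons hP, List.reverse_reverse]

/-- The total weight of the walks with `n` steps after `y`. -/
theorem sum_len (hP : Ker P) (n : ℕ) (y : V) :
    ∑' b : List V, ind (b.length = n) * wt P (y :: b) = 1 := by
  rw [← sv_empty hP n y, ← sum_sv]
  refine tsum_congr fun b => ?_
  congr 1
  apply ind_congr
  simp [tch]

theorem sum_len' (hP : Ker P) (n : ℕ) (y : V) :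
    ∑' a : List V, ind (a.length = n) * wt P (a ++ [y]) = 1 := by
  rw [← sv_empty hP n y, ← sum_sv' hP]
  refine tsum_congr fun b => ?_
  congr 1
  apply ind_congr
  simp [tch]

/-- Long prefixes may be removed: the steps before a nonempty walk. -/
theorem sum_prefix (hP : Ker P) (n : ℕ) {w : List V} (hw : w ≠ []) :
    ∑' a : List V, ind (a.length = n) * wt P (a ++ w) = wt P w := by
  obtain ⟨y, b, rfl⟩ := List.exists_cons_of_ne_nil hw
  simp only [wt_append _ y b, ← mul_assoc]
  rw [ENNReal.tsum_mul_right, sum_len' hP, one_mul]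

theorem sum_suffix (hP : Ker P) (n : ℕ) {w : List V} (hw : w ≠ []) :
    ∑' b : List V, ind (b.length = n) * wt P (w ++ b) = wt P w := by
  rw [← wt_reverse hP w, ← sum_prefix hP n (w := w.reverse) (by simpa using hw), ← tsum_reverse]
  refine tsum_congr fun b => ?_
  rw [List.length_reverse, ← wt_reverse hP (b ++ w.reverse)]
  simp

/-! ### The iterated kernel -/

theorem pk_zero (x y : V) : pk P 0 x y = ind (x = y) := rfl

theorem pk_succ (n : ℕ) (x y : V) : pk P (n + 1) x y = ∑' z, P x z * pk P n z y := rfl

theorem tsum_ind_eq (x : V) (f : V → ℝ≥0∞) : ∑' z, ind (x = z) * f z = f x := by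
  rw [tsum_eq_single x]
  · rw [ind_true rfl, one_mul]
  · intro z hz
    rw [ind_false (fun h => hz h.symm), zero_mul]

theorem tsum_ind_eq' (x : V) (f : V → ℝ≥0∞) : ∑' z, ind (z = x) * f z = f x := by
  rw [← tsum_ind_eq x f]
  refine tsum_congr fun z => ?_
  rw [ind_congr (p := z = x) (q := x = z) ⟨Eq.symm, Eq.symm⟩]

theorem pk_add (a b : ℕ) (x y : V) : ∑' z, pk P a x z * pk P b z y = pk P (a + b) x y := by
  induction a generalizing x with
  | zero =>
    simp only [pk_zero, Nat.zero_add]
    exact tsum_ind_eq x fun z => pk P b z y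
  | succ a ih =>
    rw [Nat.add_right_comm, pk_succ]
    simp only [pk_succ, ← ENNReal.tsum_mul_right]
    rw [ENNReal.tsum_comm]
    refine tsum_congr fun z => ?_
    rw [← ih z, ← ENNReal.tsum_mul_left]
    refine tsum_congr fun w => ?_
    ring

theorem pk_symm (hP : Ker P) (n : ℕ) (x y : V) : pk P n x y = pk P n y x := by
  induction n generalizing x y with
  | zero => exact ind_congr ⟨Eq.symm, Eq.symm⟩
  | succ n ih =>
    have h1 : pk P (n + 1) y x = ∑' z, pk P n y z * pk P 1 z x := (pk_add n 1 y x).symm
    rw [h1, pk_succ]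
    refine tsum_congr fun z => ?_
    have h2 : pk P 1 z x = P z x := by
      rw [pk_succ]
      simp only [pk_zero]
      have : ∀ w, P z w * ind (w = x) = ind (w = x) * P z w := fun w => mul_comm _ _
      simp only [this]
      exact tsum_ind_eq' x fun w => P z w
    rw [h2, ih z y, hP.symm x z, mul_comm]

theorem sum_pk (hP : Ker P) (n : ℕ) (x : V) : ∑' y, pk P n x y = 1 := by
  induction n generalizing x with
  | zero =>
    simp only [pk_zero]
    have := tsum_ind_eq x fun _ => (1 : ℝ≥0∞)
    simpa using this
  | succ n ih =>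
    simp only [pk_succ]
    rw [ENNReal.tsum_comm, ← hP.sum x]
    refine tsum_congr fun z => ?_
    rw [ENNReal.tsum_mul_left, ih, mul_one]

/-- The walks with `n` steps after `y` which are at `z` after `k` steps. -/
theorem sum_pos (hP : Ker P) (n k : ℕ) (hk : k ≤ n) (y z : V) :
    ∑' b : List V, ind (b.length = n ∧ (y :: b)[k]? = some z) * wt P (y :: b) = pk P k y z := by
  induction k generalizing n y with
  | zero =>
    have h : ∀ b : List V, ind (b.length = n ∧ (y :: b)[0]? = some z) =
        ind (y = z) * ind (b.length = n) := by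
      intro b
      rw [← ind_and]
      apply ind_congr
      simp [and_comm]
    simp only [h, mul_assoc]
    rw [ENNReal.tsum_mul_left, sum_len hP, mul_one, pk_zero]
  | succ k ih =>
    obtain ⟨n, rfl⟩ := Nat.exists_eq_add_of_le' (show 1 ≤ n by omega)
    rw [tsum_list, ind_false (by simp), zero_mul, zero_add, pk_succ]
    refine tsum_congr fun x => ?_
    rw [← ih n (by omega) x, ← ENNReal.tsum_mul_left]
    refine tsum_congr fun l => ?_
    rw [wt_cons_cons]
    have h : ind ((x :: l).length = n + 1 ∧ (y :: x :: l)[k + 1]? = some z) =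
        ind (l.length = n ∧ (x :: l)[k]? = some z) := by
      apply ind_congr
      simp
    rw [h]
    ring

/-- The walks with `n` steps before `y` which are at `z` at `k` steps before `y`. -/
theorem sum_pos' (hP : Ker P) (n k : ℕ) (hk : k ≤ n) (y z : V) :
    ∑' a : List V, ind (a.length = n ∧ (y :: a.reverse)[k]? = some z) * wt P (a ++ [y]) =
      pk P k y z := by
  rw [← sum_pos hP n k hk y z, ← tsum_reverse]
  refine tsum_congr fun a => ?_
  rw [List.length_reverse, ← wt_reverse_cons hP, List.reverse_reverse]

/-! ### Reversal of marks -/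

theorem mark_reverse (R B : Set V) (a : List V) (y : V) (b : List V) :
    mark R B b.reverse y a.reverse ↔ mark B R a y b := by
  unfold mark
  rw [tch_reverse, tch_reverse, tch_reverse, tch_reverse]
  tauto

theorem JJ_reverse (hP : Ker P) (R B : Set V) (m : ℕ) (q : List V → V → List V → Prop) :
    JJ P R B m q = JJ P B R m fun a y b => q b.reverse y a.reverse := by
  unfold JJ
  have h1 : ∀ a : List V, (∑' y : V, ∑' b : List V,
      ind (mark R B a y b ∧ a.length + b.length + 1 ≤ m ∧ q a y b) * wt P (a ++ y :: b)) =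
      ∑' b : List V, ∑' y : V,
      ind (mark R B a y b ∧ a.length + b.length + 1 ≤ m ∧ q a y b) * wt P (a ++ y :: b) :=
    fun a => ENNReal.tsum_comm
  simp only [h1]
  rw [ENNReal.tsum_comm, ← tsum_reverse]
  refine tsum_congr fun a => ?_
  rw [← tsum_reverse, ENNReal.tsum_comm]
  refine tsum_congr fun y => tsum_congr fun b => ?_
  rw [mark_reverse, List.length_reverse, List.length_reverse, ← wt_reverse hP (a ++ y :: b)]
  have h2 : (a ++ y :: b).reverse = b.reverse ++ y :: a.reverse := by simp
  rw [h2, Nat.add_comm b.length a.length]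

theorem JJ_mono {R B : Set V} {m : ℕ} {q q' : List V → V → List V → Prop}
    (h : ∀ a y b, mark R B a y b → a.length + b.length + 1 ≤ m → q a y b → q' a y b) :
    JJ P R B m q ≤ JJ P R B m q' := by
  unfold JJ
  refine ENNReal.tsum_le_tsum fun a => ENNReal.tsum_le_tsum fun y => ENNReal.tsum_le_tsum fun b => ?_
  gcongr
  exact ind_mono fun ⟨h1, h2, h3⟩ => ⟨h1, h2, h a y b h1 h2 h3⟩

theorem JJ_add_le {R B : Set V} {m : ℕ} {q q1 q2 : List V → V → List V → Prop}
    (h : ∀ a y b, mark R B a y b → a.length + b.length + 1 ≤ m → q a y b → q1 a y b ∨ q2 a y b) :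
    JJ P R B m q ≤ JJ P R B m q1 + JJ P R B m q2 := by
  unfold JJ
  simp only [← ENNReal.tsum_add, ← add_mul]
  refine ENNReal.tsum_le_tsum fun a => ENNReal.tsum_le_tsum fun y => ENNReal.tsum_le_tsum fun b => ?_
  gcongr
  by_cases h0 : mark R B a y b ∧ a.length + b.length + 1 ≤ m ∧ q a y b
  · rw [ind_true h0]
    rcases h a y b h0.1 h0.2.1 h0.2.2 with h1 | h1
    · rw [ind_true (p := mark R B a y b ∧ a.length + b.length + 1 ≤ m ∧ q1 a y b)
        ⟨h0.1, h0.2.1, h1⟩]
      exact le_self_add
    · rw [ind_true (p := mark R B a y b ∧ a.length + b.length + 1 ≤ m ∧ q2 a y b)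
        ⟨h0.1, h0.2.1, h1⟩]
      exact le_add_self
  · rw [ind_false h0]
    exact zero_le

theorem WW_comm (R B : Set V) (m : ℕ) : WW P R B m = WW P B R m := by
  unfold WW
  refine tsum_congr fun w => ?_
  rw [and_comm]

end Pool.Agent.Fri
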