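import Pool.Agent.Work.MP_c9ff92_pr.Fri.Stmts
import Pool.Agent.Work.MP_c9ff92_pr.Fri.Basic

/-!
# Item COPY (MP_c9ff92_pr): every walk is replaced by its one-sided copies
-/

open Finset
open scoped ENNReal NNReal

noncomputable section

namespace Pool.Agent.Fri.I_COPY2

open Pool.Agent.Frog Pool.Agent.Fri

/-! ### Two facts on `Q` -/

section Q

theorem Q_zero {T : Type*} [DecidableEq T] (r : T → ℝ) (s1 s2 : Finset T)
    (h : ∀ i ∈ s2, i ∉ s1 → r i = 0) (U : Finset T → Prop) : Q r (s1 ∪ s2) U = Q r s1 U := by
  induction s2 using Finset.induction_on with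
  | empty => rw [union_empty]
  | insert a s2 _ ih =>
    have ih' := ih fun i hi => h i (mem_insert_of_mem hi)
    rw [union_insert]
    by_cases ha : a ∈ s1 ∪ s2
    · rw [insert_eq_of_mem ha, ih']
    · rw [Q_insert r ha, h a (mem_insert_self _ _) fun h' => ha (mem_union_left _ h'), ih']
      simp

theorem Q_map {α β : Type*} [DecidableEq α] [DecidableEq β] (f : α ↪ β) (r : β → ℝ)
    (s : Finset α) (U : Finset β → Prop) :
    Q r (s.map f) U = Q (fun a => r (f a)) s (fun A => U (A.map f)) := by
  induction s using Finset.induction_on generalizing U with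
  | empty => rw [map_empty, Q_empty, Q_empty, map_empty]
  | insert a s ha ih =>
    rw [map_insert, Q_insert r (by simpa using ha), Q_insert _ ha, ih, ih]
    simp only [map_insert]

end Q

/-! ### The mixed system -/

section mixed

variable {V : Type*} [DecidableEq V]

/-- One step of the mixed system. -/
def mrel (A : Finset (List V ⊕ (V × List V))) (x y : V) : Prop :=
  (∃ w, Sum.inl w ∈ A ∧ x ∈ w ∧ y ∈ w) ∨ (∃ l, Sum.inr (x, l) ∈ A ∧ y ∈ l)

/-- The vertex `o` reaches the outside of `D` in the mixed system. -/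
def MOut (o : V) (D : Set V) (A : Finset (List V ⊕ (V × List V))) : Prop :=
  ∃ z, z ∉ D ∧ Relation.ReflTransGen (mrel A) o z

omit [DecidableEq V] in
theorem mrel_mono {A A' : Finset (List V ⊕ (V × List V))} (h : A ⊆ A') {x y : V}
    (hx : mrel A x y) : mrel A' x y := by
  rcases hx with ⟨w, hw, hh⟩ | ⟨l, hl, hy⟩
  · exact Or.inl ⟨w, h hw, hh⟩
  · exact Or.inr ⟨l, h hl, hy⟩

omit [DecidableEq V] in
theorem up_MOut (o : V) (D : Set V) : Up (MOut o D) := by
  rintro A A' h ⟨z, hz, hr⟩
  exact ⟨z, hz, Relation.ReflTransGen.mono (fun _ _ => mrel_mono h) _ _ hr⟩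

omit [DecidableEq V] in
theorem MOut_inl (o : V) (D : Set V) (A : Finset (List V)) :
    MOut o D (A.map Function.Embedding.inl) ↔ Suc o D A := by
  have h : mrel (A.map Function.Embedding.inl) = lnk A := by
    funext x y
    apply propext
    constructor
    · rintro (⟨w, hw, hh⟩ | ⟨l, hl, _⟩)
      · rw [mem_map] at hw
        obtain ⟨w', hw', he⟩ := hw
        have : w' = w := Sum.inl.inj he
        subst this
        exact ⟨w', hw', hh⟩
      · rw [mem_map] at hl
        obtain ⟨w', _, he⟩ := hl
        cases he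
    · rintro ⟨w, hw, hh⟩
      exact Or.inl ⟨w, mem_map_of_mem _ hw, hh⟩
  unfold MOut Suc
  rw [h]

omit [DecidableEq V] in
theorem MOut_inr (o : V) (D : Finset V) (A : Finset (V × List V)) :
    MOut o (D : Set V) (A.map Function.Embedding.inr) ↔ Out D o A := by
  have h : mrel (A.map Function.Embedding.inr) = rel A := by
    funext x y
    apply propext
    constructor
    · rintro (⟨w, hw, _⟩ | ⟨l, hl, hy⟩)
      · rw [mem_map] at hw
        obtain ⟨w', _, he⟩ := hw
        cases he
      · rw [mem_map] at hl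
        obtain ⟨w', hw', he⟩ := hl
        have : w' = (x, l) := Sum.inr.inj he
        subst this
        exact ⟨l, hw', hy⟩
    · rintro ⟨l, hl, hy⟩
      exact Or.inr ⟨l, mem_map_of_mem _ hl, hy⟩
  unfold MOut Out
  rw [h]
  simp only [mem_coe]

theorem exists_of_insert {o : V} {D : Set V} {A : Finset (List V ⊕ (V × List V))} {w : List V}
    (h : MOut o D (insert (Sum.inl w) A)) : MOut o D A ∨
      ∃ p ∈ w, ∃ q ∈ w, Relation.ReflTransGen (mrel A) o p ∧
        ∃ z, z ∉ D ∧ Relation.ReflTransGen (mrel A) q z := by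
  obtain ⟨z, hz, hr⟩ := h
  induction hr using Relation.ReflTransGen.head_induction_on with
  | refl => exact Or.inl ⟨z, hz, Relation.ReflTransGen.refl⟩
  | @head a c hac _ ih =>
    rcases hac with ⟨w', hw', h1, h2⟩ | ⟨l, hl, hc⟩
    · rw [mem_insert] at hw'
      rcases hw' with he | hw'
      · have : w' = w := Sum.inl.inj he
        subst this
        rcases ih with ⟨z', hz', hr'⟩ | ⟨p, hp, q, hq, _, hqz⟩
        · exact Or.inr ⟨a, h1, c, h2, Relation.ReflTransGen.refl, z', hz', hr'⟩
        · exact Or.inr ⟨a, h1, q, hq, Relation.ReflTransGen.refl, hqz⟩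
      · have hstep : mrel A a c := Or.inl ⟨w', hw', h1, h2⟩
        rcases ih with ⟨z', hz', hr'⟩ | ⟨p, hp, q, hq, hop, hqz⟩
        · exact Or.inl ⟨z', hz', Relation.ReflTransGen.head hstep hr'⟩
        · exact Or.inr ⟨p, hp, q, hq, Relation.ReflTransGen.head hstep hop, hqz⟩
    · have hl' : Sum.inr (a, l) ∈ A := by
        rw [mem_insert] at hl
        rcases hl with he | hl
        · cases he
        · exact hl
      have hstep : mrel A a c := Or.inr ⟨l, hl', hc⟩
      rcases ih with ⟨z', hz', hr'⟩ | ⟨p, hp, q, hq, hop, hqz⟩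
      · exact Or.inl ⟨z', hz', Relation.ReflTransGen.head hstep hr'⟩
      · exact Or.inr ⟨p, hp, q, hq, Relation.ReflTransGen.head hstep hop, hqz⟩

theorem MOut_path {o p q : V} {l : List V} {D : Set V} {A : Finset (List V ⊕ (V × List V))}
    (hop : Relation.ReflTransGen (mrel A) o p) (hq : q ∈ l)
    (hqz : ∃ z, z ∉ D ∧ Relation.ReflTransGen (mrel A) q z) :
    MOut o D (insert (Sum.inr (p, l)) A) := by
  obtain ⟨z, hz, hr⟩ := hqz
  have hm : ∀ x y : V, mrel A x y → mrel (insert (Sum.inr (p, l)) A) x y :=
    fun x y h => mrel_mono (subset_insert _ _) h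
  refine ⟨z, hz, (Relation.ReflTransGen.mono hm _ _ hop).trans ?_⟩
  exact Relation.ReflTransGen.head (Or.inr ⟨l, mem_insert_self _ _, hq⟩)
    (Relation.ReflTransGen.mono hm _ _ hr)

end mixed

/-! ### Walks of positive weight -/

section walks

variable {V : Type*} {G : SimpleGraph V} [G.LocallyFinite]

theorem adj_of_srw {x y : V} (h : srw G x y ≠ 0) : G.Adj x y := by
  by_contra h'
  apply h
  rw [srw, ind_false h', zero_mul]

theorem good_of_wt {x : V} {l : List V} (h : wt (srw G) (l ++ [x]) ≠ 0) : Good G x l := by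
  induction l with
  | nil => trivial
  | cons y l ih =>
    rcases l with _ | ⟨y', l⟩
    · simp only [List.cons_append, List.nil_append, wt_cons_cons, wt_singleton, mul_one] at h
      exact ⟨(adj_of_srw h).symm, trivial⟩
    · simp only [List.cons_append, wt_cons_cons] at h
      refine ⟨(adj_of_srw (left_ne_zero_of_mul h)).symm, ih ?_⟩
      simpa using right_ne_zero_of_mul h

theorem ker_srw {d : ℕ} (hd : 0 < d) (hreg : G.IsRegularOfDegree d) : Ker (srw G) := by
  refine ⟨fun x y => ?_, fun x => ?_⟩
  · by_cases h : G.Adj x y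
    · rw [srw, srw, ind_true h, ind_true h.symm, hreg.degree_eq, hreg.degree_eq]
    · rw [srw, srw, ind_false h, ind_false fun h' => h h'.symm, zero_mul, zero_mul]
  · rw [tsum_eq_sum (s := G.neighborFinset x) fun y hy => by
      rw [srw, ind_false fun h => hy ((SimpleGraph.mem_neighborFinset _ _ _).2 h), zero_mul]]
    rw [Finset.sum_congr rfl (g := fun _ => (G.degree x : ℝ≥0∞)⁻¹) fun y hy => by
      rw [srw, ind_true ((SimpleGraph.mem_neighborFinset _ _ _).1 hy), one_mul],
      Finset.sum_const, G.card_neighborFinset_eq_degree, nsmul_eq_mul, hreg.degree_eq]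
    exact ENNReal.mul_inv_cancel (by exact_mod_cast hd.ne') (ENNReal.natCast_ne_top d)

theorem wt_eq_wgt {d : ℕ} (hd : 0 < d) (hreg : G.IsRegularOfDegree d) (x : V) (l : List V) :
    wt (srw G) (l ++ [x]) = ENNReal.ofReal (wgt G x l) := by
  have key : ∀ (y z : V) (c : ℝ), 0 ≤ c → srw G y z * ENNReal.ofReal c =
      ENNReal.ofReal ((open Classical in if G.Adj z y then ((G.degree z : ℝ))⁻¹ else 0) * c) := by
    intro y z c hc
    by_cases h : G.Adj z y
    · rw [if_pos h, srw, ind_true h.symm, one_mul, hreg.degree_eq, hreg.degree_eq,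
        ENNReal.ofReal_mul (by positivity), ENNReal.ofReal_inv_of_pos (by exact_mod_cast hd),
        ENNReal.ofReal_natCast]
    · rw [if_neg h, srw, ind_false fun h' => h h'.symm, zero_mul, zero_mul, zero_mul,
        ENNReal.ofReal_zero]
  induction l with
  | nil => simp [wgt]
  | cons y l ih =>
    rcases l with _ | ⟨y', l⟩
    · simp only [List.nil_append, List.cons_append, wt_cons_cons] at ih ⊢
      rw [ih, key y x _ (wgt_nonneg G x []), wgt]
      rfl
    · simp only [List.cons_append, wt_cons_cons] at ih ⊢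
      rw [ih, key y y' _ (wgt_nonneg G x (y' :: l))]
      conv_rhs => rw [wgt]
      rfl

end walks

/-! ### Sums -/

section sums

variable {V : Type*} {P : V → V → ℝ≥0∞}

theorem two_mul_tri (n : ℕ) : 2 * ∑ i ∈ range n, (n - i) = n * (n + 1) := by
  induction n with
  | zero => rfl
  | succ n ih =>
    rw [sum_range_succ']
    have h : ∑ i ∈ range n, (n + 1 - (i + 1)) = ∑ i ∈ range n, (n - i) :=
      sum_congr rfl fun i _ => by omega
    rw [h, mul_add, ih]
    simp only [Nat.sub_zero]
    ring

theorem sum_len_mul (f : List V → ℝ≥0∞) (hf : ∀ n, ∑' a : List V, ind (a.length = n) * f a = 1)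
    (n : ℕ) : ∑' a : List V, ((n - a.length : ℕ) : ℝ≥0∞) * f a =
      ((∑ i ∈ range n, (n - i) : ℕ) : ℝ≥0∞) := by
  have h1 : ∀ a : List V, ((n - a.length : ℕ) : ℝ≥0∞) * f a =
      ∑ i ∈ range n, ((n - i : ℕ) : ℝ≥0∞) * (ind (a.length = i) * f a) := by
    intro a
    by_cases ha : a.length < n
    · rw [sum_eq_single a.length]
      · rw [ind_true rfl, one_mul]
      · intro i _ hi
        rw [ind_false (fun h => hi h.symm), zero_mul, mul_zero]
      · intro h
        exact absurd (mem_range.2 ha) h
    · rw [Nat.sub_eq_zero_of_le (by omega), Nat.cast_zero, zero_mul]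
      symm
      refine sum_eq_zero fun i hi => ?_
      rw [mem_range] at hi
      rw [ind_false (by omega), zero_mul, mul_zero]
  simp only [h1]
  rw [Summable.tsum_finsetSum fun i _ => ENNReal.summable]
  simp only [ENNReal.tsum_mul_left, hf, mul_one]
  push_cast
  rfl

/-- A finite sum over the walks in the image of an injective map. -/
theorem sum_filter_le (s : Finset (List V)) (g : List V → List V) (hg : Function.Injective g)
    (F : List V → ℝ≥0∞) (q : List V → Prop) [DecidablePred q] (hq : ∀ w, q w → ∃ a, w = g a) :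
    ∑ w ∈ s.filter q, F w ≤ ∑' a, F (g a) := by
  classical
  have h := Finset.sum_preimage g (s.filter q) hg.injOn F fun w hw hn => by
    obtain ⟨a, rfl⟩ := hq w (mem_filter.1 hw).2
    exact absurd ⟨a, rfl⟩ hn
  rw [← h]
  exact ENNReal.sum_le_tsum _

end sums

/-! ### The copies -/

section copies

variable {V : Type*} [DecidableEq V] (G : SimpleGraph V) [G.LocallyFinite]

/-- The trajectory `γ` is a one-sided copy of the walk `w`. -/
def isCopy (w : List V) (γ : V × List V) : Prop :=
  (∃ a, w = a ++ γ.1 :: γ.2.reverse) ∨ (∃ b, w = γ.2 ++ γ.1 :: b)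

open Classical in
/-- The one-sided copies of `w`. -/
def cop (D : Finset V) (M : ℕ) (w : List V) : Finset (V × List V) := (idx G D M).filter (isCopy w)

variable {G}

theorem mem_cop {D : Finset V} {M : ℕ} {w : List V} {γ : V × List V} :
    γ ∈ cop G D M w ↔ γ ∈ idx G D M ∧ isCopy w γ := by
  classical
  rw [cop, mem_filter]

theorem exists_copy {o : V} {D : Finset V} {m M : ℕ} (hM : m ≤ M)
    {A : Finset (List V ⊕ (V × List V))} {w : List V} (hw : wt (srw G) w ≠ 0)
    (hsym : ∀ l : List V, wt (srw G) l.reverse = wt (srw G) l)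
    (hlen : w.length ≤ m) (h : MOut o (D : Set V) (insert (Sum.inl w) A)) :
    MOut o (D : Set V) A ∨ ∃ i ∈ (cop G D M w).map Function.Embedding.inr,
      MOut o (D : Set V) (insert i A) := by
  rcases exists_of_insert h with h | ⟨p, hp, q, hq, hop, hqz⟩
  · exact Or.inl h
  by_cases hpD : p ∈ D
  swap
  · exact Or.inl ⟨p, fun h' => hpD (mem_coe.1 h'), hop⟩
  by_cases hpq : p = q
  · subst hpq
    obtain ⟨z, hz, hr⟩ := hqz
    exact Or.inl ⟨z, hz, hop.trans hr⟩
  right
  obtain ⟨a, b, rfl⟩ := List.append_of_mem hp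
  rw [List.length_append, List.length_cons] at hlen
  have hq' : q ∈ a ∨ q ∈ b := by
    rw [List.mem_append, List.mem_cons] at hq
    rcases hq with hq | hq | hq
    · exact Or.inl hq
    · exact absurd hq.symm hpq
    · exact Or.inr hq
  rw [wt_append] at hw
  rcases hq' with hq' | hq'
  · have hg : Good G p a := good_of_wt (left_ne_zero_of_mul hw)
    have h1 : 1 ≤ a.length := List.length_pos_of_mem hq'
    refine ⟨Sum.inr (p, a), mem_map_of_mem _ ?_, MOut_path hop hq' hqz⟩
    exact mem_cop.2 ⟨(mem_idx G).2 ⟨hpD, h1, by omega, hg⟩, Or.inr ⟨b, rfl⟩⟩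
  · have hg : Good G p b.reverse := by
      apply good_of_wt
      rw [← List.reverse_cons, hsym]
      exact right_ne_zero_of_mul hw
    have h1 : 1 ≤ b.length := List.length_pos_of_mem hq'
    refine ⟨Sum.inr (p, b.reverse), mem_map_of_mem _ ?_,
      MOut_path hop (List.mem_reverse.2 hq') hqz⟩
    refine mem_cop.2 ⟨(mem_idx G).2 ⟨hpD, by simpa using h1, by simp; omega, hg⟩,
      Or.inl ⟨a, ?_⟩⟩
    simp

omit [DecidableEq V] in
theorem rt_nonneg (P : V → V → ℝ≥0∞) {c : ℝ} (hc : 0 ≤ c) (m : ℕ) (w : List V) :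
    0 ≤ rt P c m w := by
  unfold rt
  positivity

omit [DecidableEq V] in
theorem wt_ne_top (hP : Ker (srw G)) (w : List V) : wt (srw G) w ≠ ⊤ := by
  rcases w with _ | ⟨x, l⟩
  · simp
  · refine ne_top_of_le_ne_top ENNReal.one_ne_top ?_
    rw [← sum_len hP l.length x]
    refine le_trans ?_ (ENNReal.le_tsum l)
    rw [ind_true rfl, one_mul]

omit [DecidableEq V] in
theorem ofReal_rt (hP : Ker (srw G)) {c : ℝ} (hc : 0 ≤ c) (m : ℕ) (w : List V) :
    ENNReal.ofReal (rt (srw G) c m w) =
      ENNReal.ofReal c * ((m + 1 - w.length : ℕ) : ℝ≥0∞) * wt (srw G) w := by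
  rw [rt, ENNReal.ofReal_mul (by positivity), ENNReal.ofReal_mul hc, ENNReal.ofReal_natCast,
    ENNReal.ofReal_toReal (wt_ne_top hP w)]

theorem tcp_sub (c : ℝ) (m j : ℕ) : tcp c m j - tcp c m (j + 1) =
    c * (((m - j : ℕ) : ℝ) * (((m - j : ℕ) : ℝ) + 1)) := by
  unfold tcp
  rcases Nat.lt_or_ge j m with h | h
  · obtain ⟨n, rfl⟩ : ∃ n, m = j + 1 + n := ⟨m - (j + 1), by omega⟩
    have e1 : j + 1 + n - j = n + 1 := by omega
    have e2 : j + 1 + n - (j + 1) = n := by omega
    rw [e1, e2]
    push_cast
    ring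
  · rw [Nat.sub_eq_zero_of_le h, Nat.sub_eq_zero_of_le (by omega)]
    simp

theorem sum_copy_le {d : ℕ} (hd : 0 < d) (hreg : G.IsRegularOfDegree d) (s : Finset (List V))
    {c : ℝ} (hc : 0 ≤ c) (m : ℕ) (γ : V × List V) (S : List V → Finset (V × List V))
    (hS : ∀ w, γ ∈ S w → isCopy w γ) :
    ∑ w ∈ s, (if γ ∈ S w then rt (srw G) c m w else 0) ≤ rate G (tcp c m) γ := by
  classical
  have hP : Ker (srw G) := ker_srw hd hreg
  obtain ⟨x, l⟩ := γ
  have hrate : 0 ≤ rate G (tcp c m) (x, l) := by
    apply rate_nonneg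
    have := tcp_sub c m l.length
    have h2 : 0 ≤ c * (((m - l.length : ℕ) : ℝ) * (((m - l.length : ℕ) : ℝ) + 1)) := by
      positivity
    simp only
    linarith
  rw [← ENNReal.ofReal_le_ofReal_iff hrate, ENNReal.ofReal_sum_of_nonneg (fun w _ => by
    split_ifs
    · exact rt_nonneg _ hc m w
    · exact le_rfl)]
  have h1 : ∀ w ∈ s, ENNReal.ofReal (if (x, l) ∈ S w then rt (srw G) c m w else 0) ≤
      (if ∃ a, w = a ++ x :: l.reverse then ENNReal.ofReal (rt (srw G) c m w) else 0) +
      (if ∃ b, w = l ++ x :: b then ENNReal.ofReal (rt (srw G) c m w) else 0) := by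
    intro w _
    by_cases h : (x, l) ∈ S w
    · rw [if_pos h]
      rcases hS w h with h' | h'
      · rw [if_pos h']
        exact le_self_add
      · rw [if_pos h']
        exact le_add_self
    · rw [if_neg h, ENNReal.ofReal_zero]
      exact zero_le
  refine (sum_le_sum h1).trans ?_
  rw [sum_add_distrib, ← sum_filter, ← sum_filter]
  have hl : ∀ a : List V, m + 1 - (a ++ x :: l.reverse).length = m - l.length - a.length := by
    intro a
    rw [List.length_append, List.length_cons, List.length_reverse]
    omega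
  have hl' : ∀ b : List V, m + 1 - (l ++ x :: b).length = m - l.length - b.length := by
    intro b
    rw [List.length_append, List.length_cons]
    omega
  have hw1 : wt (srw G) (x :: l.reverse) = ENNReal.ofReal (wgt G x l) := by
    rw [wt_reverse_cons hP, wt_eq_wgt hd hreg]
  have b1 : ∑ w ∈ s.filter (fun w => ∃ a, w = a ++ x :: l.reverse),
      ENNReal.ofReal (rt (srw G) c m w) ≤ ENNReal.ofReal c * ENNReal.ofReal (wgt G x l) *
        ((∑ i ∈ range (m - l.length), (m - l.length - i) : ℕ) : ℝ≥0∞) := by
    refine (sum_filter_le s (fun a => a ++ x :: l.reverse) (fun a a' h => by simpa using h)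
      (fun w => ENNReal.ofReal (rt (srw G) c m w)) _ fun w hw => hw).trans ?_
    rw [← sum_len_mul (fun a => wt (srw G) (a ++ [x])) (fun n => sum_len' hP n x),
      ← ENNReal.tsum_mul_left]
    refine ENNReal.tsum_le_tsum fun a => ?_
    rw [ofReal_rt hP hc, hl, wt_append, hw1]
    apply le_of_eq
    ring
  have b2 : ∑ w ∈ s.filter (fun w => ∃ b, w = l ++ x :: b),
      ENNReal.ofReal (rt (srw G) c m w) ≤ ENNReal.ofReal c * ENNReal.ofReal (wgt G x l) *
        ((∑ i ∈ range (m - l.length), (m - l.length - i) : ℕ) : ℝ≥0∞) := by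
    refine (sum_filter_le s (fun b => l ++ x :: b) (fun a a' h => by simpa using h)
      (fun w => ENNReal.ofReal (rt (srw G) c m w)) _ fun w hw => hw).trans ?_
    rw [← sum_len_mul (fun b => wt (srw G) (x :: b)) (fun n => sum_len hP n x),
      ← ENNReal.tsum_mul_left]
    refine ENNReal.tsum_le_tsum fun b => ?_
    rw [ofReal_rt hP hc, hl', wt_append, wt_eq_wgt hd hreg]
    apply le_of_eq
    ring
  refine (add_le_add b1 b2).trans ?_
  rw [rate]
  simp only
  rw [tcp_sub, ← two_mul, ENNReal.ofReal_mul (by positivity), ENNReal.ofReal_mul hc]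
  have h3 := two_mul_tri (m - l.length)
  have h4 : (2 : ℝ≥0∞) * ((∑ i ∈ range (m - l.length), (m - l.length - i) : ℕ) : ℝ≥0∞) =
      ENNReal.ofReal (((m - l.length : ℕ) : ℝ) * (((m - l.length : ℕ) : ℝ) + 1)) := by
    rw [← Nat.cast_ofNat, ← Nat.cast_mul, h3, ← ENNReal.ofReal_natCast]
    push_cast
    rfl
  rw [← h4]
  apply le_of_eq
  ring

end copies

universe u

/-- The rates after the replacement of the walks of `W`. -/
def rho {V : Type*} [DecidableEq V] (r : List V → ℝ) (S : List V → Finset (V × List V))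
    (W : Finset (List V)) : List V ⊕ (V × List V) → ℝ
  | Sum.inl w => if w ∈ W then 0 else r w
  | Sum.inr γ => ∑ w ∈ W, if γ ∈ S w then r w else 0

theorem prf : SCopyAll.{u} := by
  intro hRepl V _ G _ d hd hreg o D s c m M hc hM ho
  have hP : Ker (srw G) := ker_srw hd hreg
  set r : List V → ℝ := rt (srw G) c m with hr
  have hr0 : ∀ w, 0 ≤ r w := fun w => rt_nonneg _ hc m w
  set S : List V → Finset (V × List V) := cop G D M with hSdef
  set S0 : Finset (List V ⊕ (V × List V)) :=
    s.map Function.Embedding.inl ∪ (idx G D M).map Function.Embedding.inr with hS0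
  have hrho0 : ∀ W : Finset (List V), ∀ i, 0 ≤ rho r S W i := by
    rintro W (w | γ)
    · simp only [rho]
      split_ifs
      · exact le_rfl
      · exact hr0 w
    · simp only [rho]
      refine sum_nonneg fun w _ => ?_
      split_ifs
      · exact hr0 w
      · exact le_rfl
  -- the replacement
  have step : ∀ W ⊆ s, Q (rho r S W) S0 (MOut o (D : Set V)) ≤
      Q (rho r S ∅) S0 (MOut o (D : Set V)) := by
    intro W
    induction W using Finset.induction_on with
    | empty => intro _; exact le_rfl
    | insert w W hw ih =>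
      intro hW
      refine le_trans ?_ (ih ((subset_insert _ _).trans hW))
      by_cases h0 : r w = 0
      · apply le_of_eq
        refine Q_congr (fun i _ => ?_) _
        rcases i with w' | γ
        · simp only [rho]
          by_cases h1 : w' = w
          · subst h1
            rw [if_pos (mem_insert_self _ _), if_neg hw, h0]
          · simp only [mem_insert, h1, false_or]
        · simp only [rho]
          rw [sum_insert hw, h0]
          simp
      · have hw0 : wt (srw G) w ≠ 0 ∧ w.length ≤ m := by
          rw [hr, rt] at h0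
          constructor
          · intro h
            rw [h] at h0
            simp at h0
          · by_contra h
            rw [not_le] at h
            rw [Nat.sub_eq_zero_of_le (by omega)] at h0
            simp at h0
        refine hRepl (List V ⊕ (V × List V)) S0 ((S w).map Function.Embedding.inr) (Sum.inl w)
          (rho r S W) (rho r S (insert w W)) (r w) (MOut o (D : Set V)) (up_MOut o _) (hr0 w)
          ?_ ?_ ?_ (fun i _ => hrho0 W i) ?_ (hrho0 _ _) ?_ ?_ ?_
        · exact mem_union_left _ (mem_map_of_mem _ (hW (mem_insert_self _ _)))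
        · intro i hi
          rw [mem_map] at hi
          obtain ⟨γ, hγ, rfl⟩ := hi
          refine mem_union_right _ (mem_map_of_mem _ ?_)
          exact (mem_cop.1 hγ).1
        · intro h
          rw [mem_map] at h
          obtain ⟨γ, _, h⟩ := h
          cases h
        · simp only [rho]
          rw [if_pos (mem_insert_self _ _), if_neg hw, sub_self]
        · intro i hi
          rw [mem_map] at hi
          obtain ⟨γ, hγ, rfl⟩ := hi
          show rho r S (insert w W) (Sum.inr γ) = rho r S W (Sum.inr γ) + r w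
          simp only [rho]
          rw [sum_insert hw, if_pos hγ, add_comm]
        · intro i _ hi1 hi2
          rcases i with w' | γ
          · have h1 : w' ≠ w := fun h => hi2 (by rw [h])
            simp only [rho]
            simp only [mem_insert, h1, false_or]
          · have h1 : γ ∉ S w := fun h => hi1 (mem_map_of_mem _ h)
            simp only [rho]
            rw [sum_insert hw, if_neg h1, zero_add]
        · intro A hA
          exact exists_copy hM hw0.1 (wt_reverse hP) hw0.2 hA
  -- the start
  have e1 : Q (rho r S ∅) S0 (MOut o (D : Set V)) = Q r s (Suc o (D : Set V)) := by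
    rw [hS0, Q_zero, Q_map]
    · have h1 : (fun A : Finset (List V) => MOut o (D : Set V) (A.map Function.Embedding.inl)) =
          Suc o (D : Set V) := by
        funext A
        exact propext (MOut_inl o _ A)
      rw [h1]
      refine Q_congr (fun w _ => ?_) _
      show rho r S ∅ (Sum.inl w) = r w
      simp [rho]
    · intro i hi _
      rw [mem_map] at hi
      obtain ⟨γ, _, rfl⟩ := hi
      show rho r S ∅ (Sum.inr γ) = 0
      simp [rho]
  -- the end
  have e2 : Q (rho r S s) S0 (MOut o (D : Set V)) =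
      Q (fun γ => ∑ w ∈ s, if γ ∈ S w then r w else 0) (idx G D M) (Out D o) := by
    rw [hS0, union_comm, Q_zero, Q_map]
    · have h1 : (fun A : Finset (V × List V) =>
          MOut o (D : Set V) (A.map Function.Embedding.inr)) = Out D o := by
        funext A
        exact propext (MOut_inr o D A)
      rw [h1]
      refine Q_congr (fun γ _ => ?_) _
      rfl
    · intro i hi _
      rw [mem_map] at hi
      obtain ⟨w, hw, rfl⟩ := hi
      show rho r S s (Sum.inl w) = 0
      simp [rho, hw]
  have h1 := step s Subset.rfl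
  rw [e1, e2] at h1
  refine le_trans ?_ h1
  refine Q_anti_r (fun γ _ => ?_) (fun γ _ => ?_) (up_Out D o)
  · refine sum_nonneg fun w _ => ?_
    split_ifs
    · exact hr0 w
    · exact le_rfl
  · refine sum_copy_le hd hreg s hc m γ S fun w hw => ?_
    exact (mem_cop.1 hw).2

end Pool.Agent.Fri.I_COPY2
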