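import Pool.Agent.Work.MP_c9ff92_pr.Fri.Stmts
import Pool.Agent.Work.MP_c9ff92_pr.Fri.Basic

open Finset
open scoped ENNReal NNReal

noncomputable section

universe u

namespace Pool.Agent.Fri.I_CORE

theorem prf : SCoreAll.{u} := by
  intro hG hH hL V P hP R B hB m s K L1 δ C hC hsm hK hL1 hKL hpk hsum
  have hsm' : s ≤ m := by omega
  have hKL1 : 1 ≤ K * L1 := Nat.one_le_iff_ne_zero.2 (Nat.mul_ne_zero (by omega) (by omega))
  have h1 := hG V P hP R B m s hsm
  have h2 := hL V P hP R B hB m s K L1 δ C hC hsm' hK hL1 hpk hsum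
  have h3 := hH V P hP R B m s (K * L1) hsm' hKL.le hKL1
  have h4 := hH V P hP B R m s (K * L1) hsm' hKL.le hKL1
  have h4a : JJ P B R m (fun a y b => good (m - s) a y b ∧ hi P R (K * L1) y) =
      JJ P R B m (fun a y b => good (m - s) a y b ∧ hi P R (K * L1) y) := by
    rw [JJ_reverse hP R B]
    congr 1
    funext a y b
    apply propext
    unfold good
    rw [List.length_reverse, List.length_reverse, and_comm (a := b.length + 1 ≤ m - s)]
  rw [h4a, WW_comm B R] at h4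
  have h5 : JJ P R B m (good (m - s)) ≤
      JJ P R B m (fun a y b => good (m - s) a y b ∧
        ¬ hi P B (K * L1) y ∧ ¬ hi P R (K * L1) y) +
      (JJ P R B m (fun a y b => good (m - s) a y b ∧ hi P B (K * L1) y) +
        JJ P R B m (fun a y b => good (m - s) a y b ∧ hi P R (K * L1) y)) := by
    refine le_trans (JJ_add_le (q1 := fun a y b => good (m - s) a y b ∧
        ¬ hi P B (K * L1) y ∧ ¬ hi P R (K * L1) y)
        (q2 := fun a y b => (good (m - s) a y b ∧ hi P B (K * L1) y) ∨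
          (good (m - s) a y b ∧ hi P R (K * L1) y)) ?_) ?_
    · intro a y b _ _ h
      by_cases hb : hi P B (K * L1) y
      · exact Or.inr (Or.inl ⟨h, hb⟩)
      · by_cases hr : hi P R (K * L1) y
        · exact Or.inr (Or.inr ⟨h, hr⟩)
        · exact Or.inl ⟨h, hb, hr⟩
    · gcongr
      exact JJ_add_le fun a y b _ _ h => h
  have hK0 : ((K : ℝ≥0∞) ^ 2) ≠ 0 := pow_ne_zero _ (Nat.cast_ne_zero.2 (by omega))
  have hKt : ((K : ℝ≥0∞) ^ 2) ≠ ⊤ := ENNReal.pow_ne_top (ENNReal.natCast_ne_top K)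
  have hS0 : ((((s - K * L1 : ℕ) : ℝ≥0∞)) ^ 2) ≠ 0 :=
    pow_ne_zero _ (Nat.cast_ne_zero.2 (by omega))
  have hSt : ((((s - K * L1 : ℕ) : ℝ≥0∞)) ^ 2) ≠ ⊤ :=
    ENNReal.pow_ne_top (ENNReal.natCast_ne_top _)
  have h2' := (ENNReal.le_div_iff_mul_le (Or.inl hK0) (Or.inl hKt)).2
    (le_of_eq_of_le (mul_comm _ _) h2)
  have h3' := (ENNReal.le_div_iff_mul_le (Or.inl hS0) (Or.inl hSt)).2
    (le_of_eq_of_le (mul_comm _ _) h3)
  have h4' := (ENNReal.le_div_iff_mul_le (Or.inl hS0) (Or.inl hSt)).2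
    (le_of_eq_of_le (mul_comm _ _) h4)
  refine h1.trans ?_
  refine (mul_le_mul_right (h5.trans (add_le_add h2' (add_le_add h3' h4'))) 5).trans ?_
  apply le_of_eq
  simp only [div_eq_mul_inv]
  ring

end Pool.Agent.Fri.I_CORE
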