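import Pool.Agent.Work.MP_c9ff92_pr.Fri.Stmts
import Pool.Agent.Work.MP_c9ff92_pr.Fri.Basic

/-!
# Cutting the walks at all their positions (item CUT of the block Fri, MP_c9ff92_pr)
-/

open Finset
open scoped ENNReal NNReal

noncomputable section

namespace Pool.Agent.Fri.I_CUT

universe u

variable {V : Type u} {P : V → V → ℝ≥0∞}

/-- Sum over the length. -/
theorem ind_lt (n N : ℕ) : ind (n < N) = ∑ i ∈ range N, ind (n = i) := by
  by_cases h : n < N
  · rw [ind_true h, Finset.sum_eq_single_of_mem n (mem_range.2 h)]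
    · exact (ind_true rfl).symm
    · intro i _ hi
      exact ind_false fun h' => hi h'.symm
  · rw [ind_false h]
    symm
    refine Finset.sum_eq_zero fun i hi => ?_
    exact ind_false fun h' => h (h' ▸ mem_range.1 hi)

/-- All the extensions of a nonempty walk after its end. -/
theorem suffix_le (hP : Ker P) (m : ℕ) (w : List V) (hw : w ≠ []) :
    ∑' b : List V, ind (w.length + b.length ≤ m) * wt P (w ++ b) =
      ((m + 1 - w.length : ℕ) : ℝ≥0∞) * wt P w := by
  have h1 : ∀ b : List V, ind (w.length + b.length ≤ m) * wt P (w ++ b) =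
      ∑ i ∈ range (m + 1 - w.length), ind (b.length = i) * wt P (w ++ b) := by
    intro b
    rw [← Finset.sum_mul, ← ind_lt]
    congr 1
    apply ind_congr
    omega
  simp only [h1]
  rw [Summable.tsum_finsetSum fun i _ => ENNReal.summable]
  have h2 : ∀ i ∈ range (m + 1 - w.length),
      ∑' b : List V, ind (b.length = i) * wt P (w ++ b) = wt P w :=
    fun i _ => sum_suffix hP i hw
  rw [Finset.sum_congr rfl h2, Finset.sum_const, card_range, nsmul_eq_mul]

/-- All the extensions of a nonempty walk before its start. -/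
theorem prefix_le (hP : Ker P) (m : ℕ) (w : List V) (hw : w ≠ []) :
    ∑' a : List V, ind (a.length + w.length ≤ m) * wt P (a ++ w) =
      ((m + 1 - w.length : ℕ) : ℝ≥0∞) * wt P w := by
  have h1 : ∀ a : List V, ind (a.length + w.length ≤ m) * wt P (a ++ w) =
      ∑ i ∈ range (m + 1 - w.length), ind (a.length = i) * wt P (a ++ w) := by
    intro a
    rw [← Finset.sum_mul, ← ind_lt]
    congr 1
    apply ind_congr
    omega
  simp only [h1]
  rw [Summable.tsum_finsetSum fun i _ => ENNReal.summable]
  have h2 : ∀ i ∈ range (m + 1 - w.length),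
      ∑' a : List V, ind (a.length = i) * wt P (a ++ w) = wt P w :=
    fun i _ => sum_prefix hP i hw
  rw [Finset.sum_congr rfl h2, Finset.sum_const, card_range, nsmul_eq_mul]

/-- The weighted walks which touch both sets. -/
def XX (P : V → V → ℝ≥0∞) (R B : Set V) (m : ℕ) : ℝ≥0∞ :=
  ∑' w : List V, ind (tch R w ∧ tch B w) * ((m + 1 - w.length : ℕ) : ℝ≥0∞) * wt P w

theorem first_le (hP : Ker P) (R B : Set V) (m : ℕ) :
    ∑' a : List V, ∑' y : V, ∑' b : List V,
      ind ((tch R (a ++ [y]) ∧ tch B (a ++ [y])) ∧ (a ++ [y]).length + b.length ≤ m) *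
        wt P (a ++ y :: b) ≤ XX P R B m := by
  have h1 : ∀ (a : List V) (y : V), (∑' b : List V,
      ind ((tch R (a ++ [y]) ∧ tch B (a ++ [y])) ∧ (a ++ [y]).length + b.length ≤ m) *
        wt P (a ++ y :: b)) =
      (fun w : List V => ind (tch R w ∧ tch B w) * ((m + 1 - w.length : ℕ) : ℝ≥0∞) * wt P w)
        (a ++ [y]) := by
    intro a y
    have h2 : ∀ b : List V,
        ind ((tch R (a ++ [y]) ∧ tch B (a ++ [y])) ∧ (a ++ [y]).length + b.length ≤ m) *
          wt P (a ++ y :: b) =
        ind (tch R (a ++ [y]) ∧ tch B (a ++ [y])) *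
          (ind ((a ++ [y]).length + b.length ≤ m) * wt P ((a ++ [y]) ++ b)) := by
      intro b
      rw [ind_and, mul_assoc, List.append_assoc]
      rfl
    simp only [h2]
    rw [ENNReal.tsum_mul_left, suffix_le hP m (a ++ [y]) (by simp)]
    simp only [mul_assoc]
  simp only [h1]
  rw [← ENNReal.tsum_prod (f := fun (a : List V) (y : V) =>
    (fun w : List V => ind (tch R w ∧ tch B w) * ((m + 1 - w.length : ℕ) : ℝ≥0∞) * wt P w)
        (a ++ [y]))]
  have hinj : Function.Injective (fun p : List V × V => p.1 ++ [p.2]) := by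
    rintro ⟨a, y⟩ ⟨a', y'⟩ h
    simp only at h
    have := List.append_inj' h rfl
    obtain ⟨h1, h2⟩ := this
    simp only [List.cons.injEq, and_true] at h2
    rw [h1, h2]
  exact ENNReal.tsum_comp_le_tsum_of_injective hinj
    (fun w : List V => ind (tch R w ∧ tch B w) * ((m + 1 - w.length : ℕ) : ℝ≥0∞) * wt P w)

theorem second_le (hP : Ker P) (R B : Set V) (m : ℕ) :
    ∑' a : List V, ∑' y : V, ∑' b : List V,
      ind ((tch R (y :: b) ∧ tch B (y :: b)) ∧ a.length + (y :: b).length ≤ m) *
        wt P (a ++ y :: b) ≤ XX P R B m := by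
  rw [ENNReal.tsum_comm]
  have h0 : ∀ y : V, (∑' a : List V, ∑' b : List V,
      ind ((tch R (y :: b) ∧ tch B (y :: b)) ∧ a.length + (y :: b).length ≤ m) *
        wt P (a ++ y :: b)) = ∑' b : List V, ∑' a : List V,
      ind ((tch R (y :: b) ∧ tch B (y :: b)) ∧ a.length + (y :: b).length ≤ m) *
        wt P (a ++ y :: b) := fun y => ENNReal.tsum_comm
  simp only [h0]
  have h1 : ∀ (y : V) (b : List V), (∑' a : List V,
      ind ((tch R (y :: b) ∧ tch B (y :: b)) ∧ a.length + (y :: b).length ≤ m) *
        wt P (a ++ y :: b)) =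
      (fun w : List V => ind (tch R w ∧ tch B w) * ((m + 1 - w.length : ℕ) : ℝ≥0∞) * wt P w)
        (y :: b) := by
    intro y b
    have h2 : ∀ a : List V,
        ind ((tch R (y :: b) ∧ tch B (y :: b)) ∧ a.length + (y :: b).length ≤ m) *
          wt P (a ++ y :: b) =
        ind (tch R (y :: b) ∧ tch B (y :: b)) *
          (ind (a.length + (y :: b).length ≤ m) * wt P (a ++ y :: b)) := by
      intro a
      rw [ind_and, mul_assoc]
    simp only [h2]
    rw [ENNReal.tsum_mul_left, prefix_le hP m (y :: b) (by simp)]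
    simp only [mul_assoc]
  simp only [h1]
  rw [← ENNReal.tsum_prod (f := fun (y : V) (b : List V) =>
    (fun w : List V => ind (tch R w ∧ tch B w) * ((m + 1 - w.length : ℕ) : ℝ≥0∞) * wt P w)
        (y :: b))]
  have hinj : Function.Injective (fun p : V × List V => p.1 :: p.2) := by
    rintro ⟨y, b⟩ ⟨y', b'⟩ h
    simp only [List.cons.injEq] at h
    rw [h.1, h.2]
  exact ENNReal.tsum_comp_le_tsum_of_injective hinj
    (fun w : List V => ind (tch R w ∧ tch B w) * ((m + 1 - w.length : ℕ) : ℝ≥0∞) * wt P w)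

/-- The pointwise comparison. -/
theorem point (R B : Set V) (m : ℕ) (a : List V) (y : V) (b : List V) :
    ind (tch R (a ++ y :: b) ∧ tch B (a ++ y :: b) ∧ (a ++ y :: b).length ≤ m) ≤
      ind ((tch R (a ++ [y]) ∧ tch B (a ++ [y])) ∧ (a ++ [y]).length + b.length ≤ m) +
      ind ((tch R (y :: b) ∧ tch B (y :: b)) ∧ a.length + (y :: b).length ≤ m) +
      ind (mark R B a y b ∧ a.length + b.length + 1 ≤ m ∧ True) +
      ind (mark B R a y b ∧ a.length + b.length + 1 ≤ m ∧ True) := by
  by_cases h : tch R (a ++ y :: b) ∧ tch B (a ++ y :: b) ∧ (a ++ y :: b).length ≤ m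
  swap
  · rw [ind_false h]
    exact zero_le
  rw [ind_true h]
  obtain ⟨hR, hB, hm⟩ := h
  have hm1 : (a ++ [y]).length + b.length ≤ m := by
    simp only [List.length_append, List.length_cons, List.length_nil] at hm ⊢
    omega
  have hm2 : a.length + (y :: b).length ≤ m := by
    simp only [List.length_append, List.length_cons] at hm ⊢
    omega
  have hm3 : a.length + b.length + 1 ≤ m := by
    simp only [List.length_append, List.length_cons] at hm ⊢
    omega
  by_cases h1 : tch R (a ++ [y]) ∧ tch B (a ++ [y])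
  · rw [ind_true (p := (tch R (a ++ [y]) ∧ tch B (a ++ [y])) ∧ (a ++ [y]).length + b.length ≤ m)
      ⟨h1, hm1⟩]
    rw [add_assoc, add_assoc]
    exact le_self_add
  by_cases h2 : tch R (y :: b) ∧ tch B (y :: b)
  · rw [ind_true (p := (tch R (y :: b) ∧ tch B (y :: b)) ∧ a.length + (y :: b).length ≤ m)
      ⟨h2, hm2⟩]
    rw [add_assoc, add_assoc, add_left_comm]
    exact le_self_add
  have hR' : tch R a ∨ y ∈ R ∨ tch R b := by
    rw [tch_append, tch_cons] at hR
    exact hR
  have hB' : tch B a ∨ y ∈ B ∨ tch B b := by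
    rw [tch_append, tch_cons] at hB
    exact hB
  have e1 : ∀ S : Set V, tch S (a ++ [y]) ↔ tch S a ∨ y ∈ S := by
    intro S
    rw [tch_append, tch_cons]
    have := tch_nil S
    tauto
  rw [e1, e1] at h1
  rw [tch_cons, tch_cons] at h2
  have h3 : mark R B a y b ∨ mark B R a y b := by
    unfold mark
    tauto
  rcases h3 with h3 | h3
  · rw [ind_true (p := mark R B a y b ∧ a.length + b.length + 1 ≤ m ∧ True) ⟨h3, hm3, trivial⟩]
    rw [add_assoc, add_left_comm]
    exact le_self_add
  · rw [ind_true (p := mark B R a y b ∧ a.length + b.length + 1 ≤ m ∧ True) ⟨h3, hm3, trivial⟩]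
    exact le_add_self

theorem prf : SCut.{u} := by
  intro V P hP R B m
  have h1 : ∑' w : List V, ind (tch R w ∧ tch B w ∧ w.length ≤ m) * (w.length : ℝ≥0∞) * wt P w =
      ∑' w : List V, ∑ k ∈ range w.length,
        (fun (w : List V) (_ : ℕ) => ind (tch R w ∧ tch B w ∧ w.length ≤ m) * wt P w) w k := by
    refine tsum_congr fun w => ?_
    rw [Finset.sum_const, card_range, nsmul_eq_mul]
    ring
  rw [h1, tsum_split]
  have h2 : JJ P B R m (fun _ _ _ => True) = JJ P R B m (fun _ _ _ => True) :=
    JJ_reverse hP B R m _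
  calc ∑' a : List V, ∑' y : V, ∑' b : List V,
        ind (tch R (a ++ y :: b) ∧ tch B (a ++ y :: b) ∧ (a ++ y :: b).length ≤ m) *
          wt P (a ++ y :: b)
      ≤ ∑' a : List V, ∑' y : V, ∑' b : List V,
        (ind ((tch R (a ++ [y]) ∧ tch B (a ++ [y])) ∧ (a ++ [y]).length + b.length ≤ m) *
          wt P (a ++ y :: b) +
        ind ((tch R (y :: b) ∧ tch B (y :: b)) ∧ a.length + (y :: b).length ≤ m) *
          wt P (a ++ y :: b) +
        ind (mark R B a y b ∧ a.length + b.length + 1 ≤ m ∧ True) * wt P (a ++ y :: b) +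
        ind (mark B R a y b ∧ a.length + b.length + 1 ≤ m ∧ True) * wt P (a ++ y :: b)) := by
        refine ENNReal.tsum_le_tsum fun a => ENNReal.tsum_le_tsum fun y =>
          ENNReal.tsum_le_tsum fun b => ?_
        rw [← add_mul, ← add_mul, ← add_mul]
        gcongr
        exact point R B m a y b
    _ = (∑' a : List V, ∑' y : V, ∑' b : List V,
        ind ((tch R (a ++ [y]) ∧ tch B (a ++ [y])) ∧ (a ++ [y]).length + b.length ≤ m) *
          wt P (a ++ y :: b)) +
        (∑' a : List V, ∑' y : V, ∑' b : List V,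
        ind ((tch R (y :: b) ∧ tch B (y :: b)) ∧ a.length + (y :: b).length ≤ m) *
          wt P (a ++ y :: b)) + JJ P R B m (fun _ _ _ => True) +
          JJ P B R m (fun _ _ _ => True) := by
        unfold JJ
        simp only [ENNReal.tsum_add]
    _ ≤ XX P R B m + XX P R B m + JJ P R B m (fun _ _ _ => True) +
          JJ P R B m (fun _ _ _ => True) := by
        rw [h2]
        gcongr
        · exact first_le hP R B m
        · exact second_le hP R B m
    _ = 2 * (∑' w : List V, ind (tch R w ∧ tch B w) * ((m + 1 - w.length : ℕ) : ℝ≥0∞) *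
          wt P w) + 2 * JJ P R B m (fun _ _ _ => True) := by
        unfold XX
        ring

end Pool.Agent.Fri.I_CUT
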