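import Pool.Agent.Work.MP_c9ff92_pr.Fri.Stmts
import Pool.Agent.Work.MP_c9ff92_pr.Fri.Basic

/-!
# Item DER: comparison along a linear interpolation of the rates (MP_c9ff92_pr)
-/

open Finset
open scoped ENNReal NNReal

noncomputable section

namespace Pool.Agent.Fri.I_DER

universe u

variable {T : Type u} [DecidableEq T]

/-- The weight of the set `A` of present objects of `s`. -/
def W (r : T → ℝ) (s A : Finset T) : ℝ :=
  (∏ i ∈ A, (1 - Real.exp (-r i))) * ∏ i ∈ s \ A, Real.exp (-r i)

open Classical in
/-- The probability that `i` is pivotal (and absent). -/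
def PP (r : T → ℝ) (s : Finset T) (U : Finset T → Prop) (i : T) : ℝ :=
  ∑ A ∈ s.powerset, if piv U i A then W r s A else 0

theorem W_nonneg {r : T → ℝ} {s A : Finset T} (hr : ∀ i ∈ s, 0 ≤ r i) (hA : A ⊆ s) :
    0 ≤ W r s A :=
  mul_nonneg (prod_nonneg fun i hi => Frog.one_sub_exp_nonneg (hr i (hA hi)))
    (prod_nonneg fun _ _ => (Real.exp_pos _).le)

theorem W_insert_left (r : T → ℝ) {s A : Finset T} {a : T} (ha : a ∉ s) (hA : A ⊆ s) :
    W r (insert a s) A = Real.exp (-r a) * W r s A := by
  have haA : a ∉ A := fun h => ha (hA h)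
  unfold W
  rw [insert_sdiff_of_notMem _ haA, prod_insert (fun h => ha (mem_sdiff.1 h).1)]
  ring

theorem W_insert_both (r : T → ℝ) {s A : Finset T} {a : T} (ha : a ∉ s) (hA : A ⊆ s) :
    W r (insert a s) (insert a A) = (1 - Real.exp (-r a)) * W r s A := by
  have haA : a ∉ A := fun h => ha (hA h)
  have h1 : insert a s \ insert a A = s \ A := by
    ext x
    simp only [mem_sdiff, mem_insert]
    constructor
    · rintro ⟨h1 | h1, h2⟩
      · exact absurd (Or.inl h1) h2
      · exact ⟨h1, fun h => h2 (Or.inr h)⟩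
    · rintro ⟨h1, h2⟩
      refine ⟨Or.inr h1, ?_⟩
      rintro (h | h)
      · exact ha (h ▸ h1)
      · exact h2 h
  unfold W
  rw [h1, prod_insert haA]
  ring

/-- The pivotal probability of the new object. -/
theorem PP_insert_self (r : T → ℝ) {s : Finset T} {a : T} (ha : a ∉ s)
    {U : Finset T → Prop} (hU : Frog.Up U) :
    PP r (insert a s) U a = Real.exp (-r a) *
      (Frog.Q r s U - Frog.Q r s (fun A => U (insert a A))) := by
  classical
  unfold PP Frog.Q
  rw [sum_powerset_insert ha]
  have h2 : ∑ A ∈ s.powerset, (if piv U a (insert a A) then W r (insert a s) (insert a A)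
      else 0) = 0 := by
    refine sum_eq_zero fun A _ => ?_
    rw [if_neg]
    rintro ⟨h1, h2⟩
    rw [insert_idem] at h2
    exact h1 h2
  rw [h2, add_zero, ← sum_sub_distrib, mul_sum]
  refine sum_congr rfl fun A hA => ?_
  rw [mem_powerset] at hA
  rw [W_insert_left r ha hA]
  unfold piv
  by_cases h1 : U A
  · have h3 : U (insert a A) := hU _ _ (subset_insert a A) h1
    simp [h1, h3]
  · by_cases h3 : U (insert a A)
    · simp [h1, h3, W]
    · simp [h1, h3]

/-- The pivotal probabilities of the old objects. -/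
theorem PP_insert (r : T → ℝ) {s : Finset T} {a : T} (ha : a ∉ s) (U : Finset T → Prop) (i : T) :
    PP r (insert a s) U i = Real.exp (-r a) * PP r s U i +
      (1 - Real.exp (-r a)) * PP r s (fun A => U (insert a A)) i := by
  classical
  unfold PP
  rw [sum_powerset_insert ha, mul_sum, mul_sum]
  congr 1
  · refine sum_congr rfl fun A hA => ?_
    rw [mem_powerset] at hA
    rw [W_insert_left r ha hA]
    split_ifs <;> simp
  · refine sum_congr rfl fun A hA => ?_
    rw [mem_powerset] at hA
    rw [W_insert_both r ha hA]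
    have h1 : piv U i (insert a A) ↔ piv (fun A => U (insert a A)) i A := by
      unfold piv
      rw [Finset.insert_comm]
    simp only [h1]
    split_ifs <;> simp

/-- Russo's formula along a line. -/
theorem hasDerivAt_Q (r d : T → ℝ) (s : Finset T) {U : Finset T → Prop} (hU : Frog.Up U)
    (t : ℝ) :
    HasDerivAt (fun t : ℝ => Frog.Q (fun i => r i + t * d i) s U)
      (-∑ i ∈ s, d i * PP (fun i => r i + t * d i) s U i) t := by
  classical
  induction s using Finset.induction_on generalizing U with
  | empty =>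
    simp only [Frog.Q_empty, sum_empty, neg_zero]
    exact hasDerivAt_const t _
  | insert a s ha ih =>
    have h0 := ih hU
    have h1 := ih (hU.insert a)
    have he : HasDerivAt (fun t : ℝ => Real.exp (-(r a + t * d a)))
        (Real.exp (-(r a + t * d a)) * (-(d a))) t := by
      have h2 : HasDerivAt (fun t : ℝ => -(r a + t * d a)) (-(d a)) t := by
        have h3 : HasDerivAt (fun t : ℝ => r a + t * d a) (d a) t := by
          simpa using ((hasDerivAt_id t).mul_const (d a)).const_add (r a)
        exact h3.neg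
      exact h2.exp
    have he1 : HasDerivAt (fun t : ℝ => 1 - Real.exp (-(r a + t * d a)))
        (-(Real.exp (-(r a + t * d a)) * (-(d a)))) t := by
      simpa using he.const_sub 1
    have hsum := (he.mul h0).add (he1.mul h1)
    have hfun : (fun t : ℝ => Frog.Q (fun i => r i + t * d i) (insert a s) U) =
        ((fun t : ℝ => Real.exp (-(r a + t * d a))) *
            fun t : ℝ => Frog.Q (fun i => r i + t * d i) s U) +
          ((fun t : ℝ => 1 - Real.exp (-(r a + t * d a))) *
            fun t : ℝ => Frog.Q (fun i => r i + t * d i) s (fun A => U (insert a A))) := by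
      funext t
      exact Frog.Q_insert _ ha U
    rw [hfun]
    refine hsum.congr_deriv ?_
    rw [sum_insert ha, PP_insert_self _ ha hU]
    have h3 : ∑ i ∈ s, d i * PP (fun i => r i + t * d i) (insert a s) U i =
        Real.exp (-(r a + t * d a)) * ∑ i ∈ s, d i * PP (fun i => r i + t * d i) s U i +
        (1 - Real.exp (-(r a + t * d a))) *
          ∑ i ∈ s, d i * PP (fun i => r i + t * d i) s (fun A => U (insert a A)) i := by
      rw [mul_sum, mul_sum, ← sum_add_distrib]
      refine sum_congr rfl fun i _ => ?_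
      rw [PP_insert _ ha]
      ring
    rw [h3]
    ring

theorem EE_eq {r : T → ℝ} {s : Finset T} (hr : ∀ i ∈ s, 0 ≤ r i) (U : Finset T → Prop)
    {l : T → ℝ} (hl : ∀ i ∈ s, 0 ≤ l i) :
    EE r s (fun A => ∑ i ∈ s, ENNReal.ofReal (l i) * ind (piv U i A)) =
      ENNReal.ofReal (∑ i ∈ s, l i * PP r s U i) := by
  classical
  unfold EE PP
  have h1 : ∑ i ∈ s, l i * ∑ A ∈ s.powerset, (if piv U i A then W r s A else 0) =
      ∑ A ∈ s.powerset, W r s A * ∑ i ∈ s, l i * (if piv U i A then 1 else 0) := by
    simp only [mul_sum]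
    rw [sum_comm]
    refine sum_congr rfl fun A _ => sum_congr rfl fun i _ => ?_
    split_ifs <;> ring
  rw [h1, ENNReal.ofReal_sum_of_nonneg]
  · refine sum_congr rfl fun A hA => ?_
    rw [mem_powerset] at hA
    rw [ENNReal.ofReal_mul (W_nonneg hr hA), ENNReal.ofReal_sum_of_nonneg]
    · unfold W
      congr 1
      refine sum_congr rfl fun i hi => ?_
      rw [ENNReal.ofReal_mul (hl i hi)]
      unfold ind
      split_ifs <;> simp
    · intro i hi
      split_ifs
      · simpa using hl i hi
      · simp
  · intro A hA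
    rw [mem_powerset] at hA
    refine mul_nonneg (W_nonneg hr hA) (sum_nonneg fun i hi => ?_)
    split_ifs
    · simpa using hl i hi
    · simp

theorem PP_nonneg {r : T → ℝ} {s : Finset T} (hr : ∀ i ∈ s, 0 ≤ r i) (U : Finset T → Prop)
    (i : T) : 0 ≤ PP r s U i := by
  classical
  unfold PP
  refine sum_nonneg fun A hA => ?_
  rw [mem_powerset] at hA
  split_ifs
  · exact W_nonneg hr hA
  · exact le_rfl

theorem prf : SDer.{u} := by
  intro T _ s U hU r g l hrgl hEE
  have hr : ∀ t ∈ Set.Icc (0 : ℝ) 1, ∀ i ∈ s, 0 ≤ r i + t * (g i - l i) := by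
    intro t ht i hi
    obtain ⟨_, _, h3, h4⟩ := hrgl i hi
    have h5 : r i + t * (g i - l i) = (1 - t) * r i + t * (r i + (g i - l i)) := by ring
    rw [h5]
    exact add_nonneg (mul_nonneg (by linarith [ht.2]) h3) (mul_nonneg ht.1 h4)
  have hd : ∀ t : ℝ, HasDerivAt (fun t : ℝ => Frog.Q (fun i => r i + t * (g i - l i)) s U)
      (-∑ i ∈ s, (g i - l i) * PP (fun i => r i + t * (g i - l i)) s U i) t :=
    fun t => hasDerivAt_Q r (fun i => g i - l i) s hU t
  have hneg : ∀ t ∈ Set.Icc (0 : ℝ) 1,
      -∑ i ∈ s, (g i - l i) * PP (fun i => r i + t * (g i - l i)) s U i ≤ 0 := by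
    intro t ht
    have h1 := hEE t ht
    rw [EE_eq (hr t ht) U (fun i hi => (hrgl i hi).2.1),
      EE_eq (hr t ht) U (fun i hi => (hrgl i hi).1)] at h1
    have h2 : 0 ≤ ∑ i ∈ s, g i * PP (fun i => r i + t * (g i - l i)) s U i :=
      sum_nonneg fun i hi => mul_nonneg (hrgl i hi).1 (PP_nonneg (hr t ht) U i)
    have h3 := (ENNReal.ofReal_le_ofReal_iff h2).1 h1
    have h4 : ∑ i ∈ s, (g i - l i) * PP (fun i => r i + t * (g i - l i)) s U i =
        ∑ i ∈ s, g i * PP (fun i => r i + t * (g i - l i)) s U i -
        ∑ i ∈ s, l i * PP (fun i => r i + t * (g i - l i)) s U i := by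
      rw [← sum_sub_distrib]
      exact sum_congr rfl fun i _ => by ring
    rw [h4]
    linarith
  have hanti : AntitoneOn (fun t : ℝ => Frog.Q (fun i => r i + t * (g i - l i)) s U)
      (Set.Icc 0 1) := by
    refine antitoneOn_of_deriv_nonpos (convex_Icc 0 1)
      (fun t _ => (hd t).continuousAt.continuousWithinAt)
      (fun t _ => (hd t).differentiableAt.differentiableWithinAt) fun t ht => ?_
    rw [(hd t).deriv]
    exact hneg t (interior_subset ht)
  have h01 := hanti (Set.left_mem_Icc.2 zero_le_one) (Set.right_mem_Icc.2 zero_le_one)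
    zero_le_one
  simpa using h01

end Pool.Agent.Fri.I_DER
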