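import Pool.Agent.Work.MP_c9ff92_pr.Fri.Stmts
import Pool.Agent.Work.MP_c9ff92_pr.Fri.Basic

/-!
# Item ESC (MP_c9ff92_pr): uniform escape probability
-/

open Finset
open scoped ENNReal NNReal

noncomputable section

namespace Pool.Agent.Fri.I_ESC

open Pool.Agent.Fri

variable {V : Type*} {P : V → V → ℝ≥0∞}

/-- decomposition at the last visit -/
theorem last_exit (hP : Ker P) (x : V) (n : ℕ) (y : V) :
    sv P {x} n y + ∑ k ∈ Finset.range n, pk P (k + 1) y x * sv P {x} (n - (k + 1)) x = 1 := by
  induction n generalizing y with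
  | zero => simp [sv_zero]
  | succ n ih =>
    have h1 : sv P {x} (n + 1) y + P y x * sv P {x} n x = ∑' z, P y z * sv P {x} n z := by
      have h2 : P y x * sv P {x} n x = ∑' z, ind (z = x) * (P y z * sv P {x} n z) :=
        (tsum_ind_eq' x fun z => P y z * sv P {x} n z).symm
      rw [h2, sv_succ, ← ENNReal.tsum_add]
      refine tsum_congr fun z => ?_
      by_cases h : z = x
      · rw [ind_true h, ind_false (fun h' => h' h)]
        simp
      · rw [ind_false h, ind_true (p := z ∉ ({x} : Set V)) (fun h' => h h')]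
        simp
    have hp1 : pk P 1 y x = P y x := by
      rw [pk_succ]
      simp only [pk_zero]
      have : ∀ w, P y w * ind (w = x) = ind (w = x) * P y w := fun w => mul_comm _ _
      simp only [this]
      exact tsum_ind_eq' x fun w => P y w
    rw [Finset.sum_range_succ']
    have h3 : n + 1 - (0 + 1) = n := by omega
    rw [h3, Nat.zero_add, hp1]
    have h4 : ∑ k ∈ Finset.range n, pk P (k + 1 + 1) y x * sv P {x} (n + 1 - (k + 1 + 1)) x =
        ∑' z, P y z * ∑ k ∈ Finset.range n, pk P (k + 1) z x * sv P {x} (n - (k + 1)) x := by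
      simp only [Finset.mul_sum]
      rw [Summable.tsum_finsetSum (fun _ _ => ENNReal.summable)]
      refine Finset.sum_congr rfl fun k _ => ?_
      rw [pk_succ (k + 1), ← ENNReal.tsum_mul_right]
      have h5 : n + 1 - (k + 1 + 1) = n - (k + 1) := by omega
      rw [h5]
      exact tsum_congr fun z => mul_assoc _ _ _
    rw [h4, add_comm (∑' z, P y z * ∑ k ∈ Finset.range n, pk P (k + 1) z x *
      sv P {x} (n - (k + 1)) x), ← add_assoc, h1, ← ENNReal.tsum_add]
    have h6 : ∀ z, P y z * sv P {x} n z + P y z * ∑ k ∈ Finset.range n, pk P (k + 1) z x *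
        sv P {x} (n - (k + 1)) x = P y z := by
      intro z
      rw [← mul_add, ih z, mul_one]
    rw [tsum_congr h6, hP.sum]

theorem prf.{u} : SEsc.{u} := by
  intro V P hP C0 hHK
  set a : ℕ → ℝ≥0∞ := fun k => ENNReal.ofReal (|C0| / ((k : ℝ) * Real.sqrt k)) with ha
  have hsum : ∑' k, a k ≠ ⊤ := by
    have h1 : Summable fun k : ℕ => |C0| / ((k : ℝ) * Real.sqrt k) := by
      have h2 : Summable fun k : ℕ => 1 / (k : ℝ) ^ (3 / 2 : ℝ) :=
        Real.summable_one_div_nat_rpow.2 (by norm_num)
      have h3 := h2.mul_left |C0|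
      refine h3.congr fun k => ?_
      have h4 : (k : ℝ) ^ (3 / 2 : ℝ) = (k : ℝ) * Real.sqrt k := by
        rcases Nat.eq_zero_or_pos k with h0 | h0
        · subst h0; simp
        · have hk : (0 : ℝ) < k := by exact_mod_cast h0
          rw [Real.sqrt_eq_rpow, show (3 / 2 : ℝ) = 1 + 1 / 2 by norm_num, Real.rpow_add hk,
            Real.rpow_one]
      rw [h4]
      ring
    exact h1.tsum_ofReal_ne_top
  set S := ∑' k, a k with hS
  have hkey : ∀ (x : V) (i : ℕ), 1 / 2 ≤ sv P {x} i x * (1 + S) := by
    intro x i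
    have hpa : ∀ k, pk P (k + 1) x x ≤ a (k + 1) := by
      intro k
      refine (hHK (k + 1) (by omega) x x).trans (ENNReal.ofReal_le_ofReal ?_)
      exact div_le_div_of_nonneg_right (le_abs_self _) (by positivity)
    -- choose `N` large
    obtain ⟨N, hN⟩ := exists_nat_gt (2 * (i * |C0|))
    have hbd : 1 ≤ sv P {x} i x * (1 + S) + 1 / 2 := by
      have h1 := last_exit hP x (N + i) x
      rw [Finset.sum_range_add] at h1
      have h2 : sv P {x} (N + i) x ≤ sv P {x} i x := sv_anti hP _ x (by omega)
      have h3 : ∑ k ∈ Finset.range N, pk P (k + 1) x x * sv P {x} (N + i - (k + 1)) x ≤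
          sv P {x} i x * S := by
        calc ∑ k ∈ Finset.range N, pk P (k + 1) x x * sv P {x} (N + i - (k + 1)) x
            ≤ ∑ k ∈ Finset.range N, a (k + 1) * sv P {x} i x := by
              refine Finset.sum_le_sum fun k hk => ?_
              rw [Finset.mem_range] at hk
              exact mul_le_mul' (hpa k) (sv_anti hP _ x (by omega))
          _ = sv P {x} i x * ∑ k ∈ Finset.range N, a (k + 1) := by
              rw [← Finset.sum_mul, mul_comm]
          _ ≤ sv P {x} i x * S := by
              apply mul_le_mul_right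
              calc ∑ k ∈ Finset.range N, a (k + 1) ≤ ∑' k, a (k + 1) :=
                    ENNReal.sum_le_tsum _
                _ ≤ S := ENNReal.tsum_comp_le_tsum_of_injective (add_left_injective 1) a
      have h4 : ∑ k ∈ Finset.range i, pk P (N + k + 1) x x *
          sv P {x} (N + i - (N + k + 1)) x ≤ 1 / 2 := by
        have hb : ∀ k, a (N + k + 1) ≤ ENNReal.ofReal (|C0| / ((N : ℝ) + 1)) := by
          intro k
          apply ENNReal.ofReal_le_ofReal
          apply div_le_div_of_nonneg_left (abs_nonneg _) (by positivity)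
          push_cast
          have h5 : (1 : ℝ) ≤ Real.sqrt ((N : ℝ) + k + 1) := by
            apply Real.one_le_sqrt.2
            have : (0 : ℝ) ≤ N := Nat.cast_nonneg _
            have : (0 : ℝ) ≤ k := Nat.cast_nonneg _
            linarith
          have h6 : (0 : ℝ) ≤ N := Nat.cast_nonneg _
          have h7 : (0 : ℝ) ≤ k := Nat.cast_nonneg _
          nlinarith
        calc ∑ k ∈ Finset.range i, pk P (N + k + 1) x x * sv P {x} (N + i - (N + k + 1)) x
            ≤ ∑ k ∈ Finset.range i, ENNReal.ofReal (|C0| / ((N : ℝ) + 1)) := by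
              refine Finset.sum_le_sum fun k _ => ?_
              calc _ ≤ ENNReal.ofReal (|C0| / ((N : ℝ) + 1)) * 1 :=
                    mul_le_mul' ((hpa (N + k)).trans (hb k)) (sv_le_one hP _ _ _)
                _ = _ := mul_one _
          _ = ENNReal.ofReal (i * (|C0| / ((N : ℝ) + 1))) := by
              rw [Finset.sum_const, Finset.card_range, nsmul_eq_mul,
                ENNReal.ofReal_mul (Nat.cast_nonneg i), ENNReal.ofReal_natCast]
          _ ≤ ENNReal.ofReal (1 / 2) := by
              apply ENNReal.ofReal_le_ofReal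
              have hN1 : (0 : ℝ) < (N : ℝ) + 1 := by positivity
              rw [← mul_div_assoc, div_le_iff₀ hN1]
              linarith
          _ = 1 / 2 := by
              rw [ENNReal.ofReal_div_of_pos (by norm_num), ENNReal.ofReal_one]
              norm_num
      calc (1 : ℝ≥0∞) = _ := h1.symm
        _ ≤ sv P {x} i x + (sv P {x} i x * S + 1 / 2) :=
            add_le_add h2 (add_le_add h3 h4)
        _ = sv P {x} i x * (1 + S) + 1 / 2 := by ring
    have h8 : (1 : ℝ≥0∞) / 2 + 1 / 2 = 1 := ENNReal.add_halves 1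
    have h9 : (1 : ℝ≥0∞) / 2 + 1 / 2 ≤ sv P {x} i x * (1 + S) + 1 / 2 := by
      rw [h8]; exact hbd
    exact (ENNReal.add_le_add_iff_right (show (1 : ℝ≥0∞) / 2 ≠ ⊤ by norm_num)).1 h9
  have hS1 : 1 + S ≠ ⊤ := ENNReal.add_ne_top.2 ⟨ENNReal.one_ne_top, hsum⟩
  have hS0 : 1 + S ≠ 0 := by
    intro h
    have : (1 : ℝ≥0∞) ≤ 1 + S := le_self_add
    rw [h] at this
    simp at this
  refine ⟨((1 / 2 : ℝ≥0∞) / (1 + S)).toReal, ?_, ?_⟩
  · apply ENNReal.toReal_pos
    · exact (ENNReal.div_pos (by norm_num) hS1).ne'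
    · exact ENNReal.div_ne_top (by norm_num) hS0
  · intro x n
    rw [ENNReal.ofReal_toReal (ENNReal.div_ne_top (by norm_num) hS0)]
    exact ENNReal.div_le_of_le_mul (hkey x n)

end Pool.Agent.Fri.I_ESC
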