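import Pool.Agent.Work.MP_c9ff92_pr.Fri.Stmts
import Pool.Agent.Work.MP_c9ff92_pr.Fri.Basic

/-!
# Item EXIT: a long walk leaves a finite set (MP_c9ff92_pr)
-/

open Finset
open scoped ENNReal NNReal

noncomputable section

universe u

namespace Pool.Agent.Fri.I_EXIT

open Pool.Agent.Fri

variable {V : Type*} {P : V → V → ℝ≥0∞}

/-- The walks which stay in a finite set. -/
theorem stay_le (hP : Ker P) (D : Finset V) (n : ℕ) (hn : 1 ≤ n) (x : V) :
    ∑' b : List V, ind (b.length = n ∧ ¬ tch (D : Set V)ᶜ b) * wt P (x :: b) ≤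
      ∑ z ∈ D, pk P n x z := by
  have h1 : ∀ z ∈ D, pk P n x z =
      ∑' b : List V, ind (b.length = n ∧ (x :: b)[n]? = some z) * wt P (x :: b) :=
    fun z _ => (sum_pos hP n n le_rfl x z).symm
  rw [Finset.sum_congr rfl h1, ← (Summable.tsum_finsetSum fun _ _ => ENNReal.summable)]
  refine ENNReal.tsum_le_tsum fun b => ?_
  rw [← Finset.sum_mul]
  gcongr
  by_cases hb : b.length = n ∧ ¬ tch (D : Set V)ᶜ b
  · obtain ⟨hl, ht⟩ := hb
    have hlt : n - 1 < b.length := by omega
    have hz : b[n - 1] ∈ D := by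
      by_contra hcon
      exact ht ⟨b[n - 1], List.getElem_mem hlt, hcon⟩
    have hs : (x :: b)[n]? = some b[n - 1] := by
      obtain ⟨k, rfl⟩ := Nat.exists_eq_add_of_le' hn
      rw [List.getElem?_cons_succ]
      simp only [Nat.add_sub_cancel] at hlt ⊢
      exact List.getElem?_eq_getElem hlt
    calc ind (b.length = n ∧ ¬ tch (D : Set V)ᶜ b) ≤ 1 := ind_le_one _
      _ = ind (b.length = n ∧ (x :: b)[n]? = some b[n - 1]) := (ind_true ⟨hl, hs⟩).symm
      _ ≤ ∑ z ∈ D, ind (b.length = n ∧ (x :: b)[n]? = some z) :=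
          Finset.single_le_sum (f := fun z => ind (b.length = n ∧ (x :: b)[n]? = some z))
            (fun _ _ => zero_le) hz
  · rw [ind_false hb]
    exact zero_le

theorem prf : SExit.{u} := by
  intro V P hP C0 hC D hD
  obtain ⟨D, rfl⟩ := hD.exists_finset_coe
  refine ⟨max 1 ⌈2 * (D.card : ℝ) * |C0|⌉₊, fun n hn x => ?_⟩
  have hn1 : 1 ≤ n := le_trans (le_max_left _ _) hn
  have hn2 : 2 * (D.card : ℝ) * |C0| ≤ n := by
    refine (Nat.le_ceil _).trans ?_
    exact_mod_cast le_trans (le_max_right _ _) hn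
  have hn1' : (1 : ℝ) ≤ n := by exact_mod_cast hn1
  have hsq : 1 ≤ Real.sqrt n := Real.one_le_sqrt.2 hn1'
  have hbound : (D.card : ℝ) * (C0 / (n * Real.sqrt n)) ≤ 1 / 2 := by
    have hpos : (0 : ℝ) < n * Real.sqrt n := by positivity
    have h3 : (D.card : ℝ) * (C0 / (n * Real.sqrt n)) ≤
        ((D.card : ℝ) * |C0|) / (n * Real.sqrt n) := by
      rw [← mul_div_assoc]
      gcongr
      exact le_abs_self _
    refine h3.trans ?_
    rw [div_le_iff₀ hpos]
    have h4 : (n : ℝ) * 1 ≤ n * Real.sqrt n := by gcongr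
    nlinarith
  have hB : ∑' b : List V, ind (b.length = n ∧ ¬ tch (D : Set V)ᶜ b) * wt P (x :: b) ≤ 1 / 2 := by
    refine (stay_le hP D n hn1 x).trans ?_
    calc ∑ z ∈ D, pk P n x z ≤ ∑ _z ∈ D, ENNReal.ofReal (C0 / (n * Real.sqrt n)) :=
          Finset.sum_le_sum fun z _ => hC n hn1 x z
      _ = ENNReal.ofReal ((D.card : ℝ) * (C0 / (n * Real.sqrt n))) := by
          rw [Finset.sum_const, nsmul_eq_mul, ENNReal.ofReal_mul (by positivity),
            ENNReal.ofReal_natCast]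
      _ ≤ ENNReal.ofReal (1 / 2) := ENNReal.ofReal_le_ofReal hbound
      _ = 1 / 2 := by
          rw [ENNReal.ofReal_div_of_pos (by norm_num)]
          simp
  have hsum : (1 : ℝ≥0∞) =
      ∑' b : List V, ind (b.length = n ∧ tch (D : Set V)ᶜ b) * wt P (x :: b) +
      ∑' b : List V, ind (b.length = n ∧ ¬ tch (D : Set V)ᶜ b) * wt P (x :: b) := by
    rw [← ENNReal.tsum_add, ← sum_len hP n x]
    refine tsum_congr fun b => ?_
    rw [← add_mul]
    congr 1
    by_cases h1 : b.length = n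
    · by_cases h2 : tch (D : Set V)ᶜ b
      · rw [ind_true h1, ind_true ⟨h1, h2⟩, ind_false (fun h => h.2 h2), add_zero]
      · rw [ind_true h1, ind_false (fun h => h2 h.2), ind_true ⟨h1, h2⟩, zero_add]
    · rw [ind_false h1, ind_false (fun h => h1 h.1), ind_false (fun h => h1 h.1), add_zero]
  by_contra hcon
  rw [not_le] at hcon
  have h5 : ∑' b : List V, ind (b.length = n ∧ tch (D : Set V)ᶜ b) * wt P (x :: b) +
      ∑' b : List V, ind (b.length = n ∧ ¬ tch (D : Set V)ᶜ b) * wt P (x :: b) <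
      1 / 2 + 1 / 2 := by
    refine ENNReal.add_lt_add_of_lt_of_le ?_ hcon hB
    exact ne_top_of_le_ne_top (by simp) hB
  rw [← hsum, ENNReal.add_halves] at h5
  exact lt_irrefl _ h5

end Pool.Agent.Fri.I_EXIT
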