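import Pool.Agent.Work.MP_c9ff92_pr.Fri.Stmts
import Pool.Agent.Work.MP_c9ff92_pr.Fri.Basic

/-!
# Item GOOD: at least a fifth of the marks is good (MP_c9ff92_pr)
-/

open Finset
open scoped ENNReal NNReal

noncomputable section

namespace Pool.Agent.Fri.I_GOOD

universe u

variable {V : Type*} {P : V → V → ℝ≥0∞}

/-- Splitting off the first `s` elements of a list. -/
theorem tsum_drop (s : ℕ) (f : List V → ℝ≥0∞) :
    ∑' a : List V, ind (s ≤ a.length) * f a =
      ∑' p : List V, ∑' a : List V, ind (p.length = s) * f (p ++ a) := by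
  induction s generalizing f with
  | zero =>
    rw [tsum_list fun p : List V => ∑' a : List V, ind (p.length = 0) * f (p ++ a)]
    have h1 : ∀ x : V, ∀ l : List V, ∑' a : List V, ind ((x :: l).length = 0) * f (x :: l ++ a)
        = 0 := by
      intro x l
      rw [ind_false (by simp)]
      simp
    simp only [h1, tsum_zero, add_zero]
    refine tsum_congr fun a => ?_
    rw [ind_true (Nat.zero_le _), ind_true List.length_nil, List.nil_append]
  | succ s ih =>
    rw [tsum_list, tsum_list fun p : List V => ∑' a : List V, ind (p.length = s + 1) * f (p ++ a)]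
    rw [ind_false (by simp), zero_mul, zero_add]
    have h0 : ∑' a : List V, ind (([] : List V).length = s + 1) * f ([] ++ a) = 0 := by
      rw [ind_false (by simp)]
      simp
    rw [h0, zero_add]
    refine tsum_congr fun x => ?_
    have h := ih fun l => f (x :: l)
    have e1 : ∀ l : List V, ind (s + 1 ≤ (x :: l).length) = ind (s ≤ l.length) := by
      intro l
      apply ind_congr
      simp
    have e2 : ∀ p : List V, ind ((x :: p).length = s + 1) = ind (p.length = s) := by
      intro p
      apply ind_congr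
      simp
    simp only [e1, e2]
    rw [h]
    rfl

/-- Type U: the first part is too long. -/
def tU (k : ℕ) (a : List V) (_y : V) (_b : List V) : Prop := k < a.length + 1

theorem part_a (hP : Ker P) (R B : Set V) (m s : ℕ) (hs : 3 * s ≤ m) :
    JJ P R B m (fun a y b => tU (m - s) a y b ∧ tch R (a.drop s)) ≤
      JJ P R B m (good (m - s)) := by
  unfold JJ
  have h1 : ∀ a : List V, (∑' y : V, ∑' b : List V,
      ind (mark R B a y b ∧ a.length + b.length + 1 ≤ m ∧ tU (m - s) a y b ∧ tch R (a.drop s)) *
        wt P (a ++ y :: b)) ≤ ind (s ≤ a.length) * (∑' y : V, ∑' b : List V,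
      ind (mark R B a y b ∧ a.length + b.length + 1 ≤ m ∧ tU (m - s) a y b ∧ tch R (a.drop s)) *
        wt P (a ++ y :: b)) := by
    intro a
    by_cases h : s ≤ a.length
    · rw [ind_true h, one_mul]
    · rw [ind_false h, zero_mul]
      refine le_of_eq (ENNReal.tsum_eq_zero.2 fun y => ENNReal.tsum_eq_zero.2 fun b => ?_)
      rw [ind_false, zero_mul]
      rintro ⟨-, -, h2, -⟩
      unfold tU at h2
      omega
  refine (ENNReal.tsum_le_tsum h1).trans ?_
  rw [tsum_drop s fun a => ∑' y : V, ∑' b : List V,
      ind (mark R B a y b ∧ a.length + b.length + 1 ≤ m ∧ tU (m - s) a y b ∧ tch R (a.drop s)) *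
        wt P (a ++ y :: b)]
  rw [ENNReal.tsum_comm]
  refine ENNReal.tsum_le_tsum fun a => ?_
  have h2 : ∀ p : List V, ind (p.length = s) * (∑' y : V, ∑' b : List V,
      ind (mark R B (p ++ a) y b ∧ (p ++ a).length + b.length + 1 ≤ m ∧ tU (m - s) (p ++ a) y b ∧
        tch R ((p ++ a).drop s)) * wt P (p ++ a ++ y :: b)) ≤
      ∑' y : V, ∑' b : List V,
      ind (mark R B a y b ∧ a.length + b.length + 1 ≤ m ∧ good (m - s) a y b) *
        (ind (p.length = s) * wt P (p ++ (a ++ y :: b))) := by
    intro p
    rw [← ENNReal.tsum_mul_left]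
    refine ENNReal.tsum_le_tsum fun y => ?_
    rw [← ENNReal.tsum_mul_left]
    refine ENNReal.tsum_le_tsum fun b => ?_
    rw [List.append_assoc]
    by_cases hp : p.length = s
    · rw [ind_true hp, one_mul, one_mul]
      gcongr
      apply ind_mono
      rintro ⟨⟨m1, m2, m3, m4, m5, m6⟩, h3, h4, h5⟩
      have h6 : (p ++ a).drop s = a := by
        rw [← hp]
        simp
      rw [h6] at h5
      rw [tch_append] at m2
      unfold tU at h4
      rw [List.length_append] at h3 h4
      refine ⟨⟨h5, fun h => m2 (Or.inr h), m3, m4, m5, m6⟩, by omega, ?_⟩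
      unfold good
      omega
    · rw [ind_false hp, zero_mul, zero_mul, mul_zero]
  refine (ENNReal.tsum_le_tsum h2).trans ?_
  rw [ENNReal.tsum_comm]
  refine ENNReal.tsum_le_tsum fun y => ?_
  rw [ENNReal.tsum_comm]
  refine ENNReal.tsum_le_tsum fun b => ?_
  rw [ENNReal.tsum_mul_left, sum_prefix hP s (w := a ++ y :: b) (by simp)]

open Classical in
/-- The sum over the marks as a sum over walks and positions. -/
theorem JJ_split (R B : Set V) (m : ℕ) (q : List V → V → List V → Prop) :
    JJ P R B m q = ∑' w : List V, ∑ k ∈ range w.length,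
      ind (∃ a y b, w = a ++ y :: b ∧ a.length = k ∧ mark R B a y b ∧
        a.length + b.length + 1 ≤ m ∧ q a y b) * wt P w := by
  rw [tsum_split fun w k => ind (∃ a y b, w = a ++ y :: b ∧ a.length = k ∧ mark R B a y b ∧
        a.length + b.length + 1 ≤ m ∧ q a y b) * wt P w]
  unfold JJ
  refine tsum_congr fun a => tsum_congr fun y => tsum_congr fun b => ?_
  congr 1
  apply ind_congr
  constructor
  · rintro ⟨h1, h2, h3⟩
    exact ⟨a, y, b, rfl, rfl, h1, h2, h3⟩
  · rintro ⟨a', y', b', h, hl, h1, h2, h3⟩
    have h4 := List.append_inj h hl.symm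
    obtain ⟨rfl, h5⟩ := h4
    rw [List.cons.injEq] at h5
    obtain ⟨rfl, rfl⟩ := h5
    exact ⟨h1, h2, h3⟩

open Classical in
theorem sum_ind (s : Finset ℕ) (p : ℕ → Prop) : ∑ k ∈ s, ind (p k) = ((s.filter p).card : ℝ≥0∞) := by
  unfold ind
  rw [Finset.sum_boole]

theorem part_b (R B : Set V) (m s : ℕ) (hs : 3 * s ≤ m) :
    JJ P R B m (fun a y b => tU (m - s) a y b ∧ ¬ tch R (a.drop s)) ≤
      JJ P R B m (good (m - s)) := by
  classical
  rw [JJ_split, JJ_split]
  refine ENNReal.tsum_le_tsum fun w => ?_
  rw [← Finset.sum_mul, ← Finset.sum_mul, sum_ind, sum_ind]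
  gcongr ?_ * _
  rw [Nat.cast_le]
  by_cases h0 : ((range w.length).filter fun k => ∃ a y b, w = a ++ y :: b ∧ a.length = k ∧
      mark R B a y b ∧ a.length + b.length + 1 ≤ m ∧ tU (m - s) a y b ∧
      ¬ tch R (a.drop s)) = ∅
  · rw [h0]
    simp
  obtain ⟨k0, hk0⟩ := Finset.nonempty_iff_ne_empty.2 h0
  rw [mem_filter] at hk0
  obtain ⟨-, a, y, b, rfl, rfl, ⟨m1, m2, m3, m4, m5, m6⟩, h2, h3, h4⟩ := hk0
  unfold tU at h3
  have hU : ((range (a ++ y :: b).length).filter fun k => ∃ a' y' b', a ++ y :: b =
      a' ++ y' :: b' ∧ a'.length = k ∧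
      mark R B a' y' b' ∧ a'.length + b'.length + 1 ≤ m ∧ tU (m - s) a' y' b' ∧
      ¬ tch R (a'.drop s)) ⊆ Finset.Ico (m - s) m := by
    intro k hk
    rw [mem_filter] at hk
    obtain ⟨-, a', y', b', -, hl, -, h5, h6, -⟩ := hk
    unfold tU at h6
    rw [Finset.mem_Ico]
    omega
  have hG : Finset.Ico s (m - s) ⊆ ((range (a ++ y :: b).length).filter fun k => ∃ a' y' b',
      a ++ y :: b = a' ++ y' :: b' ∧ a'.length = k ∧
      mark R B a' y' b' ∧ a'.length + b'.length + 1 ≤ m ∧ good (m - s) a' y' b') := by
    intro j hj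
    rw [Finset.mem_Ico] at hj
    have hja : j < a.length := by omega
    rw [mem_filter, mem_range]
    refine ⟨by rw [List.length_append]; omega, a.take j, a[j], a.drop (j + 1) ++ y :: b, ?_,
      ?_, ⟨?_, ?_, ?_, ?_, ?_, ?_⟩, ?_, ?_⟩
    · rw [← List.cons_append, ← List.append_assoc, List.getElem_cons_drop,
        List.take_append_drop]
    · rw [List.length_take]
      omega
    · obtain ⟨x, hx, hxR⟩ := m1
      refine ⟨x, ?_, hxR⟩
      rw [← List.take_append_drop s a, List.mem_append] at hx
      rcases hx with hx | hx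
      · exact (List.take_subset_take_left a hj.1) hx
      · exact absurd ⟨x, hx, hxR⟩ h4
    · intro h
      exact m2 (tch_mono_list (List.take_subset j a) h)
    · intro h
      refine h4 ⟨a[j], ?_, h⟩
      rw [List.mem_drop_iff_getElem]
      exact ⟨j - s, by omega, by congr 1; omega⟩
    · intro h
      exact m2 ⟨a[j], List.getElem_mem hja, h⟩
    · rw [tch_append, tch_cons]
      exact Or.inr (Or.inr m5)
    · rw [tch_append, tch_cons]
      rintro (h | h | h)
      · refine h4 (tch_mono_list ?_ h)
        have : a.drop (j + 1) = (a.drop s).drop (j + 1 - s) := by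
          rw [List.drop_drop]
          congr 1
          omega
        rw [this]
        exact List.drop_subset _ _
      · exact m3 h
      · exact m6 h
    · simp only [List.length_append, List.length_take, List.length_drop, List.length_cons]
      omega
    · unfold good
      simp only [List.length_append, List.length_take, List.length_drop, List.length_cons]
      omega
  have c1 := Finset.card_le_card hU
  have c2 := Finset.card_le_card hG
  rw [Nat.card_Ico] at c1 c2
  omega

theorem typeU (hP : Ker P) (R B : Set V) (m s : ℕ) (hs : 3 * s ≤ m) :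
    JJ P R B m (tU (m - s)) ≤ 2 * JJ P R B m (good (m - s)) := by
  refine (JJ_add_le (q1 := fun a y b => tU (m - s) a y b ∧ tch R (a.drop s))
    (q2 := fun a y b => tU (m - s) a y b ∧ ¬ tch R (a.drop s)) ?_).trans ?_
  · intro a y b _ _ h
    by_cases h' : tch R (a.drop s)
    · exact Or.inl ⟨h, h'⟩
    · exact Or.inr ⟨h, h'⟩
  · rw [two_mul]
    exact add_le_add (part_a hP R B m s hs) (part_b R B m s hs)

theorem prf : SGood.{u} := by
  intro V P hP R B m s hs
  have h1 : JJ P R B m (fun _ _ _ => True) ≤ JJ P R B m (good (m - s)) +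
      JJ P R B m (fun a y b => tU (m - s) a y b ∨ tU (m - s) b.reverse y a.reverse) := by
    refine JJ_add_le fun a y b _ _ _ => ?_
    by_cases hg : good (m - s) a y b
    · exact Or.inl hg
    · right
      unfold good at hg
      unfold tU
      rw [List.length_reverse]
      omega
  have h2 : JJ P R B m (fun a y b => tU (m - s) a y b ∨ tU (m - s) b.reverse y a.reverse) ≤
      JJ P R B m (tU (m - s)) + JJ P R B m (fun a y b => tU (m - s) b.reverse y a.reverse) :=
    JJ_add_le fun a y b _ _ h => h
  have h3 : JJ P R B m (fun a y b => tU (m - s) b.reverse y a.reverse) =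
      JJ P B R m (tU (m - s)) := (JJ_reverse hP B R m (tU (m - s))).symm
  have h4 : JJ P B R m (good (m - s)) = JJ P R B m (good (m - s)) := by
    rw [JJ_reverse hP B R]
    congr 1
    funext a y b
    unfold good
    rw [List.length_reverse, List.length_reverse]
    exact propext ⟨fun h => ⟨h.2, h.1⟩, fun h => ⟨h.2, h.1⟩⟩
  have h5 := typeU hP R B m s hs
  have h6 := typeU hP B R m s hs
  rw [h4] at h6
  rw [h3] at h2
  calc JJ P R B m (fun _ _ _ => True)
      ≤ JJ P R B m (good (m - s)) + (JJ P R B m (tU (m - s)) + JJ P B R m (tU (m - s))) :=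
        h1.trans (by gcongr)
    _ ≤ JJ P R B m (good (m - s)) + (2 * JJ P R B m (good (m - s)) +
        2 * JJ P R B m (good (m - s))) := by gcongr
    _ = 5 * JJ P R B m (good (m - s)) := by ring

end Pool.Agent.Fri.I_GOOD
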