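import Pool.Agent.Work.MP_c9ff92_pr.Fri.Stmts
import Pool.Agent.Work.MP_c9ff92_pr.Fri.Basic
import Pool.Agent.Work.MP_c9ff92_pr.Heat

/-!
# Item HEAT (MP_c9ff92_pr): the heat kernel bound
-/

open Finset
open scoped ENNReal NNReal

noncomputable section

namespace Pool.Agent.Fri.I_HEAT

open Pool.Agent.Fri

variable {V : Type*} [DecidableEq V]

theorem pk_eq (G : SimpleGraph V) [G.LocallyFinite] {d : ℕ} (hd : 0 < d)
    (hreg : G.IsRegularOfDegree d) (n : ℕ) (x y : V) :
    pk (srw G) n x y = ENNReal.ofReal (Frog.Heat.pk G d n x y) := by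
  induction n generalizing x with
  | zero =>
    rw [pk_zero, Frog.Heat.pk_zero]
    by_cases h : x = y
    · rw [ind_true h, if_pos h, ENNReal.ofReal_one]
    · rw [ind_false h, if_neg h, ENNReal.ofReal_zero]
  | succ n ih =>
    have hd' : (0 : ℝ) < d := by exact_mod_cast hd
    rw [pk_succ, Frog.Heat.pk_succ]
    rw [tsum_eq_sum (s := G.neighborFinset x)]
    · rw [ENNReal.ofReal_div_of_pos hd', ENNReal.ofReal_sum_of_nonneg
        (fun z _ => Frog.Heat.pk_nonneg G d n z y), ENNReal.ofReal_natCast, div_eq_mul_inv,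
        Finset.sum_mul]
      refine Finset.sum_congr rfl fun z hz => ?_
      rw [SimpleGraph.mem_neighborFinset] at hz
      rw [srw, ind_true hz, one_mul, ih z, hreg x, mul_comm]
    · intro z hz
      rw [SimpleGraph.mem_neighborFinset] at hz
      rw [srw, ind_false hz, zero_mul, zero_mul]

theorem prf.{u} : SHeat.{u} := by
  intro V _ G _ hconn htr o c hc hgr
  have hreg : G.IsRegularOfDegree (G.degree o) := by
    intro x
    obtain ⟨φ, hφ⟩ := htr o x
    rw [← hφ]
    exact φ.degree_eq o
  have hd : 0 < G.degree o := by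
    rcases Nat.eq_zero_or_pos (G.degree o) with h0 | h0
    · exfalso
      have h1 : ∀ x, x = o := by
        intro x
        by_contra hx
        obtain ⟨p⟩ := hconn.preconnected o x
        have : 0 < G.degree o := by
          rw [SimpleGraph.degree_pos_iff_exists_adj]
          cases p with
          | nil => exact absurd rfl hx
          | cons h q => exact ⟨_, h⟩
        omega
      obtain ⟨r, hr⟩ := exists_nat_gt (1 / c)
      have hr0 : (0 : ℝ) < r := lt_trans (by positivity) hr
      have h2 := hgr r
      have h3 : ({x | G.dist o x ≤ r} : Set V).ncard ≤ 1 := by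
        have : ({x | G.dist o x ≤ r} : Set V) ⊆ {o} := fun x _ => h1 x
        calc _ ≤ ({o} : Set V).ncard := Set.ncard_le_ncard this (Set.finite_singleton o)
          _ = 1 := Set.ncard_singleton o
      have h4 : c * (r : ℝ) ^ 3 ≤ 1 := h2.trans (by exact_mod_cast h3)
      have h5 : (1 : ℝ) ≤ r := by
        have : 0 < r := by exact_mod_cast hr0
        exact_mod_cast this
      have h6 : 1 < c * r := by
        rw [div_lt_iff₀ hc] at hr
        linarith
      have h7 : c * r ≤ c * (r : ℝ) ^ 3 := by
        apply mul_le_mul_of_nonneg_left _ hc.le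
        exact le_self_pow₀ h5 (by norm_num)
      linarith
    · exact h0
  obtain ⟨C, hC, h⟩ := Frog.Heat.pk_le G hreg hconn htr o hc fun n _ => hgr n
  refine ⟨C, fun n hn x y => ?_⟩
  rw [pk_eq G hd hreg]
  exact ENNReal.ofReal_le_ofReal (h n x y hn)

end Pool.Agent.Fri.I_HEAT
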