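import Pool.Agent.Work.MP_c9ff92_pr.Fri.Stmts
import Pool.Agent.Work.MP_c9ff92_pr.Fri.Basic

/-!
# Item HIGH (MP_c9ff92_pr)
-/

open Finset
open scoped ENNReal NNReal

noncomputable section

namespace Pool.Agent.Fri.I_HIGH3

open Pool.Agent.Fri

variable {V : Type*} {P : V → V → ℝ≥0∞}

/-- one step of the walk which avoids `B` -/
def K (P : V → V → ℝ≥0∞) (B : Set V) (f : V → ℝ≥0∞) (z : V) : ℝ≥0∞ :=
  ∑' z', P z z' * (ind (z' ∉ B) * f z')

theorem K_mono {B : Set V} {f g : V → ℝ≥0∞} (h : ∀ z, f z ≤ g z) (z : V) :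
    K P B f z ≤ K P B g z :=
  ENNReal.tsum_le_tsum fun z' => by gcongr; exact h z'

theorem K_mul {B : Set V} (c : ℝ≥0∞) (f : V → ℝ≥0∞) (z : V) :
    K P B (fun w => c * f w) z = c * K P B f z := by
  unfold K
  rw [← ENNReal.tsum_mul_left]
  exact tsum_congr fun z' => by ring

theorem K_add {B : Set V} (f g : V → ℝ≥0∞) (z : V) :
    K P B (fun w => f w + g w) z = K P B f z + K P B g z := by
  unfold K
  rw [← ENNReal.tsum_add]
  exact tsum_congr fun z' => by ring

theorem K_one_le (hP : Ker P) {B : Set V} (z : V) : K P B (fun _ => 1) z ≤ 1 := by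
  unfold K
  calc ∑' z', P z z' * (ind (z' ∉ B) * 1) ≤ ∑' z', P z z' := by
        refine ENNReal.tsum_le_tsum fun z' => ?_
        calc P z z' * (ind (z' ∉ B) * 1) ≤ P z z' * (1 * 1) := by
              gcongr; exact ind_le_one _
          _ = P z z' := by simp
    _ = 1 := hP.sum z

theorem K_const_le (hP : Ker P) {B : Set V} (c : ℝ≥0∞) (z : V) : K P B (fun _ => c) z ≤ c := by
  have h := K_mul (P := P) (B := B) c (fun _ => 1) z
  have h2 : K P B (fun _ => c) z = c * K P B (fun _ => 1) z := by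
    rw [← h]
    congr 1
    funext w
    rw [mul_one]
  rw [h2]
  calc c * K P B (fun _ => 1) z ≤ c * 1 := by gcongr; exact K_one_le hP z
    _ = c := mul_one c

theorem sv_succ_K (B : Set V) (n : ℕ) (z : V) : sv P B (n + 1) z = K P B (sv P B n) z := rfl

def v1 (P : V → V → ℝ≥0∞) (B : Set V) (L : ℕ) : ℕ → V → ℝ≥0∞
  | 0 => fun z => ind (hi P B L z)
  | n + 1 => fun z => ind (hi P B L z) + K P B (v1 P B L n) z

def y1 (P : V → V → ℝ≥0∞) (B : Set V) (L : ℕ) : ℕ → V → ℝ≥0∞
  | 0 => fun z => ind (hi P B L z)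
  | n + 1 => fun z => ind (hi P B L z) + ind (¬ hi P B L z) * K P B (y1 P B L n) z

def x0 (P : V → V → ℝ≥0∞) (R B : Set V) (L : ℕ) : ℕ → V → ℝ≥0∞
  | 0 => fun _ => 0
  | n + 1 => fun z => ind (z ∈ R) * K P B (v1 P B L n) z +
      ind (z ∉ R) * K P B (x0 P R B L n) z

def y0 (P : V → V → ℝ≥0∞) (R B : Set V) (L : ℕ) : ℕ → V → ℝ≥0∞
  | 0 => fun _ => 0
  | n + 1 => fun z => ind (z ∈ R) * K P B (y1 P B L n) z +
      ind (z ∉ R) * K P B (y0 P R B L n) z

theorem v1_unroll (hP : Ker P) (B : Set V) (L : ℕ) {n : ℕ} {C : ℝ≥0∞}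
    (h : ∀ z, v1 P B L n z ≤ C) (k : ℕ) (z : V) :
    v1 P B L (n + k) z ≤ k + C * sv P B k z := by
  induction k generalizing z with
  | zero => simpa [sv_zero] using h z
  | succ k ih =>
    have h1 : v1 P B L (n + (k + 1)) z = ind (hi P B L z) + K P B (v1 P B L (n + k)) z := rfl
    rw [h1]
    calc ind (hi P B L z) + K P B (v1 P B L (n + k)) z
        ≤ 1 + K P B (fun w => (k : ℝ≥0∞) + C * sv P B k w) z := by
          gcongr
          · exact ind_le_one _
          · exact K_mono ih z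
      _ = 1 + (K P B (fun _ => (k : ℝ≥0∞)) z + C * sv P B (k + 1) z) := by
          rw [K_add, K_mul, sv_succ_K]
      _ ≤ 1 + ((k : ℝ≥0∞) + C * sv P B (k + 1) z) := by
          gcongr
          exact K_const_le hP _ z
      _ = ((k + 1 : ℕ) : ℝ≥0∞) + C * sv P B (k + 1) z := by
          push_cast
          ring

theorem v1_le (hP : Ker P) (B : Set V) {L : ℕ} (hL : 1 ≤ L) (n : ℕ) (z : V) :
    v1 P B L n z ≤ 2 * L := by
  induction n using Nat.strong_induction_on generalizing z with
  | _ n ih =>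
    have hL' : (1 : ℝ≥0∞) ≤ L := by exact_mod_cast hL
    have hL2 : (1 : ℝ≥0∞) ≤ 2 * L := by
      calc (1 : ℝ≥0∞) = 1 * 1 := by ring
        _ ≤ 2 * L := mul_le_mul' (by norm_num) hL'
    by_cases hz : hi P B L z
    · rcases Nat.lt_or_ge n L with hn | hn
      · -- few steps
        have h0 : ∀ z, v1 P B L 0 z ≤ 1 := fun z => ind_le_one _
        have h1 := v1_unroll hP B L h0 n z
        rw [Nat.zero_add] at h1
        calc v1 P B L n z ≤ n + 1 * sv P B n z := h1
          _ ≤ L + L * 1 := by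
              have : (n : ℝ≥0∞) ≤ L := by exact_mod_cast hn.le
              gcongr
              exact sv_le_one hP B n z
          _ = 2 * L := by ring
      · obtain ⟨k, rfl⟩ := Nat.exists_eq_add_of_le' hn
        have h1 := v1_unroll hP B L (fun w => ih k (by omega) w) L z
        calc v1 P B L (k + L) z ≤ L + 2 * L * sv P B L z := h1
          _ ≤ L + 2 * L * (1 / 2) := by
              have h2 : sv P B L z ≤ 1 / 2 := le_of_lt hz
              gcongr
          _ = 2 * L := by
              have : (2 : ℝ≥0∞) * L * (1 / 2) = L := by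
                rw [mul_comm (2 : ℝ≥0∞) L, mul_assoc, ENNReal.mul_div_cancel (by norm_num)
                  (by norm_num), mul_one]
              rw [this]; ring
    · cases n with
      | zero =>
        have : v1 P B L 0 z = 0 := ind_false hz
        rw [this]; exact zero_le
      | succ n =>
        have h1 : v1 P B L (n + 1) z = ind (hi P B L z) + K P B (v1 P B L n) z := rfl
        rw [h1, ind_false hz, zero_add]
        exact (K_mono (fun w => ih n (by omega) w) z).trans (K_const_le hP _ z)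

theorem v1_le_y1 (hP : Ker P) (B : Set V) {L : ℕ} (hL : 1 ≤ L) (n : ℕ) (z : V) :
    v1 P B L n z ≤ 2 * L * y1 P B L n z := by
  have hL' : (1 : ℝ≥0∞) ≤ 2 * L := by
    have : (1 : ℝ≥0∞) ≤ L := by exact_mod_cast hL
    calc (1 : ℝ≥0∞) = 1 * 1 := by ring
      _ ≤ 2 * L := mul_le_mul' (by norm_num) this
  induction n generalizing z with
  | zero =>
    have h1 : v1 P B L 0 z = ind (hi P B L z) := rfl
    have h2 : y1 P B L 0 z = ind (hi P B L z) := rfl
    rw [h1, h2]
    calc ind (hi P B L z) = 1 * ind (hi P B L z) := (one_mul _).symm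
      _ ≤ 2 * L * ind (hi P B L z) := by gcongr
  | succ n ih =>
    by_cases hz : hi P B L z
    · have h2 : 1 ≤ y1 P B L (n + 1) z := by
        have : y1 P B L (n + 1) z = ind (hi P B L z) + ind (¬ hi P B L z) * K P B (y1 P B L n) z :=
          rfl
        rw [this, ind_true hz]
        exact le_self_add
      calc v1 P B L (n + 1) z ≤ 2 * L := v1_le hP B hL _ z
        _ = 2 * L * 1 := (mul_one _).symm
        _ ≤ 2 * L * y1 P B L (n + 1) z := by gcongr
    · have h1 : v1 P B L (n + 1) z = ind (hi P B L z) + K P B (v1 P B L n) z := rfl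
      have h2 : y1 P B L (n + 1) z = ind (hi P B L z) +
        ind (¬ hi P B L z) * K P B (y1 P B L n) z := rfl
      rw [h1, h2, ind_false hz, ind_true hz, zero_add, zero_add, one_mul, ← K_mul]
      exact K_mono ih z

theorem x0_le_y0 (hP : Ker P) (R B : Set V) {L : ℕ} (hL : 1 ≤ L) (n : ℕ) (z : V) :
    x0 P R B L n z ≤ 2 * L * y0 P R B L n z := by
  induction n generalizing z with
  | zero =>
    have h1 : x0 P R B L 0 z = 0 := rfl
    rw [h1]; exact zero_le
  | succ n ih =>
    have h1 : x0 P R B L (n + 1) z = ind (z ∈ R) * K P B (v1 P B L n) z +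
      ind (z ∉ R) * K P B (x0 P R B L n) z := rfl
    have h2 : y0 P R B L (n + 1) z = ind (z ∈ R) * K P B (y1 P B L n) z +
      ind (z ∉ R) * K P B (y0 P R B L n) z := rfl
    rw [h1, h2, mul_add]
    have e1 : K P B (v1 P B L n) z ≤ 2 * L * K P B (y1 P B L n) z := by
      rw [← K_mul]; exact K_mono (v1_le_y1 hP B hL n) z
    have e2 : K P B (x0 P R B L n) z ≤ 2 * L * K P B (y0 P R B L n) z := by
      rw [← K_mul]; exact K_mono ih z
    calc _ ≤ ind (z ∈ R) * (2 * L * K P B (y1 P B L n) z) +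
        ind (z ∉ R) * (2 * L * K P B (y0 P R B L n) z) := by gcongr
      _ = _ := by ring

/-- walks which hit `B` -/
def Tw (P : V → V → ℝ≥0∞) (B : Set V) (N : ℕ) (z : V) : ℝ≥0∞ :=
  ∑' b : List V, ind (b.length = N ∧ tch B b) * wt P (z :: b)

/-- walks which touch `R` and hit `B` -/
def Qw (P : V → V → ℝ≥0∞) (R B : Set V) (N : ℕ) (z : V) : ℝ≥0∞ :=
  ∑' b : List V, ind (b.length = N ∧ tch R (z :: b) ∧ tch B b) * wt P (z :: b)

theorem Tw_add_sv (hP : Ker P) (B : Set V) (N : ℕ) (z : V) : Tw P B N z + sv P B N z = 1 := by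
  rw [← sum_sv, Tw, ← ENNReal.tsum_add, ← sum_len hP N z]
  refine tsum_congr fun b => ?_
  rw [← add_mul]
  congr 1
  by_cases h1 : b.length = N
  · by_cases h2 : tch B b
    · rw [ind_true ⟨h1, h2⟩, ind_false (fun h => h.2 h2), ind_true h1, add_zero]
    · rw [ind_false (fun h => h2 h.2), ind_true (p := b.length = N ∧ ¬ tch B b) ⟨h1, h2⟩,
        ind_true h1, zero_add]
  · rw [ind_false (fun h => h1 h.1), ind_false (fun h => h1 h.1), ind_false h1, add_zero]

theorem half_le_Tw (hP : Ker P) (B : Set V) {L N : ℕ} (h : L ≤ N) {z : V} (hz : hi P B L z) :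
    1 / 2 ≤ Tw P B N z := by
  have h1 := Tw_add_sv hP B N z
  have h2 : sv P B N z ≤ 1 / 2 := (sv_anti hP B z h).trans (le_of_lt hz)
  by_contra hlt
  push Not at hlt
  have h3 : Tw P B N z + sv P B N z < 1 / 2 + 1 / 2 := ENNReal.add_lt_add_of_lt_of_le
    (ne_top_of_le_ne_top (by norm_num) h2) hlt h2
  rw [h1, ENNReal.add_halves] at h3
  exact lt_irrefl _ h3

theorem Tw_succ_ge (B : Set V) (N : ℕ) (z : V) : K P B (Tw P B N) z ≤ Tw P B (N + 1) z := by
  unfold K Tw
  rw [tsum_list (fun b : List V => ind (b.length = N + 1 ∧ tch B b) * wt P (z :: b))]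
  refine le_trans ?_ le_add_self
  refine ENNReal.tsum_le_tsum fun z' => ?_
  rw [← ENNReal.tsum_mul_left, ← ENNReal.tsum_mul_left]
  refine ENNReal.tsum_le_tsum fun l => ?_
  rw [wt_cons_cons]
  have h : ind (z' ∉ B) * ind (l.length = N ∧ tch B l) ≤
      ind ((z' :: l).length = N + 1 ∧ tch B (z' :: l)) := by
    rw [← ind_and]
    refine ind_mono ?_
    rintro ⟨-, h1, h2⟩
    exact ⟨by simp [h1], (tch_cons B z' l).2 (Or.inr h2)⟩
  calc P z z' * (ind (z' ∉ B) * (ind (l.length = N ∧ tch B l) * wt P (z' :: l)))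
      = (ind (z' ∉ B) * ind (l.length = N ∧ tch B l)) * (P z z' * wt P (z' :: l)) := by ring
    _ ≤ _ := by gcongr

theorem Qw_of_mem (R B : Set V) (N : ℕ) {z : V} (hz : z ∈ R) : Qw P R B N z = Tw P B N z := by
  unfold Qw Tw
  refine tsum_congr fun b => ?_
  congr 1
  apply ind_congr
  constructor
  · rintro ⟨h1, -, h3⟩; exact ⟨h1, h3⟩
  · rintro ⟨h1, h3⟩; exact ⟨h1, (tch_cons R z b).2 (Or.inl hz), h3⟩

theorem Qw_succ_ge (R B : Set V) (N : ℕ) (z : V) :
    K P B (Qw P R B N) z ≤ Qw P R B (N + 1) z := by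
  unfold K Qw
  rw [tsum_list (fun b : List V => ind (b.length = N + 1 ∧ tch R (z :: b) ∧ tch B b) *
    wt P (z :: b))]
  refine le_trans ?_ le_add_self
  refine ENNReal.tsum_le_tsum fun z' => ?_
  rw [← ENNReal.tsum_mul_left, ← ENNReal.tsum_mul_left]
  refine ENNReal.tsum_le_tsum fun l => ?_
  rw [wt_cons_cons]
  have h : ind (z' ∉ B) * ind (l.length = N ∧ tch R (z' :: l) ∧ tch B l) ≤
      ind ((z' :: l).length = N + 1 ∧ tch R (z :: z' :: l) ∧ tch B (z' :: l)) := by
    rw [← ind_and]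
    refine ind_mono ?_
    rintro ⟨-, h1, h2, h3⟩
    exact ⟨by simp [h1], (tch_cons R z _).2 (Or.inr h2), (tch_cons B z' l).2 (Or.inr h3)⟩
  calc P z z' * (ind (z' ∉ B) * (ind (l.length = N ∧ tch R (z' :: l) ∧ tch B l) *
      wt P (z' :: l)))
      = (ind (z' ∉ B) * ind (l.length = N ∧ tch R (z' :: l) ∧ tch B l)) *
        (P z z' * wt P (z' :: l)) := by ring
    _ ≤ _ := by gcongr

theorem two_half : (2 : ℝ≥0∞) * (1 / 2) = 1 :=
  ENNReal.mul_div_cancel (by norm_num) (by norm_num)

theorem y1_le_Tw (hP : Ker P) (B : Set V) {L : ℕ} (n j : ℕ) (hj : L ≤ j) (z : V) :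
    y1 P B L n z ≤ 2 * Tw P B (n + j) z := by
  have hcase : ∀ N, L ≤ N → ∀ z, hi P B L z → 1 ≤ 2 * Tw P B N z := by
    intro N hN z hz
    rw [← two_half]
    gcongr
    exact half_le_Tw hP B hN hz
  induction n generalizing z with
  | zero =>
    have h1 : y1 P B L 0 z = ind (hi P B L z) := rfl
    rw [h1, Nat.zero_add]
    by_cases hz : hi P B L z
    · rw [ind_true hz]; exact hcase j hj z hz
    · rw [ind_false hz]; exact zero_le
  | succ n ih =>
    have h2 : y1 P B L (n + 1) z = ind (hi P B L z) +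
        ind (¬ hi P B L z) * K P B (y1 P B L n) z := rfl
    rw [h2]
    by_cases hz : hi P B L z
    · rw [ind_true hz, ind_false (fun h => h hz), zero_mul, add_zero]
      exact hcase _ (by omega) z hz
    · rw [ind_false hz, ind_true hz, zero_add, one_mul]
      calc K P B (y1 P B L n) z ≤ K P B (fun w => 2 * Tw P B (n + j) w) z := K_mono ih z
        _ = 2 * K P B (Tw P B (n + j)) z := K_mul _ _ _
        _ ≤ 2 * Tw P B (n + j + 1) z := by gcongr; exact Tw_succ_ge B _ z
        _ = 2 * Tw P B (n + 1 + j) z := by rw [Nat.add_right_comm]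

theorem y0_le_Qw (hP : Ker P) (R B : Set V) {L : ℕ} (n j : ℕ) (hj : L ≤ j) (z : V) :
    y0 P R B L n z ≤ 2 * Qw P R B (n + j) z := by
  induction n generalizing z with
  | zero =>
    have h1 : y0 P R B L 0 z = 0 := rfl
    rw [h1]; exact zero_le
  | succ n ih =>
    have h2 : y0 P R B L (n + 1) z = ind (z ∈ R) * K P B (y1 P B L n) z +
      ind (z ∉ R) * K P B (y0 P R B L n) z := rfl
    rw [h2, Nat.add_right_comm]
    by_cases hz : z ∈ R
    · rw [ind_true hz, ind_false (fun h => h hz), zero_mul, add_zero, one_mul, Qw_of_mem R B _ hz]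
      calc K P B (y1 P B L n) z ≤ K P B (fun w => 2 * Tw P B (n + j) w) z :=
            K_mono (y1_le_Tw hP B n j hj) z
        _ = 2 * K P B (Tw P B (n + j)) z := K_mul _ _ _
        _ ≤ 2 * Tw P B (n + j + 1) z := by gcongr; exact Tw_succ_ge B _ z
    · rw [ind_false hz, ind_true hz, zero_mul, zero_add, one_mul]
      calc K P B (y0 P R B L n) z ≤ K P B (fun w => 2 * Qw P R B (n + j) w) z := K_mono ih z
        _ = 2 * K P B (Qw P R B (n + j)) z := K_mul _ _ _
        _ ≤ 2 * Qw P R B (n + j + 1) z := by gcongr; exact Qw_succ_ge R B _ z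

/-- the walks from `z` to `y`, the start not counted -/
def G1 (P : V → V → ℝ≥0∞) (B : Set V) (L n : ℕ) (z : V) : ℝ≥0∞ :=
  ∑' a : List V, ∑' y : V, ind (a.length + 1 ≤ n ∧ ¬ tch B a ∧ y ∉ B ∧ hi P B L y) *
    wt P (z :: (a ++ [y]))

def G0 (P : V → V → ℝ≥0∞) (R B : Set V) (L n : ℕ) (z : V) : ℝ≥0∞ :=
  ∑' a : List V, ∑' y : V, ind (a.length + 1 ≤ n ∧ tch R (z :: a) ∧ ¬ tch B a ∧ y ∉ B ∧
    hi P B L y) * wt P (z :: (a ++ [y]))

theorem G1_succ (B : Set V) (L n : ℕ) (z : V) :
    G1 P B L (n + 1) z = K P B (fun w => ind (hi P B L w) + G1 P B L n w) z := by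
  rw [K_add]
  unfold G1 K
  rw [tsum_list]
  congr 1
  · refine tsum_congr fun y => ?_
    rw [List.nil_append, wt_cons_cons, wt_singleton, mul_one]
    have : ind ((([] : List V).length + 1 ≤ n + 1) ∧ ¬ tch B [] ∧ y ∉ B ∧ hi P B L y) =
        ind (y ∉ B) * ind (hi P B L y) := by
      rw [← ind_and]
      apply ind_congr
      simp [tch_nil]
    rw [this]; ring
  · refine tsum_congr fun z' => ?_
    rw [← ENNReal.tsum_mul_left, ← ENNReal.tsum_mul_left]
    refine tsum_congr fun a => ?_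
    rw [← ENNReal.tsum_mul_left, ← ENNReal.tsum_mul_left]
    refine tsum_congr fun y => ?_
    rw [List.cons_append, wt_cons_cons]
    have : ind ((z' :: a).length + 1 ≤ n + 1 ∧ ¬ tch B (z' :: a) ∧ y ∉ B ∧ hi P B L y) =
        ind (z' ∉ B) * ind (a.length + 1 ≤ n ∧ ¬ tch B a ∧ y ∉ B ∧ hi P B L y) := by
      rw [← ind_and]
      apply ind_congr
      rw [tch_cons, List.length_cons]
      constructor
      · rintro ⟨h1, h2, h3⟩
        exact ⟨fun h => h2 (Or.inl h), by omega, fun h => h2 (Or.inr h), h3⟩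
      · rintro ⟨h1, h2, h3, h4⟩
        exact ⟨by omega, fun h => h.elim h1 h3, h4⟩
    rw [this]; ring

theorem v1_eq (B : Set V) (L n : ℕ) (z : V) :
    v1 P B L n z = ind (hi P B L z) + G1 P B L n z := by
  induction n generalizing z with
  | zero =>
    have h : G1 P B L 0 z = 0 := by
      unfold G1
      simp only [ENNReal.tsum_eq_zero]
      intro a y
      rw [ind_false (by simp), zero_mul]
    rw [h, add_zero]; rfl
  | succ n ih =>
    have h1 : v1 P B L (n + 1) z = ind (hi P B L z) + K P B (v1 P B L n) z := rfl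
    rw [h1, G1_succ]
    congr 2
    funext w
    exact ih w

theorem G0_eq (R B : Set V) (L n : ℕ) (z : V) : G0 P R B L n z = x0 P R B L n z := by
  induction n generalizing z with
  | zero =>
    have h : G0 P R B L 0 z = 0 := by
      unfold G0
      simp only [ENNReal.tsum_eq_zero]
      intro a y
      rw [ind_false (by simp), zero_mul]
    rw [h]; rfl
  | succ n ih =>
    have h1 : x0 P R B L (n + 1) z = ind (z ∈ R) * K P B (v1 P B L n) z +
      ind (z ∉ R) * K P B (x0 P R B L n) z := rfl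
    rw [h1]
    by_cases hz : z ∈ R
    · rw [ind_true hz, ind_false (fun h => h hz), zero_mul, add_zero, one_mul]
      have h2 : G0 P R B L (n + 1) z = G1 P B L (n + 1) z := by
        unfold G0 G1
        refine tsum_congr fun a => tsum_congr fun y => ?_
        congr 1
        apply ind_congr
        constructor
        · rintro ⟨h1, -, h3⟩; exact ⟨h1, h3⟩
        · rintro ⟨h1, h3⟩; exact ⟨h1, (tch_cons R z a).2 (Or.inl hz), h3⟩
      rw [h2, G1_succ]
      congr 1
      funext w
      exact (v1_eq B L n w).symm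
    · rw [ind_false hz, ind_true hz, zero_mul, zero_add, one_mul]
      have h2 : G0 P R B L (n + 1) z = K P B (G0 P R B L n) z := by
        unfold G0 K
        rw [tsum_list]
        have h3 : (∑' y : V, ind (([] : List V).length + 1 ≤ n + 1 ∧ tch R [z] ∧ ¬ tch B [] ∧
            y ∉ B ∧ hi P B L y) * wt P (z :: ([] ++ [y]))) = 0 := by
          simp only [ENNReal.tsum_eq_zero]
          intro y
          rw [ind_false, zero_mul]
          rintro ⟨-, h, -⟩
          rw [tch_cons] at h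
          exact h.elim hz (tch_nil R)
        rw [h3, zero_add]
        refine tsum_congr fun z' => ?_
        rw [← ENNReal.tsum_mul_left, ← ENNReal.tsum_mul_left]
        refine tsum_congr fun a => ?_
        rw [← ENNReal.tsum_mul_left, ← ENNReal.tsum_mul_left]
        refine tsum_congr fun y => ?_
        rw [List.cons_append, wt_cons_cons]
        have : ind ((z' :: a).length + 1 ≤ n + 1 ∧ tch R (z :: z' :: a) ∧ ¬ tch B (z' :: a) ∧
            y ∉ B ∧ hi P B L y) = ind (z' ∉ B) * ind (a.length + 1 ≤ n ∧ tch R (z' :: a) ∧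
            ¬ tch B a ∧ y ∉ B ∧ hi P B L y) := by
          rw [← ind_and]
          apply ind_congr
          rw [tch_cons R z, tch_cons B z', List.length_cons]
          constructor
          · rintro ⟨h1, h2, h3, h4⟩
            exact ⟨fun h => h3 (Or.inl h), by omega, h2.resolve_left hz,
              fun h => h3 (Or.inr h), h4⟩
          · rintro ⟨h1, h2, h3, h4, h5⟩
            exact ⟨by omega, Or.inr h3, fun h => h.elim h1 h4, h5⟩
        rw [this]; ring
      rw [h2]
      congr 1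
      funext w
      exact ih w

theorem sum_short (hP : Ker P) (m : ℕ) (y : V) :
    ∑' b : List V, ind (b.length < m) * wt P (y :: b) = m := by
  have h1 : ∀ b : List V, ind (b.length < m) = ∑ n ∈ Finset.range m, ind (b.length = n) := by
    intro b
    by_cases h : b.length < m
    · rw [ind_true h, Finset.sum_eq_single b.length]
      · rw [ind_true rfl]
      · intro n _ hn
        exact ind_false fun h' => hn h'.symm
      · intro h'
        exact absurd (Finset.mem_range.2 h) h'
    · rw [ind_false h]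
      symm
      refine Finset.sum_eq_zero fun n hn => ind_false ?_
      rw [Finset.mem_range] at hn
      omega
  simp only [h1, Finset.sum_mul]
  rw [Summable.tsum_finsetSum (fun _ _ => ENNReal.summable)]
  rw [Finset.sum_congr rfl fun n _ => sum_len hP n y]
  simp

/-- the condition on the first part of a mark -/
def Ca (P : V → V → ℝ≥0∞) (R B : Set V) (L k : ℕ) (a : List V) (y : V) : Prop :=
  a.length + 1 ≤ k ∧ tch R a ∧ ¬ tch B a ∧ y ∉ B ∧ hi P B L y

theorem JJ_le (hP : Ker P) (R B : Set V) (m s L : ℕ) :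
    JJ P R B m (fun a y b => good (m - s) a y b ∧ hi P B L y) ≤
      m * ∑' a : List V, ∑' y : V, ind (Ca P R B L (m - s) a y) * wt P (a ++ [y]) := by
  rw [← ENNReal.tsum_mul_left]
  unfold JJ
  refine ENNReal.tsum_le_tsum fun a => ?_
  rw [← ENNReal.tsum_mul_left]
  refine ENNReal.tsum_le_tsum fun y => ?_
  calc ∑' b : List V, ind (mark R B a y b ∧ a.length + b.length + 1 ≤ m ∧
        good (m - s) a y b ∧ hi P B L y) * wt P (a ++ y :: b)
      ≤ ∑' b : List V, (ind (Ca P R B L (m - s) a y) * wt P (a ++ [y])) *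
          (ind (b.length < m) * wt P (y :: b)) := by
        refine ENNReal.tsum_le_tsum fun b => ?_
        rw [wt_append a y b]
        have h : ind (mark R B a y b ∧ a.length + b.length + 1 ≤ m ∧
            good (m - s) a y b ∧ hi P B L y) ≤
            ind (Ca P R B L (m - s) a y) * ind (b.length < m) := by
          rw [← ind_and]
          refine ind_mono ?_
          rintro ⟨⟨h1, h2, h3, h4, h5, h6⟩, h7, ⟨h8, h9⟩, h10⟩
          exact ⟨⟨h8, h1, h2, h4, h10⟩, by omega⟩
        calc _ ≤ ind (Ca P R B L (m - s) a y) * ind (b.length < m) *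
              (wt P (a ++ [y]) * wt P (y :: b)) := by gcongr
          _ = _ := by ring
    _ = (ind (Ca P R B L (m - s) a y) * wt P (a ++ [y])) * m := by
        rw [ENNReal.tsum_mul_left, sum_short hP]
    _ = _ := by ring

theorem Ca_sum (R B : Set V) (L n : ℕ) :
    ∑' a : List V, ∑' y : V, ind (Ca P R B L (n + 1) a y) * wt P (a ++ [y]) =
      ∑' z, ind (z ∉ B) * G0 P R B L n z := by
  rw [tsum_list]
  have h1 : (∑' y : V, ind (Ca P R B L (n + 1) [] y) * wt P ([] ++ [y])) = 0 := by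
    simp only [ENNReal.tsum_eq_zero]
    intro y
    rw [ind_false, zero_mul]
    rintro ⟨-, h, -⟩
    exact tch_nil R h
  rw [h1, zero_add]
  refine tsum_congr fun z => ?_
  unfold G0
  rw [← ENNReal.tsum_mul_left]
  refine tsum_congr fun a => ?_
  rw [← ENNReal.tsum_mul_left]
  refine tsum_congr fun y => ?_
  rw [List.cons_append]
  have : ind (Ca P R B L (n + 1) (z :: a) y) =
      ind (z ∉ B) * ind (a.length + 1 ≤ n ∧ tch R (z :: a) ∧ ¬ tch B a ∧ y ∉ B ∧
        hi P B L y) := by
    rw [← ind_and]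
    apply ind_congr
    unfold Ca
    rw [tch_cons B z a, List.length_cons]
    constructor
    · rintro ⟨h1, h2, h3, h4⟩
      exact ⟨fun h => h3 (Or.inl h), by omega, h2, fun h => h3 (Or.inr h), h4⟩
    · rintro ⟨h1, h2, h3, h4, h5⟩
      exact ⟨by omega, h3, fun h => h.elim h1 h4, h5⟩
  rw [this]; ring

theorem WW_ge (R B : Set V) (m s L n : ℕ) (hn : n + 1 = m - s) (hs : s ≤ m) :
    ∑ j ∈ Finset.Ico L s, ((s - j : ℕ) : ℝ≥0∞) * ∑' z, ind (z ∉ B) * Qw P R B (n + j) z ≤
      WW P R B m := by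
  unfold WW
  rw [tsum_list (fun w : List V => ind (tch R w ∧ tch B w) * ((m - w.length : ℕ) : ℝ≥0∞) * wt P w)]
  refine le_trans ?_ le_add_self
  simp only [← ENNReal.tsum_mul_left]
  rw [← Summable.tsum_finsetSum (fun _ _ => ENNReal.summable)]
  refine ENNReal.tsum_le_tsum fun z => ?_
  unfold Qw
  simp only [← ENNReal.tsum_mul_left]
  rw [← Summable.tsum_finsetSum (fun _ _ => ENNReal.summable)]
  refine ENNReal.tsum_le_tsum fun b => ?_
  have e : ∀ j, ((s - j : ℕ) : ℝ≥0∞) * (ind (z ∉ B) *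
      (ind (b.length = n + j ∧ tch R (z :: b) ∧ tch B b) * wt P (z :: b))) =
      (((s - j : ℕ) : ℝ≥0∞) * (ind (z ∉ B) *
      ind (b.length = n + j ∧ tch R (z :: b) ∧ tch B b))) * wt P (z :: b) := fun j => by ring
  rw [Finset.sum_congr rfl fun j _ => e j, ← Finset.sum_mul]
  refine mul_le_mul' ?_ le_rfl
  by_cases hb : tch R (z :: b) ∧ tch B b
  · rw [ind_true (p := tch R (z :: b) ∧ tch B (z :: b)) ⟨hb.1, (tch_cons B z b).2 (Or.inr hb.2)⟩,
      one_mul]
    by_cases hj : ∃ j ∈ Finset.Ico L s, b.length = n + j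
    · obtain ⟨j, hj, hbj⟩ := hj
      rw [Finset.sum_eq_single_of_mem j hj]
      · rw [Finset.mem_Ico] at hj
        have : m - (z :: b).length = s - j := by
          rw [List.length_cons]; omega
        rw [this]
        calc ((s - j : ℕ) : ℝ≥0∞) * (ind (z ∉ B) *
            ind (b.length = n + j ∧ tch R (z :: b) ∧ tch B b))
            ≤ ((s - j : ℕ) : ℝ≥0∞) * (1 * 1) := by
              gcongr
              · exact ind_le_one _
              · exact ind_le_one _
          _ = _ := by rw [mul_one, mul_one]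
      · intro j' _ hj'
        rw [ind_false (p := b.length = n + j' ∧ tch R (z :: b) ∧ tch B b), mul_zero, mul_zero]
        rintro ⟨h, -⟩
        omega
    · have : ∑ j ∈ Finset.Ico L s, ((s - j : ℕ) : ℝ≥0∞) * (ind (z ∉ B) *
          ind (b.length = n + j ∧ tch R (z :: b) ∧ tch B b)) = 0 := by
        refine Finset.sum_eq_zero fun j hj' => ?_
        rw [ind_false (p := b.length = n + j ∧ tch R (z :: b) ∧ tch B b), mul_zero, mul_zero]
        rintro ⟨h, -⟩
        exact hj ⟨j, hj', h⟩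
      rw [this]
      exact zero_le
  · have : ∑ j ∈ Finset.Ico L s, ((s - j : ℕ) : ℝ≥0∞) * (ind (z ∉ B) *
          ind (b.length = n + j ∧ tch R (z :: b) ∧ tch B b)) = 0 := by
        refine Finset.sum_eq_zero fun j hj' => ?_
        rw [ind_false (p := b.length = n + j ∧ tch R (z :: b) ∧ tch B b), mul_zero, mul_zero]
        rintro ⟨-, h⟩
        exact hb h
    rw [this]
    exact zero_le

theorem sq_le_sum (k : ℕ) : k ^ 2 ≤ 2 * ∑ i ∈ Finset.range k, (k - i) := by
  induction k with
  | zero => simp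
  | succ k ih =>
    rw [Finset.sum_range_succ']
    have : ∑ i ∈ Finset.range k, (k + 1 - (i + 1)) = ∑ i ∈ Finset.range k, (k - i) :=
      Finset.sum_congr rfl fun i _ => by omega
    rw [this]
    have h0 : k + 1 - 0 = k + 1 := rfl
    rw [h0]
    nlinarith

theorem sq_le_sum' (s L : ℕ) : (s - L) ^ 2 ≤ 2 * ∑ j ∈ Finset.Ico L s, (s - j) := by
  rw [Finset.sum_Ico_eq_sum_range]
  have : ∑ i ∈ Finset.range (s - L), (s - (L + i)) = ∑ i ∈ Finset.range (s - L), (s - L - i) :=
    Finset.sum_congr rfl fun i _ => by omega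
  rw [this]
  exact sq_le_sum _

theorem prf.{u} : SHigh.{u} := by
  intro V P hP R B m s L hs hLs hL
  rcases Nat.eq_zero_or_pos (m - s) with h0 | h0
  · have hz : JJ P R B m (fun a y b => good (m - s) a y b ∧ hi P B L y) = 0 := by
      unfold JJ
      simp only [ENNReal.tsum_eq_zero]
      intro a y b
      rw [ind_false, zero_mul]
      rintro ⟨-, -, ⟨h, -⟩, -⟩
      omega
    rw [hz, mul_zero]
    exact zero_le
  · obtain ⟨n, hn⟩ : ∃ n, n + 1 = m - s := ⟨m - s - 1, by omega⟩
    set Y : ℝ≥0∞ := ∑' z, ind (z ∉ B) * y0 P R B L n z with hY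
    have h1 : JJ P R B m (fun a y b => good (m - s) a y b ∧ hi P B L y) ≤ m * (2 * L * Y) := by
      refine (JJ_le hP R B m s L).trans ?_
      rw [← hn, Ca_sum]
      gcongr
      rw [hY, ← ENNReal.tsum_mul_left]
      refine ENNReal.tsum_le_tsum fun z => ?_
      rw [G0_eq]
      calc ind (z ∉ B) * x0 P R B L n z ≤ ind (z ∉ B) * (2 * L * y0 P R B L n z) := by
            gcongr; exact x0_le_y0 hP R B hL n z
        _ = _ := by ring
    have h2 : ∀ j ∈ Finset.Ico L s, Y ≤ 2 * ∑' z, ind (z ∉ B) * Qw P R B (n + j) z := by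
      intro j hj
      rw [Finset.mem_Ico] at hj
      rw [hY, ← ENNReal.tsum_mul_left]
      refine ENNReal.tsum_le_tsum fun z => ?_
      calc ind (z ∉ B) * y0 P R B L n z ≤ ind (z ∉ B) * (2 * Qw P R B (n + j) z) := by
            gcongr; exact y0_le_Qw hP R B n j hj.1 z
        _ = _ := by ring
    have h3 : (((s - L : ℕ) : ℝ≥0∞)) ^ 2 * Y ≤ 4 * WW P R B m := by
      have hc : (((s - L : ℕ) : ℝ≥0∞)) ^ 2 ≤ 2 * ∑ j ∈ Finset.Ico L s, ((s - j : ℕ) : ℝ≥0∞) := by
        have := sq_le_sum' s L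
        exact_mod_cast this
      calc (((s - L : ℕ) : ℝ≥0∞)) ^ 2 * Y
          ≤ (2 * ∑ j ∈ Finset.Ico L s, ((s - j : ℕ) : ℝ≥0∞)) * Y := by gcongr
        _ = 2 * ∑ j ∈ Finset.Ico L s, ((s - j : ℕ) : ℝ≥0∞) * Y := by
            rw [mul_assoc, Finset.sum_mul]
        _ ≤ 2 * ∑ j ∈ Finset.Ico L s, ((s - j : ℕ) : ℝ≥0∞) *
            (2 * ∑' z, ind (z ∉ B) * Qw P R B (n + j) z) := by
            gcongr with j hj
            exact h2 j hj
        _ = 4 * ∑ j ∈ Finset.Ico L s, ((s - j : ℕ) : ℝ≥0∞) *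
            ∑' z, ind (z ∉ B) * Qw P R B (n + j) z := by
            rw [Finset.mul_sum, Finset.mul_sum]
            refine Finset.sum_congr rfl fun j _ => by ring
        _ ≤ 4 * WW P R B m := by
            gcongr
            exact WW_ge R B m s L n hn hs
    calc (((s - L : ℕ) : ℝ≥0∞)) ^ 2 *
          JJ P R B m (fun a y b => good (m - s) a y b ∧ hi P B L y)
        ≤ (((s - L : ℕ) : ℝ≥0∞)) ^ 2 * (m * (2 * L * Y)) := by gcongr
      _ = 2 * L * m * ((((s - L : ℕ) : ℝ≥0∞)) ^ 2 * Y) := by ring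
      _ ≤ 2 * L * m * (4 * WW P R B m) := by gcongr
      _ = 8 * L * m * WW P R B m := by ring

end Pool.Agent.Fri.I_HIGH3
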