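import Pool.Agent.Work.MP_c9ff92_pr.Fri.Defs
import Pool.Agent.Work.MP_c9ff92_pr.Compare

/-!
# Statements of the block `Fri` (MP_c9ff92_pr)

Every statement `S..` is a `Prop`; item `X` proves `theorem sX : SX`.
-/

open Finset
open scoped ENNReal NNReal

noncomputable section

namespace Pool.Agent.Fri

/-! ### Deterministic statements about a symmetric kernel and two sets -/

/-- Item CUT: cutting the walks at all their positions. -/
def SCut.{u} : Prop := ∀ (V : Type u) (P : V → V → ℝ≥0∞), Ker P → ∀ (R B : Set V) (m : ℕ),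
  ∑' w : List V, ind (tch R w ∧ tch B w ∧ w.length ≤ m) * (w.length : ℝ≥0∞) * wt P w ≤
    2 * (∑' w : List V, ind (tch R w ∧ tch B w) * ((m + 1 - w.length : ℕ) : ℝ≥0∞) * wt P w) +
      2 * JJ P R B m (fun _ _ _ => True)

/-- Item GOOD: at least a fifth of the marks is good. -/
def SGood.{u} : Prop := ∀ (V : Type u) (P : V → V → ℝ≥0∞), Ker P → ∀ (R B : Set V) (m s : ℕ),
  3 * s ≤ m → JJ P R B m (fun _ _ _ => True) ≤ 5 * JJ P R B m (good (m - s))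

/-- Item HIGH: the marks from which `B` is near. -/
def SHigh.{u} : Prop := ∀ (V : Type u) (P : V → V → ℝ≥0∞), Ker P → ∀ (R B : Set V) (m s L : ℕ),
  s ≤ m → L ≤ s → 1 ≤ L →
  (((s - L : ℕ) : ℝ≥0∞)) ^ 2 * JJ P R B m (fun a y b => good (m - s) a y b ∧ hi P B L y) ≤
    8 * L * m * WW P R B m

/-- Item LOW: the other marks are rare because of the crossing pairs. -/
def SLow.{u} : Prop := ∀ (V : Type u) (P : V → V → ℝ≥0∞), Ker P → ∀ (R B : Set V), (Bᶜ).Finite →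
  ∀ (m s K L1 : ℕ) (δ : ℕ → ℝ≥0∞) (C : ℝ≥0∞), C ≠ ⊤ → s ≤ m → 1 ≤ K → 1 ≤ L1 →
  (∀ k n x y, 1 ≤ k → k * L1 ≤ n → pk P n x y ≤ δ k) →
  K * ∑ k ∈ Finset.Icc 1 K, δ k ≤ C →
  (K : ℝ≥0∞) ^ 2 * JJ P R B m (fun a y b => good (m - s) a y b ∧
      ¬ hi P B (K * L1) y ∧ ¬ hi P R (K * L1) y) ≤
    16 * (1 + 4 * C) * SS P R B (m - s + K * L1)

/-- Item CORE: conclusion of GOOD, HIGH and LOW. -/
def SCore.{u} : Prop := ∀ (V : Type u) (P : V → V → ℝ≥0∞), Ker P → ∀ (R B : Set V), (Bᶜ).Finite →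
  ∀ (m s K L1 : ℕ) (δ : ℕ → ℝ≥0∞) (C : ℝ≥0∞), C ≠ ⊤ → 3 * s ≤ m → 1 ≤ K → 1 ≤ L1 →
  K * L1 < s → (∀ k n x y, 1 ≤ k → k * L1 ≤ n → pk P n x y ≤ δ k) →
  K * ∑ k ∈ Finset.Icc 1 K, δ k ≤ C →
  JJ P R B m (fun _ _ _ => True) ≤
    80 * (1 + 4 * C) / (K : ℝ≥0∞) ^ 2 * SS P R B (m - s + K * L1) +
    80 * (K * L1 : ℕ) * m / (((s - K * L1 : ℕ) : ℝ≥0∞)) ^ 2 * WW P R B m

/-! ### The finite random set -/

/-- Item DER: comparison along a linear interpolation of the rates. -/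
def SDer.{u} : Prop := ∀ (T : Type u) [DecidableEq T] (s : Finset T) (U : Finset T → Prop),
  Frog.Up U → ∀ (r g l : T → ℝ),
  (∀ i ∈ s, 0 ≤ g i ∧ 0 ≤ l i ∧ 0 ≤ r i ∧ 0 ≤ r i + (g i - l i)) →
  (∀ t ∈ Set.Icc (0 : ℝ) 1,
    EE (fun i => r i + t * (g i - l i)) s
        (fun A => ∑ i ∈ s, ENNReal.ofReal (l i) * ind (piv U i A)) ≤
      EE (fun i => r i + t * (g i - l i)) s
        (fun A => ∑ i ∈ s, ENNReal.ofReal (g i) * ind (piv U i A))) →
  Frog.Q (fun i => r i + (g i - l i)) s U ≤ Frog.Q r s U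

/-- Item MECKE. -/
def SMecke.{u} : Prop := ∀ (T : Type u) [DecidableEq T] (s : Finset T) (r : T → ℝ),
  (∀ i ∈ s, 0 ≤ r i) → ∀ f : T → Finset T → ℝ≥0∞, (∀ i A, i ∈ A → f i A = 0) →
  EE r s (fun A => ∑ i ∈ s, ENNReal.ofReal (r i) * f i A) ≤
    EE r s (fun A => ∑ i ∈ A, f i (A.erase i))

/-- Item REACH (1): pivotal walks. -/
def SPiv.{u} : Prop := ∀ (V : Type u) [DecidableEq V] (o : V) (D : Set V) (A : Finset (List V))
  (w : List V), piv (Suc o D) w A ↔ ¬ Suc o D A ∧ tch (clu A o) w ∧ tch (bdy A D) w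

/-- Item REACH (2): for every `T'` there is at most one present walk which leads to it. -/
def SUni.{u} : Prop := ∀ (V : Type u) [DecidableEq V] (o : V) (D : Set V) (A : Finset (List V))
  (T' : List V),
  ∑ T ∈ A, ind (¬ Suc o D (A.erase T) ∧ crs (clu (A.erase T) o) (bdy (A.erase T) D) T T') ≤
    ind (¬ Suc o D A ∧ tch (clu A o) T' ∧ tch (bdy A D) T')

/-- Item ESS: the expected number of crossing pairs. -/
def SEss.{u} : Prop := ∀ (V : Type u) [DecidableEq V] (P : V → V → ℝ≥0∞), Ker P →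
  ∀ (o : V) (D : Set V) (s : Finset (List V)) (r : List V → ℝ) (β : ℝ) (k m : ℕ), k ≤ m →
  full P D m s → (∀ w ∈ s, 0 ≤ r w) → 0 ≤ β →
  (∀ w, w.length ≤ k → β * (wt P w).toReal ≤ r w) →
  ENNReal.ofReal β * ((m - k : ℕ) : ℝ≥0∞) *
      EE r s (fun A => ind (¬ Suc o D A) * SS P (clu A o) (bdy A D) k) ≤
    EE r s (fun A => ind (¬ Suc o D A) * WW P (clu A o) (bdy A D) m)

/-- Item STEP: one step of the interpolation. -/
def SStep.{u} : Prop := ∀ (V : Type u) [DecidableEq V] (P : V → V → ℝ≥0∞), Ker P →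
  ∀ (o : V) (D : Set V) (s : Finset (List V)) (m k : ℕ), D.Finite → o ∈ D → 4 ≤ m → k < m →
  full P D m s → ∀ (c ε α γ : ℝ), 0 < c → 0 ≤ ε → 0 ≤ α → 0 ≤ γ →
  (∀ R B : Set V, (Bᶜ).Finite → JJ P R B m (fun _ _ _ => True) ≤
    ENNReal.ofReal α * SS P R B k + ENNReal.ofReal γ * WW P R B m) →
  2 * (α / (c * cc m * ((m - k : ℕ) : ℝ) ^ 2) + γ) ≤ ε * (m - 2) →
  Frog.Q (rt P ((1 + ε) * c * cc (m - 1)) (m - 1)) s (Suc o D) ≤
    Frog.Q (rt P (c * cc m) m) s (Suc o D)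

/-- The heat kernel bound. -/
def HK {V : Type*} (P : V → V → ℝ≥0∞) (C0 : ℝ) : Prop :=
  ∀ n : ℕ, 1 ≤ n → ∀ x y, pk P n x y ≤ ENNReal.ofReal (C0 / (n * Real.sqrt n))

/-- Item START: for very long walks the event is likely. -/
def SStart.{u} : Prop := ∀ (V : Type u) [DecidableEq V] (P : V → V → ℝ≥0∞), Ker P →
  ∀ C0 : ℝ, HK P C0 → ∀ u : ℝ, 0 < u → ∃ c : ℝ, 0 < c ∧ ∀ (o : V) (D : Set V), D.Finite → o ∈ D →
  ∃ m1 : ℕ, ∀ m, m1 ≤ m → ∀ s : Finset (List V), full P D m s →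
    Frog.Q (rt P (u * cc m) m) s (Suc o D) ≤ 1 - c

/-- Item NUM: the recursion. The constant `c` does not depend on `D`. -/
def SPerc.{u} : Prop := ∀ (V : Type u) [DecidableEq V] (P : V → V → ℝ≥0∞), Ker P →
  (∀ x, {y | P x y ≠ 0}.Finite) →
  ∀ C0 : ℝ, HK P C0 → ∀ u : ℝ, 0 < u → ∃ (m0 : ℕ) (c : ℝ), 2 ≤ m0 ∧ 0 < c ∧
  ∀ (o : V) (D : Set V), D.Finite → o ∈ D → ∃ s : Finset (List V),
    Frog.Q (rt P (2 * u * cc m0) m0) s (Suc o D) ≤ 1 - c

/-! ### The frog model -/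

section graph

variable {V : Type*} (G : SimpleGraph V) [G.LocallyFinite]

/-- The kernel of the simple random walk. -/
def srw (x y : V) : ℝ≥0∞ := ind (G.Adj x y) * (G.degree x : ℝ≥0∞)⁻¹

end graph

/-- The tails of the lengths of the one-sided copies. -/
def tcp (c : ℝ) (m j : ℕ) : ℝ :=
  c * ((m - j : ℕ) : ℝ) * (((m - j : ℕ) : ℝ) + 1) * (((m - j : ℕ) : ℝ) + 2) / 3

/-- Item COPY: replace every walk by its one-sided copies. -/
def SCopy.{u} : Prop := ∀ (V : Type u) [DecidableEq V] (G : SimpleGraph V) [G.LocallyFinite]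
  (d : ℕ), 0 < d → G.IsRegularOfDegree d → ∀ (o : V) (D : Finset V) (s : Finset (List V))
  (c : ℝ) (m M : ℕ), 0 ≤ c → m ≤ M → o ∈ D →
  Frog.Q (Frog.rate G (tcp c m)) (Frog.idx G D M) (Frog.Out D o) ≤
    Frog.Q (rt (srw G) c m) s (Suc o (D : Set V))

/-- Item HEAT: the heat kernel of a transitive graph of at least cubic growth. -/
def SHeat.{u} : Prop := ∀ (V : Type u) [DecidableEq V] (G : SimpleGraph V) [G.LocallyFinite],
  G.Connected → (∀ x y : V, ∃ φ : G ≃g G, φ x = y) → ∀ (o : V) (c : ℝ), 0 < c →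
  (∀ n : ℕ, c * (n : ℝ) ^ 3 ≤ (({x | G.dist o x ≤ n} : Set V).ncard : ℝ)) →
  ∃ C0 : ℝ, HK (srw G) C0

/-! ### Parts of LOW, START and COPY -/

/-- `T` is `a ++ y :: A` and `T'` is `c ++ y :: b` for a mark `(a, y, b)`, a fresh piece `A` with
`i` steps which avoids `B` and a fresh piece `c` with `j` steps which avoids `R`. -/
def rep {V : Type*} (R B : Set V) (m : ℕ) (q : List V → V → List V → Prop) (i j : ℕ)
    (T T' : List V) : Prop :=
  ∃ (a : List V) (y : V) (A c b : List V), T = a ++ y :: A ∧ T' = c ++ y :: b ∧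
    A.length = i ∧ c.length = j ∧ mark R B a y b ∧ ¬ tch B A ∧ ¬ tch R c ∧
    a.length + b.length + 1 ≤ m ∧ q a y b

/-- Item LOWA: the weighted number of the pairs with a representation. -/
def SLowA.{u} : Prop := ∀ (V : Type u) (P : V → V → ℝ≥0∞), Ker P → ∀ (R B : Set V) (m : ℕ)
  (q : List V → V → List V → Prop) (i j : ℕ),
  ∑' T : List V, ∑' T' : List V, ind (rep R B m q i j T T') * wt P T * wt P T' =
    ∑' a : List V, ∑' y : V, ∑' b : List V,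
      ind (mark R B a y b ∧ a.length + b.length + 1 ≤ m ∧ q a y b) * wt P (a ++ y :: b) *
        (sv P B i y * sv P R j y)

/-- Item LOWO: two representations, the other crossing point lies on both fresh pieces. -/
def SLowO.{u} : Prop := ∀ (V : Type u) (P : V → V → ℝ≥0∞), Ker P → ∀ (R B : Set V) (m : ℕ)
  (q : List V → V → List V → Prop) (i1 j1 i2 j2 : ℕ) (π : ℝ≥0∞), i2 ≤ i1 → j2 ≤ j1 →
  (∀ x, pk P ((i1 - i2) + (j1 - j2)) x x ≤ π) →
  ∑' T : List V, ∑' T' : List V,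
    ind (rep R B m q i1 j1 T T' ∧ rep R B m q i2 j2 T T') * wt P T * wt P T' ≤
    π * JJ P R B m q

/-- Item LOWS: two representations, the other crossing point lies on one fresh piece and is a
given point of the walk. -/
def SLowS.{u} : Prop := ∀ (V : Type u) (P : V → V → ℝ≥0∞), Ker P → ∀ (R B : Set V) (m : ℕ)
  (q : List V → V → List V → Prop) (i1 j1 i2 j2 : ℕ) (π : ℝ≥0∞), i2 ≤ i1 → j1 ≤ j2 →
  (∀ x y, pk P (j2 - j1) x y ≤ π) →
  ∑' T : List V, ∑' T' : List V,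
    ind (rep R B m q i1 j1 T T' ∧ rep R B m q i2 j2 T T') * wt P T * wt P T' ≤
    π * JJ P R B m q

/-- Item ESC: uniform escape probability. -/
def SEsc.{u} : Prop := ∀ (V : Type u) (P : V → V → ℝ≥0∞), Ker P → ∀ C0 : ℝ, HK P C0 →
  ∃ e : ℝ, 0 < e ∧ ∀ (x : V) (n : ℕ), ENNReal.ofReal e ≤ sv P {x} n x

/-- Item EXIT: a long walk leaves a finite set. -/
def SExit.{u} : Prop := ∀ (V : Type u) (P : V → V → ℝ≥0∞), Ker P → ∀ C0 : ℝ, HK P C0 →
  ∀ D : Set V, D.Finite → ∃ n1 : ℕ, ∀ n, n1 ≤ n → ∀ x : V,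
    1 / 2 ≤ ∑' b : List V, ind (b.length = n ∧ tch Dᶜ b) * wt P (x :: b)

/-- Item REPL: the object `k` may be replaced by the objects of `S`, all at the same rate, if
each time one of them does the same. -/
def SRepl.{u} : Prop := ∀ (T : Type u) [DecidableEq T] (s S : Finset T) (k : T)
  (r r' : T → ℝ) (δ : ℝ) (U : Finset T → Prop), Frog.Up U → 0 ≤ δ → k ∈ s → S ⊆ s → k ∉ S →
  (∀ i ∈ s, 0 ≤ r i) → r' k = r k - δ → 0 ≤ r' k → (∀ i ∈ S, r' i = r i + δ) →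
  (∀ i ∈ s, i ∉ S → i ≠ k → r' i = r i) →
  (∀ A, U (insert k A) → U A ∨ ∃ i ∈ S, U (insert i A)) →
  Frog.Q r' s U ≤ Frog.Q r s U

/-- Item LOW (assembly of LOWA, LOWO, LOWS). -/
def SLowAll.{u} : Prop := SLowA.{u} → SLowO.{u} → SLowS.{u} → SLow.{u}

/-- Item START (assembly of ESC and EXIT). -/
def SStartAll.{u} : Prop := SEsc.{u} → SExit.{u} → SStart.{u}

/-- Item COPY (from REPL). -/
def SCopyAll.{u} : Prop := SRepl.{u} → SCopy.{u}

/-- Item CORE. -/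
def SCoreAll.{u} : Prop := SGood.{u} → SHigh.{u} → SLow.{u} → SCore.{u}

/-- Item ESS. -/
def SEssAll.{u} : Prop := SMecke.{u} → SPiv.{u} → SUni.{u} → SEss.{u}

/-- Item STEP. -/
def SStepAll.{u} : Prop := SCut.{u} → SDer.{u} → SPiv.{u} → SEss.{u} → SStep.{u}

/-- Item PERC (numerics and induction). -/
def SPercAll.{u} : Prop := SCore.{u} → SStep.{u} → SStart.{u} → SPerc.{u}

end Pool.Agent.Fri
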