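import Pool.Agent.Work.MP_c9ff92_pr.Fri.Basic
import Pool.Agent.Work.MP_c9ff92_pr.Fri.Stmts

/-!
# Item LOW: the marks from which both sets are far (MP_c9ff92_pr)

Second moment of the number of representations of a crossing pair of walks.
-/

open Finset
open scoped ENNReal NNReal

noncomputable section

namespace Pool.Agent.Fri

namespace I_LOW

variable {V : Type*} {P : V → V → ℝ≥0∞}

/-! ### General lemmas -/

theorem tsum_inj {α β : Type*} (p : α → Prop) (φ : α → β)
    (hφ : ∀ x x', p x → p x' → φ x = φ x' → x = x') (f : β → ℝ≥0∞) :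
    ∑' x, ind (p x) * f (φ x) = ∑' t, ind (∃ x, p x ∧ φ x = t) * f t := by
  have h1 : ∀ t, ind (∃ x, p x ∧ φ x = t) * f t = ∑' x, ind (p x ∧ φ x = t) * f t := by
    intro t
    by_cases h : ∃ x, p x ∧ φ x = t
    · obtain ⟨x0, h0, h0'⟩ := h
      rw [tsum_eq_single x0]
      · rw [ind_true ⟨x0, h0, h0'⟩, ind_true ⟨h0, h0'⟩]
      · intro x hx
        rw [ind_false, zero_mul]
        rintro ⟨h2, h3⟩
        exact hx (hφ x x0 h2 h0 (h3.trans h0'.symm))
    · rw [ind_false h, zero_mul]
      symm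
      rw [ENNReal.tsum_eq_zero]
      intro x
      rw [ind_false (fun h2 => h ⟨x, h2⟩), zero_mul]
  simp only [h1]
  rw [ENNReal.tsum_comm]
  refine tsum_congr fun x => ?_
  simp only [ind_and, mul_assoc]
  rw [ENNReal.tsum_mul_left, tsum_ind_eq]

theorem two_mul_le (x n : ℝ≥0∞) (hx : x ≠ ⊤) : 2 * x * n ≤ n ^ 2 + x ^ 2 := by
  by_cases hn : n = ⊤
  · rw [hn]
    simp
  lift n to ℝ≥0 using hn
  lift x to ℝ≥0 using hx
  norm_cast
  have h : (2 * x * n : ℝ) ≤ n ^ 2 + x ^ 2 := by nlinarith [sq_nonneg ((x : ℝ) - n)]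
  exact_mod_cast h

/-! ### Representations -/

/-- The tuples `(a, y, b, A, A')`. -/
abbrev X (V : Type*) := List V × V × List V × List V × List V

/-- The first walk. -/
def TT (x : X V) : List V := x.1 ++ x.2.1 :: x.2.2.2.1

/-- The second walk. -/
def TT' (x : X V) : List V := x.2.2.2.2 ++ x.2.1 :: x.2.2.1

/-- The tuple is a representation with the lengths `i * l` and `j * l`. -/
def ev (M : List V → V → List V → Prop) (R B : Set V) (l i j : ℕ) (x : X V) : Prop :=
  M x.1 x.2.1 x.2.2.1 ∧ (x.2.2.2.1.length = i * l ∧ ¬ tch B x.2.2.2.1) ∧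
    (x.2.2.2.2.length = j * l ∧ ¬ tch R x.2.2.2.2)

/-- The pair has a representation with the lengths `i * l` and `j * l`. -/
def val (M : List V → V → List V → Prop) (R B : Set V) (l i j : ℕ) (t : List V × List V) :
    Prop := ∃ x, ev M R B l i j x ∧ (TT x, TT' x) = t

/-- The weight of a pair. -/
def w2 (P : V → V → ℝ≥0∞) (t : List V × List V) : ℝ≥0∞ := wt P t.1 * wt P t.2

theorem ev_inj {M : List V → V → List V → Prop} {R B : Set V} {l i j : ℕ} (x x' : X V)
    (h : ev M R B l i j x) (h' : ev M R B l i j x') (he : (TT x, TT' x) = (TT x', TT' x')) :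
    x = x' := by
  obtain ⟨a, y, b, A, A'⟩ := x
  obtain ⟨a2, y2, b2, A2, A2'⟩ := x'
  simp only [ev, TT, TT', Prod.mk.injEq] at h h' he
  obtain ⟨_, ⟨h1, _⟩, h2, _⟩ := h
  obtain ⟨_, ⟨h1', _⟩, h2', _⟩ := h'
  obtain ⟨e1, e2⟩ := List.append_inj' he.1 (by simp [h1, h1'])
  obtain ⟨e3, e4⟩ := List.append_inj he.2 (by simp [h2, h2'])
  simp only [List.cons.injEq] at e2 e4
  simp only [Prod.mk.injEq]
  exact ⟨e1, e2.1, e4.2, e2.2, e3⟩

theorem sum_val (M : List V → V → List V → Prop) (R B : Set V) (l i j : ℕ)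
    (f : List V × List V → ℝ≥0∞) :
    ∑' x : X V, ind (ev M R B l i j x) * f (TT x, TT' x) =
      ∑' t, ind (val M R B l i j t) * f t :=
  tsum_inj (ev M R B l i j) (fun x => (TT x, TT' x)) ev_inj f

theorem tsum_X (g : X V → ℝ≥0∞) :
    ∑' x : X V, g x = ∑' a, ∑' y, ∑' b, ∑' A, ∑' A', g (a, y, b, A, A') := by
  rw [ENNReal.tsum_prod']
  refine tsum_congr fun a => ?_
  rw [ENNReal.tsum_prod']
  refine tsum_congr fun y => ?_
  rw [ENNReal.tsum_prod']
  refine tsum_congr fun b => ?_
  rw [ENNReal.tsum_prod']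

/-- The weight of the marks. -/
def Jm (P : V → V → ℝ≥0∞) (M : List V → V → List V → Prop) : ℝ≥0∞ :=
  ∑' a : List V, ∑' y : V, ∑' b : List V, ind (M a y b) * wt P (a ++ y :: b)

theorem w2_TT (a : List V) (y : V) (b A A' : List V) :
    w2 P (TT (a, y, b, A, A'), TT' (a, y, b, A, A')) =
      wt P (a ++ [y]) * wt P (y :: b) * (wt P (y :: A) * wt P (A' ++ [y])) := by
  simp only [w2, TT, TT']
  rw [wt_append a y A, wt_append A' y b]
  ring

/-- The first moment for one pair of lengths. -/
theorem first_moment (hP : Ker P) (M : List V → V → List V → Prop) (R B : Set V) (l i j : ℕ) :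
    ∑' t, ind (val M R B l i j t) * w2 P t =
      ∑' a : List V, ∑' y : V, ∑' b : List V, ind (M a y b) * wt P (a ++ y :: b) *
        (sv P B (i * l) y * sv P R (j * l) y) := by
  rw [← sum_val, tsum_X]
  refine tsum_congr fun a => tsum_congr fun y => tsum_congr fun b => ?_
  rw [← sum_sv, ← sum_sv' hP, wt_append a y b, ← ENNReal.tsum_mul_right, ← ENNReal.tsum_mul_left]
  refine tsum_congr fun A => ?_
  rw [← ENNReal.tsum_mul_left, ← ENNReal.tsum_mul_left]
  refine tsum_congr fun A' => ?_
  rw [w2_TT]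
  simp only [ev, ind_and]
  ring

theorem first_le (hP : Ker P) (M : List V → V → List V → Prop) (R B : Set V) (l i j : ℕ) :
    ∑' t, ind (val M R B l i j t) * w2 P t ≤ Jm P M := by
  rw [first_moment hP]
  refine ENNReal.tsum_le_tsum fun a => ENNReal.tsum_le_tsum fun y =>
    ENNReal.tsum_le_tsum fun b => ?_
  calc ind (M a y b) * wt P (a ++ y :: b) * (sv P B (i * l) y * sv P R (j * l) y)
      ≤ ind (M a y b) * wt P (a ++ y :: b) * (1 * 1) := by
        gcongr
        · exact sv_le_one hP _ _ _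
        · exact sv_le_one hP _ _ _
    _ = _ := by ring

theorem le_first (hP : Ker P) (M : List V → V → List V → Prop) (R B : Set V) (l i j K : ℕ)
    (hi : i ≤ K) (hj : j ≤ K)
    (hM : ∀ a y b, M a y b → 1 / 2 ≤ sv P B (K * l) y ∧ 1 / 2 ≤ sv P R (K * l) y) :
 Jm P M ≤ 4 * ∑' t, ind (val M R B l i j t) * w2 P t := by
  rw [first_moment hP, Jm, ← ENNReal.tsum_mul_left]
  refine ENNReal.tsum_le_tsum fun a => ?_
  rw [← ENNReal.tsum_mul_left]
  refine ENNReal.tsum_le_tsum fun y => ?_
  rw [← ENNReal.tsum_mul_left]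
  refine ENNReal.tsum_le_tsum fun b => ?_
  by_cases h : M a y b
  · obtain ⟨h1, h2⟩ := hM a y b h
    have h3 : 1 / 2 ≤ sv P B (i * l) y :=
      h1.trans (sv_anti hP B y (Nat.mul_le_mul_right l hi))
    have h4 : 1 / 2 ≤ sv P R (j * l) y :=
      h2.trans (sv_anti hP R y (Nat.mul_le_mul_right l hj))
    have h5 : (1 : ℝ≥0∞) ≤ 4 * (sv P B (i * l) y * sv P R (j * l) y) := by
      have h6 : (4 : ℝ≥0∞) * (1 / 2 * (1 / 2)) = 1 := by
        rw [show (4 : ℝ≥0∞) = 2 * 2 by norm_num, one_div]
        rw [mul_mul_mul_comm, ENNReal.mul_inv_cancel (by simp) (by simp), one_mul]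
      rw [← h6]
      gcongr
    calc ind (M a y b) * wt P (a ++ y :: b) = ind (M a y b) * wt P (a ++ y :: b) * 1 := by ring
      _ ≤ ind (M a y b) * wt P (a ++ y :: b) * (4 * (sv P B (i * l) y * sv P R (j * l) y)) := by
        gcongr
      _ = _ := by ring
  · rw [ind_false h]
    simp

/-! ### Two representations -/

theorem bound_get (hP : Ker P) {n k : ℕ} (hk : k ≤ n) (y : V) (o : Option V) {D : ℝ≥0∞}
    (hD : ∀ z, pk P k y z ≤ D) :
    ∑' A : List V, ind (A.length = n ∧ (y :: A)[k]? = o ∧ o ≠ none) * wt P (y :: A) ≤ D := by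
  rcases o with _ | z
  · have : ∀ A : List V, ind (A.length = n ∧ (y :: A)[k]? = none ∧ (none : Option V) ≠ none) = 0 :=
      fun A => ind_false (by simp)
    simp only [this, zero_mul, tsum_zero]
    exact zero_le
  · refine le_trans (le_of_eq ?_) (hD z)
    rw [← sum_pos hP n k hk y z]
    refine tsum_congr fun A => ?_
    congr 1
    apply ind_congr
    simp

theorem bound_get' (hP : Ker P) {n k : ℕ} (hk : k ≤ n) (y : V) {D : ℝ≥0∞}
    (hD : ∀ z, pk P k y z ≤ D) :
    ∑' A : List V, ind (A.length = n ∧ (y :: A.reverse)[k]? = some y) * wt P (A ++ [y]) ≤ D := by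
  rw [sum_pos' hP n k hk y y]
  exact hD y

/-- The second moment: the first walk has two different cutting points. -/
theorem pair_one (hP : Ker P) (M : List V → V → List V → Prop) (R B : Set V) (l i j i2 j2 : ℕ)
    (hi : i2 < i) {D : ℝ≥0∞} (hD : ∀ y z, pk P ((i - i2) * l) y z ≤ D) :
    ∑' t, ind (val M R B l i j t) * (ind (val M R B l i2 j2 t) * w2 P t) ≤ D * Jm P M := by
  rw [← sum_val M R B l i j (fun t => ind (val M R B l i2 j2 t) * w2 P t), tsum_X]
  have hle : (i - i2) * l ≤ i * l := Nat.mul_le_mul_right l (Nat.sub_le i i2)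
  have key : ∀ a y b A A', ind (ev M R B l i j (a, y, b, A, A')) *
      (ind (val M R B l i2 j2 (TT (a, y, b, A, A'), TT' (a, y, b, A, A'))) *
        w2 P (TT (a, y, b, A, A'), TT' (a, y, b, A, A'))) ≤
      ind (M a y b) * wt P (a ++ y :: b) * (ind (A'.length = j * l) * wt P (A' ++ [y]) *
        (ind (A.length = i * l ∧ (y :: A)[(i - i2) * l]? = (A' ++ y :: b)[j2 * l]? ∧
          (A' ++ y :: b)[j2 * l]? ≠ none) * wt P (y :: A))) := by
    intro a y b A A'
    by_cases h1 : ev M R B l i j (a, y, b, A, A')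
    · by_cases h2 : val M R B l i2 j2 (TT (a, y, b, A, A'), TT' (a, y, b, A, A'))
      · have h1' := h1
        obtain ⟨hM, ⟨hA, _⟩, hA', _⟩ := h1'
        simp only at hM hA hA'
        have h2' := h2
        obtain ⟨⟨a2, y2, b2, A2, A2'⟩, ⟨_, ⟨hA2, _⟩, hA2', _⟩, he⟩ := h2'
        simp only [TT, TT', Prod.mk.injEq] at hA2 hA2' he
        have hlen : a2.length + (1 + i2 * l) = a.length + (1 + i * l) := by
          have := congrArg List.length he.1
          simp only [List.length_append, List.length_cons, hA, hA2] at this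
          omega
        have hsub : (i - i2) * l = i * l - i2 * l := Nat.sub_mul i i2 l
        have hle2 : i2 * l ≤ i * l := Nat.mul_le_mul_right l hi.le
        have e1 : (y :: A)[(i - i2) * l]? = some y2 := by
          have h3 : (a ++ y :: A)[a2.length]? = some y2 := by
            rw [← he.1]
            simp
          rw [List.getElem?_append_right (by omega)] at h3
          rw [← h3]
          congr 1
          omega
        have e2 : (A' ++ y :: b)[j2 * l]? = some y2 := by
          rw [← he.2, ← hA2']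
          simp
        rw [ind_true h1, ind_true h2, w2_TT, ind_true hM, ind_true hA',
          ind_true ⟨hA, e1.trans e2.symm, by rw [e2]; simp⟩, wt_append a y b]
        apply le_of_eq
        ring
      · rw [ind_false h2]
        simp
    · rw [ind_false h1]
      simp
  calc _ ≤ ∑' a : List V, ∑' y : V, ∑' b : List V, ∑' A : List V, ∑' A' : List V,
        ind (M a y b) * wt P (a ++ y :: b) * (ind (A'.length = j * l) * wt P (A' ++ [y]) *
        (ind (A.length = i * l ∧ (y :: A)[(i - i2) * l]? = (A' ++ y :: b)[j2 * l]? ∧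
          (A' ++ y :: b)[j2 * l]? ≠ none) * wt P (y :: A))) :=
        ENNReal.tsum_le_tsum fun a => ENNReal.tsum_le_tsum fun y => ENNReal.tsum_le_tsum fun b =>
          ENNReal.tsum_le_tsum fun A => ENNReal.tsum_le_tsum fun A' => key a y b A A'
    _ ≤ D * Jm P M := by
        rw [Jm, ← ENNReal.tsum_mul_left]
        refine ENNReal.tsum_le_tsum fun a => ?_
        rw [← ENNReal.tsum_mul_left]
        refine ENNReal.tsum_le_tsum fun y => ?_
        rw [← ENNReal.tsum_mul_left]
        refine ENNReal.tsum_le_tsum fun b => ?_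
        rw [ENNReal.tsum_comm]
        simp only [ENNReal.tsum_mul_left]
        calc ind (M a y b) * wt P (a ++ y :: b) * ∑' A' : List V,
              ind (A'.length = j * l) * wt P (A' ++ [y]) * ∑' A : List V,
              ind (A.length = i * l ∧ (y :: A)[(i - i2) * l]? = (A' ++ y :: b)[j2 * l]? ∧
                (A' ++ y :: b)[j2 * l]? ≠ none) * wt P (y :: A)
            ≤ ind (M a y b) * wt P (a ++ y :: b) * ∑' A' : List V,
              ind (A'.length = j * l) * wt P (A' ++ [y]) * D := by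
              gcongr with A'
              exact bound_get hP hle y _ fun z => hD y z
          _ = _ := by
              rw [ENNReal.tsum_mul_right, sum_len' hP]
              ring

/-- The second moment: the first walks have the same cutting point. -/
theorem pair_two (hP : Ker P) (M : List V → V → List V → Prop) (R B : Set V) (l i j j2 : ℕ)
    (hj : j2 < j) {D : ℝ≥0∞} (hD : ∀ y z, pk P ((j - j2) * l) y z ≤ D) :
    ∑' t, ind (val M R B l i j t) * (ind (val M R B l i j2 t) * w2 P t) ≤ D * Jm P M := by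
  rw [← sum_val M R B l i j (fun t => ind (val M R B l i j2 t) * w2 P t), tsum_X]
  have hle : (j - j2) * l ≤ j * l := Nat.mul_le_mul_right l (Nat.sub_le j j2)
  have key : ∀ a y b A A', ind (ev M R B l i j (a, y, b, A, A')) *
      (ind (val M R B l i j2 (TT (a, y, b, A, A'), TT' (a, y, b, A, A'))) *
        w2 P (TT (a, y, b, A, A'), TT' (a, y, b, A, A'))) ≤
      ind (M a y b) * wt P (a ++ y :: b) * (ind (A.length = i * l) * wt P (y :: A) *
        (ind (A'.length = j * l ∧ (y :: A'.reverse)[(j - j2) * l]? = some y) *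
          wt P (A' ++ [y]))) := by
    intro a y b A A'
    by_cases h1 : ev M R B l i j (a, y, b, A, A')
    · by_cases h2 : val M R B l i j2 (TT (a, y, b, A, A'), TT' (a, y, b, A, A'))
      · have h1' := h1
        obtain ⟨hM, ⟨hA, _⟩, hA', _⟩ := h1'
        simp only at hM hA hA'
        have h2' := h2
        obtain ⟨⟨a2, y2, b2, A2, A2'⟩, ⟨_, ⟨hA2, _⟩, hA2', _⟩, he⟩ := h2'
        simp only [TT, TT', Prod.mk.injEq] at hA2 hA2' he
        obtain ⟨_, e0⟩ := List.append_inj' he.1 (by simp [hA, hA2])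
        have ey : y2 = y := by
          simp only [List.cons.injEq] at e0
          exact e0.1
        subst ey
        have hsub : (j - j2) * l = j * l - j2 * l := Nat.sub_mul j j2 l
        have hle2 : j2 * l ≤ j * l := Nat.mul_le_mul_right l hj.le
        have e2 : (A' ++ y2 :: b)[j2 * l]? = some y2 := by
          rw [← he.2, ← hA2']
          simp
        have e3 : (y2 :: A'.reverse)[(j - j2) * l]? = some y2 := by
          by_cases hl : l = 0
          · subst hl
            simp
          have hlt : j2 * l < j * l := Nat.mul_lt_mul_of_pos_right hj (Nat.pos_of_ne_zero hl)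
          rw [List.getElem?_append_left (by omega)] at e2
          have h5 : (j - j2) * l = (j * l - j2 * l - 1) + 1 := by omega
          rw [h5, List.getElem?_cons_succ, List.getElem?_reverse (by omega), ← e2]
          congr 1
          omega
        rw [ind_true h1, ind_true h2, w2_TT, ind_true hM, ind_true hA,
          ind_true ⟨hA', e3⟩, wt_append a y2 b]
        apply le_of_eq
        ring
      · rw [ind_false h2]
        simp
    · rw [ind_false h1]
      simp
  calc _ ≤ ∑' a : List V, ∑' y : V, ∑' b : List V, ∑' A : List V, ∑' A' : List V,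
        ind (M a y b) * wt P (a ++ y :: b) * (ind (A.length = i * l) * wt P (y :: A) *
        (ind (A'.length = j * l ∧ (y :: A'.reverse)[(j - j2) * l]? = some y) *
          wt P (A' ++ [y]))) :=
        ENNReal.tsum_le_tsum fun a => ENNReal.tsum_le_tsum fun y => ENNReal.tsum_le_tsum fun b =>
          ENNReal.tsum_le_tsum fun A => ENNReal.tsum_le_tsum fun A' => key a y b A A'
    _ ≤ D * Jm P M := by
        rw [Jm, ← ENNReal.tsum_mul_left]
        refine ENNReal.tsum_le_tsum fun a => ?_
        rw [← ENNReal.tsum_mul_left]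
        refine ENNReal.tsum_le_tsum fun y => ?_
        rw [← ENNReal.tsum_mul_left]
        refine ENNReal.tsum_le_tsum fun b => ?_
        simp only [ENNReal.tsum_mul_left]
        calc ind (M a y b) * wt P (a ++ y :: b) * ∑' A : List V,
              ind (A.length = i * l) * wt P (y :: A) * ∑' A' : List V,
              ind (A'.length = j * l ∧ (y :: A'.reverse)[(j - j2) * l]? = some y) *
                wt P (A' ++ [y])
            ≤ ind (M a y b) * wt P (a ++ y :: b) * ∑' A : List V,
              ind (A.length = i * l) * wt P (y :: A) * D := by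
              gcongr with A
              exact bound_get' hP hle y fun z => hD y z
          _ = _ := by
              rw [ENNReal.tsum_mul_right, sum_len hP]
              ring

/-! ### Finiteness -/

theorem sum_lt (hP : Ker P) (m : ℕ) (y : V) :
    ∑' b : List V, ind (b.length < m) * wt P (y :: b) = m := by
  induction m with
  | zero => simp [ind]
  | succ m ih =>
    have h : ∀ b : List V, ind (b.length < m + 1) * wt P (y :: b) =
        ind (b.length < m) * wt P (y :: b) + ind (b.length = m) * wt P (y :: b) := by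
      intro b
      rcases lt_trichotomy b.length m with h1 | h1 | h1
      · rw [ind_true (show b.length < m + 1 by omega), ind_true h1,
          ind_false (show ¬ b.length = m by omega), zero_mul, add_zero]
      · rw [ind_true (show b.length < m + 1 by omega), ind_false (show ¬ b.length < m by omega),
          ind_true h1, zero_mul, zero_add]
      · rw [ind_false (show ¬ b.length < m + 1 by omega), ind_false (show ¬ b.length < m by omega),
          ind_false (show ¬ b.length = m by omega), zero_mul, add_zero]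
    simp only [h]
    rw [ENNReal.tsum_add, ih, sum_len hP, Nat.cast_add, Nat.cast_one]

theorem sum_lt' (hP : Ker P) (m : ℕ) (y : V) :
    ∑' a : List V, ind (a.length < m) * wt P (a ++ [y]) = m := by
  rw [← sum_lt hP m y, ← tsum_reverse]
  refine tsum_congr fun a => ?_
  rw [List.length_reverse, ← wt_reverse_cons hP, List.reverse_reverse]

theorem Jm_ne_top (hP : Ker P) (M : List V → V → List V → Prop) {B : Set V} (hB : (Bᶜ).Finite)
    (m : ℕ) (hM : ∀ a y b, M a y b → y ∉ B ∧ a.length + b.length + 1 ≤ m) : Jm P M ≠ ⊤ := by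
  have h1 : Jm P M ≤ ∑' y : V, ind (y ∉ B) * ((m : ℝ≥0∞) * m) := by
    rw [Jm, ENNReal.tsum_comm]
    refine ENNReal.tsum_le_tsum fun y => ?_
    calc ∑' a : List V, ∑' b : List V, ind (M a y b) * wt P (a ++ y :: b)
        ≤ ∑' a : List V, ∑' b : List V, ind (y ∉ B) * ((ind (a.length < m) * wt P (a ++ [y])) *
          (ind (b.length < m) * wt P (y :: b))) := by
          refine ENNReal.tsum_le_tsum fun a => ENNReal.tsum_le_tsum fun b => ?_
          by_cases h : M a y b
          · obtain ⟨h2, h3⟩ := hM a y b h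
            rw [ind_true h, ind_true h2, ind_true (show a.length < m by omega),
              ind_true (show b.length < m by omega), wt_append a y b]
            simp
          · rw [ind_false h]
            simp
      _ = ind (y ∉ B) * ((m : ℝ≥0∞) * m) := by
          simp only [ENNReal.tsum_mul_left, ENNReal.tsum_mul_right, sum_lt hP, sum_lt' hP]
  refine ne_top_of_le_ne_top ?_ h1
  rw [tsum_eq_sum (s := hB.toFinset)]
  · refine ENNReal.sum_ne_top.2 fun y _ => ?_
    exact ENNReal.mul_ne_top (ind_ne_top _) (ENNReal.mul_ne_top (ENNReal.natCast_ne_top m)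
      (ENNReal.natCast_ne_top m))
  · intro y hy
    rw [ind_false, zero_mul]
    intro h
    exact hy (by simpa using h)

/-! ### The sums of the bounds -/

/-- The bound without the value at zero. -/
def d0 (δ : ℕ → ℝ≥0∞) (k : ℕ) : ℝ≥0∞ := if k = 0 then 0 else δ k

theorem sum_sub_le (δ : ℕ → ℝ≥0∞) (K i : ℕ) (hi : i ≤ K) :
    ∑ a ∈ Icc 1 K, d0 δ (i - a) ≤ ∑ k ∈ Icc 1 K, δ k := by
  classical
  have h1 : ∑ a ∈ Icc 1 K, d0 δ (i - a) = ∑ a ∈ (Icc 1 K).filter (· < i), δ (i - a) := by
    rw [sum_filter]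
    refine sum_congr rfl fun a _ => ?_
    unfold d0
    by_cases h : a < i
    · rw [if_neg (by omega), if_pos h]
    · rw [if_pos (by omega), if_neg h]
  have h2 : ∑ k ∈ ((Icc 1 K).filter (· < i)).image (fun a => i - a), δ k =
      ∑ a ∈ (Icc 1 K).filter (· < i), δ (i - a) := by
    refine sum_image ?_
    intro a ha b hb hab
    simp only [coe_filter, mem_Icc, Set.mem_ofPred_eq] at ha hb
    simp only at hab
    omega
  rw [h1, ← h2]
  refine sum_le_sum_of_subset ?_
  intro k hk
  rw [mem_image] at hk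
  obtain ⟨a, ha, rfl⟩ := hk
  rw [mem_filter, mem_Icc] at ha
  rw [mem_Icc]
  omega

theorem sum_sub_le' (δ : ℕ → ℝ≥0∞) (K i : ℕ) (hi : 1 ≤ i) :
    ∑ a ∈ Icc 1 K, d0 δ (a - i) ≤ ∑ k ∈ Icc 1 K, δ k := by
  classical
  have h1 : ∑ a ∈ Icc 1 K, d0 δ (a - i) = ∑ a ∈ (Icc 1 K).filter (i < ·), δ (a - i) := by
    rw [sum_filter]
    refine sum_congr rfl fun a _ => ?_
    unfold d0
    by_cases h : i < a
    · rw [if_neg (by omega), if_pos h]
    · rw [if_pos (by omega), if_neg h]
  have h2 : ∑ k ∈ ((Icc 1 K).filter (i < ·)).image (fun a => a - i), δ k =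
      ∑ a ∈ (Icc 1 K).filter (i < ·), δ (a - i) := by
    refine sum_image ?_
    intro a ha b hb hab
    simp only [coe_filter, mem_Icc, Set.mem_ofPred_eq] at ha hb
    simp only at hab
    omega
  rw [h1, ← h2]
  refine sum_le_sum_of_subset ?_
  intro k hk
  rw [mem_image] at hk
  obtain ⟨a, ha, rfl⟩ := hk
  rw [mem_filter, mem_Icc] at ha
  rw [mem_Icc]
  omega

/-- The factor of a pair of pairs. -/
def fac (δ : ℕ → ℝ≥0∞) (p q : ℕ × ℕ) : ℝ≥0∞ :=
  ind (p = q) + (d0 δ (p.1 - q.1) + d0 δ (q.1 - p.1)) +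
    ind (p.1 = q.1) * (d0 δ (p.2 - q.2) + d0 δ (q.2 - p.2))

theorem sum_fac_le (δ : ℕ → ℝ≥0∞) (K : ℕ) (C : ℝ≥0∞) (hK : 1 ≤ K)
    (h : K * ∑ k ∈ Icc 1 K, δ k ≤ C) (p : ℕ × ℕ) (hp : p ∈ Icc 1 K ×ˢ Icc 1 K) :
    ∑ q ∈ Icc 1 K ×ˢ Icc 1 K, fac δ p q ≤ 1 + 4 * C := by
  classical
  obtain ⟨i, j⟩ := p
  rw [mem_product, mem_Icc, mem_Icc] at hp
  simp only at hp
  set S := ∑ k ∈ Icc 1 K, δ k with hS
  have hSC : S ≤ C := by
    refine le_trans ?_ h
    have : (1 : ℝ≥0∞) ≤ K := by exact_mod_cast hK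
    calc S = 1 * S := (one_mul S).symm
      _ ≤ K * S := by gcongr
  have e1 : ∑ q ∈ Icc 1 K ×ˢ Icc 1 K, ind ((i, j) = q) ≤ 1 := by
    have : ∀ q ∈ Icc 1 K ×ˢ Icc 1 K, ind ((i, j) = q) = if (i, j) = q then 1 else 0 := by
      intro q _
      unfold ind
      congr
    rw [sum_congr rfl this, sum_ite_eq]
    split_ifs
    · exact le_rfl
    · exact zero_le
  have e2 : ∑ q ∈ Icc 1 K ×ˢ Icc 1 K, (d0 δ (i - q.1) + d0 δ (q.1 - i)) ≤ 2 * C := by
    rw [sum_product]
    simp only [sum_const, Nat.card_Icc, Nat.add_sub_cancel, nsmul_eq_mul]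
    rw [← mul_sum, sum_add_distrib]
    calc (K : ℝ≥0∞) * (∑ a ∈ Icc 1 K, d0 δ (i - a) + ∑ a ∈ Icc 1 K, d0 δ (a - i))
        ≤ K * (S + S) := by
          gcongr
          · exact sum_sub_le δ K i hp.1.2
          · exact sum_sub_le' δ K i hp.1.1
      _ = 2 * (K * S) := by ring
      _ ≤ 2 * C := by gcongr
  have e3 : ∑ q ∈ Icc 1 K ×ˢ Icc 1 K, ind (i = q.1) * (d0 δ (j - q.2) + d0 δ (q.2 - j)) ≤
      2 * C := by
    rw [sum_product]
    simp only
    have h4 : ∀ a ∈ Icc 1 K, ∑ b ∈ Icc 1 K, ind (i = a) * (d0 δ (j - b) + d0 δ (b - j)) ≤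
        (if i = a then 1 else 0) * (2 * C) := by
      intro a _
      rw [← mul_sum, sum_add_distrib]
      have h5 : ind (i = a) = if i = a then 1 else 0 := by
        unfold ind
        congr
      rw [h5]
      gcongr
      calc (∑ b ∈ Icc 1 K, d0 δ (j - b)) + ∑ b ∈ Icc 1 K, d0 δ (b - j) ≤ S + S := by
            gcongr
            · exact sum_sub_le δ K j hp.2.2
            · exact sum_sub_le' δ K j hp.2.1
        _ ≤ C + C := by gcongr
        _ = 2 * C := by ring
    refine (sum_le_sum h4).trans ?_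
    rw [← sum_mul, sum_ite_eq]
    split_ifs
    · simp
    · simp
  unfold fac
  rw [sum_add_distrib, sum_add_distrib]
  calc _ ≤ 1 + 2 * C + 2 * C := by gcongr
    _ = 1 + 4 * C := by ring

theorem tsum_finset_sum {α ι : Type*} (s : Finset ι) (f : ι → α → ℝ≥0∞) :
    ∑' t, ∑ i ∈ s, f i t = ∑ i ∈ s, ∑' t, f i t :=
  Summable.tsum_finsetSum fun _ _ => ENNReal.summable

/-- All pairs of representations. -/
theorem pair_le (hP : Ker P) (M : List V → V → List V → Prop) (R B : Set V) (l : ℕ)
    (δ : ℕ → ℝ≥0∞) (hδ : ∀ k n x y, 1 ≤ k → k * l ≤ n → pk P n x y ≤ δ k) (p q : ℕ × ℕ) :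
    ∑' t, ind (val M R B l p.1 p.2 t) * (ind (val M R B l q.1 q.2 t) * w2 P t) ≤
      fac δ p q * Jm P M := by
  obtain ⟨i, j⟩ := p
  obtain ⟨i2, j2⟩ := q
  have hsymm : ∀ i j i2 j2 : ℕ,
      ∑' t, ind (val M R B l i j t) * (ind (val M R B l i2 j2 t) * w2 P t) =
      ∑' t, ind (val M R B l i2 j2 t) * (ind (val M R B l i j t) * w2 P t) := by
    intro i j i2 j2
    refine tsum_congr fun t => ?_
    ring
  simp only
  rcases lt_trichotomy i2 i with hi | hi | hi
  · refine (pair_one hP M R B l i j i2 j2 hi (D := δ (i - i2)) fun y z =>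
      hδ _ _ y z (by omega) le_rfl).trans ?_
    gcongr
    unfold fac
    have : d0 δ (i - i2) = δ (i - i2) := if_neg (by omega)
    simp only [this]
    calc δ (i - i2) ≤ δ (i - i2) + d0 δ (i2 - i) := le_self_add
      _ ≤ ind ((i, j) = (i2, j2)) + (δ (i - i2) + d0 δ (i2 - i)) := le_add_self
      _ ≤ _ := le_self_add
  · subst hi
    rcases lt_trichotomy j2 j with hj | hj | hj
    · refine (pair_two hP M R B l i2 j j2 hj (D := δ (j - j2)) fun y z =>
        hδ _ _ y z (by omega) le_rfl).trans ?_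
      gcongr
      unfold fac
      have : d0 δ (j - j2) = δ (j - j2) := if_neg (by omega)
      simp only [this, ind_true, one_mul]
      calc δ (j - j2) ≤ δ (j - j2) + d0 δ (j2 - j) := le_self_add
        _ ≤ _ := le_add_self
    · subst hj
      have h1 : ∑' t, ind (val M R B l i2 j2 t) * (ind (val M R B l i2 j2 t) * w2 P t) ≤
          1 * Jm P M := by
        rw [one_mul]
        refine le_trans (ENNReal.tsum_le_tsum fun t => ?_) (first_le hP M R B l i2 j2)
        calc ind (val M R B l i2 j2 t) * (ind (val M R B l i2 j2 t) * w2 P t)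
            ≤ 1 * (ind (val M R B l i2 j2 t) * w2 P t) := by
              gcongr
              exact ind_le_one _
          _ = _ := one_mul _
      refine h1.trans ?_
      gcongr
      unfold fac
      simp only [ind_true]
      rw [add_assoc]
      exact le_self_add
    · rw [hsymm]
      refine (pair_two hP M R B l i2 j2 j hj (D := δ (j2 - j)) fun y z =>
        hδ _ _ y z (by omega) le_rfl).trans ?_
      gcongr
      unfold fac
      have : d0 δ (j2 - j) = δ (j2 - j) := if_neg (by omega)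
      simp only [this, ind_true, one_mul]
      calc δ (j2 - j) ≤ d0 δ (j - j2) + δ (j2 - j) := le_add_self
        _ ≤ _ := le_add_self
  · rw [hsymm]
    refine (pair_one hP M R B l i2 j2 i j hi (D := δ (i2 - i)) fun y z =>
      hδ _ _ y z (by omega) le_rfl).trans ?_
    gcongr
    unfold fac
    have : d0 δ (i2 - i) = δ (i2 - i) := if_neg (by omega)
    simp only [this]
    calc δ (i2 - i) ≤ d0 δ (i - i2) + δ (i2 - i) := le_add_self
      _ ≤ ind ((i, j) = (i2, j2)) + (d0 δ (i - i2) + δ (i2 - i)) := le_add_self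
      _ ≤ _ := le_self_add

/-- The statement LOW, without hypotheses. -/
theorem low.{u} : SLow.{u} := by
  intro V P hP R B hB m s K L1 δ C hC hs hK hL hδ hKC
  classical
  set M : List V → V → List V → Prop := fun a y b => mark R B a y b ∧
    a.length + b.length + 1 ≤ m ∧ (good (m - s) a y b ∧ ¬ hi P B (K * L1) y ∧
      ¬ hi P R (K * L1) y) with hMdef
  have hJ : JJ P R B m (fun a y b => good (m - s) a y b ∧ ¬ hi P B (K * L1) y ∧
      ¬ hi P R (K * L1) y) = Jm P M := rfl
  rw [hJ]
  have hfin : Jm P M ≠ ⊤ := Jm_ne_top hP M hB m fun a y b h => ⟨h.1.2.2.2.1, h.2.1⟩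
  set I : Finset (ℕ × ℕ) := Icc 1 K ×ˢ Icc 1 K with hI
  have hcard : (I.card : ℝ≥0∞) = (K : ℝ≥0∞) ^ 2 := by
    rw [hI, card_product, Nat.card_Icc, Nat.add_sub_cancel, Nat.cast_mul, sq]
  set v : ℕ × ℕ → List V × List V → ℝ≥0∞ := fun p t => ind (val M R B L1 p.1 p.2 t) with hv
  set N : List V × List V → ℝ≥0∞ := fun t => ∑ p ∈ I, v p t with hN
  -- the first moment
  have hQ1 : (K : ℝ≥0∞) ^ 2 * Jm P M ≤ 4 * ∑' t, N t * w2 P t := by
    have h1 : ∑' t, N t * w2 P t = ∑ p ∈ I, ∑' t, v p t * w2 P t := by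
      rw [← tsum_finset_sum]
      refine tsum_congr fun t => ?_
      rw [hN, sum_mul]
    rw [h1, mul_sum, ← hcard, ← nsmul_eq_mul, ← sum_const]
    refine sum_le_sum fun p hp => ?_
    rw [hI, mem_product, mem_Icc, mem_Icc] at hp
    refine le_first hP M R B L1 p.1 p.2 K hp.1.2 hp.2.2 ?_
    intro a y b h
    exact ⟨not_lt.1 h.2.2.2.1, not_lt.1 h.2.2.2.2⟩
  -- the second moment
  have hQ2 : ∑' t, N t ^ 2 * w2 P t ≤ (1 + 4 * C) * ((K : ℝ≥0∞) ^ 2 * Jm P M) := by
    have h1 : ∑' t, N t ^ 2 * w2 P t =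
        ∑ p ∈ I, ∑ q ∈ I, ∑' t, v p t * (v q t * w2 P t) := by
      simp only [← tsum_finset_sum]
      refine tsum_congr fun t => ?_
      rw [sq, hN]
      simp only [sum_mul, mul_sum]
      rw [sum_comm]
      refine sum_congr rfl fun p _ => sum_congr rfl fun q _ => ?_
      ring
    rw [h1]
    calc ∑ p ∈ I, ∑ q ∈ I, ∑' t, v p t * (v q t * w2 P t)
        ≤ ∑ p ∈ I, ∑ q ∈ I, fac δ p q * Jm P M :=
          sum_le_sum fun p _ => sum_le_sum fun q _ => pair_le hP M R B L1 δ hδ p q
      _ ≤ ∑ p ∈ I, (1 + 4 * C) * Jm P M := by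
          refine sum_le_sum fun p hp => ?_
          rw [← sum_mul]
          gcongr
          exact sum_fac_le δ K C hK hKC p hp
      _ = (1 + 4 * C) * ((K : ℝ≥0∞) ^ 2 * Jm P M) := by
          rw [sum_const, nsmul_eq_mul, hcard]
          ring
  -- the crossing pairs
  have hSS : ∑' t, ind (N t ≠ 0) * w2 P t ≤ SS P R B (m - s + K * L1) := by
    rw [ENNReal.tsum_prod', SS]
    refine ENNReal.tsum_le_tsum fun T => ENNReal.tsum_le_tsum fun T' => ?_
    rw [w2, ← mul_assoc]
    gcongr
    apply ind_mono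
    intro h
    rw [hN] at h
    obtain ⟨p, hp, hpv⟩ := exists_ne_zero_of_sum_ne_zero h
    have hval : val M R B L1 p.1 p.2 (T, T') := by
      by_contra h2
      exact hpv (ind_false h2)
    rw [hI, mem_product, mem_Icc, mem_Icc] at hp
    obtain ⟨⟨a, y, b, A, A'⟩, ⟨⟨h1, h2, ⟨h3, h3'⟩, _⟩, ⟨h4, h4'⟩, h5, h5'⟩, he⟩ := hval
    simp only [TT, TT', Prod.mk.injEq] at he h1 h2 h3 h3' h4 h4' h5 h5'
    obtain ⟨rfl, rfl⟩ := he
    obtain ⟨g1, g2, g3, g4, g5, g6⟩ := h1
    have hi1 : p.1 * L1 ≤ K * L1 := Nat.mul_le_mul_right L1 hp.1.2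
    have hj1 : p.2 * L1 ≤ K * L1 := Nat.mul_le_mul_right L1 hp.2.2
    refine ⟨⟨?_, ?_, ?_, ?_, y, ?_, ?_⟩, ?_, ?_⟩
    · rw [tch_append]
      exact Or.inl g1
    · rw [tch_append, tch_cons]
      tauto
    · rw [tch_append, tch_cons]
      tauto
    · rw [tch_append, tch_cons]
      tauto
    · simp
    · simp
    · simp only [List.length_append, List.length_cons]
      omega
    · simp only [List.length_append, List.length_cons]
      omega
  -- Cauchy-Schwarz
  set c : ℝ≥0∞ := 1 + 4 * C with hc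
  have hctop : c ≠ ⊤ := ENNReal.add_ne_top.2 ⟨ENNReal.one_ne_top,
    ENNReal.mul_ne_top (by simp) hC⟩
  have hc0 : c ≠ 0 := by
    rw [hc]
    simp
  set Z : ℝ≥0∞ := (K : ℝ≥0∞) ^ 2 * Jm P M with hZ
  have hZtop : Z ≠ ⊤ := ENNReal.mul_ne_top (by simp) hfin
  have h1 : 2 * (4 * c) * ∑' t, N t * w2 P t ≤
      ∑' t, N t ^ 2 * w2 P t + (4 * c) ^ 2 * ∑' t, ind (N t ≠ 0) * w2 P t := by
    rw [← ENNReal.tsum_mul_left, ← ENNReal.tsum_mul_left, ← ENNReal.tsum_add]
    refine ENNReal.tsum_le_tsum fun t => ?_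
    by_cases h : N t = 0
    · rw [h]
      simp
    · rw [ind_true h, one_mul]
      calc 2 * (4 * c) * (N t * w2 P t) = (2 * (4 * c) * N t) * w2 P t := by ring
        _ ≤ (N t ^ 2 + (4 * c) ^ 2) * w2 P t := by
            gcongr
            exact two_mul_le _ _ (ENNReal.mul_ne_top (by simp) hctop)
        _ = _ := by ring
  have h2 : c * Z + c * Z ≤ c * Z + c * (16 * c * SS P R B (m - s + K * L1)) := by
    calc c * Z + c * Z = 2 * c * Z := by ring
      _ ≤ 2 * c * (4 * ∑' t, N t * w2 P t) := by gcongr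
      _ = 2 * (4 * c) * ∑' t, N t * w2 P t := by ring
      _ ≤ _ := h1
      _ ≤ c * Z + (4 * c) ^ 2 * SS P R B (m - s + K * L1) := by gcongr
      _ = _ := by ring
  have h3 : c * Z ≤ c * (16 * c * SS P R B (m - s + K * L1)) :=
    (ENNReal.add_le_add_iff_left (ENNReal.mul_ne_top hctop hZtop)).1 h2
  exact (ENNReal.mul_le_mul_iff_right hc0 hctop).1 h3

theorem prf.{u} : SLowAll.{u} := fun _ _ _ => low

end I_LOW

end Pool.Agent.Fri
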