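import Pool.Agent.Work.MP_c9ff92_pr.Fri.Stmts
import Pool.Agent.Work.MP_c9ff92_pr.Fri.Basic

/-!
# Item MECKE (MP_c9ff92_pr)
-/

open Finset
open scoped ENNReal NNReal

noncomputable section

namespace Pool.Agent.Fri.I_MECKE2

open Pool.Agent.Fri

variable {T : Type*} [DecidableEq T]

/-- the weight of a subset -/
def W (r : T → ℝ) (s A : Finset T) : ℝ≥0∞ :=
  ENNReal.ofReal ((∏ i ∈ A, (1 - Real.exp (-r i))) * ∏ i ∈ s \ A, Real.exp (-r i))

theorem key {r : T → ℝ} {s B : Finset T} {i : T} (hi : i ∉ s) (hB : B ⊆ s)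
    (hr : ∀ j ∈ insert i s, 0 ≤ r j) :
    W r (insert i s) B * ENNReal.ofReal (r i) ≤ W r (insert i s) (insert i B) := by
  have hiB : i ∉ B := fun h => hi (hB h)
  have h1 : insert i s \ B = insert i (s \ B) := by
    rw [Finset.insert_sdiff_of_notMem _ hiB]
  have h2 : insert i s \ insert i B = s \ B := by
    ext j
    simp only [Finset.mem_sdiff, Finset.mem_insert]
    constructor
    · rintro ⟨h | h, h'⟩
      · exact absurd (Or.inl h) h'
      · exact ⟨h, fun hj => h' (Or.inr hj)⟩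
    · rintro ⟨h, h'⟩
      refine ⟨Or.inr h, ?_⟩
      rintro (rfl | hj)
      · exact hi h
      · exact h' hj
  have h3 : i ∉ s \ B := fun h => hi (Finset.mem_sdiff.1 h).1
  unfold W
  rw [h1, h2, Finset.prod_insert h3, Finset.prod_insert hiB]
  have hri : 0 ≤ r i := hr i (Finset.mem_insert_self _ _)
  have hX : 0 ≤ (∏ j ∈ B, (1 - Real.exp (-r j))) * ∏ j ∈ s \ B, Real.exp (-r j) := by
    apply mul_nonneg
    · apply Finset.prod_nonneg
      intro j hj
      have : 0 ≤ r j := hr j (Finset.mem_insert_of_mem (hB hj))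
      have h4 : Real.exp (-r j) ≤ 1 := Real.exp_le_one_iff.2 (by linarith)
      linarith
    · exact Finset.prod_nonneg fun j _ => (Real.exp_pos _).le
  have h5 : 0 ≤ (∏ j ∈ B, (1 - Real.exp (-r j))) *
      (Real.exp (-r i) * ∏ j ∈ s \ B, Real.exp (-r j)) := by
    have : (∏ j ∈ B, (1 - Real.exp (-r j))) *
      (Real.exp (-r i) * ∏ j ∈ s \ B, Real.exp (-r j)) = Real.exp (-r i) *
        ((∏ j ∈ B, (1 - Real.exp (-r j))) * ∏ j ∈ s \ B, Real.exp (-r j)) := by ring
    rw [this]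
    exact mul_nonneg (Real.exp_pos _).le hX
  rw [← ENNReal.ofReal_mul h5]
  apply ENNReal.ofReal_le_ofReal
  have h6 : Real.exp (-r i) * r i ≤ 1 - Real.exp (-r i) := by
    have h7 := Real.add_one_le_exp (r i)
    have h8 : Real.exp (-r i) * Real.exp (r i) = 1 := by
      rw [← Real.exp_add]; simp
    have h9 : Real.exp (-r i) * (r i + 1) ≤ Real.exp (-r i) * Real.exp (r i) :=
      mul_le_mul_of_nonneg_left h7 (Real.exp_pos _).le
    linarith
  calc (∏ j ∈ B, (1 - Real.exp (-r j))) *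
      (Real.exp (-r i) * ∏ j ∈ s \ B, Real.exp (-r j)) * r i
      = (Real.exp (-r i) * r i) *
        ((∏ j ∈ B, (1 - Real.exp (-r j))) * ∏ j ∈ s \ B, Real.exp (-r j)) := by ring
    _ ≤ (1 - Real.exp (-r i)) *
        ((∏ j ∈ B, (1 - Real.exp (-r j))) * ∏ j ∈ s \ B, Real.exp (-r j)) :=
        mul_le_mul_of_nonneg_right h6 hX
    _ = _ := by ring

theorem prf.{u} : SMecke.{u} := by
  intro T _ s r hr f hf
  have e1 : ∀ g : Finset T → ℝ≥0∞, EE r s g = ∑ A ∈ s.powerset, W r s A * g A := fun g => rfl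
  rw [e1, e1]
  have hL : ∑ A ∈ s.powerset, W r s A * ∑ i ∈ s, ENNReal.ofReal (r i) * f i A =
      ∑ i ∈ s, ∑ A ∈ s.powerset, W r s A * (ENNReal.ofReal (r i) * f i A) := by
    simp only [Finset.mul_sum]
    rw [Finset.sum_comm]
  have hR : ∑ A ∈ s.powerset, W r s A * ∑ i ∈ A, f i (A.erase i) =
      ∑ i ∈ s, ∑ A ∈ s.powerset, if i ∈ A then W r s A * f i (A.erase i) else 0 := by
    rw [Finset.sum_comm]
    refine Finset.sum_congr rfl fun A hA => ?_
    rw [Finset.mem_powerset] at hA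
    rw [Finset.mul_sum, ← Finset.sum_filter]
    have : s.filter (fun i => i ∈ A) = A := by
      ext j
      simp only [Finset.mem_filter]
      exact ⟨fun h => h.2, fun h => ⟨hA h, h⟩⟩
    rw [this]
  rw [hL, hR]
  refine Finset.sum_le_sum fun i hi => ?_
  obtain ⟨s', hs', rfl⟩ : ∃ s', i ∉ s' ∧ insert i s' = s :=
    ⟨s.erase i, Finset.notMem_erase i s, Finset.insert_erase hi⟩
  rw [Finset.sum_powerset_insert hs', Finset.sum_powerset_insert hs']
  have hA : ∑ t ∈ s'.powerset, W r (insert i s') (insert i t) *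
      (ENNReal.ofReal (r i) * f i (insert i t)) = 0 :=
    Finset.sum_eq_zero fun t _ => by
      rw [hf i _ (Finset.mem_insert_self i t), mul_zero, mul_zero]
  have hB : (∑ t ∈ s'.powerset, if i ∈ t then W r (insert i s') t * f i (t.erase i) else 0) = 0 :=
    Finset.sum_eq_zero fun t ht => by
      rw [Finset.mem_powerset] at ht
      rw [if_neg fun h => hs' (ht h)]
  rw [hA, hB, add_zero, zero_add]
  refine Finset.sum_le_sum fun t ht => ?_
  rw [Finset.mem_powerset] at ht
  have hit : i ∉ t := fun h => hs' (ht h)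
  rw [if_pos (Finset.mem_insert_self i t), Finset.erase_insert hit, ← mul_assoc]
  exact mul_le_mul' (key hs' ht hr) le_rfl

end Pool.Agent.Fri.I_MECKE2
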