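import Pool.Agent.Work.MP_c9ff92_pr.Fri.Stmts
import Pool.Agent.Work.MP_c9ff92_pr.Fri.Basic

/-!
# Item PERC: the numerics and the recursion (MP_c9ff92_pr)
-/

open Finset
open scoped ENNReal NNReal

noncomputable section

namespace Pool.Agent.Fri.I_PERC

open Pool.Agent.Fri

/-! ### A finite family of walks -/

section family

variable {V : Type*} {P : V → V → ℝ≥0∞}

theorem finite_walks (hf : ∀ x, {y | P x y ≠ 0}.Finite) (n : ℕ) :
    ∀ A : Set V, A.Finite →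
      {w : List V | wt P w ≠ 0 ∧ w.length ≤ n ∧ ∃ x ∈ A, w.head? = some x}.Finite := by
  induction n with
  | zero =>
    intro A _
    refine Set.finite_empty.subset ?_
    rintro w ⟨h1, h2, _⟩
    rcases w with _ | ⟨x, w⟩
    · exact absurd rfl h1
    · simp at h2
  | succ n ih =>
    intro A hA
    have hA' : (⋃ x ∈ A, {y | P x y ≠ 0}).Finite := hA.biUnion fun x _ => hf x
    refine ((hA.image fun x => [x]).union ((hA.prod (ih _ hA')).image fun p => p.1 :: p.2)).subset ?_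
    rintro w ⟨h1, h2, x, hx, h3⟩
    rcases w with _ | ⟨y, w⟩
    · simp at h3
    · have hyx : y = x := by simpa using h3
      subst hyx
      rcases w with _ | ⟨z, w⟩
      · exact Or.inl ⟨y, hx, rfl⟩
      · rw [wt_cons_cons] at h1
        refine Or.inr ⟨(y, z :: w), ⟨hx, right_ne_zero_of_mul h1, ?_, z, ?_, rfl⟩, rfl⟩
        · simp only [List.length_cons] at h2 ⊢
          omega
        · exact Set.mem_biUnion hx (left_ne_zero_of_mul h1)

theorem exists_full (hP : Ker P) (hf : ∀ x, {y | P x y ≠ 0}.Finite) {D : Set V} (hD : D.Finite)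
    (M : ℕ) : ∃ s : Finset (List V), full P D M s := by
  have hW := finite_walks hf M D hD
  refine ⟨((hW.prod hW).image fun p => p.1.tail.reverse ++ p.2).toFinset, ?_⟩
  intro w h1 h2 h3
  rw [Set.Finite.mem_toFinset]
  obtain ⟨y, hy, hyD⟩ := h3
  obtain ⟨a, b, rfl⟩ := List.append_of_mem hy
  rw [wt_append] at h1
  refine ⟨(y :: a.reverse, y :: b), ⟨⟨?_, ?_, y, hyD, rfl⟩, ?_, ?_, y, hyD, rfl⟩, by simp⟩
  · rw [wt_reverse_cons hP]
    exact left_ne_zero_of_mul h1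
  · simp only [List.length_append, List.length_cons, List.length_reverse] at h2 ⊢
    omega
  · exact right_ne_zero_of_mul h1
  · simp only [List.length_append, List.length_cons] at h2 ⊢
    omega

theorem full_mono {D : Set V} {m M : ℕ} (h : m ≤ M) {s : Finset (List V)} (hs : full P D M s) :
    full P D m s := fun w h1 h2 h3 => hs w h1 (h2.trans h) h3

theorem up_Suc [DecidableEq V] (o : V) (D : Set V) : Frog.Up (Suc o D) := by
  rintro A A' h ⟨z, hz, hr⟩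
  refine ⟨z, hz, Relation.ReflTransGen.mono ?_ _ _ hr⟩
  rintro x y ⟨w, hw, h1⟩
  exact ⟨w, h hw, h1⟩

end family

/-! ### Numerics -/

theorem sum_three_halves (n : ℕ) (hn : 1 ≤ n) :
    ∑ k ∈ Icc 1 n, 1 / ((k : ℝ) * Real.sqrt k) ≤ 3 - 2 / Real.sqrt n := by
  induction n, hn using Nat.le_induction with
  | base => norm_num
  | succ n hn ih =>
    rw [Finset.sum_Icc_succ_top (by omega)]
    have hn0 : (0 : ℝ) < n := by exact_mod_cast hn
    have h0 : 0 < Real.sqrt n := Real.sqrt_pos.2 hn0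
    have h1 : 0 < Real.sqrt ((n + 1 : ℕ) : ℝ) := Real.sqrt_pos.2 (by positivity)
    have h2 : Real.sqrt n ≤ Real.sqrt ((n + 1 : ℕ) : ℝ) := Real.sqrt_le_sqrt (by push_cast; linarith)
    have e0 : Real.sqrt n * Real.sqrt n = n := Real.mul_self_sqrt hn0.le
    have e1 : Real.sqrt ((n + 1 : ℕ) : ℝ) * Real.sqrt ((n + 1 : ℕ) : ℝ) = ((n + 1 : ℕ) : ℝ) :=
      Real.mul_self_sqrt (by positivity)
    set x := Real.sqrt n with hx
    set y := Real.sqrt ((n + 1 : ℕ) : ℝ) with hy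
    have e2 : y * y = x * x + 1 := by rw [e0, e1]; push_cast; ring
    have key : 1 / (((n + 1 : ℕ) : ℝ) * y) ≤ 2 / x - 2 / y := by
      rw [← e1, div_sub_div _ _ h0.ne' h1.ne', div_le_div_iff₀ (by positivity) (by positivity)]
      have h3 : (y - x) * (y + x) = 1 := by nlinarith
      have h4 : 0 ≤ y - x := by linarith
      have h5 : x ≤ 2 * y * y * (y - x) := by
        nlinarith [mul_nonneg h4 h1.le, mul_nonneg (mul_nonneg h4 h1.le) h4]
      nlinarith [mul_pos h0 h1, mul_le_mul_of_nonneg_left h5 h1.le]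
    linarith

theorem sum_three_halves' (n : ℕ) : ∑ k ∈ Icc 1 n, 1 / ((k : ℝ) * Real.sqrt k) ≤ 3 := by
  rcases Nat.eq_zero_or_pos n with rfl | hn
  · simp
  · have h := sum_three_halves n hn
    have : 0 ≤ 2 / Real.sqrt n := by positivity
    linarith

theorem exists_t (m : ℕ) : ∃ t : ℕ, t ^ 11 ≤ m ^ 2 ∧ m ^ 2 < (t + 1) ^ 11 := by
  have h : ∃ n : ℕ, m ^ 2 < (n + 1) ^ 11 := by
    refine ⟨m ^ 2, ?_⟩
    calc m ^ 2 < m ^ 2 + 1 := Nat.lt_succ_self _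
      _ ≤ (m ^ 2 + 1) ^ 11 := Nat.le_self_pow (by norm_num) _
  classical
  refine ⟨Nat.find h, ?_, Nat.find_spec h⟩
  rcases Nat.eq_zero_or_pos (Nat.find h) with h0 | h0
  · rw [h0]
    simp
  · have := Nat.find_min h (m := Nat.find h - 1) (by omega)
    rw [not_lt] at this
    rwa [Nat.sub_add_cancel h0] at this

theorem real_bound {A u c M d T x : ℝ} (hA : 0 ≤ A) (hu : 0 < u) (hc : u ≤ c) (hM : 4 ≤ M)
    (hd9 : M ≤ 9 * d) (hT : 0 < T) (hTx : T ≤ x) (hxT : x ≤ 2 * T) (hx11 : x ^ 11 = M ^ 2) :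
    2 * (80 * A / T ^ 6 / (c * (1 / ((M + 1) * M * (M - 1))) * d ^ 2) + 80 * T ^ 5 * M / d ^ 2) ≤
      4 * 6480 * (64 * A / u + 1) * (1 / x ^ 6) * (M - 2) := by
  have hM0 : 0 < M := by linarith
  have hM1 : 0 < M - 1 := by linarith
  have hd0 : 0 < d := by linarith
  have hc0 : 0 < c := hu.trans_le hc
  have hx0 : 0 < x := hT.trans_le hTx
  have h3 : M ^ 2 ≤ 81 * d ^ 2 := by
    calc M ^ 2 ≤ (9 * d) ^ 2 := pow_le_pow_left₀ hM0.le hd9 2
      _ = 81 * d ^ 2 := by ring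
  have hAA : 80 * A / T ^ 6 / (c * (1 / ((M + 1) * M * (M - 1))) * d ^ 2) ≤
      6480 * (64 * A / u) * (M / x ^ 6) := by
    have e1 : 80 * A / T ^ 6 / (c * (1 / ((M + 1) * M * (M - 1))) * d ^ 2) =
        80 * A * (1 / T ^ 6) * (((M + 1) * M * (M - 1)) / (c * d ^ 2)) := by
      field_simp
    have e2 : ((M + 1) * M * (M - 1)) / (c * d ^ 2) ≤ 81 * M / u := by
      rw [div_le_div_iff₀ (by positivity) hu]
      have h4 : (M + 1) * M * (M - 1) ≤ M * M ^ 2 := by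
        have : M * M ^ 2 - (M + 1) * M * (M - 1) = M := by ring
        linarith
      calc (M + 1) * M * (M - 1) * u ≤ (M * M ^ 2) * u := by gcongr
        _ ≤ (M * (81 * d ^ 2)) * c := by gcongr
        _ = 81 * M * (c * d ^ 2) := by ring
    have e3 : 1 / T ^ 6 ≤ 64 / x ^ 6 := by
      rw [div_le_div_iff₀ (by positivity) (by positivity)]
      calc 1 * x ^ 6 = x ^ 6 := one_mul _
        _ ≤ (2 * T) ^ 6 := pow_le_pow_left₀ hx0.le hxT 6
        _ = 64 * T ^ 6 := by ring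
    rw [e1]
    calc 80 * A * (1 / T ^ 6) * (((M + 1) * M * (M - 1)) / (c * d ^ 2)) ≤
        80 * A * (64 / x ^ 6) * (81 * M / u) := by gcongr
      _ = 6480 * (64 * A / u) * (M / x ^ 6) := by ring
  have hB : 80 * T ^ 5 * M / d ^ 2 ≤ 6480 * (M / x ^ 6) := by
    have h4 : T ^ 5 ≤ x ^ 5 := pow_le_pow_left₀ hT.le hTx 5
    rw [div_le_iff₀ (by positivity)]
    have h5 : 6480 * (M / x ^ 6) * d ^ 2 = 80 * (M / x ^ 6) * (81 * d ^ 2) := by ring
    rw [h5]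
    have h6 : 80 * x ^ 5 * M = 80 * (M / x ^ 6) * x ^ 11 := by
      field_simp
    calc 80 * T ^ 5 * M ≤ 80 * x ^ 5 * M := by gcongr
      _ = 80 * (M / x ^ 6) * M ^ 2 := by rw [h6, hx11]
      _ ≤ 80 * (M / x ^ 6) * (81 * d ^ 2) := by gcongr
  have hm2 : M / 2 ≤ M - 2 := by linarith
  have hE : 0 ≤ 4 * 6480 * (64 * A / u + 1) * (1 / x ^ 6) := by positivity
  calc 2 * (80 * A / T ^ 6 / (c * (1 / ((M + 1) * M * (M - 1))) * d ^ 2) +
        80 * T ^ 5 * M / d ^ 2) ≤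
      2 * (6480 * (64 * A / u) * (M / x ^ 6) + 6480 * (M / x ^ 6)) := by
        linarith [hAA, hB]
    _ = 4 * 6480 * (64 * A / u + 1) * (1 / x ^ 6) * (M / 2) := by ring
    _ ≤ 4 * 6480 * (64 * A / u + 1) * (1 / x ^ 6) * (M - 2) :=
        mul_le_mul_of_nonneg_left hm2 hE

theorem numerics (C1 u : ℝ) (hC : 0 ≤ C1) (hu : 0 < u) :
    ∃ E : ℝ, 0 ≤ E ∧ ∀ m : ℕ, 10 ^ 11 ≤ m → ∃ t s : ℕ, 1 ≤ t ∧ 3 * s ≤ m ∧ t ^ 3 * t ^ 2 < s ∧
      ∀ c : ℝ, u ≤ c →
      2 * ((80 * (1 + 12 * C1) / ((t ^ 3 : ℕ) : ℝ) ^ 2) /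
          (c * cc m * ((m - (m - s + t ^ 3 * t ^ 2) : ℕ) : ℝ) ^ 2) +
        80 * ((t ^ 3 * t ^ 2 : ℕ) : ℝ) * m / (((s - t ^ 3 * t ^ 2 : ℕ) : ℝ)) ^ 2) ≤
      E * (m : ℝ) ^ (-(12 : ℝ) / 11) * (m - 2) := by
  refine ⟨4 * 6480 * (64 * (1 + 12 * C1) / u + 1), by positivity, ?_⟩
  intro m hm
  obtain ⟨t, h1, h2⟩ := exists_t m
  have ht : 100 ≤ t := by
    by_contra hlt
    have h3 : (t + 1) ^ 11 ≤ 100 ^ 11 := Nat.pow_le_pow_left (by omega) 11
    have h4 : (10 ^ 11) ^ 2 ≤ m ^ 2 := Nat.pow_le_pow_left hm 2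
    have h5 : (100 : ℕ) ^ 11 = (10 ^ 11) ^ 2 := by norm_num
    omega
  have hL : 10 * (t ^ 3 * t ^ 2) ≤ m := by
    rw [← Nat.pow_le_pow_iff_left (two_ne_zero)]
    calc (10 * (t ^ 3 * t ^ 2)) ^ 2 = 100 * t ^ 10 := by ring
      _ ≤ t * t ^ 10 := Nat.mul_le_mul_right _ ht
      _ = t ^ 11 := by ring
      _ ≤ m ^ 2 := h1
  have hs1 : 3 * (m / 4) ≤ m := by omega
  have hs2 : t ^ 3 * t ^ 2 < m / 4 := by
    generalize t ^ 3 * t ^ 2 = L at hL
    omega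
  refine ⟨t, m / 4, by omega, hs1, hs2, ?_⟩
  intro c hc
  have hd : m - (m - m / 4 + t ^ 3 * t ^ 2) = m / 4 - t ^ 3 * t ^ 2 := by
    generalize t ^ 3 * t ^ 2 = L at hL hs2
    omega
  have hd9 : m ≤ 9 * (m / 4 - t ^ 3 * t ^ 2) := by
    generalize t ^ 3 * t ^ 2 = L at hL hs2
    omega
  rw [hd]
  have hd9' : (m : ℝ) ≤ 9 * ((m / 4 - t ^ 3 * t ^ 2 : ℕ) : ℝ) := by exact_mod_cast hd9
  have hLr : ((t ^ 3 * t ^ 2 : ℕ) : ℝ) = (t : ℝ) ^ 5 := by push_cast; ring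
  have hKr : ((t ^ 3 : ℕ) : ℝ) ^ 2 = (t : ℝ) ^ 6 := by push_cast; ring
  rw [hLr, hKr]
  generalize ((m / 4 - t ^ 3 * t ^ 2 : ℕ) : ℝ) = d at hd9'
  have hm11 : (10 : ℝ) ^ 11 ≤ m := by exact_mod_cast hm
  have hm0 : (0 : ℝ) < m := by
    have : (0 : ℝ) < 10 ^ 11 := by norm_num
    linarith
  have ht0 : (0 : ℝ) < t := by
    have : 0 < t := by omega
    exact_mod_cast this
  have hd0 : 0 < d := by linarith
  set x : ℝ := (m : ℝ) ^ ((2 : ℝ) / 11) with hx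
  have hx0 : 0 < x := Real.rpow_pos_of_pos hm0 _
  have hx11 : x ^ 11 = (m : ℝ) ^ 2 := by
    rw [hx, ← Real.rpow_natCast, ← Real.rpow_mul hm0.le, ← Real.rpow_natCast]
    norm_num
  have hx6 : (m : ℝ) ^ (-(12 : ℝ) / 11) = 1 / x ^ 6 := by
    rw [hx, ← Real.rpow_natCast, ← Real.rpow_mul hm0.le, one_div, ← Real.rpow_neg hm0.le]
    norm_num
  have htx : (t : ℝ) ≤ x := by
    have h3 : (t : ℝ) ^ 11 ≤ x ^ 11 := by
      rw [hx11]
      exact_mod_cast h1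
    exact (pow_le_pow_iff_left₀ ht0.le hx0.le (by norm_num)).1 h3
  have hxt : x ≤ 2 * t := by
    have h3 : x ^ 11 ≤ (2 * t : ℝ) ^ 11 := by
      rw [hx11]
      have h4 : ((m : ℝ)) ^ 2 ≤ ((t : ℝ) + 1) ^ 11 := by exact_mod_cast h2.le
      refine h4.trans (pow_le_pow_left₀ (by positivity) ?_ 11)
      have : (100 : ℝ) ≤ t := by exact_mod_cast ht
      linarith
    exact (pow_le_pow_iff_left₀ hx0.le (by positivity) (by norm_num)).1 h3
  rw [hx6]
  have hm4 : (4 : ℝ) ≤ m := by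
    have : (4 : ℝ) ≤ 10 ^ 11 := by norm_num
    linarith
  exact real_bound (by positivity) hu hc hm4 hd9' ht0 htx hxt hx11

/-! ### The deterministic bound in real constants -/

theorem core_conv.{u} (hcore : SCore.{u}) {V : Type u} {P : V → V → ℝ≥0∞} (hP : Ker P) {C1 : ℝ}
    (hC : 0 ≤ C1) (hHK : HK P C1) {m t s : ℕ} (ht : 1 ≤ t) (hs : 3 * s ≤ m)
    (hts : t ^ 3 * t ^ 2 < s) (R B : Set V) (hB : (Bᶜ).Finite) :
    JJ P R B m (fun _ _ _ => True) ≤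
      ENNReal.ofReal (80 * (1 + 12 * C1) / ((t ^ 3 : ℕ) : ℝ) ^ 2) *
        SS P R B (m - s + t ^ 3 * t ^ 2) +
      ENNReal.ofReal (80 * ((t ^ 3 * t ^ 2 : ℕ) : ℝ) * m / (((s - t ^ 3 * t ^ 2 : ℕ) : ℝ)) ^ 2) *
        WW P R B m := by
  have hK : 1 ≤ t ^ 3 := Nat.one_le_pow _ _ ht
  have hL : 1 ≤ t ^ 2 := Nat.one_le_pow _ _ ht
  have ht0 : (0 : ℝ) < t := by exact_mod_cast ht
  have h1 : ∀ k n x y, 1 ≤ k → k * t ^ 2 ≤ n → pk P n x y ≤
      ENNReal.ofReal (C1 / (((k * t ^ 2 : ℕ) : ℝ) * Real.sqrt ((k * t ^ 2 : ℕ) : ℝ))) := by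
    intro k n x y hk hn
    have hkt : 1 ≤ k * t ^ 2 := Nat.mul_pos hk hL
    refine (hHK n (hkt.trans hn) x y).trans (ENNReal.ofReal_le_ofReal ?_)
    have h2 : (0 : ℝ) < ((k * t ^ 2 : ℕ) : ℝ) := by exact_mod_cast hkt
    have h3 : ((k * t ^ 2 : ℕ) : ℝ) ≤ n := by exact_mod_cast hn
    have h4 : 0 < Real.sqrt ((k * t ^ 2 : ℕ) : ℝ) := Real.sqrt_pos.2 h2
    have h5 : Real.sqrt ((k * t ^ 2 : ℕ) : ℝ) ≤ Real.sqrt n := Real.sqrt_le_sqrt h3
    exact div_le_div_of_nonneg_left hC (mul_pos h2 h4) (mul_le_mul h3 h5 h4.le (h2.le.trans h3))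
  have h2 : ((t ^ 3 : ℕ) : ℝ≥0∞) * ∑ k ∈ Finset.Icc 1 (t ^ 3),
      ENNReal.ofReal (C1 / (((k * t ^ 2 : ℕ) : ℝ) * Real.sqrt ((k * t ^ 2 : ℕ) : ℝ))) ≤
      ENNReal.ofReal (3 * C1) := by
    rw [← ENNReal.ofReal_sum_of_nonneg (fun k _ => by positivity), ← ENNReal.ofReal_natCast,
      ← ENNReal.ofReal_mul (by positivity)]
    refine ENNReal.ofReal_le_ofReal ?_
    have h3 : ∀ k ∈ Finset.Icc 1 (t ^ 3),
        C1 / (((k * t ^ 2 : ℕ) : ℝ) * Real.sqrt ((k * t ^ 2 : ℕ) : ℝ)) =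
        C1 / (t : ℝ) ^ 3 * (1 / ((k : ℝ) * Real.sqrt k)) := by
      intro k hk
      have hk0 : (0 : ℝ) < k := by exact_mod_cast (Finset.mem_Icc.1 hk).1
      have hk1 : 0 < Real.sqrt k := Real.sqrt_pos.2 hk0
      have h4 : Real.sqrt ((k * t ^ 2 : ℕ) : ℝ) = Real.sqrt k * t := by
        push_cast
        rw [Real.sqrt_mul hk0.le, Real.sqrt_sq ht0.le]
      rw [h4]
      push_cast
      field_simp
    rw [Finset.sum_congr rfl h3, ← Finset.mul_sum]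
    have h4 := sum_three_halves' (t ^ 3)
    have h5 : 0 ≤ C1 := hC
    calc ((t ^ 3 : ℕ) : ℝ) * (C1 / (t : ℝ) ^ 3 * ∑ k ∈ Icc 1 (t ^ 3), 1 / ((k : ℝ) * Real.sqrt k)) =
        C1 * ∑ k ∈ Icc 1 (t ^ 3), 1 / ((k : ℝ) * Real.sqrt k) := by
          push_cast
          field_simp
      _ ≤ C1 * 3 := mul_le_mul_of_nonneg_left h4 h5
      _ = 3 * C1 := mul_comm _ _
  have h3 := hcore V P hP R B hB m s (t ^ 3) (t ^ 2)
    (fun k => ENNReal.ofReal (C1 / (((k * t ^ 2 : ℕ) : ℝ) * Real.sqrt ((k * t ^ 2 : ℕ) : ℝ))))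
    (ENNReal.ofReal (3 * C1)) ENNReal.ofReal_ne_top hs hK hL hts h1 h2
  have hK0 : (0 : ℝ) < ((t ^ 3 : ℕ) : ℝ) := by exact_mod_cast hK
  have hd0 : (0 : ℝ) < ((s - t ^ 3 * t ^ 2 : ℕ) : ℝ) := by
    have : 0 < s - t ^ 3 * t ^ 2 := Nat.sub_pos_of_lt hts
    exact_mod_cast this
  have h4 : 80 * (1 + 4 * ENNReal.ofReal (3 * C1)) / ((t ^ 3 : ℕ) : ℝ≥0∞) ^ 2 =
      ENNReal.ofReal (80 * (1 + 12 * C1) / ((t ^ 3 : ℕ) : ℝ) ^ 2) := by
    have e1 : ENNReal.ofReal (80 * (1 + 12 * C1)) = 80 * (1 + 4 * ENNReal.ofReal (3 * C1)) := by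
      rw [show (80 * (1 + 12 * C1) : ℝ) = 80 * (1 + 4 * (3 * C1)) by ring,
        ENNReal.ofReal_mul (p := 80) (by norm_num), ENNReal.ofReal_add (by norm_num) (by positivity),
        ENNReal.ofReal_one, ENNReal.ofReal_mul (p := 4) (by norm_num)]
      norm_num
    rw [ENNReal.ofReal_div_of_pos (by positivity), ENNReal.ofReal_pow hK0.le,
      ENNReal.ofReal_natCast, e1]
  have h5 : 80 * ((t ^ 3 * t ^ 2 : ℕ) : ℝ≥0∞) * (m : ℝ≥0∞) /
      (((s - t ^ 3 * t ^ 2 : ℕ) : ℝ≥0∞)) ^ 2 =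
      ENNReal.ofReal (80 * ((t ^ 3 * t ^ 2 : ℕ) : ℝ) * m /
        (((s - t ^ 3 * t ^ 2 : ℕ) : ℝ)) ^ 2) := by
    rw [ENNReal.ofReal_div_of_pos (by positivity), ENNReal.ofReal_pow hd0.le,
      ENNReal.ofReal_natCast, ENNReal.ofReal_mul (by positivity), ENNReal.ofReal_mul (by norm_num),
      ENNReal.ofReal_natCast, ENNReal.ofReal_natCast]
    norm_num
  rw [← h4, ← h5]
  exact h3

theorem cc_nonneg {n : ℕ} (hn : 1 ≤ n) : 0 ≤ cc n := by
  have h : (1 : ℝ) ≤ n := by exact_mod_cast hn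
  have h1 : (0 : ℝ) ≤ n - 1 := by linarith
  unfold cc
  positivity

theorem rt_nonneg {V : Type*} {P : V → V → ℝ≥0∞} {c : ℝ} (hc : 0 ≤ c) (m : ℕ) (w : List V) :
    0 ≤ rt P c m w := by
  unfold rt
  positivity

theorem rt_mono {V : Type*} {P : V → V → ℝ≥0∞} {c c' : ℝ} (hc : c ≤ c') (m : ℕ) (w : List V) :
    rt P c m w ≤ rt P c' m w := by
  unfold rt
  gcongr

theorem prf.{u} : SPercAll.{u} := by
  intro hcore hstep hstart V _ P hP hf C0 hC0 u hu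
  have hC1 : HK P (max C0 0) := by
    intro n hn x y
    refine (hC0 n hn x y).trans (ENNReal.ofReal_le_ofReal ?_)
    gcongr
    exact le_max_left _ _
  obtain ⟨E, hE, hnum⟩ := numerics (max C0 0) u (le_max_right _ _) hu
  set ε : ℕ → ℝ := fun m => E * (m : ℝ) ^ (-(12 : ℝ) / 11) with hε
  have hε0 : ∀ m, 0 ≤ ε m := fun m => mul_nonneg hE (Real.rpow_nonneg (Nat.cast_nonneg m) _)
  have hsum : Summable ε := by
    apply Summable.mul_left
    rw [Real.summable_nat_rpow]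
    norm_num
  obtain ⟨m0, hm0, htail⟩ : ∃ m0 : ℕ, 10 ^ 11 ≤ m0 ∧ ∀ M, m0 ≤ M →
      ∑ i ∈ range (M + 1), ε i - ∑ i ∈ range (m0 + 1), ε i ≤ 1 / 2 := by
    have h1 := hsum.hasSum.tendsto_sum_nat
    have h2 := (h1.eventually (lt_mem_nhds (show ∑' i, ε i - 1 / 2 < ∑' i, ε i by linarith)))
    obtain ⟨N, hN⟩ := Filter.eventually_atTop.1 h2
    refine ⟨max (10 ^ 11) N, le_max_left _ _, fun M _ => ?_⟩
    have h3 := hN (max (10 ^ 11) N + 1) ((le_max_right _ _).trans (Nat.le_succ _))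
    have h4 := hsum.sum_le_tsum (range (M + 1)) fun i _ => hε0 i
    linarith
  obtain ⟨c, hc, hst⟩ := hstart V P hP C0 hC0 u hu
  refine ⟨m0, c, le_trans (by norm_num) hm0, hc, fun o D hD ho => ?_⟩
  obtain ⟨m1, hm1⟩ := hst o D hD ho
  obtain ⟨s, hs⟩ := exists_full hP hf hD (max m1 m0)
  refine ⟨s, ?_⟩
  set M := max m1 m0 with hM
  have hm0M : m0 ≤ M := le_max_right _ _
  have hup : Frog.Up (Suc o D) := up_Suc o D
  have key : ∀ j, j ≤ M - m0 → Frog.Q (rt P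
      (Real.exp (∑ i ∈ range (M + 1), ε i - ∑ i ∈ range (M - j + 1), ε i) * u * cc (M - j))
      (M - j)) s (Suc o D) ≤ 1 - c := by
    intro j
    induction j with
    | zero =>
      intro _
      simp only [Nat.sub_zero, sub_self, Real.exp_zero, one_mul]
      exact hm1 M (le_max_left _ _) s hs
    | succ j ih =>
      intro hj
      have ih' := ih (by omega)
      obtain ⟨m, hm⟩ : ∃ m, m = M - j := ⟨_, rfl⟩
      have hmm : M - (j + 1) = m - 1 := by omega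
      have hmm0 : m0 + 1 ≤ m := by omega
      have hmM : m ≤ M := by omega
      rw [← hm] at ih'
      rw [hmm]
      obtain ⟨t, s', ht, hs1, hs2, hineq⟩ := hnum m (by omega)
      have hm4 : 4 ≤ m := by omega
      have hk : m - s' + t ^ 3 * t ^ 2 < m := by
        generalize t ^ 3 * t ^ 2 = L at hs2
        omega
      set b := Real.exp (∑ i ∈ range (M + 1), ε i - ∑ i ∈ range (m + 1), ε i) with hb
      have hb1 : 1 ≤ b := by
        refine Real.one_le_exp (sub_nonneg.2 ?_)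
        exact sum_le_sum_of_subset_of_nonneg (range_subset_range.2 (by omega)) fun i _ _ => hε0 i
      have hub : u ≤ b * u := by nlinarith
      have h1 := hstep V P hP o D s m (m - s' + t ^ 3 * t ^ 2) hD ho hm4 hk
        (full_mono hmM hs) (b * u) (ε m)
        (80 * (1 + 12 * (max C0 0)) / ((t ^ 3 : ℕ) : ℝ) ^ 2)
        (80 * ((t ^ 3 * t ^ 2 : ℕ) : ℝ) * m / (((s' - t ^ 3 * t ^ 2 : ℕ) : ℝ)) ^ 2)
        (by positivity) (hε0 m) (by positivity) (by positivity)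
        (fun R B hB => core_conv hcore hP (le_max_right _ _) hC1 ht hs1 hs2 R B hB)
        (hineq (b * u) hub)
      refine le_trans ?_ (h1.trans ih')
      have hcc : 0 ≤ cc (m - 1) := cc_nonneg (by omega)
      refine Frog.Q_anti_r (fun w _ => rt_nonneg ?_ _ w) (fun w _ => rt_mono ?_ _ w) hup
      · have := hε0 m
        positivity
      · have h2 : m - 1 + 1 = m := by omega
        rw [h2]
        have h3 : ∑ i ∈ range (M + 1), ε i - ∑ i ∈ range m, ε i =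
            (∑ i ∈ range (M + 1), ε i - ∑ i ∈ range (m + 1), ε i) + ε m := by
          rw [sum_range_succ ε m]
          ring
        rw [h3, Real.exp_add, ← hb]
        have h4 : 1 + ε m ≤ Real.exp (ε m) := by
          have := Real.add_one_le_exp (ε m)
          linarith
        have h5 : (1 + ε m) * (b * u) ≤ b * Real.exp (ε m) * u := by
          calc (1 + ε m) * (b * u) ≤ Real.exp (ε m) * (b * u) :=
                mul_le_mul_of_nonneg_right h4 (by positivity)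
            _ = b * Real.exp (ε m) * u := by ring
        exact mul_le_mul_of_nonneg_right h5 hcc
  have hfin := key (M - m0) le_rfl
  have h1 : M - (M - m0) = m0 := by omega
  rw [h1] at hfin
  refine le_trans ?_ hfin
  have hcc : 0 ≤ cc m0 := cc_nonneg (by omega)
  refine Frog.Q_anti_r (fun w _ => rt_nonneg ?_ _ w) (fun w _ => rt_mono ?_ _ w) hup
  · positivity
  · have h2 : Real.exp (∑ i ∈ range (M + 1), ε i - ∑ i ∈ range (m0 + 1), ε i) ≤ 2 := by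
      have h3 : Real.exp (∑ i ∈ range (M + 1), ε i - ∑ i ∈ range (m0 + 1), ε i) ≤
          Real.exp (1 / 2) := Real.exp_le_exp.2 (htail M hm0M)
      have h4 : Real.exp (1 / 2) * Real.exp (1 / 2) = Real.exp 1 := by
        rw [← Real.exp_add]
        norm_num
      have h5 := Real.exp_one_lt_d9
      have h6 := Real.exp_pos (1 / 2)
      nlinarith
    gcongr

end Pool.Agent.Fri.I_PERC
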