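import Pool.Agent.Work.MP_c9ff92_pr.Fri.Stmts
import Pool.Agent.Work.MP_c9ff92_pr.Fri.Basic

/-!
# Item PIV: pivotal walks
-/

namespace Pool.Agent.Fri.I_PIV

universe u

variable {V : Type u} [DecidableEq V]

theorem lnk_insert (A : Finset (List V)) (w : List V) {x y : V} (h : lnk A x y) :
    lnk (insert w A) x y := by
  obtain ⟨v, hv, hx, hy⟩ := h
  exact ⟨v, Finset.mem_insert_of_mem hv, hx, hy⟩

theorem reach_insert (A : Finset (List V)) (w : List V) {x y : V}
    (h : Relation.ReflTransGen (lnk A) x y) :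
    Relation.ReflTransGen (lnk (insert w A)) x y := by
  induction h with
  | refl => exact Relation.ReflTransGen.refl
  | tail _ hab ih => exact ih.tail (lnk_insert A w hab)

/-- If `w` does not touch the cluster of `o`, the cluster does not grow. -/
theorem clu_stable (A : Finset (List V)) (w : List V) (o : V) (hw : ¬ tch (clu A o) w) {z : V}
    (h : Relation.ReflTransGen (lnk (insert w A)) o z) : z ∈ clu A o := by
  induction h with
  | refl => exact Relation.ReflTransGen.refl
  | @tail a b _ hab ih =>
    obtain ⟨v, hv, ha, hb⟩ := hab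
    rcases Finset.mem_insert.mp hv with rfl | hvA
    · exact absurd ⟨a, ha, ih⟩ hw
    · exact Relation.ReflTransGen.tail ih ⟨v, hvA, ha, hb⟩

/-- If `w` does not touch the set of the vertices connected to the outside of `D`, this set does
not grow. -/
theorem bdy_stable (A : Finset (List V)) (w : List V) (D : Set V) (hw : ¬ tch (bdy A D) w)
    {o z : V} (hz : z ∉ D) (h : Relation.ReflTransGen (lnk (insert w A)) o z) :
    o ∈ bdy A D := by
  induction h using Relation.ReflTransGen.head_induction_on with
  | refl => exact ⟨z, hz, Relation.ReflTransGen.refl⟩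
  | @head a b hab _ ih =>
    obtain ⟨v, hv, ha, hb⟩ := hab
    rcases Finset.mem_insert.mp hv with rfl | hvA
    · exact absurd ⟨b, hb, ih⟩ hw
    · obtain ⟨z', hz', hr⟩ := ih
      exact ⟨z', hz', Relation.ReflTransGen.head ⟨v, hvA, ha, hb⟩ hr⟩

/-- **Item PIV.** -/
theorem prf : SPiv.{u} := by
  intro V _ o D A w
  constructor
  · rintro ⟨h1, z, hz, hr⟩
    refine ⟨h1, ?_, ?_⟩
    · by_contra hw
      exact h1 ⟨z, hz, clu_stable A w o hw hr⟩
    · by_contra hw
      exact h1 (bdy_stable A w D hw hz hr)
  · rintro ⟨h1, ⟨x, hx, hxo⟩, x', hx', z, hz, hr⟩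
    refine ⟨h1, z, hz, ?_⟩
    exact ((reach_insert A w hxo).tail ⟨w, Finset.mem_insert_self w A, hx, hx'⟩).trans
      (reach_insert A w hr)

end Pool.Agent.Fri.I_PIV
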