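import Pool.Agent.Work.MP_c9ff92_pr.Fri.Stmts
import Pool.Agent.Work.MP_c9ff92_pr.Fri.Basic

/-!
# Item REPL (MP_c9ff92_pr)

An object may be replaced by the objects of a set `S`, all at the same rate, if each time one of
them does the same.
-/

open Finset

noncomputable section

namespace Pool.Agent.Fri.I_REPL

open Pool.Agent.Frog

universe u

variable {T : Type u} [DecidableEq T]

/-- A part of the rate of one object may be put to an independent copy of it. -/
theorem Q_split {r r' : T → ℝ} {δ : ℝ} {s : Finset T} {i : T} (hi : i ∈ s)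
    (h1 : r' i = r i + δ) (h2 : ∀ j ∈ s, j ≠ i → r' j = r j) (U : Finset T → Prop) :
    Q r' s U = Real.exp (-δ) * Q r s U +
      (1 - Real.exp (-δ)) * Q r s (fun A => U (insert i A)) := by
  have hs : s = insert i (s.erase i) := (insert_erase hi).symm
  have hi' : i ∉ s.erase i := notMem_erase i s
  have e1 : ∀ W : Finset T → Prop, Q r' (s.erase i) W = Q r (s.erase i) W := fun W =>
    Q_congr (fun j hj => h2 j (mem_of_mem_erase hj) (ne_of_mem_erase hj)) W
  have e2 : (fun A : Finset T => U (insert i (insert i A))) = fun A => U (insert i A) := by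
    funext A
    rw [insert_idem]
  have e3 : Real.exp (-r' i) = Real.exp (-r i) * Real.exp (-δ) := by
    rw [h1, ← Real.exp_add]
    congr 1
    ring
  rw [hs, Q_insert _ hi', Q_insert _ hi', Q_insert _ hi', e1, e1, e2, e3]
  ring

/-- Four families. -/
theorem Q_four {r : T → ℝ} {s : Finset T} (hr : ∀ i ∈ s, 0 ≤ r i)
    {U V W X : Finset T → Prop} (h1 : ∀ A, U A → W A) (h2 : ∀ A, U A → X A)
    (h3 : ∀ A, V A → W A ∨ X A) :
    Q r s W + Q r s X ≤ Q r s U + Q r s V := by
  classical
  unfold Q
  rw [← sum_add_distrib, ← sum_add_distrib]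
  refine sum_le_sum fun A hA => ?_
  rw [mem_powerset] at hA
  have h0 : 0 ≤ (∏ i ∈ A, (1 - Real.exp (-r i))) * ∏ i ∈ s \ A, Real.exp (-r i) :=
    mul_nonneg (prod_nonneg fun i hi => one_sub_exp_nonneg (hr i (hA hi)))
      (prod_nonneg fun i _ => (Real.exp_pos _).le)
  have k1 := h1 A
  have k2 := h2 A
  have k3 := h3 A
  by_cases hU : U A
  · rw [if_pos hU, if_pos (k1 hU), if_pos (k2 hU)]
    split_ifs <;> linarith
  · by_cases hV : V A
    · rcases k3 hV with h | h
      · rw [if_neg hU, if_pos hV, if_pos h]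
        split_ifs <;> linarith
      · rw [if_neg hU, if_pos hV, if_pos h]
        split_ifs <;> linarith
    · rw [if_neg hU, if_neg hV]
      split_ifs <;> linarith

/-- Raising the rates of all objects of `S`. -/
theorem Q_raise {δ : ℝ} (hδ : 0 ≤ δ) {s : Finset T} (S : Finset T) :
    ∀ (r r' : T → ℝ) (U V : Finset T → Prop), S ⊆ s → (∀ i ∈ s, 0 ≤ r i) →
    (∀ i ∈ S, r' i = r i + δ) → (∀ i ∈ s, i ∉ S → r' i = r i) → Up U →
    (∀ A, U A → V A) → (∀ A, V A → U A ∨ ∃ i ∈ S, U (insert i A)) →
    Q r' s U ≤ Real.exp (-δ) * Q r s U + (1 - Real.exp (-δ)) * Q r s V := by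
  have he0 : 0 < Real.exp (-δ) := Real.exp_pos _
  have he1 : 0 ≤ 1 - Real.exp (-δ) := one_sub_exp_nonneg hδ
  induction S using Finset.induction_on with
  | empty =>
    intro r r' U V _ hr _ h2 _ hUV hV
    rw [Q_congr (fun i hi => h2 i hi (notMem_empty i)) U]
    have h3 : Q r s U ≤ Q r s V := Q_anti_U hr fun A _ hA => by
      rcases hV A hA with h | ⟨i, hi, _⟩
      · exact h
      · exact absurd hi (notMem_empty i)
    nlinarith [mul_le_mul_of_nonneg_left h3 he1]
  | insert i S hi ih =>
    intro r r' U V hS hr h1 h2 hU hUV hV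
    have hiS : i ∈ insert i S := mem_insert_self i S
    have his : i ∈ s := hS hiS
    -- the rates without the raise at `i`
    set r1 : T → ℝ := fun j => if j = i then r i else r' j with hr1
    have a1 : r' i = r1 i + δ := by
      rw [hr1]
      simp only [if_true]
      exact h1 i hiS
    have a2 : ∀ j ∈ s, j ≠ i → r' j = r1 j := by
      intro j _ hj
      rw [hr1]
      simp only [if_neg hj]
    rw [Q_split his a1 a2 U]
    have b1 : ∀ j ∈ S, r1 j = r j + δ := by
      intro j hj
      have hji : j ≠ i := fun h => hi (h ▸ hj)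
      rw [hr1]
      simp only [if_neg hji]
      exact h1 j (mem_insert_of_mem hj)
    have b2 : ∀ j ∈ s, j ∉ S → r1 j = r j := by
      intro j hj hjS
      rw [hr1]
      by_cases hji : j = i
      · simp only [if_pos hji]
        rw [hji]
      · simp only [if_neg hji]
        exact h2 j hj fun h => (mem_insert.1 h).elim hji hjS
    have hS' : S ⊆ s := (subset_insert i S).trans hS
    have hUi : ∀ A, U A → U (insert i A) := fun A h => hU _ _ (subset_insert i A) h
    have c1 := ih r r1 U (fun A => U A ∨ ∃ j ∈ S, U (insert j A)) hS' hr b1 b2 hU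
      (fun A h => Or.inl h) (fun A h => h)
    have c2 := ih r r1 (fun A => U (insert i A)) (fun A => U (insert i A) ∨ V A) hS' hr b1 b2
      (hU.insert i) (fun A h => Or.inl h) (fun A h => by
        rcases h with h | h
        · exact Or.inl h
        · rcases hV A h with h' | ⟨j, hj, h'⟩
          · exact Or.inl (hUi A h')
          · rcases mem_insert.1 hj with hj | hj
            · exact Or.inl (hj ▸ h')
            · refine Or.inr ⟨j, hj, ?_⟩
              exact hU _ _ (subset_insert i _) h')
    have c3 : Q r s (fun A => U (insert i A) ∨ V A) ≤ Q r s V :=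
      Q_anti_U hr fun A _ h => Or.inr h
    have c4 := Q_four hr (U := U) (V := V) (W := fun A => U A ∨ ∃ j ∈ S, U (insert j A))
      (X := fun A => U (insert i A)) (fun A h => Or.inl h) hUi (fun A h => by
        rcases hV A h with h' | ⟨j, hj, h'⟩
        · exact Or.inl (Or.inl h')
        · rcases mem_insert.1 hj with hj | hj
          · exact Or.inr (hj ▸ h')
          · exact Or.inl (Or.inr ⟨j, hj, h'⟩))
    set e : ℝ := Real.exp (-δ)
    set q1 : ℝ := Q r1 s U
    set q2 : ℝ := Q r1 s (fun A => U (insert i A))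
    set w : ℝ := Q r s (fun A => U A ∨ ∃ j ∈ S, U (insert j A))
    set x : ℝ := Q r s (fun A => U (insert i A))
    set y : ℝ := Q r s (fun A => U (insert i A) ∨ V A)
    set a : ℝ := Q r s U
    set v : ℝ := Q r s V
    have d1 : e * q1 ≤ e * (e * a + (1 - e) * w) := mul_le_mul_of_nonneg_left c1 he0.le
    have d2 : (1 - e) * q2 ≤ (1 - e) * (e * x + (1 - e) * y) := mul_le_mul_of_nonneg_left c2 he1
    have d3 : (1 - e) * (1 - e) * y ≤ (1 - e) * (1 - e) * v :=
      mul_le_mul_of_nonneg_left c3 (mul_nonneg he1 he1)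
    have d4 : e * (1 - e) * (w + x) ≤ e * (1 - e) * (a + v) :=
      mul_le_mul_of_nonneg_left c4 (mul_nonneg he0.le he1)
    calc e * q1 + (1 - e) * q2
        ≤ e * (e * a + (1 - e) * w) + (1 - e) * (e * x + (1 - e) * y) := add_le_add d1 d2
      _ = e * e * a + e * (1 - e) * (w + x) + (1 - e) * (1 - e) * y := by ring
      _ ≤ e * e * a + e * (1 - e) * (a + v) + (1 - e) * (1 - e) * v := by linarith
      _ = e * a + (1 - e) * v := by ring

/-- Item REPL. -/
theorem prf : SRepl.{u} := by
  intro T _ s S k r r' δ U hU hδ hk hS hkS hr hk1 hk2 hrS hrr hrep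
  set r0 : T → ℝ := fun j => if j = k then r k - δ else r j with hr0
  have e0 : r0 k = r k - δ := by
    rw [hr0]
    simp only [if_true]
  have e1 : ∀ j, j ≠ k → r0 j = r j := by
    intro j hj
    rw [hr0]
    simp only [if_neg hj]
  have h0 : ∀ i ∈ s, 0 ≤ r0 i := by
    intro i hi
    by_cases hik : i = k
    · rw [hik, e0, ← hk1]
      exact hk2
    · rw [e1 i hik]
      exact hr i hi
  have h1 : Q r s U = Real.exp (-δ) * Q r0 s U +
      (1 - Real.exp (-δ)) * Q r0 s (fun A => U (insert k A)) :=
    Q_split hk (by rw [e0]; ring) (fun j _ hj => (e1 j hj).symm) U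
  rw [h1]
  refine Q_raise hδ S r0 r' U (fun A => U (insert k A)) hS h0 ?_ ?_ hU
    (fun A h => hU _ _ (subset_insert k A) h) hrep
  · intro i hi
    have hik : i ≠ k := fun h => hkS (h ▸ hi)
    rw [hrS i hi, e1 i hik]
  · intro i hi hiS
    by_cases hik : i = k
    · rw [hik, e0, hk1]
    · rw [hrr i hi hiS hik, e1 i hik]

end Pool.Agent.Fri.I_REPL
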