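import Pool.Agent.Work.MP_c9ff92_pr.Fri.Stmts
import Pool.Agent.Work.MP_c9ff92_pr.Fri.Basic

/-!
# Item START: for very long walks the event is likely (MP_c9ff92_pr)
-/

open Finset
open scoped ENNReal NNReal

noncomputable section

namespace Pool.Agent.Fri.I_START

variable {V : Type*}

/-! ### The probability that no object with a given property is present -/

theorem Q_exists {T : Type*} [DecidableEq T] (r : T → ℝ) (p : T → Prop) [DecidablePred p]
    (s : Finset T) :
    Frog.Q r s (fun A => ∃ w ∈ A, p w) = Real.exp (-(∑ w ∈ s with p w, r w)) := by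
  induction s using Finset.induction_on with
  | empty =>
    rw [Frog.Q_empty]
    simp
  | insert a s ha ih =>
    rw [Frog.Q_insert r ha, ih]
    by_cases h : p a
    · rw [Frog.Q_true (U := fun A => ∃ w ∈ insert a A, p w)
        (fun A _ => ⟨a, mem_insert_self a A, h⟩), filter_insert, if_pos h,
        sum_insert (fun h' => ha (mem_filter.1 h').1), neg_add, Real.exp_add]
      ring
    · have h2 : (fun A : Finset T => ∃ w ∈ insert a A, p w) = fun A => ∃ w ∈ A, p w := by
        funext A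
        apply propext
        constructor
        · rintro ⟨w, hw, hp⟩
          rcases mem_insert.1 hw with rfl | hw
          · exact absurd hp h
          · exact ⟨w, hw, hp⟩
        · rintro ⟨w, hw, hp⟩
          exact ⟨w, mem_insert_of_mem hw, hp⟩
      rw [h2, ih, filter_insert, if_neg h]
      ring

/-! ### Weights are finite -/

theorem wt_le_one {P : V → V → ℝ≥0∞} (hP : Ker P) : ∀ w : List V, wt P w ≤ 1
  | [] => by simp
  | [_] => by simp
  | x :: y :: l => by
    rw [wt_cons_cons]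
    have h1 : P x y ≤ 1 := by
      rw [← hP.sum x]
      exact ENNReal.le_tsum y
    calc P x y * wt P (y :: l) ≤ 1 * 1 := mul_le_mul' h1 (wt_le_one hP (y :: l))
      _ = 1 := one_mul 1

theorem sum_ind_eq (S : Finset ℕ) (n : ℕ) (A : Prop) :
    ∑ i ∈ S, ind (n = i ∧ A) = ind (n ∈ S ∧ A) := by
  by_cases hn : n ∈ S
  · rw [Finset.sum_eq_single_of_mem n hn]
    · exact ind_congr ⟨fun h => ⟨hn, h.2⟩, fun h => ⟨rfl, h.2⟩⟩
    · intro i _ hi
      exact ind_false fun h => hi h.1.symm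
  · rw [ind_false fun h => hn h.1]
    exact Finset.sum_eq_zero fun i hi => ind_false fun h => hn (h.1 ▸ hi)

/-- Decomposition at the first visit of `o`. -/
theorem first_visit (o : V) (g : List V → ℝ≥0∞) :
    ∑' a : List V, ∑' b : List V, ind (¬ tch {o} a) * g (a ++ o :: b) ≤ ∑' w : List V, g w := by
  set S : Set (List V × List V) := {x | ¬ tch {o} x.1} with hS
  have hinj : Function.Injective (fun x : S => x.1.1 ++ o :: x.1.2) := by
    rintro ⟨⟨a, b⟩, hx⟩ ⟨⟨a', b'⟩, hx'⟩ h
    simp only at h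
    have ha : o ∉ a := fun h => hx ⟨o, h, rfl⟩
    have ha' : o ∉ a' := fun h => hx' ⟨o, h, rfl⟩
    have key : ∀ (a a' b b' : List V), o ∉ a → o ∉ a' → a ++ o :: b = a' ++ o :: b' →
        a = a' ∧ b = b' := by
      intro a
      induction a with
      | nil =>
        intro a' b b' _ h2 h3
        rcases a' with _ | ⟨x, a'⟩
        · simpa using h3
        · rw [List.nil_append, List.cons_append, List.cons.injEq] at h3
          exact absurd (List.mem_cons.2 (Or.inl h3.1)) h2
      | cons y a ih =>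
        intro a' b b' h1 h2 h3
        rcases a' with _ | ⟨x, a'⟩
        · rw [List.nil_append, List.cons_append, List.cons.injEq] at h3
          exact absurd (List.mem_cons.2 (Or.inl h3.1.symm)) h1
        · rw [List.cons_append, List.cons_append, List.cons.injEq] at h3
          obtain ⟨h4, h5⟩ := ih a' b b' (fun h => h1 (List.mem_cons_of_mem _ h))
            (fun h => h2 (List.mem_cons_of_mem _ h)) h3.2
          exact ⟨by rw [h3.1, h4], h5⟩
    obtain ⟨h1, h2⟩ := key a a' b b' ha ha' h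
    subst h1
    subst h2
    rfl
  have h1 : ∑' x : S, g (x.1.1 ++ o :: x.1.2) ≤ ∑' w, g w :=
    ENNReal.tsum_comp_le_tsum_of_injective hinj g
  refine le_trans (le_of_eq ?_) h1
  rw [tsum_subtype S (fun x : List V × List V => g (x.1 ++ o :: x.2)), ENNReal.tsum_prod']
  refine tsum_congr fun a => tsum_congr fun b => ?_
  by_cases h : tch {o} a
  · rw [ind_false (fun h' => h' h), zero_mul, Set.indicator_of_notMem]
    exact fun h' => h' h
  · rw [ind_true h, one_mul, Set.indicator_of_mem]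
    exact h

/-- The lower bound for the mass. -/
theorem mass {P : V → V → ℝ≥0∞} (hP : Ker P) {e : ℝ≥0∞} {o : V} {D : Set V} {n1 q m : ℕ}
    (he : ∀ n, e ≤ sv P {o} n o)
    (hex : ∀ n, n1 ≤ n → 1 / 2 ≤ ∑' b : List V, ind (b.length = n ∧ tch Dᶜ b) * wt P (o :: b))
    (hq : n1 ≤ q) (hm : 4 * q ≤ m) :
    (q : ℝ≥0∞) * q * q * (e * (1 / 2)) ≤ ∑' w : List V, ind (o ∈ w ∧ tch Dᶜ w ∧ w.length ≤ m) *
      ((m + 1 - w.length : ℕ) : ℝ≥0∞) * wt P w := by
  refine le_trans ?_ (first_visit o _)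
  have h1 : (q : ℝ≥0∞) * q * q * (e * (1 / 2)) ≤ ∑ i ∈ range q, ∑ j ∈ Ico q (2 * q),
      (q : ℝ≥0∞) * ((∑' a : List V, ind (a.length = i ∧ ¬ tch {o} a) * wt P (a ++ [o])) *
        (∑' b : List V, ind (b.length = j ∧ tch Dᶜ b) * wt P (o :: b))) := by
    have h2 : (q : ℝ≥0∞) * q * q * (e * (1 / 2)) =
        ∑ i ∈ range q, ∑ j ∈ Ico q (2 * q), (q : ℝ≥0∞) * (e * (1 / 2)) := by
      rw [sum_const, sum_const, card_range, Nat.card_Ico, nsmul_eq_mul, nsmul_eq_mul]
      have : (2 * q - q : ℕ) = q := by omega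
      rw [this]
      ring
    rw [h2]
    refine Finset.sum_le_sum fun i _ => Finset.sum_le_sum fun j hj => ?_
    rw [mem_Ico] at hj
    gcongr
    · rw [sum_sv' hP]
      exact he i
    · exact hex j (hq.trans hj.1)
  refine h1.trans ?_
  have h3 : ∀ i j : ℕ, (q : ℝ≥0∞) * ((∑' a : List V, ind (a.length = i ∧ ¬ tch {o} a) *
      wt P (a ++ [o])) * (∑' b : List V, ind (b.length = j ∧ tch Dᶜ b) * wt P (o :: b))) =
      ∑' a : List V, ∑' b : List V, ind (a.length = i ∧ ¬ tch {o} a) *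
        ind (b.length = j ∧ tch Dᶜ b) * (q * (wt P (a ++ [o]) * wt P (o :: b))) := by
    intro i j
    rw [← ENNReal.tsum_mul_right, ← ENNReal.tsum_mul_left]
    refine tsum_congr fun a => ?_
    rw [← ENNReal.tsum_mul_left, ← ENNReal.tsum_mul_left]
    refine tsum_congr fun b => ?_
    ring
  simp only [h3]
  have h4 : ∀ i : ℕ, ∑ j ∈ Ico q (2 * q), ∑' a : List V, ∑' b : List V,
      ind (a.length = i ∧ ¬ tch {o} a) *
        ind (b.length = j ∧ tch Dᶜ b) * (q * (wt P (a ++ [o]) * wt P (o :: b))) =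
      ∑' a : List V, ∑' b : List V, ind (a.length = i ∧ ¬ tch {o} a) *
        ind (b.length ∈ Ico q (2 * q) ∧ tch Dᶜ b) * (q * (wt P (a ++ [o]) * wt P (o :: b))) := by
    intro i
    rw [← Summable.tsum_finsetSum (fun _ _ => ENNReal.summable)]
    refine tsum_congr fun a => ?_
    rw [← Summable.tsum_finsetSum (fun _ _ => ENNReal.summable)]
    refine tsum_congr fun b => ?_
    rw [← Finset.sum_mul, ← Finset.mul_sum, sum_ind_eq]
  simp only [h4]
  rw [← Summable.tsum_finsetSum (fun _ _ => ENNReal.summable)]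
  refine ENNReal.tsum_le_tsum fun a => ?_
  rw [← Summable.tsum_finsetSum (fun _ _ => ENNReal.summable)]
  refine ENNReal.tsum_le_tsum fun b => ?_
  rw [← Finset.sum_mul, ← Finset.sum_mul, sum_ind_eq, ← ind_and]
  by_cases h : (a.length ∈ range q ∧ ¬ tch {o} a) ∧ b.length ∈ Ico q (2 * q) ∧ tch Dᶜ b
  · obtain ⟨⟨ha1, ha2⟩, hb1, hb2⟩ := h
    rw [mem_range] at ha1
    rw [mem_Ico] at hb1
    have hlen : (a ++ o :: b).length = a.length + b.length + 1 := by
      rw [List.length_append, List.length_cons]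
      omega
    rw [ind_true ⟨⟨mem_range.2 ha1, ha2⟩, mem_Ico.2 hb1, hb2⟩, ind_true ha2, one_mul, one_mul,
      ind_true, one_mul, wt_append a o b]
    · gcongr
      rw [hlen]
      omega
    · refine ⟨by simp, ?_, by omega⟩
      rw [tch_append, tch_cons]
      exact Or.inr (Or.inr hb2)
  · rw [ind_false h, zero_mul]
    exact zero_le

theorem prf.{u} : SStartAll.{u} := by
  intro hEsc hExit V _ P hP C0 hHK u hu
  obtain ⟨e, he, hesc⟩ := hEsc V P hP C0 hHK
  refine ⟨1 - Real.exp (-(u * e / 1024)), ?_, ?_⟩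
  · have : Real.exp (-(u * e / 1024)) < 1 := by
      rw [Real.exp_lt_one_iff]
      have : 0 < u * e := mul_pos hu he
      linarith
    linarith
  intro o D hD hoD
  obtain ⟨n1, hex⟩ := hExit V P hP C0 hHK D hD
  refine ⟨4 * n1 + 8, fun m hm s hs => ?_⟩
  classical
  set r : List V → ℝ := rt P (u * cc m) m with hr
  have hm1 : (8 : ℝ) ≤ m := by
    have : 8 ≤ m := by omega
    exact_mod_cast this
  have hcc0 : 0 < cc m := by
    unfold cc
    have : (0 : ℝ) < (m : ℝ) - 1 := by linarith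
    positivity
  have hr0 : ∀ w, 0 ≤ r w := by
    intro w
    rw [hr]
    unfold rt
    positivity
  have hmain : u * e / 1024 ≤ ∑ w ∈ s with (o ∈ w ∧ tch Dᶜ w), r w := by
    set q : ℕ := m / 4 with hq
    have h1 := mass (P := P) hP (e := ENNReal.ofReal e) (o := o) (D := D) (n1 := n1) (q := q)
      (m := m) (fun n => hesc o n) (fun n hn => hex n hn o) (by omega) (by omega)
    have h2 : ∑' w : List V, ind (o ∈ w ∧ tch Dᶜ w ∧ w.length ≤ m) *
        ((m + 1 - w.length : ℕ) : ℝ≥0∞) * wt P w ≤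
        ∑ w ∈ s with (o ∈ w ∧ tch Dᶜ w), ((m + 1 - w.length : ℕ) : ℝ≥0∞) * wt P w := by
      rw [tsum_eq_sum (s := s.filter fun w => o ∈ w ∧ tch Dᶜ w)]
      · refine Finset.sum_le_sum fun w _ => ?_
        calc ind (o ∈ w ∧ tch Dᶜ w ∧ w.length ≤ m) * ((m + 1 - w.length : ℕ) : ℝ≥0∞) * wt P w ≤
            1 * ((m + 1 - w.length : ℕ) : ℝ≥0∞) * wt P w := by
              gcongr
              exact ind_le_one _
          _ = ((m + 1 - w.length : ℕ) : ℝ≥0∞) * wt P w := by rw [one_mul]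
      · intro w hw
        by_cases h3 : o ∈ w ∧ tch Dᶜ w ∧ w.length ≤ m
        · have h4 : wt P w = 0 := by
            by_contra h5
            exact hw (mem_filter.2 ⟨hs w h5 h3.2.2 ⟨o, h3.1, hoD⟩, h3.1, h3.2.1⟩)
          rw [h4, mul_zero]
        · rw [ind_false h3, zero_mul, zero_mul]
    have h3 := h1.trans h2
    have hfin : ∀ w ∈ s.filter fun w => o ∈ w ∧ tch Dᶜ w,
        ((m + 1 - w.length : ℕ) : ℝ≥0∞) * wt P w ≠ ⊤ := fun w _ =>
      ENNReal.mul_ne_top (ENNReal.natCast_ne_top _) (ne_top_of_le_ne_top ENNReal.one_ne_top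
        (wt_le_one hP w))
    have hX : ∑ w ∈ s with (o ∈ w ∧ tch Dᶜ w), ((m + 1 - w.length : ℕ) : ℝ≥0∞) * wt P w ≠ ⊤ := by
      rw [ENNReal.sum_ne_top]
      exact hfin
    have h4 : (q : ℝ) * q * q * (e * (1 / 2)) ≤
        ∑ w ∈ s with (o ∈ w ∧ tch Dᶜ w), ((m + 1 - w.length : ℕ) : ℝ) * (wt P w).toReal := by
      have h5 := ENNReal.toReal_mono hX h3
      rw [ENNReal.toReal_sum hfin] at h5
      simp only [ENNReal.toReal_mul, ENNReal.toReal_natCast] at h5
      rw [ENNReal.toReal_ofReal he.le] at h5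
      simpa using h5
    have h6 : ∑ w ∈ s with (o ∈ w ∧ tch Dᶜ w), r w = u * cc m *
        ∑ w ∈ s with (o ∈ w ∧ tch Dᶜ w), ((m + 1 - w.length : ℕ) : ℝ) * (wt P w).toReal := by
      rw [Finset.mul_sum]
      refine Finset.sum_congr rfl fun w _ => ?_
      rw [hr]
      unfold rt
      ring
    rw [h6]
    have hq1 : (m : ℝ) / 8 ≤ q := by
      have h7 : m ≤ 8 * q := by omega
      have h8 : (m : ℝ) ≤ 8 * q := by exact_mod_cast h7
      linarith
    have hm0 : (0 : ℝ) < m := by linarith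
    have h9 : 1 / 512 ≤ cc m * ((q : ℝ) * q * q) := by
      have h10 : ((m : ℝ) / 8) * (m / 8) * (m / 8) ≤ (q : ℝ) * q * q := by gcongr
      have h11 : 1 / ((m : ℝ) * m * m) ≤ cc m := by
        unfold cc
        have h12 : (0 : ℝ) < ((m : ℝ) + 1) * m * (m - 1) := by
          have : (0 : ℝ) < (m : ℝ) - 1 := by linarith
          positivity
        apply one_div_le_one_div_of_le h12
        nlinarith
      calc (1 : ℝ) / 512 = 1 / ((m : ℝ) * m * m) * (((m : ℝ) / 8) * (m / 8) * (m / 8)) := by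
            field_simp
            norm_num
        _ ≤ cc m * ((q : ℝ) * q * q) := by gcongr
    calc u * e / 1024 = u * (1 / 512) * (e * (1 / 2)) := by ring
      _ ≤ u * (cc m * ((q : ℝ) * q * q)) * (e * (1 / 2)) := by gcongr
      _ = u * cc m * ((q : ℝ) * q * q * (e * (1 / 2))) := by ring
      _ ≤ _ := by gcongr
  calc Frog.Q r s (Suc o D) ≤ Frog.Q r s (fun A => ∃ w ∈ A, o ∈ w ∧ tch Dᶜ w) := by
        refine Frog.Q_anti_U (fun i _ => hr0 i) ?_
        rintro A _ ⟨w, hw, ho, z, hz, hzD⟩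
        exact ⟨z, hzD, Relation.ReflTransGen.single ⟨w, hw, ho, hz⟩⟩
    _ = Real.exp (-(∑ w ∈ s with (o ∈ w ∧ tch Dᶜ w), r w)) := Q_exists r _ s
    _ ≤ Real.exp (-(u * e / 1024)) := Real.exp_le_exp.2 (neg_le_neg hmain)
    _ = 1 - (1 - Real.exp (-(u * e / 1024))) := by ring

end Pool.Agent.Fri.I_START
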