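import Pool.Agent.Work.MP_c9ff92_pr.Fri.Stmts
import Pool.Agent.Work.MP_c9ff92_pr.Fri.Basic

/-!
# Item STEP: one step of the interpolation (MP_c9ff92_pr)
-/

open Finset
open scoped ENNReal NNReal

noncomputable section

namespace Pool.Agent.Fri.I_STEP

universe u

/-! ### The expectation -/

section EE

variable {T : Type*} [DecidableEq T]

theorem EE_mono {r : T → ℝ} {s : Finset T} {f g : Finset T → ℝ≥0∞} (h : ∀ A, A ⊆ s → f A ≤ g A) :
    EE r s f ≤ EE r s g := by
  unfold EE
  refine sum_le_sum fun A hA => ?_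
  gcongr
  exact h A (mem_powerset.1 hA)

theorem EE_add (r : T → ℝ) (s : Finset T) (f g : Finset T → ℝ≥0∞) :
    EE r s (fun A => f A + g A) = EE r s f + EE r s g := by
  unfold EE
  rw [← sum_add_distrib]
  exact sum_congr rfl fun A _ => mul_add _ _ _

theorem EE_mul (r : T → ℝ) (s : Finset T) (c : ℝ≥0∞) (f : Finset T → ℝ≥0∞) :
    EE r s (fun A => c * f A) = c * EE r s f := by
  unfold EE
  rw [mul_sum]
  refine sum_congr rfl fun A _ => ?_
  ring

end EE

variable {V : Type u} [DecidableEq V] {P : V → V → ℝ≥0∞}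

omit [DecidableEq V] in
theorem wt_le_one (hP : Ker P) (w : List V) : wt P w ≤ 1 := by
  induction w with
  | nil => simp
  | cons x w ih =>
    rcases w with _ | ⟨y, w⟩
    · simp
    · rw [wt_cons_cons]
      have h1 : P x y ≤ 1 := by
        rw [← hP.sum x]
        exact ENNReal.le_tsum y
      calc P x y * wt P (y :: w) ≤ 1 * 1 := mul_le_mul' h1 ih
        _ = 1 := one_mul 1

omit [DecidableEq V] in
theorem wt_ne_top (hP : Ker P) (w : List V) : wt P w ≠ ⊤ :=
  ne_top_of_le_ne_top ENNReal.one_ne_top (wt_le_one hP w)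

/-- The sum over the finite family of the walks which touch both sets is the sum over all. -/
theorem sum_full {D R B : Set V} {s : Finset (List V)} {m : ℕ} (hfull : full P D m s)
    (hR : R ⊆ D) (φ : List V → ℝ≥0∞) (hφ : ∀ w, m < w.length → φ w = 0) :
    ∑' w : List V, ind (tch R w ∧ tch B w) * φ w * wt P w =
      ∑ w ∈ s, ind (tch R w ∧ tch B w) * φ w * wt P w := by
  rw [tsum_eq_sum]
  intro w hw
  by_cases h1 : tch R w
  · by_cases h2 : wt P w = 0
    · rw [h2, mul_zero]
    · by_cases h3 : w.length ≤ m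
      · exfalso
        apply hw
        refine hfull w h2 h3 ?_
        obtain ⟨x, hx, hxR⟩ := h1
        exact ⟨x, hx, hR hxR⟩
      · rw [hφ w (by omega), mul_zero, zero_mul]
  · rw [ind_false (fun h => h1 h.1), zero_mul, zero_mul]

omit [DecidableEq V] in
theorem clu_subset {o : V} {D : Set V} {A : Finset (List V)} (h : ¬ Suc o D A) :
    clu A o ⊆ D := by
  intro y hy
  by_contra hyD
  exact h ⟨y, hyD, hy⟩

omit [DecidableEq V] in
theorem compl_bdy_subset {D : Set V} {A : Finset (List V)} : (bdy A D)ᶜ ⊆ D := by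
  intro y hy
  by_contra hyD
  exact hy ⟨y, hyD, Relation.ReflTransGen.refl⟩

theorem cc_pos {m : ℕ} (hm : 2 ≤ m) : 0 < cc m := by
  unfold cc
  have h1 : (2 : ℝ) ≤ m := by exact_mod_cast hm
  have h2 : (0 : ℝ) < m - 1 := by linarith
  positivity

/-- The identity behind the exact family. -/
theorem cc_eq {m : ℕ} (hm : 4 ≤ m) :
    cc m = cc m / (m - 2) * (m - 2) ∧ cc (m - 1) = cc m / (m - 2) * (m + 1) := by
  have h1 : (4 : ℝ) ≤ m := by exact_mod_cast hm
  have h2 : (m : ℝ) - 2 ≠ 0 := by linarith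
  have h3 : (m : ℝ) - 1 ≠ 0 := by linarith
  have h4 : (m : ℝ) + 1 ≠ 0 := by linarith
  have h5 : (m : ℝ) ≠ 0 := by linarith
  refine ⟨by field_simp, ?_⟩
  have h6 : ((m - 1 : ℕ) : ℝ) = (m : ℝ) - 1 := by
    rw [Nat.cast_sub (by omega)]
    simp
  unfold cc
  rw [h6]
  have h7 : (m : ℝ) - 1 + 1 ≠ 0 := by linarith
  have h8 : (m : ℝ) - 1 - 1 ≠ 0 := by linarith
  field_simp
  ring

theorem prf : SStepAll.{u} := by
  intro hCut hDer hPiv hEss V _ P hP o D s m k hDfin hoD hm hk hfull c ε α γ hc hε hα hγ hcore hnum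
  have hm4 : (4 : ℝ) ≤ m := by exact_mod_cast hm
  obtain ⟨hcc1, hcc2⟩ := cc_eq hm
  set h0 : ℝ := cc m / (m - 2) with hh0
  have hccm : 0 < cc m := cc_pos (by omega)
  have hccm1 : 0 < cc (m - 1) := cc_pos (by omega)
  have hm2 : (0 : ℝ) < m - 2 := by linarith
  have hh0pos : 0 < h0 := div_pos hccm hm2
  have hccle : cc m ≤ cc (m - 1) := by
    rw [hcc1, hcc2]
    exact mul_le_mul_of_nonneg_left (by linarith) hh0pos.le
  set l : List V → ℝ := fun w =>
    c * h0 * ((if w.length ≤ m then w.length else 0 : ℕ) : ℝ) * (wt P w).toReal with hl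
  set g : List V → ℝ := fun w =>
    (c * (ε * cc (m - 1)) * ((m - w.length : ℕ) : ℝ) +
      2 * (c * h0) * ((m + 1 - w.length : ℕ) : ℝ)) * (wt P w).toReal with hg
  set r : List V → ℝ := rt P (c * cc m) m with hr
  have hr' : ∀ w, r w + (g w - l w) = rt P ((1 + ε) * c * cc (m - 1)) (m - 1) w := by
    intro w
    simp only [hr, hg, hl, rt]
    have e0 : m - 1 + 1 = m := by omega
    rw [e0]
    by_cases hw : w.length ≤ m
    · rw [if_pos hw, Nat.cast_sub hw, Nat.cast_sub (by omega : w.length ≤ m + 1)]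
      push_cast
      rw [hcc2]
      conv_lhs => rw [hcc1]
      ring
    · rw [if_neg hw, Nat.sub_eq_zero_of_le (by omega : m ≤ w.length),
        Nat.sub_eq_zero_of_le (by omega : m + 1 ≤ w.length)]
      simp
  have hl0 : ∀ w, 0 ≤ l w := fun w => by positivity
  have hg0 : ∀ w, 0 ≤ g w := fun w => by positivity
  have hr0 : ∀ w, 0 ≤ r w := fun w => by
    simp only [hr, rt]
    positivity
  have hr1 : ∀ w, 0 ≤ rt P ((1 + ε) * c * cc (m - 1)) (m - 1) w := fun w => by
    unfold rt
    positivity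
  have hup : Frog.Up (Suc o D) := by
    rintro A A' h ⟨z, hz, hz'⟩
    refine ⟨z, hz, Relation.ReflTransGen.mono ?_ _ _ hz'⟩
    rintro x y ⟨w, hw, hx, hy⟩
    exact ⟨w, h hw, hx, hy⟩
  have key := hDer (List V) s (Suc o D) hup r g l
    (fun w _ => ⟨hg0 w, hl0 w, hr0 w, by rw [hr']; exact hr1 w⟩) ?_
  · have e1 : (fun w => r w + (g w - l w)) = rt P ((1 + ε) * c * cc (m - 1)) (m - 1) :=
      funext hr'
    rwa [e1] at key
  intro t ht
  set ρ : List V → ℝ := fun w => r w + t * (g w - l w) with hρ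
  have hρe : ∀ w, ρ w = (1 - t) * r w + t * rt P ((1 + ε) * c * cc (m - 1)) (m - 1) w := by
    intro w
    rw [← hr']
    simp only [hρ]
    ring
  have ht0 : 0 ≤ t := ht.1
  have ht1 : 0 ≤ 1 - t := by linarith [ht.2]
  have hρ0 : ∀ w, 0 ≤ ρ w := by
    intro w
    rw [hρe]
    have := hr0 w
    have := hr1 w
    positivity
  -- the lower bound of the rates
  set β : ℝ := c * cc m * ((m - k : ℕ) : ℝ) with hβ
  have hmk : (0 : ℝ) < ((m - k : ℕ) : ℝ) := by
    have : 0 < m - k := by omega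
    exact_mod_cast this
  have hβ0 : 0 < β := by positivity
  have hβr : ∀ w : List V, w.length ≤ k → β * (wt P w).toReal ≤ ρ w := by
    intro w hw
    rw [hρe]
    have hwt : 0 ≤ (wt P w).toReal := ENNReal.toReal_nonneg
    have h1 : β * (wt P w).toReal ≤ r w := by
      simp only [hr, rt, hβ]
      gcongr
      omega
    have h2 : β * (wt P w).toReal ≤ rt P ((1 + ε) * c * cc (m - 1)) (m - 1) w := by
      simp only [rt, hβ]
      gcongr
      · have h3 : c * cc m ≤ c * cc (m - 1) := mul_le_mul_of_nonneg_left hccle hc.le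
        have h4 : 0 ≤ c * cc (m - 1) := by positivity
        nlinarith
      · omega
    nlinarith
  have hess := hEss V P hP o D s ρ β k m hk.le hfull (fun w _ => hρ0 w) hβ0.le hβr
  -- abbreviations
  set fW : Finset (List V) → ℝ≥0∞ := fun A => ind (¬ Suc o D A) * WW P (clu A o) (bdy A D) m
    with hfW
  set fS : Finset (List V) → ℝ≥0∞ := fun A => ind (¬ Suc o D A) * SS P (clu A o) (bdy A D) k
    with hfS
  set fJ : Finset (List V) → ℝ≥0∞ := fun A => ind (¬ Suc o D A) *
    JJ P (clu A o) (bdy A D) m (fun _ _ _ => True) with hfJ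
  set fX : Finset (List V) → ℝ≥0∞ := fun A => ind (¬ Suc o D A) *
    ∑' w : List V, ind (tch (clu A o) w ∧ tch (bdy A D) w) *
      ((m + 1 - w.length : ℕ) : ℝ≥0∞) * wt P w with hfX
  -- the left-hand side
  have hL : ∀ A, A ⊆ s → ∑ w ∈ s, ENNReal.ofReal (l w) * ind (piv (Suc o D) w A) ≤
      ENNReal.ofReal (c * h0) * (2 * fX A + 2 * fJ A) := by
    intro A _
    have h1 : ∑ w ∈ s, ENNReal.ofReal (l w) * ind (piv (Suc o D) w A) ≤
        ∑ w ∈ s, ENNReal.ofReal (c * h0) * (ind (¬ Suc o D A) *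
          (ind (tch (clu A o) w ∧ tch (bdy A D) w ∧ w.length ≤ m) * (w.length : ℝ≥0∞) *
            wt P w)) := by
      refine sum_le_sum fun w _ => ?_
      rw [ind_congr (hPiv V o D A w), ind_and (¬ Suc o D A)]
      simp only [hl]
      rw [ENNReal.ofReal_mul (by positivity), ENNReal.ofReal_mul (by positivity),
        ENNReal.ofReal_natCast, ENNReal.ofReal_toReal (wt_ne_top hP w)]
      by_cases hw : w.length ≤ m
      · rw [if_pos hw]
        have e1 : ind (tch (clu A o) w ∧ tch (bdy A D) w) =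
            ind (tch (clu A o) w ∧ tch (bdy A D) w ∧ w.length ≤ m) :=
          ind_congr ⟨fun h => ⟨h.1, h.2, hw⟩, fun h => ⟨h.1, h.2.1⟩⟩
        rw [e1]
        apply le_of_eq
        ring
      · rw [if_neg hw]
        simp
    refine h1.trans ?_
    rw [← mul_sum, ← mul_sum]
    gcongr
    calc ind (¬ Suc o D A) * ∑ w ∈ s, ind (tch (clu A o) w ∧ tch (bdy A D) w ∧ w.length ≤ m) *
          (w.length : ℝ≥0∞) * wt P w
        ≤ ind (¬ Suc o D A) * ∑' w : List V,
          ind (tch (clu A o) w ∧ tch (bdy A D) w ∧ w.length ≤ m) * (w.length : ℝ≥0∞) * wt P w := by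
          gcongr
          exact ENNReal.sum_le_tsum s
      _ ≤ ind (¬ Suc o D A) * (2 * (∑' w : List V, ind (tch (clu A o) w ∧ tch (bdy A D) w) *
            ((m + 1 - w.length : ℕ) : ℝ≥0∞) * wt P w) +
            2 * JJ P (clu A o) (bdy A D) m (fun _ _ _ => True)) := by
          gcongr
          exact hCut V P hP _ _ m
      _ = 2 * fX A + 2 * fJ A := by
          simp only [hfX, hfJ]
          ring
  -- the right-hand side
  have hR : ∀ A, A ⊆ s → ENNReal.ofReal (c * (ε * cc (m - 1))) * fW A +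
      ENNReal.ofReal (2 * (c * h0)) * fX A ≤
      ∑ w ∈ s, ENNReal.ofReal (g w) * ind (piv (Suc o D) w A) := by
    intro A _
    by_cases hS : Suc o D A
    · simp only [hfW, hfX]
      rw [ind_false (not_not.2 hS)]
      simp
    · have hclu := clu_subset hS
      simp only [hfW, hfX]
      rw [ind_true hS, one_mul, one_mul]
      unfold WW
      rw [sum_full hfull hclu (fun w => ((m - w.length : ℕ) : ℝ≥0∞)) (fun w hw => by
          simp only [Nat.cast_eq_zero]; omega),
        sum_full hfull hclu (fun w => ((m + 1 - w.length : ℕ) : ℝ≥0∞)) (fun w hw => by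
          simp only [Nat.cast_eq_zero]; omega), mul_sum, mul_sum, ← sum_add_distrib]
      refine sum_le_sum fun w _ => ?_
      rw [ind_congr (hPiv V o D A w), ind_and (¬ Suc o D A), ind_true hS, one_mul]
      have e2 : ENNReal.ofReal (g w) = (ENNReal.ofReal (c * (ε * cc (m - 1))) *
          ((m - w.length : ℕ) : ℝ≥0∞) + ENNReal.ofReal (2 * (c * h0)) *
          ((m + 1 - w.length : ℕ) : ℝ≥0∞)) * wt P w := by
        simp only [hg]
        rw [ENNReal.ofReal_mul (q := (wt P w).toReal) (by positivity),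
          ENNReal.ofReal_add (by positivity) (by positivity),
          ENNReal.ofReal_mul (p := c * (ε * cc (m - 1))) (by positivity),
          ENNReal.ofReal_mul (p := 2 * (c * h0)) (by positivity),
          ENNReal.ofReal_natCast, ENNReal.ofReal_natCast, ENNReal.ofReal_toReal (wt_ne_top hP w)]
      rw [e2]
      apply le_of_eq
      ring
  -- the crossing pairs
  have hJ : EE ρ s fJ ≤ ENNReal.ofReal α * EE ρ s fS + ENNReal.ofReal γ * EE ρ s fW := by
    rw [← EE_mul, ← EE_mul, ← EE_add]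
    refine EE_mono fun A _ => ?_
    simp only [hfJ, hfS, hfW]
    have h1 := hcore (clu A o) (bdy A D) (hDfin.subset compl_bdy_subset)
    calc ind (¬ Suc o D A) * JJ P (clu A o) (bdy A D) m (fun _ _ _ => True)
        ≤ ind (¬ Suc o D A) * (ENNReal.ofReal α * SS P (clu A o) (bdy A D) k +
          ENNReal.ofReal γ * WW P (clu A o) (bdy A D) m) := by gcongr
      _ = _ := by ring
  have hS : EE ρ s fS ≤ ENNReal.ofReal (1 / (β * ((m - k : ℕ) : ℝ))) * EE ρ s fW := by
    have e1 : ENNReal.ofReal β * ((m - k : ℕ) : ℝ≥0∞) =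
        ENNReal.ofReal (β * ((m - k : ℕ) : ℝ)) := by
      rw [ENNReal.ofReal_mul hβ0.le, ENNReal.ofReal_natCast]
    rw [e1] at hess
    have h1 : 0 < β * ((m - k : ℕ) : ℝ) := by positivity
    calc EE ρ s fS = ENNReal.ofReal (1 / (β * ((m - k : ℕ) : ℝ))) *
          (ENNReal.ofReal (β * ((m - k : ℕ) : ℝ)) * EE ρ s fS) := by
          rw [← mul_assoc, ← ENNReal.ofReal_mul (by positivity),
            one_div_mul_cancel h1.ne', ENNReal.ofReal_one, one_mul]
      _ ≤ _ := by gcongr
  -- conclusion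
  have hfin : ENNReal.ofReal (c * h0) * (2 * EE ρ s fJ) ≤
      ENNReal.ofReal (c * (ε * cc (m - 1))) * EE ρ s fW := by
    have h1 : EE ρ s fJ ≤
        ENNReal.ofReal (α / (c * cc m * ((m - k : ℕ) : ℝ) ^ 2) + γ) * EE ρ s fW := by
      refine hJ.trans ?_
      rw [ENNReal.ofReal_add (by positivity) hγ, add_mul]
      refine add_le_add ?_ le_rfl
      have h2 : ENNReal.ofReal α * EE ρ s fS ≤
          ENNReal.ofReal α * (ENNReal.ofReal (1 / (β * ((m - k : ℕ) : ℝ))) * EE ρ s fW) := by
        gcongr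
      refine h2.trans ?_
      rw [← mul_assoc, ← ENNReal.ofReal_mul hα]
      apply le_of_eq
      congr 2
      rw [hβ]
      field_simp
    calc ENNReal.ofReal (c * h0) * (2 * EE ρ s fJ)
        ≤ ENNReal.ofReal (c * h0) * (2 *
          (ENNReal.ofReal (α / (c * cc m * ((m - k : ℕ) : ℝ) ^ 2) + γ) * EE ρ s fW)) := by
          gcongr
      _ = ENNReal.ofReal (c * h0 * (2 * (α / (c * cc m * ((m - k : ℕ) : ℝ) ^ 2) + γ))) *
          EE ρ s fW := by
          rw [ENNReal.ofReal_mul (p := c * h0) (by positivity),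
            ENNReal.ofReal_mul (p := 2) (by norm_num)]
          simp only [ENNReal.ofReal_ofNat]
          ring
      _ ≤ ENNReal.ofReal (c * (ε * cc (m - 1))) * EE ρ s fW := by
          refine mul_le_mul' (ENNReal.ofReal_le_ofReal ?_) le_rfl
          calc c * h0 * (2 * (α / (c * cc m * ((m - k : ℕ) : ℝ) ^ 2) + γ))
              ≤ c * h0 * (ε * (m - 2)) := by gcongr
            _ = c * (ε * (h0 * (m - 2))) := by ring
            _ = c * (ε * cc m) := by rw [← hcc1]
            _ ≤ c * (ε * cc (m - 1)) := by gcongr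
  calc EE ρ s (fun A => ∑ w ∈ s, ENNReal.ofReal (l w) * ind (piv (Suc o D) w A))
      ≤ EE ρ s (fun A => ENNReal.ofReal (c * h0) * (2 * fX A + 2 * fJ A)) := EE_mono hL
    _ = ENNReal.ofReal (c * h0) * (2 * EE ρ s fX + 2 * EE ρ s fJ) := by
        rw [EE_mul, EE_add, EE_mul, EE_mul]
    _ = ENNReal.ofReal (2 * (c * h0)) * EE ρ s fX + ENNReal.ofReal (c * h0) * (2 * EE ρ s fJ) := by
        rw [ENNReal.ofReal_mul (p := 2) (by norm_num)]
        simp only [ENNReal.ofReal_ofNat]
        ring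
    _ ≤ ENNReal.ofReal (2 * (c * h0)) * EE ρ s fX +
        ENNReal.ofReal (c * (ε * cc (m - 1))) * EE ρ s fW := by gcongr
    _ = EE ρ s (fun A => ENNReal.ofReal (c * (ε * cc (m - 1))) * fW A +
        ENNReal.ofReal (2 * (c * h0)) * fX A) := by
        rw [EE_add, EE_mul, EE_mul, add_comm]
    _ ≤ _ := EE_mono hR

end Pool.Agent.Fri.I_STEP
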