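import Pool.Agent.Work.MP_c9ff92_pr.Fri.Stmts
import Pool.Agent.Work.MP_c9ff92_pr.Fri.Basic

/-!
# Item UNI (MP_c9ff92_pr)
-/

open Finset
open scoped ENNReal NNReal

noncomputable section

namespace Pool.Agent.Fri.I_UNI3

open Pool.Agent.Fri

variable {V : Type*}

theorem lnk_mono {A B : Finset (List V)} (h : A ⊆ B) {x y : V} (hl : lnk A x y) : lnk B x y := by
  obtain ⟨w, hw, h1⟩ := hl
  exact ⟨w, h hw, h1⟩

theorem conn_mono {A B : Finset (List V)} (h : A ⊆ B) {x y : V}
    (hy : Relation.ReflTransGen (lnk A) x y) : Relation.ReflTransGen (lnk B) x y := by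
  induction hy with
  | refl => exact Relation.ReflTransGen.refl
  | tail _ hbc ih => exact Relation.ReflTransGen.tail ih (lnk_mono h hbc)

theorem clu_mono {A B : Finset (List V)} (h : A ⊆ B) (o : V) : clu A o ⊆ clu B o :=
  fun _ hy => conn_mono h hy

theorem bdy_mono {A B : Finset (List V)} (h : A ⊆ B) (D : Set V) : bdy A D ⊆ bdy B D := by
  rintro y ⟨z, hz, hy⟩
  exact ⟨z, hz, conn_mono h hy⟩

theorem tch_mono {S S' : Set V} (h : S ⊆ S') {l : List V} (hl : tch S l) : tch S' l := by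
  obtain ⟨x, hx, hS⟩ := hl
  exact ⟨x, hx, h hS⟩

theorem lnk_symm {A : Finset (List V)} {x y : V} (h : lnk A x y) : lnk A y x := by
  obtain ⟨w, hw, h1, h2⟩ := h
  exact ⟨w, hw, h2, h1⟩

theorem conn_symm {A : Finset (List V)} {x y : V} (h : Relation.ReflTransGen (lnk A) x y) :
    Relation.ReflTransGen (lnk A) y x := by
  induction h with
  | refl => exact Relation.ReflTransGen.refl
  | tail _ hbc ih => exact Relation.ReflTransGen.head (lnk_symm hbc) ih

/-- a walk not touched by the cluster does not change the cluster -/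
theorem clu_insert [DecidableEq V] {A : Finset (List V)} {o : V} {T : List V} (h : ¬ tch (clu A o) T) :
    clu (insert T A) o ⊆ clu A o := by
  intro y hy
  have hy' : Relation.ReflTransGen (lnk (insert T A)) o y := hy
  induction hy' with
  | refl => exact Relation.ReflTransGen.refl
  | @tail b c hab hbc ih =>
    have hb : b ∈ clu A o := ih hab
    obtain ⟨w, hw, hb', hc'⟩ := hbc
    rw [Finset.mem_insert] at hw
    rcases hw with rfl | hw
    · exact absurd ⟨b, hb', hb⟩ h
    · exact Relation.ReflTransGen.tail hb ⟨w, hw, hb', hc'⟩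

/-- a touched walk lies in the cluster -/
theorem mem_clu {A : Finset (List V)} {o : V} {T : List V} (hT : T ∈ A) {S : Set V}
    (hS : S ⊆ clu A o) (h : tch S T) {x : V} (hx : x ∈ T) : x ∈ clu A o := by
  obtain ⟨y, hy, hyS⟩ := h
  exact Relation.ReflTransGen.tail (hS hyS) ⟨T, hT, hy, hx⟩

/-- points of the cluster after insertion: in the cluster or connected to the walk -/
theorem suc_insert [DecidableEq V] {A : Finset (List V)} {o : V} {D : Set V} {T : List V}
    (h : ¬ Suc o D A) (hB : ¬ tch (bdy A D) T) : ¬ Suc o D (insert T A) := by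
  rintro ⟨z, hz, hoz⟩
  have key : ∀ y, Relation.ReflTransGen (lnk (insert T A)) o y → y ∉ bdy A D := by
    intro y hy
    induction hy with
    | refl => exact fun hb => h hb
    | @tail b c hab hbc ih =>
      intro hc
      obtain ⟨w, hw, hb', hc'⟩ := hbc
      rw [Finset.mem_insert] at hw
      rcases hw with rfl | hw
      · exact hB ⟨c, hc', hc⟩
      · obtain ⟨z', hz', hcz⟩ := hc
        exact ih ⟨z', hz', Relation.ReflTransGen.head ⟨w, hw, hb', hc'⟩ hcz⟩
  exact key z hoz ⟨z, hz, Relation.ReflTransGen.refl⟩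

theorem prf.{u} : SUni.{u} := by
  intro V _ o D A T'
  set Pr : List V → Prop := fun T => ¬ Suc o D (A.erase T) ∧
    crs (clu (A.erase T) o) (bdy (A.erase T) D) T T' with hPr
  -- the conclusion holds as soon as there is one such walk
  have h1 : ∀ T ∈ A, Pr T → (¬ Suc o D A ∧ tch (clu A o) T' ∧ tch (bdy A D) T') := by
    rintro T hT ⟨hS, hR, hB, hB', hR', x, hx, hx'⟩
    have hA : insert T (A.erase T) = A := Finset.insert_erase hT
    refine ⟨?_, ?_, ?_⟩
    · have := suc_insert hS hB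
      rwa [hA] at this
    · exact ⟨x, hx', mem_clu hT (clu_mono (Finset.erase_subset T A) o) hR hx⟩
    · exact tch_mono (bdy_mono (Finset.erase_subset T A) D) hB'
  -- there is at most one
  have h2 : ∀ T₁ ∈ A, ∀ T₂ ∈ A, Pr T₁ → Pr T₂ → T₁ = T₂ := by
    rintro T₁ hT₁ T₂ hT₂ ⟨-, hR₁, -, -, hR₁', x₁, hx₁, hx₁'⟩ ⟨-, hR₂, -, -, hR₂', x₂, hx₂, hx₂'⟩
    by_contra hne
    set A₀ := (A.erase T₁).erase T₂ with hA₀
    have hA₀' : A₀ = (A.erase T₂).erase T₁ := Finset.erase_right_comm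
    have m2 : T₂ ∈ A.erase T₁ := Finset.mem_erase.2 ⟨fun h => hne h.symm, hT₂⟩
    have m1 : T₁ ∈ A.erase T₂ := Finset.mem_erase.2 ⟨hne, hT₁⟩
    have s1 : A₀ ⊆ A.erase T₁ := Finset.erase_subset _ _
    have s2 : A₀ ⊆ A.erase T₂ := by rw [hA₀']; exact Finset.erase_subset _ _
    by_cases c1 : tch (clu A₀ o) T₁
    · exact hR₂' ⟨x₁, hx₁', mem_clu m1 (clu_mono s2 o) c1 hx₁⟩
    · by_cases c2 : tch (clu A₀ o) T₂
      · exact hR₁' ⟨x₂, hx₂', mem_clu m2 (clu_mono s1 o) c2 hx₂⟩
      · have h3 := clu_insert c2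
        rw [hA₀, Finset.insert_erase m2] at h3
        exact c1 (tch_mono h3 hR₁)
  by_cases hex : ∃ T ∈ A, Pr T
  · obtain ⟨T, hT, hp⟩ := hex
    rw [ind_true (h1 T hT hp)]
    calc ∑ T₁ ∈ A, ind (Pr T₁) = ∑ T₁ ∈ A, if T₁ = T then 1 else 0 := by
          refine Finset.sum_congr rfl fun T₁ hT₁ => ?_
          by_cases h : T₁ = T
          · subst h; rw [ind_true hp, if_pos rfl]
          · rw [if_neg h, ind_false fun hp₁ => h (h2 T₁ hT₁ T hT hp₁ hp)]
      _ ≤ 1 := by
          rw [Finset.sum_ite_eq' A T]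
          split_ifs <;> simp
  · have h0 : ∑ T₁ ∈ A, ind (Pr T₁) = 0 :=
      Finset.sum_eq_zero fun T₁ hT₁ => ind_false fun hp => hex ⟨T₁, hT₁, hp⟩
    change ∑ T₁ ∈ A, ind (Pr T₁) ≤ _
    rw [h0]
    exact zero_le

end Pool.Agent.Fri.I_UNI3
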