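import Mathlib

/-!
# Finitary interlacements: definitions (MP_c9ff92_pr)

A walk is a nonempty list of vertices, in the order of time. All sums are in `ℝ≥0∞`.
-/

open Finset
open scoped ENNReal NNReal

noncomputable section

namespace Pool.Agent.Fri

variable {V : Type*}

open Classical in
/-- The indicator of a proposition. -/
def ind (p : Prop) : ℝ≥0∞ := if p then 1 else 0

/-- A symmetric Markov kernel. -/
structure Ker (P : V → V → ℝ≥0∞) : Prop where
  symm : ∀ x y, P x y = P y x
  sum : ∀ x, ∑' y, P x y = 1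

/-- The weight of a walk (zero for the empty list, one for a single vertex). -/
def wt (P : V → V → ℝ≥0∞) : List V → ℝ≥0∞
  | [] => 0
  | [_] => 1
  | x :: y :: l => P x y * wt P (y :: l)

/-- The iterated kernel. -/
def pk (P : V → V → ℝ≥0∞) : ℕ → V → V → ℝ≥0∞
  | 0 => fun x y => ind (x = y)
  | n + 1 => fun x y => ∑' z, P x z * pk P n z y

/-- The probability that the walk from `x` avoids `S` during its steps `1, ..., n`. -/
def sv (P : V → V → ℝ≥0∞) (S : Set V) : ℕ → V → ℝ≥0∞
  | 0 => fun _ => 1
  | n + 1 => fun x => ∑' z, P x z * (ind (z ∉ S) * sv P S n z)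

/-- The list touches the set. -/
def tch (S : Set V) (l : List V) : Prop := ∃ x ∈ l, x ∈ S

/-- The position of `y` in `a ++ y :: b` is a mark: `a` touches `R` and avoids `B`, `y` is in
neither of them, `b` touches `B` and avoids `R`. -/
def mark (R B : Set V) (a : List V) (y : V) (b : List V) : Prop :=
  tch R a ∧ ¬ tch B a ∧ y ∉ R ∧ y ∉ B ∧ tch B b ∧ ¬ tch R b

/-- The weighted number of the marks with a given property in the walks with at most `m`
vertices. -/
def JJ (P : V → V → ℝ≥0∞) (R B : Set V) (m : ℕ) (q : List V → V → List V → Prop) : ℝ≥0∞ :=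
  ∑' a : List V, ∑' y : V, ∑' b : List V,
    ind (mark R B a y b ∧ a.length + b.length + 1 ≤ m ∧ q a y b) * wt P (a ++ y :: b)

/-- Both parts of the walk at the mark have at most `k` vertices. -/
def good (k : ℕ) (a : List V) (_y : V) (b : List V) : Prop :=
  a.length + 1 ≤ k ∧ b.length + 1 ≤ k

/-- From `y` the set `S` is hit within `L` steps with probability more than one half. -/
def hi (P : V → V → ℝ≥0∞) (S : Set V) (L : ℕ) (y : V) : Prop := sv P S L y < 1 / 2

/-- The weighted number of the walks which touch both sets. -/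
def WW (P : V → V → ℝ≥0∞) (R B : Set V) (m : ℕ) : ℝ≥0∞ :=
  ∑' w : List V, ind (tch R w ∧ tch B w) * ((m - w.length : ℕ) : ℝ≥0∞) * wt P w

/-- `T` leads from `R` to `T'` and `T'` leads to `B`, neither of them alone does. -/
def crs (R B : Set V) (T T' : List V) : Prop :=
  tch R T ∧ ¬ tch B T ∧ tch B T' ∧ ¬ tch R T' ∧ ∃ x ∈ T, x ∈ T'

/-- The weighted number of the crossing pairs. -/
def SS (P : V → V → ℝ≥0∞) (R B : Set V) (k : ℕ) : ℝ≥0∞ :=
  ∑' T : List V, ∑' T' : List V,
    ind (crs R B T T' ∧ T.length ≤ k ∧ T'.length ≤ k) * wt P T * wt P T'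

/-! ### The random set of walks -/

section system

variable {T : Type*} [DecidableEq T]

/-- Expectation over the random set of present objects of `s`, if the object `i` is present with
probability `1 - exp (-r i)`. -/
def EE (r : T → ℝ) (s : Finset T) (f : Finset T → ℝ≥0∞) : ℝ≥0∞ :=
  ∑ A ∈ s.powerset, ENNReal.ofReal ((∏ i ∈ A, (1 - Real.exp (-r i))) *
    ∏ i ∈ s \ A, Real.exp (-r i)) * f A

/-- The object `i` is pivotal for the property `U`. -/
def piv (U : Finset T → Prop) (i : T) (A : Finset T) : Prop := ¬ U A ∧ U (insert i A)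

end system

/-- Two vertices on the same present walk. -/
def lnk (A : Finset (List V)) (x y : V) : Prop := ∃ w ∈ A, x ∈ w ∧ y ∈ w

/-- The cluster of `o`. -/
def clu (A : Finset (List V)) (o : V) : Set V := {y | Relation.ReflTransGen (lnk A) o y}

/-- The vertices connected to the outside of `D`. -/
def bdy (A : Finset (List V)) (D : Set V) : Set V :=
  {y | ∃ z, z ∉ D ∧ Relation.ReflTransGen (lnk A) y z}

/-- `o` is connected to the outside of `D`. -/
def Suc (o : V) (D : Set V) (A : Finset (List V)) : Prop :=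
  ∃ z, z ∉ D ∧ Relation.ReflTransGen (lnk A) o z

/-- The rates `c (m + 1 - |w|)` of the walks with at most `m` vertices. -/
def rt (P : V → V → ℝ≥0∞) (c : ℝ) (m : ℕ) (w : List V) : ℝ :=
  c * ((m + 1 - w.length : ℕ) : ℝ) * (wt P w).toReal

/-- The constants of the exact family: `c_{m-1} (m-2) = c_m (m+1)`. -/
def cc (m : ℕ) : ℝ := 1 / (((m : ℝ) + 1) * m * (m - 1))

/-- The finite family contains all walks of positive weight with at most `m` vertices which
touch `D`. -/
def full (P : V → V → ℝ≥0∞) (D : Set V) (m : ℕ) (s : Finset (List V)) : Prop :=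
  ∀ w : List V, wt P w ≠ 0 → w.length ≤ m → tch D w → w ∈ s

end Pool.Agent.Fri
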