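import Pool.Agent.Work.MP_c9ff92_pr.Fri.Stmts
import Pool.Agent.Work.MP_c9ff92_pr.Fri.Basic
import Pool.Agent.Work.MP_c9ff92_pr.Assembly

/-!
# From finitary interlacements to the frog model (MP_c9ff92_pr)
-/

open MeasureTheory ProbabilityTheory Set
open scoped ENNReal NNReal

noncomputable section

namespace Pool.Agent.Fri

open Pool.Agent.Frog

universe u

/-! ### The Poisson tail tends to one -/

theorem tendsto_tail (k : ℕ) : Filter.Tendsto (tail k) Filter.atTop (nhds 1) := by
  have h1 : ∀ i : ℕ, Filter.Tendsto (fun t : ℝ => Real.exp (-t) * (t ^ i / (i.factorial : ℝ)))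
      Filter.atTop (nhds 0) := by
    intro i
    have h := (Real.tendsto_pow_mul_exp_neg_atTop_nhds_zero i).div_const (i.factorial : ℝ)
    rw [zero_div] at h
    refine h.congr fun t => ?_
    ring
  have h2 : Filter.Tendsto (fun t : ℝ => ∑ i ∈ Finset.range k,
      Real.exp (-t) * (t ^ i / (i.factorial : ℝ))) Filter.atTop (nhds 0) := by
    have := tendsto_finsetSum (Finset.range k) fun i _ => h1 i
    simpa using this
  have h3 := h2.const_sub 1
  rw [sub_zero] at h3
  refine h3.congr fun t => ?_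
  rw [tail, Finset.mul_sum]

theorem exists_tail (k : ℕ) : ∃ t : ℝ≥0, 1 / 2 ≤ tail k t := by
  have h := (tendsto_tail k).eventually (lt_mem_nhds (show (1 / 2 : ℝ) < 1 by norm_num))
  obtain ⟨t, ht, ht0⟩ := (h.and (Filter.eventually_ge_atTop (0 : ℝ))).exists
  exact ⟨⟨t, ht0⟩, ht.le⟩

/-! ### The kernel of the simple random walk -/

section kernel

variable {V : Type u} {G : SimpleGraph V} [G.LocallyFinite]

theorem ker_srw {d : ℕ} (hd : 0 < d) (hreg : G.IsRegularOfDegree d) : Ker (srw G) := by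
  constructor
  · intro x y
    unfold srw
    rw [hreg x, hreg y, ind_congr (G.adj_comm x y)]
  · intro x
    unfold srw
    rw [tsum_eq_sum (s := G.neighborFinset x)]
    · rw [Finset.sum_congr rfl (g := fun _ => (G.degree x : ℝ≥0∞)⁻¹)]
      · rw [Finset.sum_const, SimpleGraph.card_neighborFinset_eq_degree, nsmul_eq_mul]
        apply ENNReal.mul_inv_cancel
        · rw [hreg x]
          exact_mod_cast hd.ne'
        · exact ENNReal.natCast_ne_top _
      · intro y hy
        rw [SimpleGraph.mem_neighborFinset] at hy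
        rw [ind_true hy, one_mul]
    · intro y hy
      rw [SimpleGraph.mem_neighborFinset] at hy
      rw [ind_false hy, zero_mul]

theorem finite_srw (x : V) : {y | srw G x y ≠ 0}.Finite := by
  refine (G.neighborFinset x).finite_toSet.subset ?_
  intro y hy
  rw [Finset.mem_coe, SimpleGraph.mem_neighborFinset]
  by_contra h
  apply hy
  unfold srw
  rw [ind_false h, zero_mul]

end kernel

/-! ### The percolation probability -/

section theta

variable {V : Type u} [Countable V] [Infinite V] [DecidableEq V] [MeasurableSpace V]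
  [DiscreteMeasurableSpace V] {G : SimpleGraph V} [G.LocallyFinite]

theorem theta_eq_iInf (hG : G.Connected) (o : V) (l t : ℝ≥0) :
    theta G o l t = ⨅ n : ℕ, law G l (⋃ M : ℕ, outM (ballF G o n) o t (M + 2)) := by
  have := br_prob_site (neighborSet_nonempty hG) l
  have : IsProbabilityMeasure (law G l) := by
    unfold law
    infer_instance
  have hanti : Antitone fun n : ℕ => ⋃ M : ℕ, outM (ballF G o n) o t (M + 2) := by
    apply antitone_nat_of_succ_le
    intro n
    refine iUnion_mono fun M => ?_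
    rintro ω ⟨y, hy, hr⟩
    refine ⟨y, fun h => hy ?_, hr⟩
    rw [ballF, Finset.mem_union]
    exact Or.inl h
  rw [theta, percolates_eq hG]
  apply hanti.measure_iInter
  · intro n
    exact NullMeasurableSet.iUnion fun M => nullMeasurable_outM hG o l t _ _
  · exact ⟨0, measure_ne_top _ _⟩

theorem tcp_anti {c : ℝ} (hc : 0 ≤ c) (m : ℕ) {i j : ℕ} (h : i ≤ j) : tcp c m j ≤ tcp c m i := by
  unfold tcp
  have h1 : ((m - j : ℕ) : ℝ) ≤ ((m - i : ℕ) : ℝ) := by
    have : m - j ≤ m - i := by omega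
    exact_mod_cast this
  have h2 : (0 : ℝ) ≤ ((m - j : ℕ) : ℝ) := Nat.cast_nonneg _
  gcongr

theorem tcp_one {u : ℝ} {m : ℕ} (hm : 2 ≤ m) : tcp (2 * u * cc m) m 1 = 2 * u / 3 := by
  unfold tcp cc
  have h1 : (2 : ℝ) ≤ m := by exact_mod_cast hm
  rw [Nat.cast_sub (by omega)]
  have h2 : (m : ℝ) - 1 ≠ 0 := by linarith
  have h3 : (m : ℝ) ≠ 0 := by linarith
  have h4 : (m : ℝ) + 1 ≠ 0 := by linarith
  push_cast
  field_simp
  ring

theorem tcp_zero {c : ℝ} {m j : ℕ} (h : m ≤ j) : tcp c m j = 0 := by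
  unfold tcp
  rw [Nat.sub_eq_zero_of_le h]
  simp

theorem theta_ne_zero (hPerc : SPerc.{u}) (hCopy : SCopy.{u}) (hG : G.Connected) {d : ℕ}
    (hd : 0 < d) (hreg : G.IsRegularOfDegree d) {C0 : ℝ} (hHK : HK (srw G) C0) (o : V)
    {l : ℝ≥0} (hl : 0 < l) : ∃ t : ℝ≥0, theta G o l t ≠ 0 := by
  have hl0 : (0 : ℝ) < l := by exact_mod_cast hl
  obtain ⟨m0, c, hm0, hc, hperc⟩ := hPerc V (srw G) (ker_srw hd hreg) finite_srw C0 hHK
    (l / 2) (by positivity)
  obtain ⟨t, ht⟩ := exists_tail m0
  refine ⟨t, ?_⟩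
  have hcc : 0 ≤ 2 * ((l : ℝ) / 2) * cc m0 := by
    have h1 : (2 : ℝ) ≤ m0 := by exact_mod_cast hm0
    unfold cc
    have h2 : (0 : ℝ) ≤ (m0 : ℝ) - 1 := by linarith
    positivity
  have hkey : ∀ n : ℕ, ENNReal.ofReal c ≤ law G l (⋃ M : ℕ, outM (ballF G o n) o t (M + 2)) := by
    intro n
    refine le_trans ?_ (measure_mono (subset_iUnion _ m0))
    rw [law_outM hG]
    apply ENNReal.ofReal_le_ofReal
    have ho : o ∈ ballF G o n := by
      rw [mem_ballF hG, SimpleGraph.dist_self]
      exact Nat.zero_le n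
    obtain ⟨s, hs⟩ := hperc o (ballF G o n : Set V) (Finset.finite_toSet _) ho
    have h1 := hCopy V G d hd hreg o (ballF G o n) s _ m0 (m0 + 2) hcc (by omega) ho
    have h2 : Q (rate G (tl' l t (m0 + 2))) (idx G (ballF G o n) (m0 + 2))
        (Out (ballF G o n) o) ≤
        Q (rate G (tcp (2 * ((l : ℝ) / 2) * cc m0) m0)) (idx G (ballF G o n) (m0 + 2))
        (Out (ballF G o n) o) := by
      refine Q_rate_anti (degree_pos' hG) o (fun m _ => tcp_anti hcc m0 (Nat.le_succ m))
        (fun m _ => tl'_anti l.2 t.2 _ m) (fun m hm => ?_) (fun m hm => tcp_zero (by omega))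
        (fun m hm => ?_)
      · by_cases h : m ≤ m0
        · unfold tl'
          rw [if_pos (by omega)]
          calc tcp (2 * ((l : ℝ) / 2) * cc m0) m0 m ≤ tcp (2 * ((l : ℝ) / 2) * cc m0) m0 1 :=
                tcp_anti hcc m0 hm
            _ = 2 * ((l : ℝ) / 2) / 3 := tcp_one hm0
            _ ≤ (l : ℝ) * (1 / 2) := by linarith
            _ ≤ (l : ℝ) * tail m t := by
                gcongr
                exact ht.trans (tail_anti t.2 h)
        · rw [tcp_zero (by omega)]
          unfold tl'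
          split_ifs
          · exact mul_nonneg l.2 (tail_nonneg m t.2)
          · exact le_rfl
      · exact if_neg (by omega)
    linarith
  rw [theta_eq_iInf hG]
  have h3 : ENNReal.ofReal c ≤ ⨅ n : ℕ, law G l (⋃ M : ℕ, outM (ballF G o n) o t (M + 2)) :=
    le_iInf hkey
  intro h4
  rw [h4] at h3
  have h5 : 0 < ENNReal.ofReal c := ENNReal.ofReal_pos.2 hc
  exact absurd h3 (not_le.2 h5)

omit [DecidableEq V] in
theorem theta_mono (hG : G.Connected) (o : V) {l l' t t' : ℝ≥0} (hl : l ≤ l') (ht : t ≤ t') :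
    theta G o l t ≤ theta G o l' t' := by
  classical
  apply theta_A hG o l l' t t' ht
  have h0 : (t : ℝ) ≤ t' := by exact_mod_cast ht
  have h1 : Real.exp (-(t' : ℝ)) ≤ Real.exp (-(t : ℝ)) := Real.exp_le_exp.2 (by linarith)
  have h2 : Real.exp (-(t : ℝ)) ≤ 1 := Real.exp_le_one_iff.2 (by simp)
  have h3 : (l : ℝ) ≤ l' := by exact_mod_cast hl
  have h4 : (0 : ℝ) ≤ l' := l'.coe_nonneg
  calc (l : ℝ) * (1 - Real.exp (-t)) ≤ l' * (1 - Real.exp (-t)) :=
        mul_le_mul_of_nonneg_right h3 (by linarith)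
    _ ≤ l' * (1 - Real.exp (-t')) := mul_le_mul_of_nonneg_left (by linarith) h4

omit [DecidableEq V] in
theorem tC_ne_top (hG : G.Connected) (o : V) {l t : ℝ≥0} (h : theta G o l t ≠ 0) :
    tC G o l ≠ ⊤ := by
  refine ne_top_of_le_ne_top (ENNReal.coe_ne_top (r := t)) ?_
  unfold tC
  refine iSup₂_le fun s hs => ?_
  by_contra hcon
  rw [not_le] at hcon
  have h1 : t ≤ s := by exact_mod_cast hcon.le
  exact h (le_antisymm ((theta_mono hG o le_rfl h1).trans hs.le) zero_le)

omit [DecidableEq V] in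
theorem lambdaC_ne_top (hG : G.Connected) (o : V) {l t : ℝ≥0} (h : theta G o l t ≠ 0) :
    lambdaC G o t ≠ ⊤ := by
  refine ne_top_of_le_ne_top (ENNReal.coe_ne_top (r := l)) ?_
  unfold lambdaC
  refine iSup₂_le fun s hs => ?_
  by_contra hcon
  rw [not_le] at hcon
  have h1 : l ≤ s := by exact_mod_cast hcon.le
  exact h (le_antisymm ((theta_mono hG o h1 le_rfl).trans hs.le) zero_le)

omit [DecidableEq V] [Countable V] [Infinite V] [DiscreteMeasurableSpace V] in
theorem exists_theta_ne_zero (o : V) {l : ℝ≥0} (h : tC G o l ≠ ⊤) :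
    ∃ t : ℝ≥0, 0 < t ∧ theta G o l t ≠ 0 := by
  by_contra hcon
  push Not at hcon
  apply h
  refine ENNReal.eq_top_of_forall_nnreal_le fun r => ?_
  unfold tC
  have h1 : theta G o l (r + 1) = 0 := hcon _ (by positivity)
  refine le_trans ?_ (le_iSup₂_of_le (r + 1) h1 le_rfl)
  exact_mod_cast le_self_add

end theta

end Pool.Agent.Fri
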