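import Pool.Agent.Work.MP_c9ff92_pr.Fri.Stmts
import Pool.Agent.Work.MP_c9ff92_pr.Fri.Basic

/-!
# Item ESS (MP_c9ff92_pr): the expected number of crossing pairs
-/

open Finset
open scoped ENNReal NNReal

noncomputable section

namespace Pool.Agent.Fri.I_ESS

open Pool.Agent.Fri

universe u

/-! ### The expectation -/

section system

variable {T : Type u} [DecidableEq T]

theorem EE_mono {r : T → ℝ} {s : Finset T} {f g : Finset T → ℝ≥0∞}
    (h : ∀ A, A ⊆ s → f A ≤ g A) : EE r s f ≤ EE r s g := by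
  unfold EE
  refine Finset.sum_le_sum fun A hA => ?_
  gcongr
  exact h A (Finset.mem_powerset.1 hA)

theorem EE_mul (r : T → ℝ) (s : Finset T) (c : ℝ≥0∞) (f : Finset T → ℝ≥0∞) :
    c * EE r s f = EE r s fun A => c * f A := by
  unfold EE
  rw [Finset.mul_sum]
  refine Finset.sum_congr rfl fun A _ => ?_
  ring

end system

/-! ### Weights and clusters -/

variable {V : Type u}

theorem wt_le_one {P : V → V → ℝ≥0∞} (hP : Ker P) (w : List V) : wt P w ≤ 1 := by
  rcases w with _ | ⟨y, b⟩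
  · simp
  · rw [← sum_len hP b.length y]
    refine le_trans ?_ (ENNReal.le_tsum b)
    rw [ind_true rfl, one_mul]

theorem clu_sub {A : Finset (List V)} {o : V} {D : Set V} (h : ¬ Suc o D A) : clu A o ⊆ D := by
  intro y hy
  by_contra hD
  exact h ⟨y, hD, hy⟩

theorem clu_mem {A : Finset (List V)} {o : V} {w : List V} (hw : w ∈ A) (h : tch (clu A o) w)
    {x : V} (hx : x ∈ w) : x ∈ clu A o := by
  obtain ⟨z, hz, hz'⟩ := h
  exact Relation.ReflTransGen.tail hz' ⟨w, hw, hz, hx⟩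

/-- The weighted number of the second walks. -/
def fs (P : V → V → ℝ≥0∞) (o : V) (D : Set V) (k : ℕ) (T : List V) (A : Finset (List V)) : ℝ≥0∞ :=
  ind (¬ Suc o D A) * ∑' T' : List V,
    ind (crs (clu A o) (bdy A D) T T' ∧ T.length ≤ k ∧ T'.length ≤ k) * wt P T'

theorem fs_eq_zero {P : V → V → ℝ≥0∞} {o : V} {D : Set V} {k : ℕ} {T : List V}
    {A : Finset (List V)}
    (h : ¬ Suc o D A → T.length ≤ k → tch (clu A o) T →
      (∀ T', ¬ tch (clu A o) T' → (∃ x ∈ T, x ∈ T') → False) ∨ False) :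
    fs P o D k T A = 0 := by
  unfold fs
  by_cases h0 : ¬ Suc o D A
  · have h1 : ∀ T' : List V,
        ind (crs (clu A o) (bdy A D) T T' ∧ T.length ≤ k ∧ T'.length ≤ k) * wt P T' = 0 := by
      intro T'
      rw [ind_false, zero_mul]
      rintro ⟨⟨c1, -, -, c4, c5⟩, l1, -⟩
      rcases h h0 l1 c1 with h2 | h2
      · exact h2 T' c4 c5
      · exact h2
    simp only [h1, tsum_zero, mul_zero]
  · rw [ind_false h0, zero_mul]

theorem fs_self {P : V → V → ℝ≥0∞} {o : V} {D : Set V} {k : ℕ} {T : List V}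
    {A : Finset (List V)} (hT : T ∈ A) : fs P o D k T A = 0 := by
  refine fs_eq_zero fun _ _ h1 => Or.inl fun T' h2 h3 => h2 ?_
  obtain ⟨x, hx, hx'⟩ := h3
  exact ⟨x, hx', clu_mem hT h1 hx⟩

theorem fs_ne {P : V → V → ℝ≥0∞} {o : V} {D : Set V} {k : ℕ} {T : List V}
    {A : Finset (List V)} (h : fs P o D k T A ≠ 0) :
    ¬ Suc o D A ∧ T.length ≤ k ∧ tch (clu A o) T := by
  by_contra hc
  refine h (fs_eq_zero fun h0 h1 h2 => ?_)
  exact absurd ⟨h0, h1, h2⟩ hc

theorem ind_SS (P : V → V → ℝ≥0∞) (o : V) (D : Set V) (k : ℕ) (A : Finset (List V)) :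
    ind (¬ Suc o D A) * SS P (clu A o) (bdy A D) k = ∑' T : List V, wt P T * fs P o D k T A := by
  unfold SS fs
  rw [← ENNReal.tsum_mul_left]
  refine tsum_congr fun T => ?_
  rw [← ENNReal.tsum_mul_left, ← mul_assoc, mul_comm (wt P T), mul_assoc, ← ENNReal.tsum_mul_left,
    ← ENNReal.tsum_mul_left]
  refine tsum_congr fun T' => ?_
  ring

theorem step_zero [DecidableEq V] {P : V → V → ℝ≥0∞} (hP : Ker P) {o : V} {D : Set V}
    {s : Finset (List V)} {r : List V → ℝ} {β : ℝ} {k m : ℕ} (hkm : k ≤ m) (hs : full P D m s)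
    (hβ : 0 ≤ β) (hr : ∀ w, w.length ≤ k → β * (wt P w).toReal ≤ r w) (A : Finset (List V)) :
    ENNReal.ofReal β * (ind (¬ Suc o D A) * SS P (clu A o) (bdy A D) k) ≤
      ∑ T ∈ s, ENNReal.ofReal (r T) * fs P o D k T A := by
  rw [ind_SS, ← ENNReal.tsum_mul_left]
  have h1 : ∀ T : List V, ENNReal.ofReal β * (wt P T * fs P o D k T A) ≤
      if T ∈ s then ENNReal.ofReal (r T) * fs P o D k T A else 0 := by
    intro T
    by_cases hf : fs P o D k T A = 0
    · simp [hf]
    obtain ⟨h0, hl, ht⟩ := fs_ne hf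
    by_cases hw : wt P T = 0
    · simp [hw]
    have hTs : T ∈ s := by
      refine hs T hw (hl.trans hkm) ?_
      obtain ⟨x, hx, hx'⟩ := ht
      exact ⟨x, hx, clu_sub h0 hx'⟩
    rw [if_pos hTs, ← mul_assoc]
    gcongr
    have hne : wt P T ≠ ⊤ := ne_top_of_le_ne_top ENNReal.one_ne_top (wt_le_one hP T)
    calc ENNReal.ofReal β * wt P T = ENNReal.ofReal β * ENNReal.ofReal (wt P T).toReal := by
          rw [ENNReal.ofReal_toReal hne]
      _ = ENNReal.ofReal (β * (wt P T).toReal) := (ENNReal.ofReal_mul hβ).symm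
      _ ≤ ENNReal.ofReal (r T) := ENNReal.ofReal_le_ofReal (hr T hl)
  refine (ENNReal.tsum_le_tsum h1).trans ?_
  rw [tsum_eq_sum (s := s) (fun T hT => if_neg hT)]
  exact Finset.sum_le_sum fun T hT => by rw [if_pos hT]

theorem step_two [DecidableEq V] (hU : SUni.{u}) (P : V → V → ℝ≥0∞) (o : V) (D : Set V) (k : ℕ)
    (A : Finset (List V)) :
    ∑ T ∈ A, fs P o D k T (A.erase T) ≤
      ∑' T' : List V, ind (T'.length ≤ k) *
        (ind (¬ Suc o D A ∧ tch (clu A o) T' ∧ tch (bdy A D) T') * wt P T') := by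
  have h1 : ∀ T ∈ A, fs P o D k T (A.erase T) ≤ ∑' T' : List V, ind (T'.length ≤ k) *
      (ind (¬ Suc o D (A.erase T) ∧ crs (clu (A.erase T) o) (bdy (A.erase T) D) T T') *
        wt P T') := by
    intro T _
    unfold fs
    rw [← ENNReal.tsum_mul_left]
    refine ENNReal.tsum_le_tsum fun T' => ?_
    rw [← mul_assoc, ← mul_assoc, ← ind_and, ← ind_and]
    gcongr
    exact ind_mono fun ⟨a, b, _, c⟩ => ⟨c, a, b⟩
  refine (Finset.sum_le_sum h1).trans ?_
  rw [← Summable.tsum_finsetSum fun _ _ => ENNReal.summable]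
  refine ENNReal.tsum_le_tsum fun T' => ?_
  rw [← Finset.mul_sum, ← Finset.sum_mul]
  gcongr
  exact hU V o D A T'

theorem step_three (P : V → V → ℝ≥0∞) (o : V) (D : Set V) {k m : ℕ}
    (A : Finset (List V)) :
    ((m - k : ℕ) : ℝ≥0∞) * ∑' T' : List V, ind (T'.length ≤ k) *
        (ind (¬ Suc o D A ∧ tch (clu A o) T' ∧ tch (bdy A D) T') * wt P T') ≤
      ind (¬ Suc o D A) * WW P (clu A o) (bdy A D) m := by
  unfold WW
  rw [← ENNReal.tsum_mul_left, ← ENNReal.tsum_mul_left]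
  refine ENNReal.tsum_le_tsum fun T' => ?_
  by_cases hl : T'.length ≤ k
  · rw [ind_and, ind_true hl, one_mul]
    have h2 : ((m - k : ℕ) : ℝ≥0∞) ≤ ((m - T'.length : ℕ) : ℝ≥0∞) := by
      exact_mod_cast Nat.sub_le_sub_left hl m
    calc ((m - k : ℕ) : ℝ≥0∞) *
          (ind (¬ Suc o D A) * ind (tch (clu A o) T' ∧ tch (bdy A D) T') * wt P T')
        ≤ ((m - T'.length : ℕ) : ℝ≥0∞) *
          (ind (¬ Suc o D A) * ind (tch (clu A o) T' ∧ tch (bdy A D) T') * wt P T') := by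
          gcongr
      _ = ind (¬ Suc o D A) * (ind (tch (clu A o) T' ∧ tch (bdy A D) T') *
          ((m - T'.length : ℕ) : ℝ≥0∞) * wt P T') := by ring
  · rw [ind_false hl]
    simp

theorem prf : SEssAll.{u} := by
  intro hM _ hU V _ P hP o D s r β k m hkm hs hr0 hβ hr
  have hM' := hM (List V) s r hr0 (fs P o D k) (fun T A hT => fs_self hT)
  calc ENNReal.ofReal β * ((m - k : ℕ) : ℝ≥0∞) *
        EE r s (fun A => ind (¬ Suc o D A) * SS P (clu A o) (bdy A D) k)
      = ((m - k : ℕ) : ℝ≥0∞) * EE r s (fun A => ENNReal.ofReal β *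
          (ind (¬ Suc o D A) * SS P (clu A o) (bdy A D) k)) := by
        rw [← EE_mul]
        ring
    _ ≤ ((m - k : ℕ) : ℝ≥0∞) * EE r s (fun A => ∑ T ∈ s, ENNReal.ofReal (r T) *
          fs P o D k T A) := by
        gcongr
        exact EE_mono fun A _ => step_zero hP hkm hs hβ hr A
    _ ≤ ((m - k : ℕ) : ℝ≥0∞) * EE r s (fun A => ∑ T ∈ A, fs P o D k T (A.erase T)) := by
        gcongr
    _ = EE r s (fun A => ((m - k : ℕ) : ℝ≥0∞) * ∑ T ∈ A, fs P o D k T (A.erase T)) :=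
        EE_mul _ _ _ _
    _ ≤ EE r s (fun A => ind (¬ Suc o D A) * WW P (clu A o) (bdy A D) m) := by
        refine EE_mono fun A _ => ?_
        refine le_trans ?_ (step_three P o D (k := k) (m := m) A)
        gcongr
        exact step_two hU P o D k A

end Pool.Agent.Fri.I_ESS
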