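import Pool.Agent.Work.MP_c9ff92_pr.Fri.Stmts
import Pool.Agent.Work.MP_c9ff92_pr.Assembly

/-!
# From the finitary interlacements to the frog model (MP_c9ff92_pr)
-/

open MeasureTheory ProbabilityTheory Set
open scoped ENNReal NNReal

noncomputable section

namespace Pool.Agent.Fri.I_FROG

open Pool.Agent.Frog

/-! ### The kernel of the simple random walk -/

section kernel

variable {V : Type*} (G : SimpleGraph V) [G.LocallyFinite]

theorem srw_of_adj {x y : V} (h : G.Adj x y) : srw G x y = (G.degree x : ℝ≥0∞)⁻¹ := by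
  rw [srw, ind, if_pos h, one_mul]

theorem srw_of_not_adj {x y : V} (h : ¬ G.Adj x y) : srw G x y = 0 := by
  rw [srw, ind, if_neg h, zero_mul]

theorem ker_srw {d : ℕ} (hd : 0 < d) (hreg : G.IsRegularOfDegree d) : Ker (srw G) := by
  refine ⟨fun x y => ?_, fun x => ?_⟩
  · by_cases h : G.Adj x y
    · rw [srw_of_adj G h, srw_of_adj G h.symm, hreg.degree_eq, hreg.degree_eq]
    · rw [srw_of_not_adj G h, srw_of_not_adj G fun h' => h h'.symm]
  · rw [tsum_eq_sum (s := G.neighborFinset x) fun y hy => srw_of_not_adj G fun h =>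
      hy ((SimpleGraph.mem_neighborFinset _ _ _).2 h)]
    rw [Finset.sum_congr rfl fun y hy => srw_of_adj G ((SimpleGraph.mem_neighborFinset _ _ _).1 hy),
      Finset.sum_const, G.card_neighborFinset_eq_degree, nsmul_eq_mul, hreg.degree_eq]
    exact ENNReal.mul_inv_cancel (by exact_mod_cast hd.ne') (ENNReal.natCast_ne_top d)

theorem finite_srw (x : V) : {y | srw G x y ≠ 0}.Finite := by
  refine (Set.toFinite (G.neighborSet x)).subset fun y hy => ?_
  by_contra h
  exact hy (srw_of_not_adj G h)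

end kernel

/-! ### The tails -/

theorem tcp_nonneg {c : ℝ} (hc : 0 ≤ c) (m j : ℕ) : 0 ≤ tcp c m j := by
  unfold tcp
  positivity

theorem tcp_succ_le {c : ℝ} (hc : 0 ≤ c) (m j : ℕ) : tcp c m (j + 1) ≤ tcp c m j := by
  unfold tcp
  have h : ((m - (j + 1) : ℕ) : ℝ) ≤ ((m - j : ℕ) : ℝ) := by exact_mod_cast (by omega)
  have h0 : (0 : ℝ) ≤ ((m - (j + 1) : ℕ) : ℝ) := Nat.cast_nonneg _
  gcongr

theorem tcp_eq_zero {c : ℝ} {m j : ℕ} (h : m ≤ j) : tcp c m j = 0 := by
  rw [tcp, Nat.sub_eq_zero_of_le h]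
  simp

theorem tcp_le {u : ℝ} (hu : 0 ≤ u) {m : ℕ} (hm : 2 ≤ m) {j : ℕ} (hj : 1 ≤ j) :
    tcp (2 * u * cc m) m j ≤ 2 * u / 3 := by
  have hm' : (2 : ℝ) ≤ m := by exact_mod_cast hm
  have h1 : ((m - j : ℕ) : ℝ) ≤ (m : ℝ) - 1 := by
    have : (m - j : ℕ) + 1 ≤ m := by omega
    have : ((m - j : ℕ) : ℝ) + 1 ≤ m := by exact_mod_cast this
    linarith
  have h0 : (0 : ℝ) ≤ ((m - j : ℕ) : ℝ) := Nat.cast_nonneg _
  have hcc : 0 ≤ cc m := by
    rw [cc]
    apply div_nonneg zero_le_one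
    apply mul_nonneg
    · positivity
    · linarith
  have hm1 : (0 : ℝ) ≤ (m : ℝ) - 1 := by linarith
  calc tcp (2 * u * cc m) m j ≤ 2 * u * cc m * ((m : ℝ) - 1) * (((m : ℝ) - 1) + 1) *
        (((m : ℝ) - 1) + 2) / 3 := by
        unfold tcp
        have e0 : 0 ≤ 2 * u * cc m := by positivity
        have e1 : 0 ≤ 2 * u * cc m * ((m : ℝ) - 1) := mul_nonneg e0 hm1
        have e2 : 0 ≤ 2 * u * cc m * ((m : ℝ) - 1) * (((m : ℝ) - 1) + 1) :=
          mul_nonneg e1 (by linarith)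
        gcongr
    _ = 2 * u / 3 := by
        rw [cc]
        have h2 : (m : ℝ) - 1 ≠ 0 := by linarith
        have h3 : (m : ℝ) ≠ 0 := by linarith
        have h4 : (m : ℝ) + 1 ≠ 0 := by linarith
        field_simp
        ring

theorem tendsto_tail (k : ℕ) : Filter.Tendsto (fun n : ℕ => tail k (n : ℝ)) Filter.atTop
    (nhds 1) := by
  have h : ∀ i : ℕ, Filter.Tendsto (fun n : ℕ => Real.exp (-(n : ℝ)) * ((n : ℝ) ^ i /
      (i.factorial : ℝ))) Filter.atTop (nhds 0) := by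
    intro i
    have h1 := (Real.tendsto_pow_mul_exp_neg_atTop_nhds_zero i).comp tendsto_natCast_atTop_atTop
    have h2 := h1.div_const (i.factorial : ℝ)
    simp only [zero_div] at h2
    refine h2.congr fun n => ?_
    simp only [Function.comp_apply]
    ring
  have h3 := tendsto_finsetSum (Finset.range k) fun i _ => h i
  simp only [Finset.sum_const_zero] at h3
  have h4 := h3.const_sub 1
  simp only [sub_zero] at h4
  refine h4.congr fun n => ?_
  rw [tail, Finset.mul_sum]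

/-! ### Percolation -/

section main

universe u

variable {V : Type u} [Countable V] [Infinite V] [MeasurableSpace V]
  [DiscreteMeasurableSpace V] {G : SimpleGraph V} [G.LocallyFinite]

theorem theta_pos_of [DecidableEq V] (hG : G.Connected) (o : V) (l t : ℝ≥0) (c : ℝ) (hc : 0 < c)
    (M0 : ℕ) (h : ∀ (B : Finset V) (M : ℕ), o ∈ B → M0 ≤ M →
      Q (rate G (tl' l t M)) (idx G B M) (Out B o) ≤ 1 - c) :
    theta G o l t ≠ 0 := by
  have := br_prob_site (neighborSet_nonempty hG) l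
  have : IsProbabilityMeasure (law G l) := by
    unfold law
    infer_instance
  have hn : ∀ n : ℕ, ENNReal.ofReal c ≤ law G l (⋃ M : ℕ, outM (ballF G o n) o t (M + 2)) := by
    intro n
    have h1 : ENNReal.ofReal c ≤ law G l (outM (ballF G o n) o t (M0 + 2)) := by
      rw [law_outM hG]
      apply ENNReal.ofReal_le_ofReal
      have := h (ballF G o n) (M0 + 2) ((mem_ballF hG o n o).2 (by simp)) (by omega)
      linarith
    exact h1.trans (measure_mono (subset_iUnion (fun M => outM (ballF G o n) o (t : ℝ) (M + 2)) M0))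
  have hanti : Antitone fun n : ℕ => ⋃ M : ℕ, outM (ballF G o n) o (t : ℝ) (M + 2) := by
    apply antitone_nat_of_succ_le
    intro n
    refine iUnion_mono fun M => ?_
    rintro ω ⟨y, hy, hr⟩
    refine ⟨y, fun h => hy ?_, hr⟩
    rw [ballF, Finset.mem_union]
    exact Or.inl h
  have h1 : theta G o l t = ⨅ n : ℕ, law G l (⋃ M : ℕ, outM (ballF G o n) o t (M + 2)) := by
    rw [theta, percolates_eq hG]
    apply hanti.measure_iInter
    · intro n
      exact NullMeasurableSet.iUnion fun M => nullMeasurable_outM hG o l t _ _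
    · exact ⟨0, measure_ne_top _ _⟩
  have h2 : ENNReal.ofReal c ≤ theta G o l t := by
    rw [h1]
    exact le_iInf hn
  intro h3
  rw [h3, nonpos_iff_eq_zero, ENNReal.ofReal_eq_zero] at h2
  linarith

/-- The frog model percolates for a long lifetime, at every density. -/
theorem exists_theta_ne_zero (hPerc : SPerc.{u}) (hCopy : SCopy.{u}) (hHeat : SHeat.{u})
    (hG : G.Connected) (htr : ∀ x y : V, ∃ φ : G ≃g G, φ x = y) (o : V) (c : ℝ) (hc : 0 < c)
    (hgr : ∀ n : ℕ, c * (n : ℝ) ^ 3 ≤ (({x | G.dist o x ≤ n} : Set V).ncard : ℝ))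
    (l : ℝ≥0) (hl : 0 < l) : ∃ t : ℝ≥0, 1 ≤ t ∧ theta G o l t ≠ 0 := by
  classical
  obtain ⟨C0, hC0⟩ := hHeat V G hG htr o c hc hgr
  have hd : 0 < G.degree o := degree_pos' hG o
  have hreg : G.IsRegularOfDegree (G.degree o) := by
    intro x
    obtain ⟨φ, hφ⟩ := htr o x
    subst hφ
    exact φ.degree_eq o
  have hdeg : ∀ v, 0 < G.degree v := degree_pos' hG
  have hker : Ker (srw G) := ker_srw G hd hreg
  have hl' : (0 : ℝ) < l := by exact_mod_cast hl
  obtain ⟨m0, c', hm0, hc', hQ⟩ := hPerc V (srw G) hker (finite_srw G) C0 hC0 (l : ℝ) hl'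
  -- a long lifetime
  have hev : ∀ᶠ n : ℕ in Filter.atTop, (2 / 3 : ℝ) ≤ tail m0 (n : ℝ) :=
    (tendsto_tail m0).eventually (Ici_mem_nhds (by norm_num))
  obtain ⟨n, hn1, hn⟩ := (hev.and (Filter.eventually_ge_atTop 1)).exists
  refine ⟨(n : ℝ≥0), by exact_mod_cast hn, ?_⟩
  refine theta_pos_of hG o l (n : ℝ≥0) c' hc' m0 fun B M hoB hM => ?_
  obtain ⟨s, hs⟩ := hQ o (B : Set V) B.finite_toSet (Finset.mem_coe.2 hoB)
  have hcc : 0 ≤ cc m0 := by
    have : (2 : ℝ) ≤ m0 := by exact_mod_cast hm0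
    rw [cc]
    apply div_nonneg zero_le_one
    apply mul_nonneg
    · positivity
    · linarith
  have hcn : 0 ≤ 2 * (l : ℝ) * cc m0 := by positivity
  have h1 := hCopy V G (G.degree o) hd hreg o B s (2 * (l : ℝ) * cc m0) m0 M hcn hM hoB
  refine le_trans ?_ (h1.trans hs)
  refine Q_rate_anti hdeg o (fun m _ => tcp_succ_le hcn m0 m)
    (fun m _ => tl'_anti l.2 (NNReal.coe_nonneg _) M m) (fun m hm => ?_)
    (fun m hm => tcp_eq_zero (by omega)) (fun m hm => if_neg (by omega))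
  by_cases h2 : m0 ≤ m
  · rw [tcp_eq_zero h2, tl']
    split_ifs
    · exact mul_nonneg l.2 (tail_nonneg m (NNReal.coe_nonneg _))
    · exact le_rfl
  · rw [tl', if_pos (by omega)]
    have h3 : tail m0 ((n : ℝ≥0) : ℝ) ≤ tail m ((n : ℝ≥0) : ℝ) :=
      tail_anti (NNReal.coe_nonneg _) (by omega)
    have h4 : (2 / 3 : ℝ) ≤ tail m0 ((n : ℝ≥0) : ℝ) := by
      rw [NNReal.coe_natCast]
      exact hn1
    calc tcp (2 * (l : ℝ) * cc m0) m0 m ≤ 2 * (l : ℝ) / 3 := tcp_le hl'.le hm0 hm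
      _ = (l : ℝ) * (2 / 3) := by ring
      _ ≤ (l : ℝ) * tail m ((n : ℝ≥0) : ℝ) := mul_le_mul_of_nonneg_left (h4.trans h3) hl'.le

theorem tC_ne_top_of (hG : G.Connected) (o : V) (l t : ℝ≥0) (h : theta G o l t ≠ 0) :
    tC G o l ≠ ⊤ := by
  classical
  refine ne_top_of_le_ne_top (ENNReal.coe_ne_top (r := t)) ?_
  rw [tC]
  refine iSup₂_le fun s hs => ?_
  by_contra hcon
  rw [not_le] at hcon
  have h1 : t ≤ s := by exact_mod_cast hcon.le
  refine h (le_antisymm (le_trans ?_ hs.le) zero_le)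
  refine theta_A hG o l l t s h1 (mul_le_mul_of_nonneg_left ?_ l.2)
  have h2 : Real.exp (-(s : ℝ)) ≤ Real.exp (-(t : ℝ)) :=
    Real.exp_le_exp.2 (neg_le_neg (by exact_mod_cast h1))
  linarith

theorem lambdaC_ne_top_of (hG : G.Connected) (o : V) (l t : ℝ≥0) (h : theta G o l t ≠ 0) :
    lambdaC G o t ≠ ⊤ := by
  classical
  refine ne_top_of_le_ne_top (ENNReal.coe_ne_top (r := l)) ?_
  rw [lambdaC]
  refine iSup₂_le fun s hs => ?_
  by_contra hcon
  rw [not_le] at hcon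
  have h1 : l ≤ s := by exact_mod_cast hcon.le
  refine h (le_antisymm (le_trans ?_ hs.le) zero_le)
  refine theta_A hG o l s t t le_rfl (mul_le_mul_of_nonneg_right (by exact_mod_cast h1) ?_)
  have h2 : Real.exp (-(t : ℝ)) ≤ 1 := Real.exp_le_one_iff.2 (by simp)
  linarith

/-- All of Q1 on transitive graphs of at least cubic growth. -/
theorem final (hPerc : SPerc.{u}) (hCopy : SCopy.{u}) (hHeat : SHeat.{u})
    (hG : G.Connected) (htr : ∀ x y : V, ∃ φ : G ≃g G, φ x = y) (o : V) (c : ℝ) (hc : 0 < c)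
    (hgr : ∀ n : ℕ, c * (n : ℝ) ^ 3 ≤ (({x | G.dist o x ≤ n} : Set V).ncard : ℝ)) :
    (∀ t, 0 < t → 0 < lambdaC G o t ∧ lambdaC G o t ≠ ⊤) ∧
    ContinuousOn (lambdaC G o) (Ioi 0) ∧ StrictAntiOn (lambdaC G o) (Ioi 0) ∧
    (∀ l, 0 < l → 0 < tC G o l ∧ tC G o l ≠ ⊤) ∧
    ContinuousOn (tC G o) (Ioi 0) ∧ StrictAntiOn (tC G o) (Ioi 0) := by
  classical
  have hreg : ∀ x, G.degree x ≤ G.degree o := by
    intro x
    obtain ⟨φ, hφ⟩ := htr o x
    subst hφ
    exact (φ.degree_eq o).le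
  have hD0 : 0 < G.degree o := degree_pos' hG o
  obtain ⟨a1, a2, a3, a4, a5, a6, a7⟩ :=
    critical_curves (theta G o) (KB (G.degree o))
      (fun l l' t t' htt h => theta_A hG o l l' t t' htt h)
      (continuousOn_KB hD0)
      (fun l l' t t' hl hll ht' htt h => theta_B hG hreg o l l' t t' hl hll ht' htt h)
      (fun l t h => theta_eq_zero G hG o l t h) (lambdaC G o) (tC G o) (fun _ => rfl) fun _ => rfl
  have htC : ∀ l, 0 < l → tC G o l ≠ ⊤ := by
    intro l hl
    obtain ⟨t, _, ht⟩ := exists_theta_ne_zero hPerc hCopy hHeat hG htr o c hc hgr l hl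
    exact tC_ne_top_of hG o l t ht
  have hlC : ∀ t, 0 < t → lambdaC G o t ≠ ⊤ := by
    intro t ht
    obtain ⟨s, hs1, hs⟩ := exists_theta_ne_zero hPerc hCopy hHeat hG htr o c hc hgr 1 one_pos
    exact a4 s t (zero_lt_one.trans_le hs1) ht (lambdaC_ne_top_of hG o 1 s hs)
  exact ⟨fun t ht => ⟨a1 t ht, hlC t ht⟩, a2, fun s hs t _ hst => a3 s t hs hst (hlC s hs),
    fun l hl => ⟨a5 l hl, htC l hl⟩, a6, fun l hl m _ hlm => a7 l m hl hlm (htC l hl)⟩

end main

end Pool.Agent.Fri.I_FROG
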