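import Pool.Agent.Work.MP_c9ff92_pr.Fri.Stmts
import Pool.Agent.Work.MP_c9ff92_pr.Fri.Basic

/-!
# Item LOWA: the weighted number of the pairs with a representation (MP_c9ff92_pr)
-/

open Finset
open scoped ENNReal NNReal

noncomputable section

namespace Pool.Agent.Fri.I_LOWA

/-- A sum over the image of a set on which the map is injective. -/
theorem tsum_inj {α β : Type*} (g : α → β) (Φ : α → Prop)
    (hinj : ∀ x y, Φ x → Φ y → g x = g y → x = y) (F : β → ℝ≥0∞) :
    ∑' t : β, ind (∃ x, Φ x ∧ g x = t) * F t = ∑' x : α, ind (Φ x) * F (g x) := by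
  have h1 : ∀ t : β, ind (∃ x, Φ x ∧ g x = t) * F t =
      ∑' x : α, ind (Φ x) * (ind (g x = t) * F t) := by
    intro t
    by_cases h : ∃ x, Φ x ∧ g x = t
    · rw [ind_true h, one_mul]
      obtain ⟨x0, hx0, hg0⟩ := h
      rw [tsum_eq_single x0]
      · rw [ind_true hx0, ind_true hg0, one_mul, one_mul]
      · intro x hx
        by_cases h2 : Φ x
        · rw [ind_false (p := g x = t) fun h3 => hx (hinj x x0 h2 hx0 (h3.trans hg0.symm)),
            zero_mul, mul_zero]
        · rw [ind_false h2, zero_mul]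
    · rw [ind_false h, zero_mul]
      symm
      rw [ENNReal.tsum_eq_zero]
      intro x
      by_cases h2 : Φ x
      · rw [ind_false (p := g x = t) fun h3 => h ⟨x, h2, h3⟩, zero_mul, mul_zero]
      · rw [ind_false h2, zero_mul]
  simp only [h1]
  rw [ENNReal.tsum_comm]
  refine tsum_congr fun x => ?_
  rw [ENNReal.tsum_mul_left]
  congr 1
  exact tsum_ind_eq (g x) F

theorem prf.{u} : SLowA.{u} := by
  intro V P hP R B m q i j
  have hrep : ∀ p : List V × List V, ind (rep R B m q i j p.1 p.2) =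
      ind (∃ x : List V × V × List V × List V × List V,
        ((mark R B x.1 x.2.1 x.2.2.1 ∧ x.1.length + x.2.2.1.length + 1 ≤ m ∧
          q x.1 x.2.1 x.2.2.1) ∧ (x.2.2.2.1.length = i ∧ ¬ tch B x.2.2.2.1) ∧
          (x.2.2.2.2.length = j ∧ ¬ tch R x.2.2.2.2)) ∧
        (x.1 ++ x.2.1 :: x.2.2.2.1, x.2.2.2.2 ++ x.2.1 :: x.2.2.1) = p) := by
    rintro ⟨T, T'⟩
    apply ind_congr
    constructor
    · rintro ⟨a, y, A, c, b, rfl, rfl, h1, h2, h3, h4, h5, h6, h7⟩
      exact ⟨(a, y, b, A, c), ⟨⟨h3, h6, h7⟩, ⟨h1, h4⟩, ⟨h2, h5⟩⟩, rfl⟩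
    · rintro ⟨⟨a, y, b, A, c⟩, ⟨⟨h3, h6, h7⟩, ⟨h1, h4⟩, ⟨h2, h5⟩⟩, h⟩
      simp only [Prod.mk.injEq] at h
      exact ⟨a, y, A, c, b, h.1.symm, h.2.symm, h1, h2, h3, h4, h5, h6, h7⟩
  calc ∑' T : List V, ∑' T' : List V, ind (rep R B m q i j T T') * wt P T * wt P T'
      = ∑' p : List V × List V, ind (rep R B m q i j p.1 p.2) * (wt P p.1 * wt P p.2) := by
        rw [ENNReal.tsum_prod']
        simp only [mul_assoc]
    _ = ∑' x : List V × V × List V × List V × List V,
          ind ((mark R B x.1 x.2.1 x.2.2.1 ∧ x.1.length + x.2.2.1.length + 1 ≤ m ∧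
            q x.1 x.2.1 x.2.2.1) ∧ (x.2.2.2.1.length = i ∧ ¬ tch B x.2.2.2.1) ∧
            (x.2.2.2.2.length = j ∧ ¬ tch R x.2.2.2.2)) *
          (wt P (x.1 ++ x.2.1 :: x.2.2.2.1) * wt P (x.2.2.2.2 ++ x.2.1 :: x.2.2.1)) := by
        simp only [hrep]
        refine tsum_inj (fun x : List V × V × List V × List V × List V =>
          (x.1 ++ x.2.1 :: x.2.2.2.1, x.2.2.2.2 ++ x.2.1 :: x.2.2.1)) _ ?_
          (fun p => wt P p.1 * wt P p.2)
        rintro ⟨a, y, b, A, c⟩ ⟨a', y', b', A', c'⟩ ⟨-, ⟨h1, -⟩, ⟨h2, -⟩⟩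
          ⟨-, ⟨h1', -⟩, ⟨h2', -⟩⟩ h
        simp only [Prod.mk.injEq] at h h1 h2 h1' h2'
        obtain ⟨h3, h4⟩ := h
        have h5 := (List.append_inj' h3 (by simp [h1, h1']))
        have h6 := (List.append_inj h4 (by rw [h2, h2']))
        obtain ⟨ha, hA⟩ := h5
        obtain ⟨hc, hb⟩ := h6
        simp only [List.cons.injEq] at hA hb
        obtain ⟨hy, hA⟩ := hA
        obtain ⟨-, hb⟩ := hb
        subst ha hy hA hc hb
        rfl
    _ = ∑' a : List V, ∑' y : V, ∑' b : List V,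
      ind (mark R B a y b ∧ a.length + b.length + 1 ≤ m ∧ q a y b) * wt P (a ++ y :: b) *
        (sv P B i y * sv P R j y) := by
        rw [ENNReal.tsum_prod']
        refine tsum_congr fun a => ?_
        rw [ENNReal.tsum_prod']
        refine tsum_congr fun y => ?_
        rw [ENNReal.tsum_prod']
        refine tsum_congr fun b => ?_
        rw [ENNReal.tsum_prod', ← sum_sv, ← sum_sv' hP, ← ENNReal.tsum_mul_right,
          ← ENNReal.tsum_mul_left]
        refine tsum_congr fun A => ?_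
        rw [← ENNReal.tsum_mul_left, ← ENNReal.tsum_mul_left]
        refine tsum_congr fun c => ?_
        dsimp only
        rw [ind_and, ind_and (A.length = i ∧ ¬ tch B A), wt_append a y A, wt_append c y b,
          wt_append a y b]
        ring

end Pool.Agent.Fri.I_LOWA
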