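import Pool.Agent.Work.MP_c9ff92_pr.Fri.Stmts
import Pool.Agent.Work.MP_c9ff92_pr.Fri.Basic

/-!
# Item LOWO (MP_c9ff92_pr): two representations, the other crossing point on both fresh pieces
-/

open Finset
open scoped ENNReal NNReal

noncomputable section

namespace Pool.Agent.Fri.I_LOWO

open Pool.Agent.Fri

variable {V : Type*} {P : V → V → ℝ≥0∞}

/-- Summing over the images of a parametrisation. -/
theorem tsum_ex_le {X T : Type*} (Φ : X → T) (p : X → Prop) (g : T → ℝ≥0∞) :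
    ∑' t, ind (∃ x, Φ x = t ∧ p x) * g t ≤ ∑' x, ind (p x) * g (Φ x) := by
  have h1 : ∀ t, ind (∃ x, Φ x = t ∧ p x) * g t ≤ ∑' x, ind (Φ x = t) * (ind (p x) * g t) := by
    intro t
    by_cases h : ∃ x, Φ x = t ∧ p x
    · obtain ⟨x, hx, hp⟩ := h
      refine le_trans ?_ (ENNReal.le_tsum x)
      rw [ind_true hx, ind_true hp, one_mul, one_mul]
      calc ind (∃ x, Φ x = t ∧ p x) * g t ≤ 1 * g t := by
            gcongr
            exact ind_le_one _
        _ = g t := one_mul _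
    · rw [ind_false h, zero_mul]
      exact zero_le
  refine (ENNReal.tsum_le_tsum h1).trans ?_
  rw [ENNReal.tsum_comm]
  refine ENNReal.tsum_le_tsum fun x => ?_
  rw [tsum_ind_eq (Φ x) fun t => ind (p x) * g t]

/-- The two fresh pieces meet at the given times. -/
theorem pieces (hP : Ker P) (i1 j1 i2 j2 : ℕ) (y : V) :
    ∑' p : List V × List V, ind (p.1.length = i1 ∧ p.2.length = j1 ∧
        ∃ z, (y :: p.1)[i1 - i2]? = some z ∧ (y :: p.2.reverse)[j1 - j2]? = some z) *
          (wt P (y :: p.1) * wt P (p.2 ++ [y])) ≤ pk P ((i1 - i2) + (j1 - j2)) y y := by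
  have h0 : ∀ A c : List V, ind (A.length = i1 ∧ c.length = j1 ∧
        ∃ z, (y :: A)[i1 - i2]? = some z ∧ (y :: c.reverse)[j1 - j2]? = some z) *
          (wt P (y :: A) * wt P (c ++ [y])) ≤
      ∑' z, (ind (A.length = i1 ∧ (y :: A)[i1 - i2]? = some z) * wt P (y :: A)) *
        (ind (c.length = j1 ∧ (y :: c.reverse)[j1 - j2]? = some z) * wt P (c ++ [y])) := by
    intro A c
    by_cases h : A.length = i1 ∧ c.length = j1 ∧
        ∃ z, (y :: A)[i1 - i2]? = some z ∧ (y :: c.reverse)[j1 - j2]? = some z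
    · obtain ⟨hA, hc, z, h1, h2⟩ := h
      refine le_trans ?_ (ENNReal.le_tsum z)
      rw [ind_true (p := A.length = i1 ∧ (y :: A)[i1 - i2]? = some z) ⟨hA, h1⟩,
        ind_true (p := c.length = j1 ∧ (y :: c.reverse)[j1 - j2]? = some z) ⟨hc, h2⟩, one_mul,
        one_mul]
      refine le_trans (mul_le_mul_left (ind_le_one _) _) ?_
      rw [one_mul]
    · rw [ind_false h, zero_mul]
      exact zero_le
  rw [ENNReal.tsum_prod']
  refine (ENNReal.tsum_le_tsum fun A => ENNReal.tsum_le_tsum fun c => h0 A c).trans ?_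
  have h2 : ∀ A : List V, (∑' c : List V, ∑' z,
      (ind (A.length = i1 ∧ (y :: A)[i1 - i2]? = some z) * wt P (y :: A)) *
        (ind (c.length = j1 ∧ (y :: c.reverse)[j1 - j2]? = some z) * wt P (c ++ [y]))) =
      ∑' z, (ind (A.length = i1 ∧ (y :: A)[i1 - i2]? = some z) * wt P (y :: A)) *
        pk P (j1 - j2) y z := by
    intro A
    rw [ENNReal.tsum_comm]
    refine tsum_congr fun z => ?_
    rw [ENNReal.tsum_mul_left, sum_pos' hP j1 (j1 - j2) (Nat.sub_le _ _) y z]
  simp only [h2]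
  rw [ENNReal.tsum_comm, ← pk_add (i1 - i2) (j1 - j2) y y]
  refine ENNReal.tsum_le_tsum fun z => ?_
  rw [ENNReal.tsum_mul_right, sum_pos hP i1 (i1 - i2) (Nat.sub_le _ _) y z, pk_symm hP (j1 - j2) y z]

/-- The second crossing point in the fresh pieces. -/
theorem meet {a A a2 A2 c b c2 b2 : List V} {y y2 : V} {i1 i2 j1 j2 : ℕ}
    (hT : a ++ y :: A = a2 ++ y2 :: A2) (hT' : c ++ y :: b = c2 ++ y2 :: b2)
    (hA : A.length = i1) (hA2 : A2.length = i2) (hc : c.length = j1) (hc2 : c2.length = j2)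
    (hi : i2 ≤ i1) (hj : j2 ≤ j1) :
    (y :: A)[i1 - i2]? = some y2 ∧ (y :: c.reverse)[j1 - j2]? = some y2 := by
  constructor
  · have h1 := congrArg List.length hT
    simp only [List.length_append, List.length_cons] at h1
    have h2 : a2.length = a.length + (i1 - i2) := by omega
    have h3 : (a2 ++ y2 :: A2)[a2.length]? = some y2 := by
      rw [List.getElem?_append_right le_rfl]
      simp
    rw [← hT, h2, List.getElem?_append_right (Nat.le_add_right _ _), Nat.add_sub_cancel_left] at h3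
    exact h3
  · have h3 : (c2 ++ y2 :: b2)[c2.length]? = some y2 := by
      rw [List.getElem?_append_right le_rfl]
      simp
    rw [← hT', hc2] at h3
    have h4 : (c ++ [y]).reverse = y :: c.reverse := by simp
    have h5 : c ++ y :: b = (c ++ [y]) ++ b := by simp
    have h6 : (c ++ [y]).length = j1 + 1 := by simp [hc]
    rw [h5, List.getElem?_append_left (by omega)] at h3
    rw [← h4, List.getElem?_reverse (by omega), h6]
    have h7 : j1 + 1 - 1 - (j1 - j2) = j2 := by omega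
    rw [h7]
    exact h3

theorem prf.{u} : SLowO.{u} := by
  intro V P hP R B m q i1 j1 i2 j2 π hi hj hπ
  -- the parametrisation of the first representation
  have h1 : ∀ t : List V × List V,
      ind (rep R B m q i1 j1 t.1 t.2 ∧ rep R B m q i2 j2 t.1 t.2) * wt P t.1 * wt P t.2 ≤
      ind (∃ x : (List V × V × List V) × (List V × List V),
          (x.1.1 ++ x.1.2.1 :: x.2.1, x.2.2 ++ x.1.2.1 :: x.1.2.2) = t ∧
          ((mark R B x.1.1 x.1.2.1 x.1.2.2 ∧ x.1.1.length + x.1.2.2.length + 1 ≤ m ∧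
            q x.1.1 x.1.2.1 x.1.2.2) ∧ (x.2.1.length = i1 ∧ x.2.2.length = j1 ∧
            ∃ z, (x.1.2.1 :: x.2.1)[i1 - i2]? = some z ∧
              (x.1.2.1 :: x.2.2.reverse)[j1 - j2]? = some z))) * (wt P t.1 * wt P t.2) := by
    rintro ⟨T, T'⟩
    rw [mul_assoc]
    refine mul_le_mul_left (ind_mono ?_) _
    rintro ⟨⟨a, y, A, c, b, hT, hT', hA, hc, hm, -, -, hl, hq⟩,
      ⟨a2, y2, A2, c2, b2, hT2, hT2', hA2, hc2, -, -, -, -, -⟩⟩
    refine ⟨((a, y, b), (A, c)), ?_, ⟨hm, hl, hq⟩, hA, hc, y2, ?_⟩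
    · simp only [Prod.mk.injEq]
      exact ⟨hT.symm, hT'.symm⟩
    · exact meet (hT.symm.trans hT2) (hT'.symm.trans hT2') hA hA2 hc hc2 hi hj
  have h2 : (∑' T : List V, ∑' T' : List V,
      ind (rep R B m q i1 j1 T T' ∧ rep R B m q i2 j2 T T') * wt P T * wt P T') =
      ∑' t : List V × List V,
        ind (rep R B m q i1 j1 t.1 t.2 ∧ rep R B m q i2 j2 t.1 t.2) * wt P t.1 * wt P t.2 := by
    rw [ENNReal.tsum_prod']
  rw [h2]
  refine (ENNReal.tsum_le_tsum h1).trans ?_
  refine (tsum_ex_le (fun x : (List V × V × List V) × (List V × List V) =>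
      (x.1.1 ++ x.1.2.1 :: x.2.1, x.2.2 ++ x.1.2.1 :: x.1.2.2))
    (fun x => (mark R B x.1.1 x.1.2.1 x.1.2.2 ∧ x.1.1.length + x.1.2.2.length + 1 ≤ m ∧
            q x.1.1 x.1.2.1 x.1.2.2) ∧ (x.2.1.length = i1 ∧ x.2.2.length = j1 ∧
            ∃ z, (x.1.2.1 :: x.2.1)[i1 - i2]? = some z ∧
              (x.1.2.1 :: x.2.2.reverse)[j1 - j2]? = some z))
    (fun t => wt P t.1 * wt P t.2)).trans ?_
  rw [ENNReal.tsum_prod']
  have h3 : JJ P R B m q = ∑' u : List V × V × List V,
      ind (mark R B u.1 u.2.1 u.2.2 ∧ u.1.length + u.2.2.length + 1 ≤ m ∧ q u.1 u.2.1 u.2.2) *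
        wt P (u.1 ++ u.2.1 :: u.2.2) := by
    unfold JJ
    rw [ENNReal.tsum_prod']
    refine tsum_congr fun a => ?_
    rw [ENNReal.tsum_prod']
  rw [h3, ← ENNReal.tsum_mul_left]
  refine ENNReal.tsum_le_tsum ?_
  rintro ⟨a, y, b⟩
  simp only
  have h4 : ∀ p : List V × List V,
      ind ((mark R B a y b ∧ a.length + b.length + 1 ≤ m ∧ q a y b) ∧
        (p.1.length = i1 ∧ p.2.length = j1 ∧
          ∃ z, (y :: p.1)[i1 - i2]? = some z ∧ (y :: p.2.reverse)[j1 - j2]? = some z)) *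
        (wt P (a ++ y :: p.1) * wt P (p.2 ++ y :: b)) =
      (ind (mark R B a y b ∧ a.length + b.length + 1 ≤ m ∧ q a y b) * wt P (a ++ y :: b)) *
        (ind (p.1.length = i1 ∧ p.2.length = j1 ∧
          ∃ z, (y :: p.1)[i1 - i2]? = some z ∧ (y :: p.2.reverse)[j1 - j2]? = some z) *
          (wt P (y :: p.1) * wt P (p.2 ++ [y]))) := by
    intro p
    rw [ind_and, wt_append a y p.1, wt_append p.2 y b, wt_append a y b]
    ring
  simp only [h4]
  rw [ENNReal.tsum_mul_left, mul_comm π]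
  refine mul_le_mul_right ?_ _
  exact (pieces hP i1 j1 i2 j2 y).trans (hπ y)

end Pool.Agent.Fri.I_LOWO
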