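import Pool.Agent.Work.MP_c9ff92_pr.Fri.Stmts
import Pool.Agent.Work.MP_c9ff92_pr.Fri.Basic

/-!
# Item LOWS of the block Fri (helper22)
-/

open Finset
open scoped ENNReal NNReal

noncomputable section

namespace Pool.Agent.Fri.I_LOWS

universe u

theorem tsum_le_of_cover {X Y : Type*} (f : X → ℝ≥0∞) (h : Y → ℝ≥0∞) (φ : Y → X)
    (H : ∀ x, f x ≠ 0 → ∃ t, φ t = x ∧ f x ≤ h t) : ∑' x, f x ≤ ∑' t, h t := by
  rw [← (Equiv.sigmaFiberEquiv φ).tsum_eq h, ENNReal.tsum_sigma']
  refine ENNReal.tsum_le_tsum fun x => ?_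
  by_cases hx : f x = 0
  · rw [hx]; exact zero_le
  · obtain ⟨t, ht, hle⟩ := H x hx
    refine hle.trans ?_
    have := ENNReal.le_tsum (f := fun s : {t // φ t = x} => h ((Equiv.sigmaFiberEquiv φ) ⟨x, s⟩))
      ⟨t, ht⟩
    exact this

theorem getElem?_reverse_aux {V : Type*} (c : List V) (y : V) (j : ℕ) (hj : j ≤ c.length) :
    (y :: c.reverse)[c.length - j]? = (c ++ [y])[j]? := by
  have h1 : y :: c.reverse = (c ++ [y]).reverse := by simp
  rw [h1, List.getElem?_reverse (by simp)]
  congr 1
  simp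
  omega

theorem prf : SLowS.{u} := by
  intro V P hP R B m q i1 j1 i2 j2 π hi hj hπ
  -- the set of tuples
  set h : (List V × V × List V) × (List V × List V) → ℝ≥0∞ := fun t =>
    ind (mark R B t.1.1 t.1.2.1 t.1.2.2 ∧ t.1.1.length + t.1.2.2.length + 1 ≤ m ∧
      q t.1.1 t.1.2.1 t.1.2.2) * wt P (t.1.1 ++ t.1.2.1 :: t.1.2.2) *
      ((ind (t.2.1.length = i2) * wt P (t.1.2.1 :: t.2.1)) *
        (ind (t.2.2.length = j2 ∧ ∃ z, (t.1.1 ++ [t.1.2.1])[t.1.1.length + i2 - i1]? = some z ∧
          (t.1.2.1 :: t.2.2.reverse)[j2 - j1]? = some z) * wt P (t.2.2 ++ [t.1.2.1]))) with hh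
  have step1 : ∑' T : List V, ∑' T' : List V,
      ind (rep R B m q i1 j1 T T' ∧ rep R B m q i2 j2 T T') * wt P T * wt P T' ≤ ∑' t, h t := by
    rw [← ENNReal.tsum_prod (f := fun T T' =>
      ind (rep R B m q i1 j1 T T' ∧ rep R B m q i2 j2 T T') * wt P T * wt P T')]
    refine tsum_le_of_cover _ h
      (fun t => (t.1.1 ++ t.1.2.1 :: t.2.1, t.2.2 ++ t.1.2.1 :: t.1.2.2)) ?_
    rintro ⟨T, T'⟩ hne
    have hrep : rep R B m q i1 j1 T T' ∧ rep R B m q i2 j2 T T' := by
      by_contra hcon
      apply hne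
      simp only [ind_false hcon, zero_mul]
    obtain ⟨⟨a1, y1, A1, c1, b1, hT1, hT1', hA1, hc1, -⟩,
      ⟨a, y, A, c, b, hT, hT', hA, hc, hmark, -, -, hlen, hq⟩⟩ := hrep
    refine ⟨((a, y, b), (A, c)), ?_, ?_⟩
    · simp only [hT, hT']
    · have hl1 : a.length + i2 = a1.length + i1 := by
        have e := congrArg List.length (hT.symm.trans hT1)
        simp only [List.length_append, List.length_cons] at e
        omega
      have hz1 : (a ++ [y])[a.length + i2 - i1]? = some y1 := by
        have hidx : a.length + i2 - i1 = a1.length := by omega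
        have h1 : T[a1.length]? = some y1 := by rw [hT1]; simp
        rw [hidx]
        have h2 : T[a1.length]? = (a ++ [y])[a1.length]? := by
          have hT2 : T = (a ++ [y]) ++ A := by rw [hT]; simp
          rw [hT2, List.getElem?_append_left (by simp; omega)]
        rw [← h2, h1]
      have hz2 : (y :: c.reverse)[j2 - j1]? = some y1 := by
        have h0 := getElem?_reverse_aux c y j1 (by omega)
        rw [hc] at h0
        rw [h0]
        have h1 : T'[j1]? = some y1 := by rw [hT1', ← hc1]; simp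
        have hT2 : T' = (c ++ [y]) ++ b := by rw [hT']; simp
        rw [hT2, List.getElem?_append_left (by simp; omega)] at h1
        exact h1
      simp only [hh]
      rw [ind_true (p := mark R B a y b ∧ a.length + b.length + 1 ≤ m ∧ q a y b)
        ⟨hmark, hlen, hq⟩, ind_true hA, ind_true (p := c.length = j2 ∧ _) ⟨hc, y1, hz1, hz2⟩,
        hT, hT', wt_append a y A, wt_append c y b, wt_append a y b]
      calc ind _ * (wt P (a ++ [y]) * wt P (y :: A)) * (wt P (c ++ [y]) * wt P (y :: b))
          ≤ 1 * (wt P (a ++ [y]) * wt P (y :: A)) * (wt P (c ++ [y]) * wt P (y :: b)) := by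
            gcongr
            exact ind_le_one _
        _ = _ := by ring
  refine step1.trans ?_
  rw [ENNReal.tsum_prod']
  have step2 : ∀ s : List V × V × List V, ∑' p : List V × List V, h (s, p) ≤
      π * (ind (mark R B s.1 s.2.1 s.2.2 ∧ s.1.length + s.2.2.length + 1 ≤ m ∧
        q s.1 s.2.1 s.2.2) * wt P (s.1 ++ s.2.1 :: s.2.2)) := by
    rintro ⟨a, y, b⟩
    simp only [hh]
    rw [ENNReal.tsum_mul_left, mul_comm π]
    refine mul_le_mul' le_rfl ?_
    rw [ENNReal.tsum_prod']
    simp only [ENNReal.tsum_mul_left]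
    rw [ENNReal.tsum_mul_right, sum_len hP, one_mul]
    rcases hz : (a ++ [y])[a.length + i2 - i1]? with _ | z
    · have : ∀ c : List V, ind (c.length = j2 ∧ ∃ z, (none : Option V) = some z ∧
          (y :: c.reverse)[j2 - j1]? = some z) = 0 := by
        intro c
        exact ind_false (by rintro ⟨_, z, hz, _⟩; cases hz)
      simp only [this, zero_mul, tsum_zero]
      exact zero_le
    · have : ∀ c : List V, ind (c.length = j2 ∧ ∃ z', (some z : Option V) = some z' ∧
          (y :: c.reverse)[j2 - j1]? = some z') =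
          ind (c.length = j2 ∧ (y :: c.reverse)[j2 - j1]? = some z) := by
        intro c
        apply ind_congr
        constructor
        · rintro ⟨h1, z', h2, h3⟩
          cases h2
          exact ⟨h1, h3⟩
        · rintro ⟨h1, h2⟩
          exact ⟨h1, z, rfl, h2⟩
      simp only [this]
      rw [sum_pos' hP j2 (j2 - j1) (Nat.sub_le _ _) y z]
      exact hπ y z
  refine (ENNReal.tsum_le_tsum step2).trans ?_
  rw [ENNReal.tsum_mul_left]
  refine mul_le_mul' le_rfl ?_
  unfold JJ
  rw [ENNReal.tsum_prod']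
  refine ENNReal.tsum_le_tsum fun a => ?_
  rw [ENNReal.tsum_prod']

end Pool.Agent.Fri.I_LOWS
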