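import Pool.Agent.Work.MP_c9ff92_pr.Fri.Stmts
import Pool.Agent.Work.MP_c9ff92_pr.Fri.Basic
import Pool.Agent.Work.MP_c9ff92_pr.Assembly

/-!
# From the finite models to the critical curves (MP_c9ff92_pr, item MAIN)
-/

open MeasureTheory ProbabilityTheory Set Filter
open scoped ENNReal NNReal Topology

noncomputable section

namespace Pool.Agent.Fri.I_MAIN

open Pool.Agent.Frog Pool.Agent.Fri

universe u

/-- For a large time the particle makes many jumps with probability at least one half. -/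
theorem exists_tail (k : ℕ) : ∃ t : ℝ≥0, 1 / 2 ≤ tail k t := by
  have h : Tendsto (fun t : ℝ => tail k t) atTop (𝓝 (1 - ∑ j ∈ Finset.range k,
      (0 : ℝ) / (j.factorial : ℝ))) := by
    unfold tail
    refine tendsto_const_nhds.sub ?_
    simp only [Finset.mul_sum]
    refine tendsto_finsetSum _ fun j _ => ?_
    have h1 := (Real.tendsto_pow_mul_exp_neg_atTop_nhds_zero j).div_const (j.factorial : ℝ)
    refine h1.congr fun t => ?_
    ring
  simp only [zero_div, Finset.sum_const_zero, sub_zero] at h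
  obtain ⟨t, ht, ht0⟩ := ((h.eventually_const_le (by norm_num : (1 / 2 : ℝ) < 1)).and
    (eventually_ge_atTop 0)).exists
  exact ⟨⟨t, ht0⟩, ht⟩

section graph

variable {V : Type u} {G : SimpleGraph V} [G.LocallyFinite]

theorem regular_of_transitive (hT : ∀ x y : V, ∃ φ : G ≃g G, φ x = y) (o : V) :
    G.IsRegularOfDegree (G.degree o) := by
  intro v
  obtain ⟨φ, rfl⟩ := hT o v
  exact φ.degree_eq o

theorem ker_srw {d : ℕ} (hd0 : 0 < d) (hd : G.IsRegularOfDegree d) : Ker (srw G) where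
  symm x y := by
    unfold srw
    rw [hd.degree_eq, hd.degree_eq, G.adj_comm]
  sum x := by
    unfold srw
    rw [ENNReal.tsum_mul_right, hd.degree_eq]
    have h : ∑' y, ind (G.Adj x y) = ∑ y ∈ G.neighborFinset x, ind (G.Adj x y) := by
      refine tsum_eq_sum fun y hy => ?_
      rw [SimpleGraph.mem_neighborFinset] at hy
      exact ind_false hy
    rw [h, Finset.sum_congr rfl (fun y hy => ind_true ((G.mem_neighborFinset x y).1 hy)),
      Finset.sum_const, SimpleGraph.card_neighborFinset_eq_degree, hd.degree_eq, nsmul_one]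
    exact ENNReal.mul_inv_cancel (by exact_mod_cast hd0.ne') (ENNReal.natCast_ne_top d)

theorem finite_srw (x : V) : {y | srw G x y ≠ 0}.Finite := by
  refine (G.neighborFinset x).finite_toSet.subset fun y hy => ?_
  rw [Finset.mem_coe, SimpleGraph.mem_neighborFinset]
  by_contra h
  exact hy (by rw [srw, ind_false h, zero_mul])

end graph

/-- The tails of the copies are at most the tails of the frogs. -/
theorem tcp_le {l t u : ℝ} (hl : 0 < l) (ht : 0 ≤ t) (hu : 8 * u = l) {m0 : ℕ} (hm0 : 2 ≤ m0)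
    (htail : 1 / 2 ≤ tail m0 t) (j : ℕ) : tcp (2 * u * cc m0) m0 j ≤ l * tail j t := by
  have hm : (2 : ℝ) ≤ m0 := by exact_mod_cast hm0
  rcases le_or_gt m0 j with h | h
  · rw [tcp, Nat.sub_eq_zero_of_le h]
    simp only [Nat.cast_zero, mul_zero, zero_mul, zero_div]
    exact mul_nonneg hl.le (tail_nonneg j ht)
  · have h1 : 1 / 2 ≤ tail j t := htail.trans (tail_anti ht h.le)
    have h2 : ((m0 - j : ℕ) : ℝ) ≤ m0 := by exact_mod_cast Nat.sub_le _ _
    have h0 : (0 : ℝ) ≤ ((m0 - j : ℕ) : ℝ) := Nat.cast_nonneg _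
    have h3 : ((m0 - j : ℕ) : ℝ) * (((m0 - j : ℕ) : ℝ) + 1) * (((m0 - j : ℕ) : ℝ) + 2) ≤
        m0 * (m0 + 1) * (m0 + 2) := by gcongr
    have hu0 : 0 < u := by linarith
    have hcc : 0 < cc m0 := by
      unfold cc
      have : (0 : ℝ) < (m0 : ℝ) - 1 := by linarith
      positivity
    have h4 : tcp (2 * u * cc m0) m0 j ≤ 2 * u * cc m0 * (m0 * (m0 + 1) * (m0 + 2)) / 3 := by
      unfold tcp
      have h5 : 2 * u * cc m0 * (((m0 - j : ℕ) : ℝ) * (((m0 - j : ℕ) : ℝ) + 1) *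
          (((m0 - j : ℕ) : ℝ) + 2)) ≤ 2 * u * cc m0 * (m0 * (m0 + 1) * (m0 + 2)) :=
        mul_le_mul_of_nonneg_left h3 (by positivity)
      linarith
    have h5 : cc m0 * (m0 * (m0 + 1) * (m0 + 2)) = (m0 + 2) / (m0 - 1) := by
      unfold cc
      have : (m0 : ℝ) - 1 ≠ 0 := by linarith
      field_simp
    have h6 : ((m0 : ℝ) + 2) / (m0 - 1) ≤ 4 := by
      rw [div_le_iff₀ (by linarith)]
      linarith
    have h7 : tcp (2 * u * cc m0) m0 j ≤ 2 * u * 4 / 3 := by
      refine h4.trans ?_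
      rw [mul_assoc (2 * u), h5]
      have := mul_le_mul_of_nonneg_left h6 (by positivity : (0 : ℝ) ≤ 2 * u)
      linarith
    nlinarith

theorem tcp_anti {c : ℝ} (hc : 0 ≤ c) (m j : ℕ) : tcp c m (j + 1) ≤ tcp c m j := by
  unfold tcp
  have h : ((m - (j + 1) : ℕ) : ℝ) ≤ ((m - j : ℕ) : ℝ) := by
    exact_mod_cast Nat.sub_le_sub_left (Nat.le_succ j) m
  have h0 : (0 : ℝ) ≤ ((m - (j + 1) : ℕ) : ℝ) := Nat.cast_nonneg _
  gcongr

section main

variable {V : Type u} [Countable V] [Infinite V] [DecidableEq V] [MeasurableSpace V]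
  [DiscreteMeasurableSpace V] {G : SimpleGraph V} [G.LocallyFinite]

/-- A uniform bound for the events of leaving finite sets. -/
theorem le_theta (hG : G.Connected) (o : V) (l t : ℝ≥0) {c : ℝ} (m0 : ℕ)
    (h : ∀ (B : Finset V) (M : ℕ), m0 ≤ M → o ∈ B →
      Q (rate G (tl' l t M)) (idx G B M) (Out B o) ≤ 1 - c) :
    ENNReal.ofReal c ≤ theta G o l t := by
  have := br_prob_site (neighborSet_nonempty hG) l
  have : IsProbabilityMeasure (law G l) := by
    unfold law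
    infer_instance
  have hmono : ∀ (B : Finset V) (s : ℝ), Monotone fun M : ℕ => outM B o s (M + 2) := by
    rintro B s M M' hM ω ⟨y, hy, hr⟩
    refine ⟨y, hy, Relation.ReflTransGen.mono ?_ _ _ hr⟩
    rintro a b (hb | ⟨i, hi, k, hk, h2⟩)
    · exact Or.inl hb
    · exact Or.inr ⟨i, hi, k, hk.trans (by simpa using hM), h2⟩
  have ho : ∀ n, o ∈ ballF G o n := by
    intro n
    rw [mem_ballF hG, SimpleGraph.dist_self]
    exact Nat.zero_le _
  have hn : ∀ n : ℕ, ENNReal.ofReal c ≤ law G l (⋃ M : ℕ, outM (ballF G o n) o t (M + 2)) := by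
    intro n
    refine le_trans ?_ (measure_mono (subset_iUnion _ m0))
    rw [law_outM hG]
    apply ENNReal.ofReal_le_ofReal
    linarith [h (ballF G o n) (m0 + 2) (by omega) (ho n)]
  have hanti : Antitone fun n : ℕ => ⋃ M : ℕ, outM (ballF G o n) o t (M + 2) := by
    apply antitone_nat_of_succ_le
    intro n
    refine iUnion_mono fun M => ?_
    rintro ω ⟨y, hy, hr⟩
    refine ⟨y, fun h => hy ?_, hr⟩
    rw [ballF, Finset.mem_union]
    exact Or.inl h
  have h1 : theta G o l t = ⨅ n : ℕ, law G l (⋃ M : ℕ, outM (ballF G o n) o t (M + 2)) := by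
    rw [theta, percolates_eq hG]
    apply hanti.measure_iInter
    · intro n
      exact NullMeasurableSet.iUnion fun M => nullMeasurable_outM hG o l t _ _
    · exact ⟨0, measure_ne_top _ _⟩
  rw [h1]
  exact le_iInf hn

/-- For every density there is a lifetime with percolation. -/
theorem exists_time (hPerc : SPerc.{u}) (hCopy : SCopy.{u}) (hHeat : SHeat.{u})
    (hG : G.Connected) (hT : ∀ x y : V, ∃ φ : G ≃g G, φ x = y) (o : V) {c : ℝ} (hc : 0 < c)
    (hg : ∀ n : ℕ, c * (n : ℝ) ^ 3 ≤ (({x | G.dist o x ≤ n} : Set V).ncard : ℝ))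
    (l : ℝ≥0) (hl : 0 < l) : ∃ t : ℝ≥0, 0 < theta G o l t := by
  have hd0 : 0 < G.degree o := degree_pos' hG o
  have hreg := regular_of_transitive hT o
  obtain ⟨C0, hHK⟩ := hHeat V G hG hT o c hc hg
  have hl0 : (0 : ℝ) < l := by exact_mod_cast hl
  obtain ⟨m0, c1, hm0, hc1, hP⟩ := hPerc V (srw G) (ker_srw hd0 hreg) finite_srw C0 hHK
    ((l : ℝ) / 8) (by positivity)
  obtain ⟨t, ht⟩ := exists_tail m0
  refine ⟨t, lt_of_lt_of_le (ENNReal.ofReal_pos.2 hc1) (le_theta hG o l t m0 ?_)⟩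
  intro B M hM ho
  obtain ⟨s, hs⟩ := hP o (B : Set V) B.finite_toSet (by exact_mod_cast ho)
  have hcc : 0 ≤ cc m0 := by
    unfold cc
    have : (2 : ℝ) ≤ m0 := by exact_mod_cast hm0
    have : (0 : ℝ) < (m0 : ℝ) - 1 := by linarith
    positivity
  have hcnn : 0 ≤ 2 * ((l : ℝ) / 8) * cc m0 := by positivity
  have h1 := hCopy V G (G.degree o) hd0 hreg o B s (2 * ((l : ℝ) / 8) * cc m0) m0 M hcnn hM ho
  refine le_trans ?_ (h1.trans hs)
  refine Q_rate_anti (fun v => by rw [hreg.degree_eq]; exact hd0) o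
    (fun m _ => tcp_anti hcnn m0 m) (fun m _ => tl'_anti l.2 t.2 M m) (fun m _ => ?_)
    (fun m hm => ?_) (fun m hm => ?_)
  · unfold tl'
    by_cases h2 : m ≤ M
    · rw [if_pos h2]
      exact tcp_le hl0 t.2 (by ring) hm0 ht m
    · rw [if_neg h2, tcp, Nat.sub_eq_zero_of_le (by omega)]
      simp
  · rw [tcp, Nat.sub_eq_zero_of_le (by omega)]
    simp
  · exact if_neg (by omega)

theorem tC_ne_top (hPerc : SPerc.{u}) (hCopy : SCopy.{u}) (hHeat : SHeat.{u})
    (hG : G.Connected) (hT : ∀ x y : V, ∃ φ : G ≃g G, φ x = y) (o : V) {c : ℝ} (hc : 0 < c)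
    (hg : ∀ n : ℕ, c * (n : ℝ) ^ 3 ≤ (({x | G.dist o x ≤ n} : Set V).ncard : ℝ))
    (l : ℝ≥0) (hl : 0 < l) : tC G o l ≠ ⊤ := by
  obtain ⟨t0, ht0⟩ := exists_time hPerc hCopy hHeat hG hT o hc hg l hl
  refine ne_top_of_le_ne_top (ENNReal.coe_ne_top (r := t0)) ?_
  refine iSup₂_le fun t ht => ?_
  by_contra hlt
  push Not at hlt
  have hlt' : t0 ≤ t := by exact_mod_cast hlt.le
  have h1 : theta G o l t0 ≤ theta G o l t := by
    refine theta_A hG o l l t0 t hlt' ?_
    have h2 : Real.exp (-(t : ℝ)) ≤ Real.exp (-(t0 : ℝ)) := by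
      apply Real.exp_le_exp.2
      have : (t0 : ℝ) ≤ t := by exact_mod_cast hlt'
      linarith
    have h3 : (0 : ℝ) ≤ l := l.2
    apply mul_le_mul_of_nonneg_left _ h3
    linarith
  rw [ht] at h1
  exact absurd h1 (not_le.2 ht0)

theorem exists_lambdaC_ne_top (hPerc : SPerc.{u}) (hCopy : SCopy.{u}) (hHeat : SHeat.{u})
    (hG : G.Connected) (hT : ∀ x y : V, ∃ φ : G ≃g G, φ x = y) (o : V) {c : ℝ} (hc : 0 < c)
    (hg : ∀ n : ℕ, c * (n : ℝ) ^ 3 ≤ (({x | G.dist o x ≤ n} : Set V).ncard : ℝ)) :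
    ∃ t : ℝ≥0, 0 < t ∧ lambdaC G o t ≠ ⊤ := by
  obtain ⟨t0, ht0⟩ := exists_time hPerc hCopy hHeat hG hT o hc hg 1 one_pos
  have ht1 : 0 < theta G o 1 (t0 + 1) := by
    refine ht0.trans_le (theta_A hG o 1 1 t0 (t0 + 1) (by simp) ?_)
    have h2 : Real.exp (-((t0 : ℝ) + 1)) ≤ Real.exp (-(t0 : ℝ)) :=
      Real.exp_le_exp.2 (by linarith)
    push_cast
    linarith
  refine ⟨t0 + 1, by positivity, ne_top_of_le_ne_top (ENNReal.coe_ne_top (r := 1)) ?_⟩
  refine iSup₂_le fun l hl => ?_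
  by_contra hlt
  push Not at hlt
  have hlt' : (1 : ℝ≥0) ≤ l := by exact_mod_cast hlt.le
  have h1 : theta G o 1 (t0 + 1) ≤ theta G o l (t0 + 1) := by
    refine theta_A hG o 1 l (t0 + 1) (t0 + 1) le_rfl ?_
    have h3 : (1 : ℝ) ≤ l := by exact_mod_cast hlt'
    have h4 : (0 : ℝ) ≤ 1 - Real.exp (-((t0 + 1 : ℝ≥0) : ℝ)) := by
      have : Real.exp (-((t0 + 1 : ℝ≥0) : ℝ)) ≤ 1 := Real.exp_le_one_iff.2 (by
        have := (t0 + 1).2
        linarith)
      linarith
    simpa using mul_le_mul_of_nonneg_right h3 h4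
  rw [hl] at h1
  exact absurd h1 (not_le.2 ht1)

/-- The critical curves of a transitive graph of at least cubic growth. -/
theorem main (hPerc : SPerc.{u}) (hCopy : SCopy.{u}) (hHeat : SHeat.{u})
    (hG : G.Connected) (hT : ∀ x y : V, ∃ φ : G ≃g G, φ x = y) (o : V) {c : ℝ} (hc : 0 < c)
    (hg : ∀ n : ℕ, c * (n : ℝ) ^ 3 ≤ (({x | G.dist o x ≤ n} : Set V).ncard : ℝ)) :
    (∀ t, 0 < t → 0 < lambdaC G o t ∧ lambdaC G o t < ⊤) ∧
    ContinuousOn (lambdaC G o) (Ioi 0) ∧ StrictAntiOn (lambdaC G o) (Ioi 0) ∧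
    (∀ l, 0 < l → 0 < tC G o l ∧ tC G o l < ⊤) ∧
    ContinuousOn (tC G o) (Ioi 0) ∧ StrictAntiOn (tC G o) (Ioi 0) := by
  have hreg := regular_of_transitive hT o
  have hD : ∀ v, G.degree v ≤ G.degree o := fun v => (hreg.degree_eq v).le
  have hD0 : 0 < G.degree o := degree_pos' hG o
  obtain ⟨h1, h2, h3, h4, h5, h6, h7⟩ := critical_curves (theta G o) (KB (G.degree o))
    (fun l l' t t' htt h => theta_A hG o l l' t t' htt h)
    (continuousOn_KB hD0)
    (fun l l' t t' hl hll ht' htt h => theta_B hG hD o l l' t t' hl hll ht' htt h)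
    (fun l t h => theta_eq_zero G hG o l t h) (lambdaC G o) (tC G o) (fun _ => rfl) fun _ => rfl
  obtain ⟨t0, ht0, hfin⟩ := exists_lambdaC_ne_top hPerc hCopy hHeat hG hT o hc hg
  have hl : ∀ t, 0 < t → lambdaC G o t ≠ ⊤ := fun t ht => h4 t0 t ht0 ht hfin
  have ht : ∀ l, 0 < l → tC G o l ≠ ⊤ := fun l hl => tC_ne_top hPerc hCopy hHeat hG hT o hc hg l hl
  exact ⟨fun t h => ⟨h1 t h, (hl t h).lt_top⟩, h2, fun s hs t _ hst => h3 s t hs hst (hl s hs),
    fun l h => ⟨h5 l h, (ht l h).lt_top⟩, h6, fun s hs t _ hst => h7 s t hs hst (ht s hs)⟩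

end main

end Pool.Agent.Fri.I_MAIN
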