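import Pool.Agent.Work.MP_c9ff92_pr.Fri.Stmts
import Pool.Agent.Work.MP_c9ff92_pr.Fri.Basic

/-!
# Item UNI (MP_c9ff92_pr): for every walk there is at most one present walk which leads to it
-/

open Finset
open scoped ENNReal NNReal

noncomputable section

namespace Pool.Agent.Fri.I_UNI2

universe u

variable {V : Type u}

theorem lnk_mono {A B : Finset (List V)} (h : A ⊆ B) {x y : V} (hl : lnk A x y) : lnk B x y := by
  obtain ⟨w, hw, h1, h2⟩ := hl
  exact ⟨w, h hw, h1, h2⟩

theorem lnk_symm {A : Finset (List V)} {x y : V} (hl : lnk A x y) : lnk A y x := by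
  obtain ⟨w, hw, h1, h2⟩ := hl
  exact ⟨w, hw, h2, h1⟩

theorem rtg_mono {A B : Finset (List V)} (h : A ⊆ B) {x y : V}
    (hr : Relation.ReflTransGen (lnk A) x y) : Relation.ReflTransGen (lnk B) x y := by
  induction hr with
  | refl => exact Relation.ReflTransGen.refl
  | tail _ hl ih => exact Relation.ReflTransGen.tail ih (lnk_mono h hl)

theorem clu_mono {A B : Finset (List V)} (h : A ⊆ B) (o : V) : clu A o ⊆ clu B o := by
  intro y hy
  exact rtg_mono h hy

theorem bdy_mono {A B : Finset (List V)} (h : A ⊆ B) (D : Set V) : bdy A D ⊆ bdy B D := by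
  rintro y ⟨z, hz, hy⟩
  exact ⟨z, hz, rtg_mono h hy⟩

/-- A present walk which touches the cluster lies in the cluster. -/
theorem in_clu {A : Finset (List V)} {o : V} {w : List V} (hw : w ∈ A) (ht : tch (clu A o) w)
    {x : V} (hx : x ∈ w) : x ∈ clu A o := by
  obtain ⟨y, hy, hyc⟩ := ht
  exact Relation.ReflTransGen.tail hyc ⟨w, hw, hy, hx⟩

variable [DecidableEq V]

theorem not_suc (o : V) (D : Set V) (A : Finset (List V)) (T : List V)
    (h0 : ¬ Suc o D (A.erase T)) (h1 : ¬ tch (bdy (A.erase T) D) T) : ¬ Suc o D A := by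
  rintro ⟨z, hz, hr⟩
  have key : ∀ y, Relation.ReflTransGen (lnk A) o y → y ∉ bdy (A.erase T) D := by
    intro y hy
    induction hy with
    | refl => exact h0
    | tail _ hl ih =>
      rename_i b c _
      obtain ⟨w, hw, hb, hc⟩ := hl
      by_cases hT : w = T
      · subst hT
        exact fun hB => h1 ⟨c, hc, hB⟩
      · rintro ⟨z', hz', hcz⟩
        exact ih ⟨z', hz', Relation.ReflTransGen.head ⟨w, Finset.mem_erase.2 ⟨hT, hw⟩, hb, hc⟩ hcz⟩
  exact key z hr ⟨z, hz, Relation.ReflTransGen.refl⟩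

/-- The property which is counted. -/
def Cnt (o : V) (D : Set V) (A : Finset (List V)) (T' T : List V) : Prop :=
  ¬ Suc o D (A.erase T) ∧ crs (clu (A.erase T) o) (bdy (A.erase T) D) T T'

theorem right_of_cnt {o : V} {D : Set V} {A : Finset (List V)} {T' T : List V} (hT : T ∈ A)
    (h : Cnt o D A T' T) : ¬ Suc o D A ∧ tch (clu A o) T' ∧ tch (bdy A D) T' := by
  obtain ⟨h0, h1, h2, h3, h4, x, hx, hx'⟩ := h
  refine ⟨not_suc o D A T h0 h2, ⟨x, hx', ?_⟩, ?_⟩
  · obtain ⟨y, hy, hyc⟩ := h1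
    exact in_clu hT ⟨y, hy, clu_mono (Finset.erase_subset T A) o hyc⟩ hx
  · obtain ⟨y, hy, hyb⟩ := h3
    exact ⟨y, hy, bdy_mono (Finset.erase_subset T A) D hyb⟩

theorem unique_cnt {o : V} {D : Set V} {A : Finset (List V)} {T' T1 T2 : List V} (hT1 : T1 ∈ A)
    (hT2 : T2 ∈ A) (h1 : Cnt o D A T' T1) (h2 : Cnt o D A T' T2) : T1 = T2 := by
  by_contra hne
  obtain ⟨-, a1, -, -, a4, x1, hx1, hx1'⟩ := h1
  obtain ⟨-, -, -, -, b4, x2, hx2, hx2'⟩ := h2
  have m2 : T2 ∈ A.erase T1 := Finset.mem_erase.2 ⟨fun h => hne h.symm, hT2⟩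
  have m1 : T1 ∈ A.erase T2 := Finset.mem_erase.2 ⟨hne, hT1⟩
  -- T2 avoids the cluster of A without T1
  have n2 : ¬ tch (clu (A.erase T1) o) T2 := fun h => a4 ⟨x2, hx2', in_clu m2 h hx2⟩
  -- the cluster of A without T1 is contained in the cluster of A without T2
  have key : ∀ y, Relation.ReflTransGen (lnk (A.erase T1)) o y → y ∈ clu (A.erase T2) o := by
    intro y hy
    induction hy with
    | refl => exact Relation.ReflTransGen.refl
    | tail hr hl ih =>
      rename_i b c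
      obtain ⟨w, hw, hb, hc⟩ := hl
      have hw2 : w ≠ T2 := by
        rintro rfl
        exact n2 ⟨b, hb, hr⟩
      exact Relation.ReflTransGen.tail ih
        ⟨w, Finset.mem_erase.2 ⟨hw2, (Finset.mem_erase.1 hw).2⟩, hb, hc⟩
  obtain ⟨y, hy, hyc⟩ := a1
  exact b4 ⟨x1, hx1', in_clu m1 ⟨y, hy, key y hyc⟩ hx1⟩

theorem prf : SUni.{u} := by
  intro V _ o D A T'
  by_cases hex : ∃ T ∈ A, Cnt o D A T' T
  · obtain ⟨T, hT, hc⟩ := hex
    rw [ind_true (right_of_cnt hT hc)]
    rw [Finset.sum_eq_single_of_mem T hT]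
    · exact ind_le_one _
    · intro T2 hT2 hne
      exact ind_false fun h => hne (unique_cnt hT2 hT h hc)
  · rw [Finset.sum_eq_zero]
    · exact zero_le
    · intro T hT
      exact ind_false fun h => hex ⟨T, hT, h⟩

end Pool.Agent.Fri.I_UNI2
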