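import Pool.Agent.Work.MP_c9ff92_pr.Fri.Final

/-!
# The critical curves of the frog model on transitive graphs: conditional form (MP_c9ff92_pr)
-/

open MeasureTheory ProbabilityTheory Set
open scoped ENNReal NNReal

noncomputable section

namespace Pool.Agent.Fri

open Pool.Agent.Frog

universe u

/-- A transitive graph is regular. -/
theorem exists_regular {V : Type u} [Infinite V] {G : SimpleGraph V} [G.LocallyFinite]
    (hG : G.Connected) (hT : ∀ x y : V, ∃ φ : G ≃g G, φ x = y) (o : V) :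
    ∃ d : ℕ, 0 < d ∧ G.IsRegularOfDegree d := by
  refine ⟨G.degree o, degree_pos' hG o, fun x => ?_⟩
  obtain ⟨φ, hφ⟩ := hT o x
  rw [← hφ]
  exact φ.degree_eq o

/-- The full statement for the graphs with finite critical lifetimes. -/
theorem curves_of_finite {V : Type u} [Countable V] [Infinite V] [MeasurableSpace V]
    [DiscreteMeasurableSpace V] (G : SimpleGraph V) [G.LocallyFinite] (hG : G.Connected)
    (hT : ∀ x y : V, ∃ φ : G ≃g G, φ x = y) (o : V) (h : ∀ l, 0 < l → tC G o l ≠ ⊤) :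
    (∀ t, 0 < t → 0 < lambdaC G o t ∧ lambdaC G o t ≠ ⊤) ∧
    ContinuousOn (lambdaC G o) (Ioi 0) ∧ StrictAntiOn (lambdaC G o) (Ioi 0) ∧
    (∀ l, 0 < l → 0 < tC G o l ∧ tC G o l ≠ ⊤) ∧
    ContinuousOn (tC G o) (Ioi 0) ∧ StrictAntiOn (tC G o) (Ioi 0) := by
  classical
  obtain ⟨d, hd, hreg⟩ := exists_regular hG hT o
  obtain ⟨h1, h2, h3, h4, h5, h6, h7⟩ :=
    critical_curves (theta G o) (KB d) (fun l l' t t' htt h => theta_A hG o l l' t t' htt h)
      (continuousOn_KB hd)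
      (fun l l' t t' hl hll ht' htt h =>
        theta_B hG (fun v => (hreg v).le) o l l' t t' hl hll ht' htt h)
      (fun l t h => theta_eq_zero G hG o l t h) (lambdaC G o) (tC G o) (fun _ => rfl) fun _ => rfl
  obtain ⟨t, ht, hθ⟩ := exists_theta_ne_zero (G := G) o (h 1 one_pos)
  have hfin : ∀ s, 0 < s → lambdaC G o s ≠ ⊤ := fun s hs => h4 t s ht hs (lambdaC_ne_top hG o hθ)
  refine ⟨fun t ht => ⟨h1 t ht, hfin t ht⟩, h2, ?_, fun l hl => ⟨h5 l hl, h l hl⟩, h6, ?_⟩
  · intro s hs t _ hst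
    exact h3 s t hs hst (hfin s hs)
  · intro s hs t _ hst
    exact h7 s t hs hst (h s hs)

/-- Finite critical lifetimes on the transitive graphs of at least cubic growth. -/
theorem tC_ne_top_of_growth (hPerc : SPerc.{u}) (hCopy : SCopy.{u}) (hHeat : SHeat.{u})
    {V : Type u} [Countable V] [Infinite V] [MeasurableSpace V]
    [DiscreteMeasurableSpace V] (G : SimpleGraph V) [G.LocallyFinite] (hG : G.Connected)
    (hT : ∀ x y : V, ∃ φ : G ≃g G, φ x = y) (o : V) {c : ℝ} (hc : 0 < c)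
    (hg : ∀ n : ℕ, c * (n : ℝ) ^ 3 ≤ (({x | G.dist o x ≤ n} : Set V).ncard : ℝ)) :
    ∀ l, 0 < l → tC G o l ≠ ⊤ := by
  classical
  obtain ⟨d, hd, hreg⟩ := exists_regular hG hT o
  obtain ⟨C0, hC0⟩ := hHeat V G hG hT o c hc hg
  intro l hl
  obtain ⟨t, ht⟩ := theta_ne_zero hPerc hCopy hG hd hreg hC0 o hl
  exact tC_ne_top hG o ht

end Pool.Agent.Fri
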